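import Pool.Agent.LibSC93.Defs
import Pool.Agent.LibLG5.M4
import Pool.Agent.LibRG87.R0

/-!
Row J3 (collapse for general coefficients). `LibLG5.split` (file M4) at `i0`: `∑_β F β = ∑_{β avoiding i0} ∑_{A ⊆ P \ sp β} F (ins i0 A β)` with `F β = y β * rhoP Pr (E ∪ su β) n * ee β n`;
`ee (ins i0 A β) n = ee β n / ph A` (`ee_ins`), and `rhoP Pr (E ∪ su (ins i0 A β)) n = rhoP Pr (E ∪ su β) n` because `su (ins i0 A β)` and `su β` differ at most by `b i0` (`sui_ins`) and `n + b i0` is free of the primes of `Pr`.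
Model: the finished `LibLG5.M5` (`collapse5`).
-/

open Finset

namespace Pool.Agent.LibSC93

open Pool.Agent.LibRG87 Pool.Agent.LibLG5 Pool.Agent.LibPL63

variable {ι : Type} [Fintype ι] [DecidableEq ι] (P : Finset ℕ)

private theorem J3_rho {Pr : Finset ℕ} {n x : ℕ} (B : Finset ℕ) (h : ∀ p ∈ Pr, ¬ p ∣ n + x) :
    rhoP Pr B n = rhoP Pr (insert x B) n := by
  unfold rhoP
  have h1 : (∀ a ∈ B, ∀ p ∈ Pr, ¬ p ∣ n + a) ↔
      ∀ a ∈ insert x B, ∀ p ∈ Pr, ¬ p ∣ n + a := by
    constructor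
    · intro h1 a ha
      rcases Finset.mem_insert.1 ha with h2 | h2
      · rw [h2]
        exact h
      · exact h1 a h2
    · intro h1 a ha
      exact h1 a (Finset.mem_insert_of_mem ha)
  by_cases h2 : ∀ a ∈ B, ∀ p ∈ Pr, ¬ p ∣ n + a
  · rw [if_pos h2, if_pos (h1.1 h2)]
  · rw [if_neg h2, if_neg (fun h3 => h2 (h1.2 h3))]

private theorem J3_su_ins (b : ι → ℕ) (i : ι) {A : Finset ℕ} {β : P → Option ι}
    (hβ : ∀ p, β p ≠ some i) (hA : A ⊆ P \ sp P β) :
    insert (b i) (su P b (ins P i A β)) = insert (b i) (su P b β) := by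
  unfold su
  rw [sui_ins P i hβ hA]
  split_ifs
  · rfl
  · rw [Finset.image_insert]
    exact Finset.insert_idem _ _

theorem collapseS (Pr : Finset ℕ) (hP : ∀ p ∈ P, Nat.Prime p) (b : ι → ℕ) (i0 : ι) (n : ℕ)
    (hn : ∀ p ∈ Pr, ¬ p ∣ n + b i0) (hn' : ∀ p ∈ P, ¬ p ∣ n + b i0) (y : (P → Option ι) → ℝ)
    (E : Finset ℕ) : PhiS P Pr b y E n = PhiS P Pr b (yCol P i0 y) E n := by
  classical
  unfold PhiS
  rw [split P i0 (fun β => y β * rhoP Pr (E ∪ su P b β) n * ee P b β n)]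
  refine Finset.sum_congr rfl fun β _ => ?_
  unfold yCol
  by_cases hβ : ∀ p, β p ≠ some i0
  · rw [if_pos hβ, if_pos hβ, Finset.sum_mul, Finset.sum_mul]
    refine Finset.sum_congr rfl fun A hA => ?_
    rw [Finset.mem_powerset] at hA
    have h1 : rhoP Pr (E ∪ su P b (ins P i0 A β)) n = rhoP Pr (E ∪ su P b β) n := by
      rw [J3_rho (E ∪ su P b (ins P i0 A β)) hn, J3_rho (E ∪ su P b β) hn,
        ← Finset.union_insert, ← Finset.union_insert, J3_su_ins P b i0 hβ hA]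
    rw [h1, ee_ins P b i0 hβ hA n hn']
    ring
  · rw [if_neg hβ, if_neg hβ, zero_mul, zero_mul]

/-- one more position in `E` -/
theorem PhiS_insert (Pr : Finset ℕ) (b : ι → ℕ) (y : (P → Option ι) → ℝ) (E : Finset ℕ) (x n : ℕ) :
    PhiS P Pr b y (insert x E) n ^ 2 =
      if ∀ p ∈ Pr, ¬ p ∣ n + x then PhiS P Pr b y E n ^ 2 else 0 := by
  classical
  split_ifs with h
  · congr 1
    unfold PhiS
    refine Finset.sum_congr rfl fun β _ => ?_
    rw [Finset.insert_union, ← J3_rho _ h]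
  · have h0 : PhiS P Pr b y (insert x E) n = 0 := by
      unfold PhiS
      refine Finset.sum_eq_zero fun β _ => ?_
      have h1 : rhoP Pr (insert x E ∪ su P b β) n = 0 := by
        unfold rhoP
        rw [if_neg]
        intro h2
        exact h (h2 x (Finset.mem_union_left _ (Finset.mem_insert_self _ _)))
      rw [h1, mul_zero, zero_mul]
    rw [h0]
    norm_num

/-- `E` can be taken out -/
theorem PhiS_rho (Pr : Finset ℕ) (b : ι → ℕ) (y : (P → Option ι) → ℝ) (E : Finset ℕ) (n : ℕ) :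
    PhiS P Pr b y E n = rhoP Pr E n * PhiS P Pr b y E n := by
  classical
  unfold PhiS
  rw [Finset.mul_sum]
  refine Finset.sum_congr rfl fun β _ => ?_
  have h1 : rhoP Pr (E ∪ su P b β) n = rhoP Pr E n * rhoP Pr (E ∪ su P b β) n := by
    by_cases h2 : ∀ a ∈ E, ∀ p ∈ Pr, ¬ p ∣ n + a
    · have h3 : rhoP Pr E n = 1 := by
        unfold rhoP
        rw [if_pos h2]
      rw [h3, one_mul]
    · have h3 : rhoP Pr (E ∪ su P b β) n = 0 := by
        unfold rhoP
        rw [if_neg]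
        intro h4
        exact h2 fun a ha => h4 a (Finset.mem_union_left _ ha)
      rw [h3, mul_zero]
  rw [h1]
  have h4 : rhoP Pr E n * rhoP Pr E n = rhoP Pr E n := by
    unfold rhoP
    split_ifs <;> norm_num
  rw [← h1]
  nth_rewrite 1 [h1]
  ring

end Pool.Agent.LibSC93
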