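import Pool.Agent.LibSC93.Defs
import Pool.Agent.LibLG5.M9
import Pool.Agent.LibPL63.V0

/-!
Row PB (pointwise bound). `rhoP (E ∪ su β) n ≠ 0` only if all positions used are rough, so `|PhiS| ≤ ∑ |ee β n|` over the `β` with values in `insertNone B`, `B` = all `inl i` and the rough `inr j`; `M9_inner` (LibLG5/M9.lean) bounds this by
`∏_{i ∈ B} ∏_{p ∈ P} (1 + |psi p (n + b i)|)`, each factor `≤ ∏_{p ∈ PP z (z^k1)} … ≤ 2^t ∏ (1 + 1/(p-1))` (`M9_one`; `PL ⊆ PP z (z^k1)`, all factors are `≥ 1`).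
-/

open Finset

namespace Pool.Agent.LibSC93

open Pool.Agent.LibRG87 Pool.Agent.LibLG5 Pool.Agent.LibPL63

variable {κ ν : Type} [Fintype κ] [DecidableEq κ] [Fintype ν] [DecidableEq ν]

theorem PB_erase (z k1 p1 N : ℕ) :
    ∏ p ∈ PL z k1 p1, (1 + |psi p N|) ≤ ∏ p ∈ PP z (z ^ k1), (1 + |psi p N|) := by
  unfold PL
  by_cases h : p1 ∈ PP z (z ^ k1)
  · rw [← Finset.mul_prod_erase _ _ h]
    refine le_mul_of_one_le_left (Finset.prod_nonneg fun p _ => by positivity) ?_
    have := abs_nonneg (psi p1 N)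
    linarith
  · rw [Finset.erase_eq_of_notMem h]

open scoped Classical in
theorem PB_gen (P Pr : Finset ℕ) (b : κ ⊕ ν → ℕ)
    (y : (P → Option (κ ⊕ ν)) → ℝ) (hy : ∀ β, |y β| ≤ 1) (E : Finset ℕ) (n : ℕ) (G : ℝ)
    (hone : ∀ i, ∏ p ∈ P, (1 + |psi p (n + b i)|) ≤ G) :
    |PhiS P Pr b y E n| ≤ G ^ (Fintype.card κ + ((Finset.univ : Finset ν).filter fun j =>
          ∀ p ∈ Pr, ¬ p ∣ n + b (Sum.inr j)).card) := by
  set J : Finset ν := (Finset.univ : Finset ν).filter fun j =>
    ∀ p ∈ Pr, ¬ p ∣ n + b (Sum.inr j) with hJ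
  set B : Finset (κ ⊕ ν) := (Finset.univ : Finset κ).disjSum J with hB
  have hBc : B.card = Fintype.card κ + J.card := by
    rw [hB, Finset.card_disjSum, Finset.card_univ]
  have hterm : ∀ β : P → Option (κ ⊕ ν),
      |y β * rhoP Pr (E ∪ su P b β) n * ee P b β n| ≤
      if β ∈ Fintype.piFinset (fun _ : P => Finset.insertNone B) then |ee P b β n| else 0 := by
    intro β
    by_cases hr : ∀ a ∈ (E ∪ su P b β : Finset ℕ), ∀ p ∈ Pr, ¬ p ∣ n + a
    · have hrho : rhoP Pr (E ∪ su P b β) n = 1 := by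
        unfold rhoP
        rw [if_pos hr]
      have hmem : β ∈ Fintype.piFinset (fun _ : P => Finset.insertNone B) := by
        rw [Fintype.mem_piFinset]
        intro p
        rw [Finset.mem_insertNone]
        intro i hi
        rcases i with i | j
        · rw [hB, Finset.inl_mem_disjSum]
          exact Finset.mem_univ i
        · rw [hB, Finset.inr_mem_disjSum, hJ, Finset.mem_filter]
          refine ⟨Finset.mem_univ j, ?_⟩
          apply hr
          refine Finset.mem_union_right _ ?_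
          rw [su]
          refine Finset.mem_image_of_mem b ?_
          rw [sui, Finset.mem_filter]
          exact ⟨Finset.mem_univ _, p, hi⟩
      rw [if_pos hmem, hrho, mul_one, abs_mul]
      exact mul_le_of_le_one_left (abs_nonneg _) (hy β)
    · have hrho : rhoP Pr (E ∪ su P b β) n = 0 := by
        unfold rhoP
        rw [if_neg hr]
      rw [hrho, mul_zero, zero_mul, abs_zero]
      split_ifs
      · exact abs_nonneg _
      · exact le_rfl
  calc |PhiS P Pr b y E n|
      ≤ ∑ β : P → Option (κ ⊕ ν), |y β * rhoP Pr (E ∪ su P b β) n * ee P b β n| := by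
        unfold PhiS
        exact Finset.abs_sum_le_sum_abs _ _
    _ ≤ ∑ β : P → Option (κ ⊕ ν),
          (if β ∈ Fintype.piFinset (fun _ : P => Finset.insertNone B) then
            |ee P b β n| else 0) := Finset.sum_le_sum fun β _ => hterm β
    _ = ∑ β ∈ Fintype.piFinset (fun _ : P => Finset.insertNone B), |ee P b β n| := by
        rw [← Finset.sum_filter]
        congr 1
        ext β
        simp
    _ ≤ ∏ i ∈ B, ∏ p ∈ P, (1 + |psi p (n + b i)|) := M9_inner P b n B
    _ ≤ ∏ i ∈ B, G := by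
        refine Finset.prod_le_prod (fun i _ => Finset.prod_nonneg fun p _ => by positivity)
          fun i _ => hone i
    _ = G ^ B.card := Finset.prod_const _
    _ = G ^ (Fintype.card κ + J.card) := by rw [hBc]


open scoped Classical in
theorem PhiS_abs_le (z k1 p1 t : ℕ) (hz : 2 ≤ z) (Pr : Finset ℕ) (b : κ ⊕ ν → ℕ)
    (y : (PL z k1 p1 → Option (κ ⊕ ν)) → ℝ) (hy : ∀ β, |y β| ≤ 1) (E : Finset ℕ) (n : ℕ)
    (hn : ∀ i, 0 < n + b i ∧ n + b i ≤ z ^ t) :
    |PhiS (PL z k1 p1) Pr b y E n| ≤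
      (2 ^ t * ∏ p ∈ PP z (z ^ k1), (1 + 1 / ((p : ℝ) - 1))) ^
        (Fintype.card κ + ((Finset.univ : Finset ν).filter fun j =>
          ∀ p ∈ Pr, ¬ p ∣ n + b (Sum.inr j)).card) :=
  PB_gen _ Pr b y hy E n _ fun i =>
    (PB_erase z k1 p1 (n + b i)).trans (M9_one z (z ^ k1) t (n + b i) hz (hn i).1 (hn i).2)

end Pool.Agent.LibSC93
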