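import Pool.Agent.LibSC93.Defs
import Pool.Agent.LibPL63.V1
import Pool.Agent.LibPL63.V2

/-!
Row V1 (facts on `VP`). From `VP_le_pow`, `VP_ge_pow` (constants 2 and 1/2): `VP (E ∪ B) ≤ 2 V1p^|E ∪ B| = 2 V1p^|B \ E| V1p^|E| ≤ 4 V1p^|B \ E| VP E`; `stepVP` is the case `B = {x}`.
`tiny`: `VP h ≥ V1p^k/2 ≥ (c/log z)^k/2` (`V1p_ge`), `Wp ≤ log z` for large `z` (`Wp_le`: `Wp² ≤ log z/log 2`), and `(log z)^N` is smaller than any power of `z` and than `exp ((log z)^(1/5))` (compare the finished `VPW_ge` in LibPL63/W1.lean).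
-/

open Finset Filter

namespace Pool.Agent.LibSC93

open Pool.Agent.LibRG87 Pool.Agent.LibLG5 Pool.Agent.LibPL63

theorem VP_step (k : ℕ) : ∀ᶠ z : ℕ in atTop, ∀ p1 : ℕ, p1.Prime → ∀ E B : Finset ℕ,
    (∀ x ∈ E ∪ B, (x : ℝ) ≤ Real.log z ^ 2) → (E ∪ B).card ≤ k →
      VP (P0 z p1) (E ∪ B) ≤ 4 * V1p (P0 z p1) ^ (B \ E).card * VP (P0 z p1) E := by
  filter_upwards [VP_le_pow k, VP_ge_pow k] with z h1 h2 p1 hp1 E B hx hc
  have hV : 0 < V1p (P0 z p1) := V1p_pos _ fun p hp => (mem_P0.1 hp).2.1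
  have h3 := h1 p1 hp1 (E ∪ B) hc hx
  have h4 := h2 p1 hp1 E ((card_le_card subset_union_left).trans hc)
  have h5 : (E ∪ B).card = (B \ E).card + E.card := by
    rw [← union_sdiff_self_eq_union, card_union_of_disjoint disjoint_sdiff, add_comm]
  rw [h5, pow_add] at h3
  have h6 : 0 < V1p (P0 z p1) ^ (B \ E).card := pow_pos hV _
  nlinarith [mul_le_mul_of_nonneg_left h4 h6.le]

theorem stepVP (k : ℕ) : ∀ᶠ z : ℕ in atTop, ∀ p1 : ℕ, p1.Prime → ∀ pos : Finset ℕ,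
    (∀ x ∈ pos, (x : ℝ) ≤ Real.log z ^ 2) →
      StepV (VP (P0 z p1)) (4 * V1p (P0 z p1)) pos k := by
  filter_upwards [VP_step (k + 1)] with z h1 p1 hp1 pos hpos
  intro A x hA hc hx hxA
  have h2 : A ∪ {x} = insert x A := by
    rw [union_comm, insert_eq]
  have h3 := h1 p1 hp1 A {x} (by
    intro y hy
    rcases mem_union.1 hy with hy | hy
    · exact hpos y (hA hy)
    · rw [mem_singleton.1 hy]; exact hpos x hx) (by
    rw [h2, card_insert_of_notMem hxA]; omega)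
  rw [h2, sdiff_eq_self_of_disjoint (disjoint_singleton_left.2 hxA), card_singleton, pow_one] at h3
  exact h3

private theorem V1_lim (M : ℕ) {δ : ℝ} (hδ : 0 < δ) : ∀ᶠ z : ℕ in atTop,
    Real.log z ^ M * Real.exp (-Real.log z ^ ((1 : ℝ) / 5)) ≤ δ ∧
      Real.exp (-(Real.log z / 2)) ≤ Real.exp (-Real.log z ^ ((1 : ℝ) / 5)) ∧ 1 ≤ Real.log z := by
  have hlog : Tendsto (fun z : ℕ => Real.log z) atTop atTop :=
    Real.tendsto_log_atTop.comp tendsto_natCast_atTop_atTop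
  have hu : Tendsto (fun z : ℕ => Real.log z ^ ((1 : ℝ) / 5)) atTop atTop :=
    (tendsto_rpow_atTop (by norm_num)).comp hlog
  have h1 := (Real.tendsto_pow_mul_exp_neg_atTop_nhds_zero (5 * M)).comp hu
  filter_upwards [h1.eventually_le_const hδ, hu.eventually_ge_atTop 2,
    hlog.eventually_ge_atTop 1] with z h2 h3 h4
  have h5 : (Real.log z ^ ((1 : ℝ) / 5)) ^ 5 = Real.log z := by
    rw [← Real.rpow_natCast, ← Real.rpow_mul (by linarith)]
    norm_num
  refine ⟨?_, ?_, h4⟩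
  · have h6 : (Real.log z ^ ((1 : ℝ) / 5)) ^ (5 * M) *
        Real.exp (-Real.log z ^ ((1 : ℝ) / 5)) ≤ δ := h2
    rw [pow_mul, h5] at h6
    exact h6
  · rw [Real.exp_le_exp, neg_le_neg_iff]
    obtain ⟨u, hu⟩ : ∃ u : ℝ, u = Real.log z ^ ((1 : ℝ) / 5) := ⟨_, rfl⟩
    rw [← hu] at h3 h5 ⊢
    rw [← h5]
    have h7 : (16 : ℝ) ≤ u ^ 4 := by
      calc (16 : ℝ) = 2 ^ 4 := by norm_num
        _ ≤ u ^ 4 := pow_le_pow_left₀ (by norm_num) h3 4
    have h8 : u ^ 5 = u * u ^ 4 := by ring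
    rw [h8]
    nlinarith

theorem tiny (k N : ℕ) (e : ℝ) (he : 0 < e) : ∀ᶠ z : ℕ in atTop, ∀ p1 : ℕ, p1.Prime →
    ∀ h : Finset ℕ, h.card = k →
      Real.log z ^ N / Real.sqrt z ≤ e * VP (P0 z p1) h ∧
      Real.log z ^ N / z ≤ e * (VP (P0 z p1) h / Wp z p1) ∧
      Real.log z ^ N * Real.exp (-Real.log z ^ ((1 : ℝ) / 5)) ≤
        e * (VP (P0 z p1) h / Wp z p1) := by
  obtain ⟨c, hc, hcV⟩ := V1p_ge
  have hδ : 0 < e * c ^ k / 4 := by positivity
  filter_upwards [hcV, VP_ge_pow k, V1_lim (N + (k + 1)) hδ, eventually_ge_atTop 4] with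
    z h1 h2 h3 hz p1 hp1 h hh
  obtain ⟨h4, h5, h6⟩ := h3
  have hL : 0 < Real.log z := by linarith
  have hz0 : (0 : ℝ) < z := by
    have : 0 < z := by omega
    exact_mod_cast this
  have hW1 : (1 : ℝ) ≤ Wp z p1 := by exact_mod_cast Wp_pos z p1
  have hW2 : (Wp z p1 : ℝ) ≤ 2 * Real.log z := by
    have h7 := Wp_le hz p1
    have h8 : Real.log z / Real.log 2 ≤ 2 * Real.log z := by
      rw [div_le_iff₀ (Real.log_pos (by norm_num))]
      nlinarith [Real.log_two_gt_d9]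
    nlinarith
  have hVP : (c / Real.log z) ^ k / 2 ≤ VP (P0 z p1) h := by
    refine le_trans ?_ (h2 p1 hp1 h hh.le)
    rw [hh]
    have := pow_le_pow_left₀ (by positivity) (h1 p1 hp1) k
    linarith
  have hVP0 : 0 < VP (P0 z p1) h := lt_of_lt_of_le (by positivity) hVP
  have hlow : e * c ^ k / 4 / Real.log z ^ (k + 1) ≤ e * (VP (P0 z p1) h / Wp z p1) := by
    have h7 : (c / Real.log z) ^ k / 2 / (2 * Real.log z) ≤ VP (P0 z p1) h / Wp z p1 :=
      div_le_div₀ hVP0.le hVP (by linarith) hW2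
    have h8 : e * c ^ k / 4 / Real.log z ^ (k + 1) =
        e * ((c / Real.log z) ^ k / 2 / (2 * Real.log z)) := by
      rw [div_pow]
      field_simp
      ring
    rw [h8]
    exact mul_le_mul_of_nonneg_left h7 he.le
  have hstar : Real.log z ^ N * Real.exp (-Real.log z ^ ((1 : ℝ) / 5)) ≤
      e * (VP (P0 z p1) h / Wp z p1) := by
    refine le_trans ?_ hlow
    rw [le_div_iff₀ (by positivity)]
    rw [pow_add] at h4
    linarith
  have hN : 0 < Real.log z ^ N := pow_pos hL N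
  have hs : Real.sqrt z = Real.exp (Real.log z / 2) := by
    rw [Real.exp_half, Real.exp_log hz0]
  have h9 : Real.log z ^ N / Real.sqrt z ≤
      Real.log z ^ N * Real.exp (-Real.log z ^ ((1 : ℝ) / 5)) := by
    rw [hs, div_eq_mul_inv, ← Real.exp_neg]
    exact mul_le_mul_of_nonneg_left h5 hN.le
  have h10 : Real.log z ^ N / z ≤ Real.log z ^ N / Real.sqrt z := by
    refine div_le_div_of_nonneg_left hN.le (Real.sqrt_pos.2 hz0) ?_
    rw [Real.sqrt_le_left hz0.le]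
    have : (1 : ℝ) ≤ z := by
      have : 1 ≤ z := by omega
      exact_mod_cast this
    nlinarith
  have h11 : e * (VP (P0 z p1) h / Wp z p1) ≤ e * VP (P0 z p1) h :=
    mul_le_mul_of_nonneg_left (div_le_self hVP0.le hW1) he.le
  exact ⟨(h9.trans hstar).trans h11, (h10.trans h9).trans hstar, hstar⟩

end Pool.Agent.LibSC93
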