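import Pool.Agent.LibSC93.Defs
import Pool.Agent.LibRG87.R0

/-!
Row J1 (the two parts of a configuration). Elementary. `β ↔ (bL β, bR β)` is a bijection onto the pairs with `∀ p, α p = none ∨ γ p = none` (`Finset.sum_bij'`/`sum_nbij'`: inverse `fun p => (α p).map Sum.inl <|> (γ p).map Sum.inr`).
`sum_ext`: the configurations which are `none` on `S` correspond to the configurations on `P \ S`.
-/

open Finset

namespace Pool.Agent.LibSC93

open Pool.Agent.LibRG87 Pool.Agent.LibLG5 Pool.Agent.LibPL63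

variable {κ ν : Type} [Fintype κ] [DecidableEq κ] [Fintype ν] [DecidableEq ν] (P : Finset ℕ)

private def J1_jn {κ ν : Type} : Option κ → Option ν → Option (κ ⊕ ν)
  | some i, _ => some (Sum.inl i)
  | none, some j => some (Sum.inr j)
  | none, none => none

private theorem J1_jn_bind {κ ν : Type} (o : Option (κ ⊕ ν)) :
    J1_jn (o.bind Sum.getLeft?) (o.bind Sum.getRight?) = o := by
  rcases o with _ | (i | j) <;> rfl

private theorem J1_left {κ ν : Type} (a : Option κ) (c : Option ν) :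
    (J1_jn a c).bind Sum.getLeft? = a := by
  rcases a with _ | i <;> rcases c with _ | j <;> rfl

private theorem J1_right {κ ν : Type} (a : Option κ) (c : Option ν) (h : a = none ∨ c = none) :
    (J1_jn a c).bind Sum.getRight? = c := by
  rcases a with _ | i <;> rcases c with _ | j
  · rfl
  · rfl
  · rfl
  · rcases h with h | h <;> simp at h

private theorem J1_or {κ ν : Type} (o : Option (κ ⊕ ν)) :
    o.bind Sum.getLeft? = none ∨ o.bind Sum.getRight? = none := by
  rcases o with _ | (i | j)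
  · exact Or.inl rfl
  · exact Or.inr rfl
  · exact Or.inl rfl

private theorem J1_iffL {κ ν : Type} (o : Option (κ ⊕ ν)) (i : κ) :
    o.bind Sum.getLeft? = some i ↔ o = some (Sum.inl i) := by
  rcases o with _ | (i | j) <;> simp

private theorem J1_iffR {κ ν : Type} (o : Option (κ ⊕ ν)) (j : ν) :
    o.bind Sum.getRight? = some j ↔ o = some (Sum.inr j) := by
  rcases o with _ | (i | j) <;> simp

private theorem J1_ne {κ ν : Type} (o : Option (κ ⊕ ν)) :
    o ≠ none ↔ o.bind Sum.getLeft? ≠ none ∨ o.bind Sum.getRight? ≠ none := by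
  rcases o with _ | (i | j) <;> simp

open scoped Classical in
theorem sum_split (G : (P → Option κ) → (P → Option ν) → ℝ) :
    ∑ β : P → Option (κ ⊕ ν), G (bL P β) (bR P β) =
      ∑ γ : P → Option ν, ∑ α : P → Option κ, if ∀ p, α p = none ∨ γ p = none then G α γ else 0 := by
  rw [← Fintype.sum_prod_type' (fun (γ : P → Option ν) (α : P → Option κ) =>
    if ∀ p, α p = none ∨ γ p = none then G α γ else 0), ← Finset.sum_filter]
  refine Finset.sum_bij' (fun β _ => (bR P β, bL P β)) (fun x _ p => J1_jn (x.2 p) (x.1 p))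
    ?_ ?_ ?_ ?_ ?_
  · intro β _
    simp only [Finset.mem_filter, Finset.mem_univ, true_and]
    exact fun p => J1_or (β p)
  · intro x _
    exact Finset.mem_univ _
  · intro β _
    funext p
    exact J1_jn_bind (β p)
  · rintro ⟨γ, α⟩ hx
    simp only [Finset.mem_filter, Finset.mem_univ, true_and] at hx
    refine Prod.ext ?_ ?_
    · funext p
      exact J1_right (α p) (γ p) (hx p)
    · funext p
      exact J1_left (α p) (γ p)
  · intro β _
    rfl

theorem fb_bL (β : P → Option (κ ⊕ ν)) (i : κ) : fb P (bL P β) i = fb P β (Sum.inl i) := by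
  ext p
  rw [mem_fb, mem_fb]
  exact exists_congr fun h => J1_iffL _ _

theorem fb_bR (β : P → Option (κ ⊕ ν)) (j : ν) : fb P (bR P β) j = fb P β (Sum.inr j) := by
  ext p
  rw [mem_fb, mem_fb]
  exact exists_congr fun h => J1_iffR _ _

theorem sp_bLR (β : P → Option (κ ⊕ ν)) : sp P β = sp P (bL P β) ∪ sp P (bR P β) := by
  ext p
  rw [Finset.mem_union, mem_sp, mem_sp, mem_sp, ← exists_or]
  exact exists_congr fun h => J1_ne _

theorem disj_bLR (β : P → Option (κ ⊕ ν)) : Disjoint (sp P (bL P β)) (sp P (bR P β)) := by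
  rw [Finset.disjoint_left]
  intro p h1 h2
  obtain ⟨h, h3⟩ := (mem_sp P).1 h1
  obtain ⟨_, h4⟩ := (mem_sp P).1 h2
  rcases J1_or (β ⟨p, h⟩) with h5 | h5
  · exact h3 h5
  · exact h4 h5

theorem rr_bLR (β : P → Option (κ ⊕ ν)) :
    rr (sp P β) = rr (sp P (bL P β)) * rr (sp P (bR P β)) := by
  rw [sp_bLR]
  exact Finset.prod_union (disj_bLR P β)

theorem ph_bLR (β : P → Option (κ ⊕ ν)) :
    ph (sp P β) = ph (sp P (bL P β)) * ph (sp P (bR P β)) := by
  rw [sp_bLR]
  exact Finset.prod_union (disj_bLR P β)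

private theorem J1_mem_sui {ι : Type} [Fintype ι] [DecidableEq ι] {β : P → Option ι} {i : ι} :
    i ∈ sui P β ↔ ∃ p, β p = some i := by
  unfold sui
  simp only [Finset.mem_filter, Finset.mem_univ, true_and]

private theorem J1_sui_inr (β : P → Option (κ ⊕ ν)) (j : ν) :
    Sum.inr j ∈ sui P β ↔ j ∈ sui P (bR P β) := by
  rw [J1_mem_sui, J1_mem_sui]
  exact exists_congr fun p => (J1_iffR _ _).symm

theorem su_bR (b : κ ⊕ ν → ℕ) (E : Finset ℕ) (hE : ∀ i, b (Sum.inl i) ∈ E)
    (β : P → Option (κ ⊕ ν)) : E ∪ su P b β = E ∪ su P (fun j => b (Sum.inr j)) (bR P β) := by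
  ext a
  unfold su
  simp only [Finset.mem_union, Finset.mem_image]
  constructor
  · rintro (h | ⟨i | j, h1, rfl⟩)
    · exact Or.inl h
    · exact Or.inl (hE i)
    · exact Or.inr ⟨j, (J1_sui_inr P β j).1 h1, rfl⟩
  · rintro (h | ⟨j, h1, rfl⟩)
    · exact Or.inl h
    · exact Or.inr ⟨Sum.inr j, (J1_sui_inr P β j).2 h1, rfl⟩

theorem card_sui_le (β : P → Option (κ ⊕ ν)) :
    (sui P β).card ≤ Fintype.card κ + (sui P (bR P β)).card := by
  have h1 : sui P β ⊆ (Finset.univ : Finset κ).disjSum (sui P (bR P β)) := by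
    rintro (i | j) h
    · exact Finset.inl_mem_disjSum.2 (Finset.mem_univ _)
    · exact Finset.inr_mem_disjSum.2 ((J1_sui_inr P β j).1 h)
  refine (Finset.card_le_card h1).trans (le_of_eq ?_)
  rw [Finset.card_disjSum, Finset.card_univ]

open scoped Classical in
theorem sum_ext (S : Finset ℕ) (F : (P → Option κ) → ℝ) :
    ∑ α : P → Option κ, (if ∀ p : P, (p : ℕ) ∈ S → α p = none then F α else 0) =
      ∑ α : ↥(P \ S) → Option κ, F (ext P S α) := by
  rw [← Finset.sum_filter]
  symm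
  refine Finset.sum_bij' (fun α _ => ext P S α)
    (fun α _ (p : ↥(P \ S)) => α ⟨p, (Finset.mem_sdiff.1 p.2).1⟩) ?_ ?_ ?_ ?_ ?_
  · intro α _
    simp only [Finset.mem_filter, Finset.mem_univ, true_and]
    intro p hp
    unfold ext
    rw [dif_neg]
    intro h
    exact (Finset.mem_sdiff.1 h).2 hp
  · intro α _
    exact Finset.mem_univ _
  · intro α _
    funext p
    show ext P S α ⟨p, _⟩ = α p
    unfold ext
    rw [dif_pos p.2]
  · intro α hα
    simp only [Finset.mem_filter, Finset.mem_univ, true_and] at hα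
    funext p
    show ext P S (fun q : ↥(P \ S) => α ⟨q, (Finset.mem_sdiff.1 q.2).1⟩) p = α p
    unfold ext
    split_ifs with h
    · rfl
    · symm
      apply hα
      by_contra h1
      exact h (Finset.mem_sdiff.2 ⟨p.2, h1⟩)
  · intro α _
    rfl

private theorem J1_ext_iff (S : Finset ℕ) (α : ↥(P \ S) → Option κ) (p : ℕ)
    (T : Option κ → Prop) (hT : ¬ T none) :
    (∃ h : p ∈ P, T (ext P S α ⟨p, h⟩)) ↔ ∃ h : p ∈ P \ S, T (α ⟨p, h⟩) := by
  constructor
  · rintro ⟨h, h1⟩
    unfold ext at h1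
    by_cases h2 : p ∈ P \ S
    · rw [dif_pos h2] at h1
      exact ⟨h2, h1⟩
    · rw [dif_neg h2] at h1
      exact absurd h1 hT
  · rintro ⟨h, h1⟩
    refine ⟨(Finset.mem_sdiff.1 h).1, ?_⟩
    unfold ext
    rw [dif_pos h]
    exact h1

theorem sp_ext (S : Finset ℕ) (α : ↥(P \ S) → Option κ) : sp P (ext P S α) = sp (P \ S) α := by
  ext p
  rw [mem_sp, mem_sp]
  exact J1_ext_iff P S α p (fun o => o ≠ none) (by simp)

theorem fb_ext (S : Finset ℕ) (α : ↥(P \ S) → Option κ) (i : κ) :
    fb P (ext P S α) i = fb (P \ S) α i := by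
  ext p
  rw [mem_fb, mem_fb]
  exact J1_ext_iff P S α p (fun o => o = some i) (by simp)

theorem ext_ne (S : Finset ℕ) (α : ↥(P \ S) → Option κ) (i0 : κ) :
    (∀ p, ext P S α p ≠ some i0) ↔ ∀ p, α p ≠ some i0 := by
  constructor
  · intro h p hp
    obtain ⟨h1, h2⟩ := (J1_ext_iff P S α p (fun o => o = some i0) (by simp)).2 ⟨p.2, hp⟩
    exact h _ h2
  · rintro h ⟨p, hpP⟩ hp
    obtain ⟨h1, h2⟩ := (J1_ext_iff P S α p (fun o => o = some i0) (by simp)).1 ⟨hpP, hp⟩
    exact h _ h2

end Pool.Agent.LibSC93
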