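
import Pool.Agent.LibSC93.J1
import Pool.Agent.LibPL63.M3

/-!
Row J6 (upper bound for the diagonal). `sum_split` with `G α γ = yM α^2 * w γ/(ph (sp α) ph (sp γ))` (`ph_bLR`), drop the condition of disjointness, `∑_α yM α^2/ph (sp α) = DD yM ≤ G2s^|κ|` (`DD_yM_le`).
`dgJ_le`: `yJ^2 V (E ∪ su β) = yM (bL β)^2 * (y5 (bR β)^2 * V (E ∪ su (bR β)))` (`su_bR`).
-/

open Finset

namespace Pool.Agent.LibSC93

open Pool.Agent.LibRG87 Pool.Agent.LibLG5 Pool.Agent.LibPL63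

variable {κ ν : Type} [Fintype κ] [DecidableEq κ] [Fintype ν] [DecidableEq ν] (P : Finset ℕ)

theorem sum_yM_le (hP : ∀ p ∈ P, Nat.Prime p) (z q0 a I L : ℕ) (w : (P → Option ν) → ℝ)
    (hw : ∀ γ, 0 ≤ w γ) :
    ∑ β : P → Option (κ ⊕ ν), yM P z q0 a I L (bL P β) ^ 2 * w (bR P β) / ph (sp P β) ≤
      G2s P z q0 a I ^ Fintype.card κ * ∑ γ : P → Option ν, w γ / ph (sp P γ) := by
  classical
  have hpos : ∀ {ι : Type} [Fintype ι] [DecidableEq ι] (α : P → Option ι), 0 < ph (sp P α) :=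
    fun α => ph_pos P hP (sp_subset P α)
  let G : (P → Option κ) → (P → Option ν) → ℝ := fun α γ =>
    (yM P z q0 a I L α ^ 2 / ph (sp P α)) * (w γ / ph (sp P γ))
  have h1 : ∑ β : P → Option (κ ⊕ ν), yM P z q0 a I L (bL P β) ^ 2 * w (bR P β) / ph (sp P β) =
      ∑ β : P → Option (κ ⊕ ν), G (bL P β) (bR P β) := by
    refine Finset.sum_congr rfl fun β _ => ?_
    rw [ph_bLR]
    exact mul_div_mul_comm _ _ _ _
  rw [h1, sum_split P G, Finset.mul_sum]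
  refine Finset.sum_le_sum fun γ _ => ?_
  have hγ : 0 ≤ w γ / ph (sp P γ) := div_nonneg (hw γ) (hpos γ).le
  have h2 : ∑ α : P → Option κ, (if ∀ p, α p = none ∨ γ p = none then
      (yM P z q0 a I L α ^ 2 / ph (sp P α)) * (w γ / ph (sp P γ)) else 0) ≤
      ∑ α : P → Option κ, (yM P z q0 a I L α ^ 2 / ph (sp P α)) * (w γ / ph (sp P γ)) := by
    refine Finset.sum_le_sum fun α _ => ?_
    have h3 : 0 ≤ (yM P z q0 a I L α ^ 2 / ph (sp P α)) * (w γ / ph (sp P γ)) :=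
      mul_nonneg (div_nonneg (sq_nonneg _) (hpos α).le) hγ
    split_ifs
    · exact le_rfl
    · exact h3
  refine h2.trans ?_
  rw [← Finset.sum_mul]
  refine mul_le_mul_of_nonneg_right ?_ hγ
  have h4 := DD_yM_le (ι := κ) P hP z q0 a I L
  unfold DD at h4
  exact h4

theorem dgJ_le (hP : ∀ p ∈ P, Nat.Prime p) (z q0 a I L r0 r1 : ℕ) (V : Finset ℕ → ℝ)
    (hV0 : ∀ B, 0 ≤ V B) (b : κ ⊕ ν → ℕ) (E : Finset ℕ) (hE : ∀ i, b (Sum.inl i) ∈ E) :
    dgV P V b E (yJ P z q0 a I L r0 r1) ≤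
      G2s P z q0 a I ^ Fintype.card κ * dgV P V (fun j => b (Sum.inr j)) E (y5 P z r0 r1) := by
  have h := sum_yM_le (κ := κ) (ν := ν) P hP z q0 a I L
    (fun γ => y5 P z r0 r1 γ ^ 2 * V (E ∪ su P (fun j => b (Sum.inr j)) γ))
    (fun γ => mul_nonneg (sq_nonneg _) (hV0 _))
  unfold dgV
  refine le_trans (le_of_eq ?_) h
  refine Finset.sum_congr rfl fun β _ => ?_
  rw [su_bR P b E hE β]
  unfold yJ
  ring

end Pool.Agent.LibSC93
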