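import Pool.Agent.LibSC93.Defs
import Pool.Agent.LibLG5.M1
import Pool.Agent.LibLG5.M2
import Pool.Agent.LibLG5.M4
import Pool.Agent.LibLG5.M7
import Pool.Agent.LibLG5.M8

/-!
Row K2 (kill sums for a general density function `V`). Copies of the finished `LibLG5.M7` (`Tbig_le`), `LibLG5.M8` (`sum_dg_y5`), `LibLG5.M2` (`one_le_dg`) with `P` general (primes `> z`), `V` in place of `VV (wf z) z`,
`E ∪ su β` in place of `su β`, and `StepV` in place of `Vstep`.
`tbigV`: `1[z^k1 < rr (sp γ)] ≤ log (rr (sp γ))/(k1 log z)`, `log (rr (sp γ)) = ∑_j log (rr (fb γ j))`; for each `j` use `LibLG5.split`: `γ = ins j A γ'`, `y5 (ins j A γ')^2 ≤ f5 A^2 y5 γ'^2`,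
`V (E ∪ su (ins j A γ')) = V (insert (b j) (E ∪ su γ')) ≤ v V (E ∪ su γ')` for `A ≠ ∅` (`b j ∉ E ∪ su γ'`), and `∑_A f5 A^2 log (rr A)/ph A ≤ 1/Dn` (`f5_sq_log`).
`sumNrV`: `insert (b j) E ∪ su γ = insert (b j) (E ∪ su γ)`, which is `E ∪ su γ` for the at most `K` indices `j ∈ sui γ` and has `V ≤ v V (E ∪ su γ)` for the others.
-/

open Finset

namespace Pool.Agent.LibSC93

open Pool.Agent.LibRG87 Pool.Agent.LibLG5 Pool.Agent.LibPL63

variable {ν : Type} [Fintype ν] [DecidableEq ν] (P : Finset ℕ)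

theorem dgV_nonneg {ι : Type} [Fintype ι] [DecidableEq ι] (hP : ∀ p ∈ P, Nat.Prime p)
    (V : Finset ℕ → ℝ) (hV0 : ∀ B, 0 ≤ V B) (b : ι → ℕ) (E : Finset ℕ) (y : (P → Option ι) → ℝ) :
    0 ≤ dgV P V b E y := by
  unfold dgV
  exact Finset.sum_nonneg fun β _ =>
    div_nonneg (mul_nonneg (sq_nonneg _) (hV0 _)) (ph_pos P hP (sp_subset P β)).le

private theorem K2_sp (β : P → Option ν) (hβ : ∀ p, β p = none) : sp P β = ∅ := by
  apply Finset.eq_empty_of_forall_notMem
  intro p hp
  obtain ⟨h1, h2⟩ := (mem_sp P).1 hp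
  exact h2 (hβ _)

theorem dgV_y5_ge (z q0 k1 : ℕ) (hP : ∀ p ∈ P, Nat.Prime p) (hz : 1 ≤ z) (V : Finset ℕ → ℝ)
    (hV0 : ∀ B, 0 ≤ V B) (b : ν → ℕ) (E : Finset ℕ) : V E ≤ dgV P V b E (y5 P z q0 k1) := by
  classical
  unfold dgV
  have h0 : ∀ β : P → Option ν, 0 ≤ y5 P z q0 k1 β ^ 2 * V (E ∪ su P b β) / ph (sp P β) :=
    fun β => div_nonneg (mul_nonneg (sq_nonneg _) (hV0 _))
      (ph_pos P hP (sp_subset P β)).le
  have h1 : y5 P z q0 k1 (fun _ : P => (none : Option ν)) ^ 2 *
      V (E ∪ su P b (fun _ : P => (none : Option ν))) /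
        ph (sp P (fun _ : P => (none : Option ν))) = V E := by
    rw [y5_none P z q0 k1 _ (fun _ => rfl) hz, K2_sp P _ (fun _ => rfl)]
    have h2 : su P b (fun _ : P => (none : Option ν)) = ∅ := by
      unfold su sui
      simp
    rw [h2, Finset.union_empty]
    simp [ph]
  rw [← h1]
  exact Finset.single_le_sum (f := fun β : P → Option ν =>
    y5 P z q0 k1 β ^ 2 * V (E ∪ su P b β) / ph (sp P β)) (fun β _ => h0 β)
    (Finset.mem_univ (fun _ : P => (none : Option ν)))

private theorem K2_y (z q0 k1 : ℕ) (hP : ∀ p ∈ P, Nat.Prime p) (i : ν)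
    {A : Finset ℕ} {β : P → Option ν} (hβ : ∀ p, β p ≠ some i) (hA : A ⊆ P \ sp P β) :
    |y5 P z q0 k1 (ins P i A β)| ≤ |f5 P z q0 k1 A| * |y5 P z q0 k1 β| := by
  classical
  have hAP : A ⊆ P := hA.trans Finset.sdiff_subset
  have h1 : rr (sp P (ins P i A β)) = rr A * rr (sp P β) := rr_sp_ins P i hβ hA
  have hrA : 1 ≤ rr A := one_le_rr P hP hAP
  have hrs : 1 ≤ rr (sp P β) := one_le_rr P hP (sp_subset P β)
  have hprod : ∏ j, f5 P z q0 k1 (fb P (ins P i A β) j) =
      f5 P z q0 k1 A * ∏ j, f5 P z q0 k1 (fb P β j) := by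
    rw [← Finset.mul_prod_erase Finset.univ _ (Finset.mem_univ i),
      ← Finset.mul_prod_erase Finset.univ (fun j => f5 P z q0 k1 (fb P β j)) (Finset.mem_univ i),
      fb_ins_self P i hβ hA, fb_self_eq_empty P hβ, f5_empty, one_mul]
    congr 1
    refine Finset.prod_congr rfl fun j hj => ?_
    rw [fb_ins_ne P i hβ hA (Finset.ne_of_mem_erase hj)]
  unfold y5
  by_cases h2 : rr (sp P (ins P i A β)) ≤ (z : ℝ) ^ (2 * k1)
  · have h3 : rr (sp P β) ≤ (z : ℝ) ^ (2 * k1) := by
      refine le_trans ?_ h2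
      rw [h1]
      exact le_mul_of_one_le_left (by linarith) hrA
    rw [if_pos h2, if_pos h3, hprod, abs_mul]
  · rw [if_neg h2, abs_zero]
    exact mul_nonneg (abs_nonneg _) (abs_nonneg _)

private theorem K2_sub (b : ν → ℕ) (E : Finset ℕ) (β : P → Option ν) :
    E ∪ su P b β ⊆ E ∪ univ.image b := by
  classical
  refine Finset.union_subset_union_right ?_
  unfold su
  exact Finset.image_subset_image (Finset.subset_univ _)

private theorem K2_card (b : ν → ℕ) (E : Finset ℕ) (β : P → Option ν) {K : ℕ}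
    (h : (sui P β).card ≤ K) : (E ∪ su P b β).card ≤ E.card + K := by
  classical
  refine (Finset.card_union_le _ _).trans ?_
  have h1 : (su P b β).card ≤ K := by
    unfold su
    exact Finset.card_image_le.trans h
  omega

open scoped Classical in
theorem tbigV (z q0 k1 K : ℕ) (hP : ∀ p ∈ P, Nat.Prime p ∧ z < p) (hz : 2 ≤ z) (hq : 1 ≤ q0)
    (hk : 1 ≤ k1) (hK : 2 * k1 ≤ K * q0) (hD : 0 < Dn P z q0 k1)
    (hD1 : 1 ≤ Dn P z q0 k1 * (q0 * Real.log z)) (V : Finset ℕ → ℝ) (hV0 : ∀ B, 0 ≤ V B) {v : ℝ}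
    (hv : 0 ≤ v) (b : ν → ℕ) (hb : Function.Injective b) (E : Finset ℕ) (hE : ∀ j, b j ∉ E)
    (hV : StepV V v (E ∪ univ.image b) (E.card + K)) :
    ∑ γ : P → Option ν, (if (z : ℝ) ^ k1 < rr (sp P γ) then
        y5 P z q0 k1 γ ^ 2 * V (E ∪ su P b γ) / ph (sp P γ) else 0) ≤
      (Fintype.card ν * v / (Dn P z q0 k1 * (k1 * Real.log z))) * dgV P V b E (y5 P z q0 k1) := by
  have hP' : ∀ p ∈ P, Nat.Prime p := fun p hp => (hP p hp).1
  unfold dgV
  have hlog : 0 < Real.log z := Real.log_pos (by exact_mod_cast (by omega : 1 < z))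
  have hk0 : (0 : ℝ) < k1 := by exact_mod_cast hk
  have hkl : 0 < (k1 : ℝ) * Real.log z := mul_pos hk0 hlog
  -- the weights
  obtain ⟨W, hW⟩ : ∃ W : (P → Option ν) → ℝ, W = fun β =>
      y5 P z q0 k1 β ^ 2 * V (E ∪ su P b β) / ph (sp P β) := ⟨_, rfl⟩
  have hW' : ∀ β, y5 P z q0 k1 β ^ 2 * V (E ∪ su P b β) / ph (sp P β) = W β := by
    intro β
    rw [hW]
  have hW0 : ∀ β, 0 ≤ W β := by
    intro β
    rw [← hW']
    exact div_nonneg (mul_nonneg (sq_nonneg _) (hV0 _)) (ph_pos P hP' (sp_subset P β)).le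
  have hV1 : 0 ≤ v / Dn P z q0 k1 := div_nonneg hv hD.le
  -- one position
  have hone : ∀ i : ν, ∑ β : P → Option ν, Real.log (rr (fb P β i)) * W β ≤
      v / Dn P z q0 k1 * ∑ β, W β := by
    intro i
    rw [split P i (fun β => Real.log (rr (fb P β i)) * W β), Finset.mul_sum]
    refine Finset.sum_le_sum fun β _ => ?_
    by_cases hβ : ∀ p, β p ≠ some i
    · rw [if_pos hβ]
      have hterm : ∀ A ∈ (P \ sp P β).powerset,
          Real.log (rr (fb P (ins P i A β) i)) * W (ins P i A β) ≤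
          (f5 P z q0 k1 A ^ 2 * Real.log (rr A) / ph A) * (v * W β) := by
        intro A hA'
        have hA := Finset.mem_powerset.1 hA'
        have hAP : A ⊆ P := hA.trans Finset.sdiff_subset
        have hlA : 0 ≤ Real.log (rr A) := Real.log_nonneg (one_le_rr P hP' hAP)
        have hphA : 0 < ph A := ph_pos P hP' hAP
        have hphs : 0 < ph (sp P β) := ph_pos P hP' (sp_subset P β)
        have hR0 : 0 ≤ (f5 P z q0 k1 A ^ 2 * Real.log (rr A) / ph A) * (v * W β) :=
          mul_nonneg (div_nonneg (mul_nonneg (sq_nonneg _) hlA) hphA.le)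
            (mul_nonneg hv (hW0 β))
        rw [fb_ins_self P i hβ hA]
        by_cases hAe : A = ∅
        · have : Real.log (rr A) = 0 := by
            rw [hAe, rr, Finset.prod_empty, Real.log_one]
          rw [this, zero_mul]
          rw [this] at hR0
          exact hR0
        have hy := K2_y P z q0 k1 hP' i hβ hA
        by_cases hy0 : y5 P z q0 k1 β = 0
        · have hyi : y5 P z q0 k1 (ins P i A β) = 0 := by
            rw [hy0, abs_zero, mul_zero] at hy
            exact abs_eq_zero.1 (le_antisymm hy (abs_nonneg _))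
          rw [← hW' (ins P i A β), hyi]
          have e : Real.log (rr A) * ((0 : ℝ) ^ 2 * V (E ∪ su P b (ins P i A β)) /
              ph (sp P (ins P i A β))) = 0 := by ring
          rw [e]
          exact hR0
        have hcard := (y5_supp P z q0 k1 hP' hz hq hK β hy0).2
        have hsui : sui P (ins P i A β) = insert i (sui P β) := by
          rw [sui_ins P i hβ hA, if_neg hAe]
        have hsu : E ∪ su P b (ins P i A β) = insert (b i) (E ∪ su P b β) := by
          unfold su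
          rw [hsui, Finset.image_insert, Finset.union_insert]
        have hnot : b i ∉ E ∪ su P b β := by
          intro h
          rcases Finset.mem_union.1 h with h | h
          · exact hE i h
          unfold su at h
          obtain ⟨j, hj, hji⟩ := Finset.mem_image.1 h
          have := hb hji
          subst this
          unfold sui at hj
          obtain ⟨-, p, hp⟩ := Finset.mem_filter.1 hj
          exact hβ p hp
        have hVs : V (insert (b i) (E ∪ su P b β)) ≤ v * V (E ∪ su P b β) :=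
          hV _ _ (K2_sub P b E β) (K2_card P b E β hcard)
            (Finset.mem_union_right _ (Finset.mem_image_of_mem b (Finset.mem_univ i))) hnot
        have hy2 : y5 P z q0 k1 (ins P i A β) ^ 2 ≤
            f5 P z q0 k1 A ^ 2 * y5 P z q0 k1 β ^ 2 := by
          rw [← sq_abs, ← mul_pow, ← sq_abs (f5 P z q0 k1 A * y5 P z q0 k1 β), abs_mul]
          exact pow_le_pow_left₀ (abs_nonneg _) hy 2
        rw [← hW' (ins P i A β), ← hW' β, ph_sp_ins P i hβ hA, hsu]
        have h1 : y5 P z q0 k1 (ins P i A β) ^ 2 * V (insert (b i) (E ∪ su P b β)) ≤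
            (f5 P z q0 k1 A ^ 2 * y5 P z q0 k1 β ^ 2) * (v * V (E ∪ su P b β)) :=
          mul_le_mul hy2 hVs (hV0 _) (mul_nonneg (sq_nonneg _) (sq_nonneg _))
        have h2 := div_le_div_of_nonneg_right h1 (mul_pos hphA hphs).le
        have h3 := mul_le_mul_of_nonneg_left h2 hlA
        refine h3.trans (le_of_eq ?_)
        field_simp
      refine (Finset.sum_le_sum hterm).trans ?_
      rw [← Finset.sum_mul]
      have hsub : ∑ A ∈ (P \ sp P β).powerset, f5 P z q0 k1 A ^ 2 * Real.log (rr A) / ph A ≤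
          1 / Dn P z q0 k1 := by
        rw [← f5_sq_log P z q0 k1 hP' hz hD]
        refine Finset.sum_le_sum_of_subset_of_nonneg
          (Finset.powerset_mono.2 Finset.sdiff_subset) fun A hA _ => ?_
        have hAP := Finset.mem_powerset.1 hA
        exact div_nonneg (mul_nonneg (sq_nonneg _) (Real.log_nonneg (one_le_rr P hP' hAP)))
          (ph_pos P hP' hAP).le
      refine (mul_le_mul_of_nonneg_right hsub (mul_nonneg hv (hW0 β))).trans (le_of_eq ?_)
      ring
    · rw [if_neg hβ]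
      exact mul_nonneg hV1 (hW0 β)
  -- Markov
  have hmark : ∀ β : P → Option ν, (if (z : ℝ) ^ k1 < rr (sp P β) then W β else 0) ≤
      (∑ i, Real.log (rr (fb P β i)) * W β) / (k1 * Real.log z) := by
    intro β
    have hl0 : ∀ i, 0 ≤ Real.log (rr (fb P β i)) := fun i =>
      Real.log_nonneg (one_le_rr P hP' (fb_subset P β i))
    by_cases h : (z : ℝ) ^ k1 < rr (sp P β)
    · rw [if_pos h, le_div_iff₀ hkl, ← Finset.sum_mul, mul_comm]
      refine mul_le_mul_of_nonneg_right ?_ (hW0 β)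
      have h1 : ∑ i, Real.log (rr (fb P β i)) = Real.log (rr (sp P β)) := by
        rw [rr_sp, Real.log_prod]
        intro i _
        exact (rr_pos P hP' (fb_subset P β i)).ne'
      rw [h1, ← Real.log_pow]
      refine Real.log_le_log ?_ h.le
      exact pow_pos (by exact_mod_cast (by omega : 0 < z)) _
    · rw [if_neg h]
      exact div_nonneg (Finset.sum_nonneg fun i _ => mul_nonneg (hl0 i) (hW0 β)) hkl.le
  calc ∑ β : P → Option ν, (if (z : ℝ) ^ k1 < rr (sp P β) then
        y5 P z q0 k1 β ^ 2 * V (E ∪ su P b β) / ph (sp P β) else 0)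
      = ∑ β : P → Option ν, (if (z : ℝ) ^ k1 < rr (sp P β) then W β else 0) := by
        refine Finset.sum_congr rfl fun β _ => ?_
        rw [hW' β]
    _ ≤ ∑ β : P → Option ν, (∑ i, Real.log (rr (fb P β i)) * W β) / (k1 * Real.log z) :=
        Finset.sum_le_sum fun β _ => hmark β
    _ = (∑ i : ν, ∑ β : P → Option ν, Real.log (rr (fb P β i)) * W β) / (k1 * Real.log z) := by
        rw [← Finset.sum_div, Finset.sum_comm]
    _ ≤ (∑ i : ν, v / Dn P z q0 k1 * ∑ β, W β) / (k1 * Real.log z) := by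
        refine div_le_div_of_nonneg_right ?_ hkl.le
        exact Finset.sum_le_sum fun i _ => hone i
    _ = (Fintype.card ν * v / (Dn P z q0 k1 * (k1 * Real.log z))) * ∑ β, W β := by
        rw [Finset.sum_const, Finset.card_univ, nsmul_eq_mul]
        have := hD.ne'
        have := hkl.ne'
        field_simp
    _ = (Fintype.card ν * v / (Dn P z q0 k1 * (k1 * Real.log z))) *
        ∑ β, y5 P z q0 k1 β ^ 2 * V (E ∪ su P b β) / ph (sp P β) := by
        congr 1
        refine Finset.sum_congr rfl fun β _ => ?_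
        rw [hW' β]

theorem sumNrV (z q0 k1 K : ℕ) (hP : ∀ p ∈ P, Nat.Prime p ∧ z < p) (hz : 2 ≤ z) (hq : 1 ≤ q0)
    (hK : 2 * k1 ≤ K * q0) (V : Finset ℕ → ℝ) (hV0 : ∀ B, 0 ≤ V B) {v : ℝ} (hv : 0 ≤ v)
    (b : ν → ℕ) (hb : Function.Injective b) (E : Finset ℕ) (hE : ∀ j, b j ∉ E)
    (hV : StepV V v (E ∪ univ.image b) (E.card + K)) :
    ∑ j, dgV P V b (insert (b j) E) (y5 P z q0 k1) ≤
      (K + Fintype.card ν * v) * dgV P V b E (y5 P z q0 k1) := by
  have hP' : ∀ p ∈ P, Nat.Prime p := fun p hp => (hP p hp).1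
  unfold dgV
  rw [Finset.sum_comm, Finset.mul_sum]
  refine Finset.sum_le_sum fun β _ => ?_
  by_cases hy : y5 P z q0 k1 β = 0
  · rw [hy]
    simp
  have hcard := (y5_supp P z q0 k1 hP' hz hq hK β hy).2
  have hph : 0 < ph (sp P β) := ph_pos _ hP' (sp_subset _ β)
  have hUsub := K2_sub P b E β
  have hUcard := K2_card P b E β hcard
  have hins : ∀ j, insert (b j) E ∪ su P b β = insert (b j) (E ∪ su P b β) := fun j =>
    Finset.insert_union _ _ _
  have hmemU : ∀ j, j ∈ sui P β → b j ∈ E ∪ su P b β := by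
    intro j hj
    refine Finset.mem_union_right _ ?_
    unfold su
    exact Finset.mem_image_of_mem b hj
  have hnotU : ∀ j, j ∉ sui P β → b j ∉ E ∪ su P b β := by
    intro j hj h
    rcases Finset.mem_union.1 h with h | h
    · exact hE j h
    unfold su at h
    obtain ⟨i, hi, hij⟩ := Finset.mem_image.1 h
    rw [hb hij] at hi
    exact hj hi
  obtain ⟨U, hU⟩ : ∃ U : Finset ℕ, U = E ∪ su P b β := ⟨_, rfl⟩
  obtain ⟨A, hA⟩ : ∃ A : Finset ν, A = sui P β := ⟨_, rfl⟩
  rw [← hA] at hcard hmemU hnotU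
  rw [← hU] at hUsub hUcard hins hmemU hnotU ⊢
  have hVU : 0 ≤ V U := hV0 U
  have hterm : ∀ j, V (insert (b j) U) ≤ (if j ∈ A then V U else 0) + v * V U := by
    intro j
    have h0 : 0 ≤ v * V U := mul_nonneg hv hVU
    by_cases hj : j ∈ A
    · rw [if_pos hj, Finset.insert_eq_of_mem (hmemU j hj)]
      linarith
    · rw [if_neg hj, zero_add]
      exact hV U (b j) hUsub hUcard
        (Finset.mem_union_right _ (Finset.mem_image_of_mem b (Finset.mem_univ j))) (hnotU j hj)
  have hsum : ∑ j, V (insert (b j) U) ≤ (K + Fintype.card ν * v) * V U := by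
    refine (Finset.sum_le_sum fun j _ => hterm j).trans ?_
    rw [Finset.sum_add_distrib, Finset.sum_const, Finset.card_univ, nsmul_eq_mul,
      ← Finset.sum_filter, Finset.sum_const, nsmul_eq_mul]
    have h1 : (Finset.univ.filter fun j => j ∈ A) = A := by
      ext j
      simp
    rw [h1]
    have h2 : (A.card : ℝ) ≤ K := by exact_mod_cast hcard
    have h3 : (A.card : ℝ) * V U ≤ K * V U := mul_le_mul_of_nonneg_right h2 hVU
    calc (A.card : ℝ) * V U + Fintype.card ν * (v * V U)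
        ≤ K * V U + Fintype.card ν * (v * V U) := by linarith
      _ = _ := by ring
  obtain ⟨q, hq'⟩ : ∃ q : ℝ, q = y5 P z q0 k1 β ^ 2 / ph (sp P β) := ⟨_, rfl⟩
  have hq0' : 0 ≤ q := by
    rw [hq']
    exact div_nonneg (sq_nonneg _) hph.le
  calc ∑ j, y5 P z q0 k1 β ^ 2 * V (insert (b j) E ∪ su P b β) / ph (sp P β)
      = q * ∑ j, V (insert (b j) U) := by
        rw [Finset.mul_sum, hq']
        refine Finset.sum_congr rfl fun j _ => ?_
        rw [hins j]
        ring
    _ ≤ q * ((K + Fintype.card ν * v) * V U) := mul_le_mul_of_nonneg_left hsum hq0'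
    _ = _ := by
        rw [hq']
        ring

end Pool.Agent.LibSC93
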