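import Pool.Agent.LibSC93.J4
import Pool.Agent.LibSC93.K2
import Pool.Agent.LibPL63.M5

/-!
Row J7 (lower bound for the diagonal collapsed at `inl i0`).
`G1s_sdiff`, `G2s_sdiff`: `G1s P - G1s (P \ S) = ∑_{A ∩ S ≠ ∅} g1 A/ph A ≤ ∑_{p ∈ S} ∑_{A ∋ p} g1 A/ph A ≤ ∑_{p ∈ S} (1/(p-1)) ∑_{A'} g1 A'/ph A'` (`A = A' ∪ {p}`, `g1_anti`), `p - 1 ≥ z`. `L2s_sdiff`: fewer terms.
`dgJ_ge`: `sum_split`; for fixed `γ` the inner sum is over the `α` which are `none` on `sp γ`, i.e. over `α : ↥(P \ sp γ) → Option κ` (`sum_ext`), and for these the collapsed coefficient (`yCol_inl`) is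
`yC (P \ sp γ) z q0 a I (2L') i0 α * y5 γ` (`fb_ext`, `sp_ext`, `ext_ne`; `P \ sp β = (P \ sp γ) \ sp α` because `sp β = sp (bL β) ∪ sp (bR β)`), `ph (sp β) = ph (sp α) ph (sp γ)`, `E ∪ su β = E ∪ su γ` (`su_bR`). So the sum is
`∑_γ y5 γ^2 V (E ∪ su γ)/ph (sp γ) * DD (P \ sp γ) (yC …)`, and `DD_yC_ge` (row M5 of LibPL63) for `P \ sp γ` gives `≥ G1s(P \ sp γ)^2 G2s(P \ sp γ)^(k-1)/8 ≥ G1s^2 G2s^(k-1)/16`: `|sp γ| ≤ 2 r1` (primes `> z`,
`y5 γ ≠ 0`), `(1 - 2 r1/z)^(k+1) ≥ 1/2` (`k = card κ`; Bernoulli, `hz`); hypothesis `h2` of M5 for `P \ sp γ`: `8 k L2s(P \ sp γ) ≤ 8 k L2s P ≤ G2s P L' log z ≤ G2s(P \ sp γ) (2L') log z`.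
-/

open Finset

namespace Pool.Agent.LibSC93

open Pool.Agent.LibRG87 Pool.Agent.LibLG5 Pool.Agent.LibPL63

variable {κ ν : Type} [Fintype κ] [DecidableEq κ] [Fintype ν] [DecidableEq ν] (P : Finset ℕ)

private theorem J7_ph_pos (hP : ∀ p ∈ P, Nat.Prime p) {A : Finset ℕ} (hA : A ⊆ P) : 0 < ph A := by
  unfold ph
  refine Finset.prod_pos fun p hp => ?_
  have h1 : (1 : ℝ) < p := by exact_mod_cast (hP p (hA hp)).one_lt
  linarith

private theorem J7_rr_le_insert (hP : ∀ p ∈ P, Nat.Prime p) {A : Finset ℕ} (hA : A ⊆ P) {p : ℕ}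
    (hp : p ∈ P) (hpA : p ∉ A) : rr A ≤ rr (insert p A) := by
  unfold rr
  rw [Finset.prod_insert hpA]
  have h1 : (1 : ℝ) ≤ p := by exact_mod_cast (hP p hp).one_lt.le
  have h2 : (0 : ℝ) ≤ ∏ p ∈ A, (p : ℝ) := Finset.prod_nonneg fun p _ => Nat.cast_nonneg p
  nlinarith

/-- removal of a set of primes from the sum of a nonnegative function -/
private theorem J7_sdiff (z : ℕ) (hz : 1 ≤ z) (f : Finset ℕ → ℝ) (hf0 : ∀ A, A ⊆ P → 0 ≤ f A)
    (hf : ∀ A, A ⊆ P → ∀ p ∈ P, p ∉ A → f (insert p A) ≤ f A / z) (S : Finset ℕ) :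
    S ⊆ P → (1 - (S.card : ℝ) / z) * ∑ A ∈ P.powerset, f A ≤ ∑ A ∈ (P \ S).powerset, f A := by
  have hz0 : (0 : ℝ) < z := by exact_mod_cast hz
  refine Finset.induction_on S ?_ ?_
  · intro _
    simp
  · intro p S hpS ih hS
    have hpP : p ∈ P := hS (Finset.mem_insert_self p S)
    have hSP : S ⊆ P := (Finset.subset_insert p S).trans hS
    have ih' := ih hSP
    have hp1 : p ∉ P \ insert p S := fun h => (Finset.mem_sdiff.1 h).2 (Finset.mem_insert_self p S)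
    have he : P \ S = insert p (P \ insert p S) := by
      ext q
      rw [Finset.mem_insert, Finset.mem_sdiff, Finset.mem_sdiff, Finset.mem_insert]
      constructor
      · rintro ⟨h1, h2⟩
        by_cases hq : q = p
        · exact Or.inl hq
        · exact Or.inr ⟨h1, by rintro (h | h); exacts [hq h, h2 h]⟩
      · rintro (h | ⟨h1, h2⟩)
        · rw [h]
          exact ⟨hpP, hpS⟩
        · exact ⟨h1, fun h => h2 (Or.inr h)⟩
    rw [he, Finset.sum_powerset_insert hp1] at ih'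
    have h1 : ∑ A ∈ (P \ insert p S).powerset, f (insert p A) ≤
        ∑ A ∈ (P \ insert p S).powerset, f A / z := by
      refine Finset.sum_le_sum fun A hA => ?_
      rw [Finset.mem_powerset] at hA
      exact hf A (hA.trans Finset.sdiff_subset) p hpP (fun h => hp1 (hA h))
    have h2 : ∑ A ∈ (P \ insert p S).powerset, f A ≤ ∑ A ∈ P.powerset, f A := by
      refine Finset.sum_le_sum_of_subset_of_nonneg (Finset.powerset_mono.2 Finset.sdiff_subset) ?_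
      intro A hA _
      exact hf0 A (Finset.mem_powerset.1 hA)
    rw [← Finset.sum_div] at h1
    have h3 : (∑ A ∈ (P \ insert p S).powerset, f A) / z ≤ (∑ A ∈ P.powerset, f A) / z :=
      div_le_div_of_nonneg_right h2 hz0.le
    rw [Finset.card_insert_of_notMem hpS]
    push_cast
    have h4 : (1 - ((S.card : ℝ) + 1) / z) * ∑ A ∈ P.powerset, f A =
        (1 - (S.card : ℝ) / z) * ∑ A ∈ P.powerset, f A - (∑ A ∈ P.powerset, f A) / z := by
      ring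
    rw [h4]
    linarith

private theorem J7_g1_nn (z q0 a I n : ℕ) (hP : ∀ p ∈ P, Nat.Prime p) :
    ∀ A, A ⊆ P → 0 ≤ g1 z q0 a I A ^ n / ph A := fun A hA =>
  div_nonneg (pow_nonneg (g1_nonneg _ _ _ _ _) _) (J7_ph_pos P hP hA).le

private theorem J7_g1_ins (z q0 a I n : ℕ) (hP : ∀ p ∈ P, Nat.Prime p ∧ z < p) (hz : 1 ≤ z)
    (ha : 1 ≤ a) : ∀ A, A ⊆ P → ∀ p ∈ P, p ∉ A →
      g1 z q0 a I (insert p A) ^ n / ph (insert p A) ≤ g1 z q0 a I A ^ n / ph A / z := by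
  intro A hA p hp hpA
  have hP' : ∀ p ∈ P, Nat.Prime p := fun p hp => (hP p hp).1
  have h1 : g1 z q0 a I (insert p A) ^ n ≤ g1 z q0 a I A ^ n :=
    pow_le_pow_left₀ (g1_nonneg _ _ _ _ _) (g1_anti ha (J7_rr_le_insert P hP' hA hp hpA)) n
  have h2 : ph (insert p A) = ((p : ℝ) - 1) * ph A := by
    unfold ph
    rw [Finset.prod_insert hpA]
  have hz0 : (0 : ℝ) < z := by exact_mod_cast hz
  have h3 : (z : ℝ) + 1 ≤ (p : ℝ) := by exact_mod_cast (hP p hp).2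
  have h4 := J7_ph_pos P hP' hA
  rw [h2, div_div, mul_comm (ph A)]
  exact div_le_div₀ (pow_nonneg (g1_nonneg _ _ _ _ _) _) h1 (mul_pos hz0 h4)
    (mul_le_mul_of_nonneg_right (by linarith) h4.le)

theorem G1s_sdiff (z q0 a I : ℕ) (hP : ∀ p ∈ P, Nat.Prime p ∧ z < p) (hz : 1 ≤ z) (ha : 1 ≤ a)
    {S : Finset ℕ} (hS : S ⊆ P) :
    (1 - (S.card : ℝ) / z) * G1s P z q0 a I ≤ G1s (P \ S) z q0 a I := by
  have h := J7_sdiff P z hz (fun A => g1 z q0 a I A ^ 1 / ph A)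
    (J7_g1_nn P z q0 a I 1 (fun p hp => (hP p hp).1)) (J7_g1_ins P z q0 a I 1 hP hz ha) S hS
  simp only [pow_one] at h
  exact h

theorem G2s_sdiff (z q0 a I : ℕ) (hP : ∀ p ∈ P, Nat.Prime p ∧ z < p) (hz : 1 ≤ z) (ha : 1 ≤ a)
    {S : Finset ℕ} (hS : S ⊆ P) :
    (1 - (S.card : ℝ) / z) * G2s P z q0 a I ≤ G2s (P \ S) z q0 a I :=
  J7_sdiff P z hz (fun A => g1 z q0 a I A ^ 2 / ph A)
    (J7_g1_nn P z q0 a I 2 (fun p hp => (hP p hp).1)) (J7_g1_ins P z q0 a I 2 hP hz ha) S hS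

theorem L2s_sdiff (z q0 a I : ℕ) (hP : ∀ p ∈ P, Nat.Prime p ∧ z < p) (hz : 1 ≤ z)
    (S : Finset ℕ) : L2s (P \ S) z q0 a I ≤ L2s P z q0 a I := by
  unfold L2s
  refine Finset.sum_le_sum_of_subset_of_nonneg (Finset.powerset_mono.2 Finset.sdiff_subset) ?_
  intro A hA _
  rw [Finset.mem_powerset] at hA
  exact mul_nonneg (J7_g1_nn P z q0 a I 2 (fun p hp => (hP p hp).1) A hA)
    (Real.log_nonneg (one_le_rr P (fun p hp => (hP p hp).1) hA))

private theorem J7_card_le {z L' : ℕ} (hz : 2 ≤ z) (hP : ∀ p ∈ P, p.Prime ∧ z < p) (S : Finset ℕ)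
    (hS : S ⊆ P) (h : rr S ≤ (z : ℝ) ^ L') : S.card ≤ L' := by
  have h1 : (z : ℝ) ^ S.card ≤ rr S := by
    unfold rr
    rw [← Finset.prod_const]
    refine Finset.prod_le_prod (fun p _ => Nat.cast_nonneg z) fun p hp => ?_
    exact_mod_cast (hP p (hS hp)).2.le
  have h2 : (z : ℝ) ^ S.card ≤ (z : ℝ) ^ L' := h1.trans h
  have h3 : z ^ S.card ≤ z ^ L' := by exact_mod_cast h2
  exact (Nat.pow_le_pow_iff_right (by omega)).1 h3

/-- the lower bound for the diagonal form of `P \ S` -/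
private theorem J7_DD (z q0 a I L' r1 : ℕ) (hP : ∀ p ∈ P, Nat.Prime p ∧ z < p) (ha : 1 ≤ a)
    (i0 : κ) (hL : q0 * a ^ I ≤ L') (hL' : 1 ≤ L')
    (hz : 16 * (Fintype.card κ + r1 + L' + 1) ^ 2 ≤ z)
    (h2 : 8 * Fintype.card κ * L2s P z q0 a I ≤ G2s P z q0 a I * L' * Real.log z)
    (S : Finset ℕ) (hS : S ⊆ P) (hSc : S.card ≤ 2 * r1) :
    G1s P z q0 a I ^ 2 * G2s P z q0 a I ^ (Fintype.card κ - 1) / 16 ≤
      DD (P \ S) (yC (P \ S) z q0 a I (2 * L') i0) := by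
  have hP' : ∀ p ∈ P, Nat.Prime p := fun p hp => (hP p hp).1
  have hPS : ∀ p ∈ P \ S, Nat.Prime p ∧ z < p := fun p hp => hP p (Finset.mem_sdiff.1 hp).1
  obtain ⟨m, hm⟩ : ∃ m, Fintype.card κ = m + 1 :=
    ⟨Fintype.card κ - 1, by have := Fintype.card_pos_iff.2 ⟨i0⟩; omega⟩
  have hz1 : 1 ≤ z := by
    have : 0 < (Fintype.card κ + r1 + L' + 1) ^ 2 := by positivity
    omega
  have hz0 : (0 : ℝ) < z := by exact_mod_cast hz1
  have hlz : 0 ≤ Real.log z := Real.log_nonneg (by exact_mod_cast hz1)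
  have hG1 : 1 ≤ G1s P z q0 a I := one_le_G1s P hP' hz1
  have hG2 : 1 ≤ G2s P z q0 a I := one_le_G2s P hP' hz1
  have hzz : 4 * ((m + 2) * r1) ≤ z := by
    rw [hm] at hz
    nlinarith [hz, Nat.zero_le m, Nat.zero_le r1, Nat.zero_le L', Nat.zero_le (m * r1),
      Nat.zero_le (m * L'), Nat.zero_le (r1 * L'), Nat.zero_le (m*m), Nat.zero_le (r1 * r1),
      Nat.zero_le (L' * L')]
  -- the factor
  set t : ℝ := 1 - (S.card : ℝ) / z with ht
  have hSc' : (S.card : ℝ) / z ≤ 2 * r1 / z :=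
    div_le_div_of_nonneg_right (by exact_mod_cast hSc) hz0.le
  have hzz' : 4 * (((m : ℝ) + 2) * r1) ≤ z := by exact_mod_cast hzz
  have hb : ((m : ℝ) + 2) * (2 * r1 / z) ≤ 1 / 2 := by
    rw [mul_div_assoc', div_le_iff₀ hz0]
    linarith
  have hc0 : 0 ≤ (S.card : ℝ) / z := by positivity
  have hr0 : (0 : ℝ) ≤ 2 * r1 / z := by positivity
  have hm0 : (0 : ℝ) ≤ m := Nat.cast_nonneg m
  have htm : 1 / 2 ≤ t ^ (m + 2) := by
    have h3 : -2 ≤ -((S.card : ℝ) / z) := by nlinarith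
    have h4 := one_add_mul_le_pow h3 (m + 2)
    have h5 : t = 1 + -((S.card : ℝ) / z) := by rw [ht]; ring
    rw [h5]
    refine le_trans ?_ h4
    push_cast
    nlinarith
  have ht2 : 1 / 2 ≤ t := by
    rw [ht]
    nlinarith
  have ht0 : 0 ≤ t := by linarith
  have h1s := G1s_sdiff P z q0 a I hP hz1 ha hS
  have h2s := G2s_sdiff P z q0 a I hP hz1 ha hS
  rw [← ht] at h1s h2s
  have hL2 := L2s_sdiff P z q0 a I hP hz1 S
  have hmain := DD_yC_ge (P \ S) z q0 a I L' hPS ha i0 hL hL'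
    (by
      nlinarith [hz, Nat.zero_le (Fintype.card κ), Nat.zero_le r1, Nat.zero_le L',
        Nat.zero_le (Fintype.card κ * r1), Nat.zero_le (Fintype.card κ * L'),
        Nat.zero_le (r1 * L'), Nat.zero_le (r1 * r1), Nat.zero_le (L' * L')])
    (by
      have h3 : 8 * (Fintype.card κ : ℝ) * L2s (P \ S) z q0 a I ≤
          8 * Fintype.card κ * L2s P z q0 a I :=
        mul_le_mul_of_nonneg_left hL2 (by positivity)
      refine (h3.trans h2).trans ?_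
      have h4 : G2s P z q0 a I ≤ 2 * G2s (P \ S) z q0 a I := by nlinarith
      have h5 : (0 : ℝ) ≤ L' * Real.log z := mul_nonneg (Nat.cast_nonneg _) hlz
      nlinarith [mul_le_mul_of_nonneg_right h4 h5])
  refine le_trans ?_ hmain
  rw [hm, Nat.add_sub_cancel]
  have hq1 : (t * G1s P z q0 a I) ^ 2 ≤ G1s (P \ S) z q0 a I ^ 2 :=
    pow_le_pow_left₀ (mul_nonneg ht0 (by linarith)) h1s 2
  have hq2 : (t * G2s P z q0 a I) ^ m ≤ G2s (P \ S) z q0 a I ^ m :=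
    pow_le_pow_left₀ (mul_nonneg ht0 (by linarith)) h2s m
  have hq3 : (t * G1s P z q0 a I) ^ 2 * (t * G2s P z q0 a I) ^ m ≤
      G1s (P \ S) z q0 a I ^ 2 * G2s (P \ S) z q0 a I ^ m :=
    mul_le_mul hq1 hq2 (pow_nonneg (mul_nonneg ht0 (by linarith)) _) (sq_nonneg _)
  have hq4 : (t * G1s P z q0 a I) ^ 2 * (t * G2s P z q0 a I) ^ m =
      t ^ (m + 2) * (G1s P z q0 a I ^ 2 * G2s P z q0 a I ^ m) := by ring
  have hq5 : 0 ≤ G1s P z q0 a I ^ 2 * G2s P z q0 a I ^ m :=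
    mul_nonneg (sq_nonneg _) (pow_nonneg (by linarith) _)
  have hq6 := mul_le_mul_of_nonneg_right htm hq5
  linarith

open scoped Classical in
/-- the summand -/
private noncomputable def J7_G (V : Finset ℕ → ℝ) (b : κ ⊕ ν → ℕ) (E : Finset ℕ)
    (z q0 a I L r0 r1 : ℕ) (i0 : κ) (α : P → Option κ) (γ : P → Option ν) : ℝ :=
  if ∀ p, α p ≠ some i0 then
    ((∏ i, g1 z q0 a I (fb P α i)) * gS P z q0 a I L (sp P α ∪ sp P γ) (rr (sp P α)) *
      y5 P z r0 r1 γ) ^ 2 * V (E ∪ su P (fun j => b (Sum.inr j)) γ) / (ph (sp P α) * ph (sp P γ))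
  else 0

private theorem J7_bL_ne (β : P → Option (κ ⊕ ν)) (i0 : κ) :
    (∀ p, bL P β p ≠ some i0) ↔ ∀ p, β p ≠ some (Sum.inl i0) := by
  refine forall_congr' fun p => not_congr ?_
  unfold bL
  rcases h : β p with _ | (i | j)
  · simp
  · simp
  · simp

private theorem J7_rhs (V : Finset ℕ → ℝ) (b : κ ⊕ ν → ℕ) (E : Finset ℕ)
    (hE : ∀ i, b (Sum.inl i) ∈ E) (z q0 a I L r0 r1 : ℕ) (hz : 1 ≤ z) (i0 : κ) :
    dgV P V b E (yCol P (Sum.inl i0) (yJ P z q0 a I L r0 r1)) =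
      ∑ β : P → Option (κ ⊕ ν), J7_G P V b E z q0 a I L r0 r1 i0 (bL P β) (bR P β) := by
  unfold dgV
  refine Finset.sum_congr rfl fun β _ => ?_
  unfold J7_G
  by_cases h : ∀ p, β p ≠ some (Sum.inl i0)
  · rw [if_pos ((J7_bL_ne P β i0).2 h), yCol_inl P z q0 a I L r0 r1 hz i0 β h, su_bR P b E hE β,
      ph_bLR P β, sp_bLR P β]
  · rw [if_neg (fun h' => h ((J7_bL_ne P β i0).1 h')), yCol_of_not P _ _ _ h]
    simp

private theorem J7_cond (α : P → Option κ) (γ : P → Option ν) :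
    (∀ p, α p = none ∨ γ p = none) ↔ ∀ p : P, (p : ℕ) ∈ sp P γ → α p = none := by
  refine forall_congr' fun p => ?_
  rw [mem_sp]
  constructor
  · rintro (h | h) ⟨_, h2⟩
    · exact h
    · exact absurd h h2
  · intro h
    by_cases hg : γ p = none
    · exact Or.inr hg
    · exact Or.inl (h ⟨p.2, hg⟩)

private theorem J7_inner (V : Finset ℕ → ℝ) (b : κ ⊕ ν → ℕ) (E : Finset ℕ)
    (z q0 a I L r0 r1 : ℕ) (i0 : κ) (γ : P → Option ν) (α : ↥(P \ sp P γ) → Option κ) :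
    J7_G P V b E z q0 a I L r0 r1 i0 (ext P (sp P γ) α) γ =
      y5 P z r0 r1 γ ^ 2 * V (E ∪ su P (fun j => b (Sum.inr j)) γ) / ph (sp P γ) *
        (yC (P \ sp P γ) z q0 a I L i0 α ^ 2 / ph (sp (P \ sp P γ) α)) := by
  unfold J7_G yC
  by_cases h : ∀ p, α p ≠ some i0
  · rw [if_pos ((ext_ne P (sp P γ) α i0).2 h), if_pos h, sp_ext]
    have h1 : ∏ i, g1 z q0 a I (fb P (ext P (sp P γ) α) i) =
        ∏ i, g1 z q0 a I (fb (P \ sp P γ) α i) :=
      Finset.prod_congr rfl fun i _ => by rw [fb_ext]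
    have h2 : gS P z q0 a I L (sp (P \ sp P γ) α ∪ sp P γ) (rr (sp (P \ sp P γ) α)) =
        ∑ A ∈ ((P \ sp P γ) \ sp (P \ sp P γ) α).powerset with
          rr A * rr (sp (P \ sp P γ) α) ≤ (z : ℝ) ^ L, g1 z q0 a I A / ph A := by
      unfold gS
      rw [sdiff_sdiff_left, Finset.sup_eq_union, Finset.union_comm]
    rw [h1, h2]
    ring
  · rw [if_neg (fun h' => h ((ext_ne P (sp P γ) α i0).1 h')), if_neg h]
    ring

theorem dgJ_ge (z q0 a I L' r0 r1 : ℕ) (hP : ∀ p ∈ P, Nat.Prime p ∧ z < p) (ha : 1 ≤ a)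
    (V : Finset ℕ → ℝ) (hV0 : ∀ B, 0 ≤ V B) (b : κ ⊕ ν → ℕ) (E : Finset ℕ)
    (hE : ∀ i, b (Sum.inl i) ∈ E) (i0 : κ) (hL : q0 * a ^ I ≤ L') (hL' : 1 ≤ L')
    (hz : 16 * (Fintype.card κ + r1 + L' + 1) ^ 2 ≤ z)
    (h2 : 8 * Fintype.card κ * L2s P z q0 a I ≤ G2s P z q0 a I * L' * Real.log z) :
    G1s P z q0 a I ^ 2 * G2s P z q0 a I ^ (Fintype.card κ - 1) / 16 *
        dgV P V (fun j => b (Sum.inr j)) E (y5 P z r0 r1) ≤
      dgV P V b E (yCol P (Sum.inl i0) (yJ P z q0 a I (2 * L') r0 r1)) := by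
  classical
  have hP' : ∀ p ∈ P, Nat.Prime p := fun p hp => (hP p hp).1
  have hz2 : 2 ≤ z := by
    have : 1 ≤ (Fintype.card κ + r1 + L' + 1) ^ 2 := Nat.one_le_pow _ _ (by omega)
    omega
  rw [J7_rhs P V b E hE z q0 a I (2 * L') r0 r1 (by omega) i0,
    sum_split P (J7_G P V b E z q0 a I (2 * L') r0 r1 i0)]
  unfold dgV
  rw [Finset.mul_sum]
  refine Finset.sum_le_sum fun γ _ => ?_
  have e1 : (∑ α : P → Option κ, if ∀ p, α p = none ∨ γ p = none then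
        J7_G P V b E z q0 a I (2 * L') r0 r1 i0 α γ else 0) =
      ∑ α : P → Option κ, if ∀ p : P, (p : ℕ) ∈ sp P γ → α p = none then
        J7_G P V b E z q0 a I (2 * L') r0 r1 i0 α γ else 0 := by
    refine Finset.sum_congr rfl fun α _ => ?_
    exact if_congr (J7_cond P α γ) rfl rfl
  rw [e1, sum_ext P (sp P γ) (fun α => J7_G P V b E z q0 a I (2 * L') r0 r1 i0 α γ),
    Finset.sum_congr rfl (fun α _ => J7_inner P V b E z q0 a I (2 * L') r0 r1 i0 γ α),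
    ← Finset.mul_sum]
  by_cases hy : y5 P z r0 r1 γ = 0
  · rw [hy]
    simp
  · have hr : rr (sp P γ) ≤ (z : ℝ) ^ (2 * r1) := by
      by_contra hc
      apply hy
      unfold y5
      rw [if_neg hc]
    have hcard := J7_card_le P hz2 hP (sp P γ) (sp_subset P γ) hr
    have hDD := J7_DD P z q0 a I L' r1 hP ha i0 hL hL' hz h2 (sp P γ) (sp_subset P γ) hcard
    have h0 : 0 ≤ y5 P z r0 r1 γ ^ 2 * V (E ∪ su P (fun j => b (Sum.inr j)) γ) / ph (sp P γ) :=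
      div_nonneg (mul_nonneg (sq_nonneg _) (hV0 _)) (J7_ph_pos P hP' (sp_subset P γ)).le
    rw [mul_comm]
    exact mul_le_mul_of_nonneg_left hDD h0

end Pool.Agent.LibSC93
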