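import Pool.Agent.LibSC93.Defs
import Pool.Agent.LibLG5.M1
import Pool.Agent.LibLG5.M3

/-!
Row K1 (the collapsed factor `cS`). The finished file `LibLG5.M3` has these facts for `S = sp β`, `R = rr (sp β)`; same proofs. `f5_sum`: the full sum over all `A ⊆ P` is `0`, the term `A = ∅` is `1`, all others are `≤ 0`.
If the level condition fails for `A = ∅` it fails for all `A` (`rr A ≥ 1`, `R ≥ 0`) and `cS = 0`. `cS_small`: if `R ≤ z^k1` the level condition holds for all `A` with `f5 A ≠ 0`; so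
`cS = -∑_{A ⊆ P, A ∩ S ≠ ∅} f5 A/ph A ≤ ∑_{p ∈ S} ∑_{A ∋ p} 1/ph A ≤ |S| (1/z) ∏ (1 + 1/(p-1))` (`M3_sum_mem`, `p - 1 ≥ z`).
-/

open Finset

namespace Pool.Agent.LibSC93

open Pool.Agent.LibRG87 Pool.Agent.LibLG5 Pool.Agent.LibPL63

variable (P : Finset ℕ) {z q0 k1 : ℕ}

theorem cS_le_one (hP : ∀ p ∈ P, Nat.Prime p) (hz : 2 ≤ z) (hD : 0 < Dn P z q0 k1) (S : Finset ℕ)
    {R : ℝ} (hR : 0 ≤ R) : cS P z q0 k1 S R ≤ 1 := by
  classical
  have _ := hR
  unfold cS
  have h1 : ∀ A ∈ ((P \ S).powerset).filter (fun A => rr A * R ≤ (z : ℝ) ^ (2 * k1)),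
      f5 P z q0 k1 A / ph A ≤ if A = ∅ then (1 : ℝ) else 0 := by
    intro A hA
    rw [Finset.mem_filter, Finset.mem_powerset] at hA
    have hAP : A ⊆ P := hA.1.trans Finset.sdiff_subset
    split_ifs with h
    · rw [h, M3_term_empty]
    · exact M3_term_nonpos P z q0 k1 hP hz hD hAP h
  refine (Finset.sum_le_sum h1).trans ?_
  rw [Finset.sum_ite_eq']
  split_ifs <;> norm_num

theorem K1_eq_zero (hP : ∀ p ∈ P, Nat.Prime p) (S : Finset ℕ)
    {R : ℝ} (hR : 0 ≤ R) (h : (z : ℝ) ^ (2 * k1) < R) : cS P z q0 k1 S R = 0 := by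
  classical
  unfold cS
  refine Finset.sum_eq_zero fun A hA => ?_
  exfalso
  rw [Finset.mem_filter, Finset.mem_powerset] at hA
  have hAP : A ⊆ P := hA.1.trans Finset.sdiff_subset
  have h1 := one_le_rr P hP hAP
  have h3 := hA.2
  nlinarith

theorem cS_nonneg (hP : ∀ p ∈ P, Nat.Prime p) (hz : 2 ≤ z) (hD : 0 < Dn P z q0 k1) (S : Finset ℕ)
    {R : ℝ} (hR : 0 ≤ R) : 0 ≤ cS P z q0 k1 S R := by
  classical
  by_cases hT : (z : ℝ) ^ (2 * k1) < R
  · exact (K1_eq_zero P hP S hR hT).ge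
  unfold cS
  have h0 := f5_sum P z q0 k1 hP hz hD
  have h1 : ∑ A ∈ ((P \ S).powerset).filter (fun A => rr A * R ≤ (z : ℝ) ^ (2 * k1)),
      -(f5 P z q0 k1 A / ph A) ≤ ∑ A ∈ P.powerset, -(f5 P z q0 k1 A / ph A) := by
    refine Finset.sum_le_sum_of_subset_of_nonneg ?_ ?_
    · intro A hA
      rw [Finset.mem_filter, Finset.mem_powerset] at hA
      rw [Finset.mem_powerset]
      exact hA.1.trans Finset.sdiff_subset
    · intro A hA hA'
      rw [Finset.mem_powerset] at hA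
      have hA0 : A ≠ ∅ := by
        rintro rfl
        apply hA'
        rw [Finset.mem_filter, Finset.mem_powerset]
        refine ⟨Finset.empty_subset _, ?_⟩
        simp only [rr, Finset.prod_empty, one_mul]
        exact not_lt.1 hT
      have := M3_term_nonpos P z q0 k1 hP hz hD hA hA0
      linarith
  rw [Finset.sum_neg_distrib, Finset.sum_neg_distrib, h0] at h1
  linarith

theorem cS_small (hP : ∀ p ∈ P, Nat.Prime p ∧ z < p) (hz : 2 ≤ z) (hq : 1 ≤ q0)
    (hD : 0 < Dn P z q0 k1) (hD1 : 1 ≤ Dn P z q0 k1 * (q0 * Real.log z)) {S : Finset ℕ} (hS : S ⊆ P)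
    {R : ℝ} (hR : 0 ≤ R) (hR1 : R ≤ (z : ℝ) ^ k1) :
    cS P z q0 k1 S R ≤ S.card * (∏ p ∈ P, (1 + 1 / ((p : ℝ) - 1))) / z := by
  classical
  have hP1 : ∀ p ∈ P, Nat.Prime p := fun p hp => (hP p hp).1
  have hPz : ∀ p ∈ P, z < p := fun p hp => (hP p hp).2
  have hz1 : (1 : ℝ) ≤ z := by exact_mod_cast (by omega : 1 ≤ z)
  have hzk : (1 : ℝ) ≤ (z : ℝ) ^ k1 := one_le_pow₀ hz1
  have hcc : cS P z q0 k1 S R = ∑ A ∈ (P \ S).powerset, f5 P z q0 k1 A / ph A := by
    unfold cS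
    refine Finset.sum_filter_of_ne fun A hA hne => ?_
    have hff : f5 P z q0 k1 A ≠ 0 := by
      intro h0
      rw [h0, zero_div] at hne
      exact hne rfl
    have hrr : rr A ≤ (z : ℝ) ^ k1 := by
      by_cases hA0 : A = ∅
      · rw [hA0]
        simp only [rr, Finset.prod_empty]
        exact hzk
      · exact (f5_ne P z q0 k1 hA0 hff).2
    rw [two_mul, pow_add]
    exact mul_le_mul hrr hR1 hR (by linarith)
  have h0 := f5_sum P z q0 k1 hP1 hz hD
  have hsub : (P \ S).powerset ⊆ P.powerset :=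
    Finset.powerset_mono.2 Finset.sdiff_subset
  rw [← Finset.sum_sdiff hsub] at h0
  have h1 : cS P z q0 k1 S R =
      ∑ A ∈ P.powerset \ (P \ S).powerset, -(f5 P z q0 k1 A / ph A) := by
    rw [hcc, Finset.sum_neg_distrib]
    linarith
  rw [h1]
  have h2 : ∀ A ∈ P.powerset \ (P \ S).powerset, -(f5 P z q0 k1 A / ph A) ≤
      ∑ p ∈ S, if p ∈ A then 1 / ph A else 0 := by
    intro A hA
    rw [Finset.mem_sdiff, Finset.mem_powerset, Finset.mem_powerset] at hA
    obtain ⟨hAP, hA2⟩ := hA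
    have hpos := ph_pos P hP1 hAP
    obtain ⟨p, hpA, hps⟩ : ∃ p ∈ A, p ∈ S := by
      by_contra hcon
      push Not at hcon
      apply hA2
      intro p hp
      rw [Finset.mem_sdiff]
      exact ⟨hAP hp, hcon p hp⟩
    have h3 : (if p ∈ A then 1 / ph A else 0) ≤
        ∑ p ∈ S, if p ∈ A then 1 / ph A else 0 := by
      refine Finset.single_le_sum (f := fun p => if p ∈ A then 1 / ph A else 0)
        (fun q _ => ?_) hps
      change 0 ≤ if q ∈ A then 1 / ph A else 0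
      split_ifs
      · positivity
      · exact le_rfl
    rw [if_pos hpA] at h3
    refine le_trans ?_ h3
    rw [← neg_div]
    refine div_le_div_of_nonneg_right ?_ hpos.le
    exact (neg_le_abs _).trans (f5_abs_le P z q0 k1 hP1 hz hq hD hD1 A)
  refine (Finset.sum_le_sum h2).trans ?_
  have h4 : ∑ A ∈ P.powerset \ (P \ S).powerset,
      ∑ p ∈ S, (if p ∈ A then 1 / ph A else 0) ≤
      ∑ A ∈ P.powerset, ∑ p ∈ S, (if p ∈ A then 1 / ph A else 0) := by
    refine Finset.sum_le_sum_of_subset_of_nonneg Finset.sdiff_subset fun A hA _ => ?_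
    rw [Finset.mem_powerset] at hA
    have hpos := ph_pos P hP1 hA
    refine Finset.sum_nonneg fun p _ => ?_
    split_ifs
    · positivity
    · exact le_rfl
  refine h4.trans ?_
  rw [Finset.sum_comm]
  have hprod : 0 ≤ ∏ p ∈ P, (1 + 1 / ((p : ℝ) - 1)) := by
    refine Finset.prod_nonneg fun q hq => ?_
    have h1 : (2 : ℝ) ≤ q := by exact_mod_cast (hP1 q hq).two_le
    have : 0 ≤ 1 / ((q : ℝ) - 1) := div_nonneg zero_le_one (by linarith)
    linarith
  have h5 : ∀ p ∈ S, ∑ A ∈ P.powerset, (if p ∈ A then 1 / ph A else 0) ≤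
      1 / z * ∏ p ∈ P, (1 + 1 / ((p : ℝ) - 1)) := by
    intro p hp
    refine (M3_sum_mem P hP1 (hS hp)).trans ?_
    refine mul_le_mul_of_nonneg_right ?_ hprod
    have h6 : (z : ℝ) + 1 ≤ p := by exact_mod_cast hPz p (hS hp)
    exact div_le_div_of_nonneg_left zero_le_one (by linarith) (by linarith)
  refine (Finset.sum_le_sum h5).trans ?_
  rw [Finset.sum_const, nsmul_eq_mul]
  apply le_of_eq
  ring

end Pool.Agent.LibSC93
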