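import Pool.Agent.LibSC93.J4
import Pool.Agent.LibSC93.J6
import Pool.Agent.LibSC93.K1
import Pool.Agent.LibSC93.K2

/-!
Row J8 (the kill sum). Only `β` avoiding `inr j` contribute; there `yCol = yJ β * cS (sp β) (rr (sp (bR β)))` (`yCol_inr`) and `b (inr j) ∉ E ∪ su β` (`b` injective), so `V (insert (b (inr j)) (E ∪ su β)) ≤ v V (E ∪ su β)` by `StepV`
(`E ∪ su β = E ∪ su (bR β)` has at most `|E| + Kν` elements when `y5 (bR β) ≠ 0`, `y5_supp`). The sum over `j` gives the factor `card ν * v`. Then `cS^2 ≤ 1` if `rr (sp (bR β)) > z^r1`, and `cS ≤ ε` otherwise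
(`cS_small`; `|sp β| ≤ L + 2 r1` because `rr (sp β) ≤ z^(L + 2 r1)` for `yJ β ≠ 0` and the primes are `> z`). `sum_yM_le` with `w γ = y5 γ^2 V (E ∪ su γ) (1[rr (sp γ) > z^r1] + ε^2)`, and `tbigV` with `b ∘ inr`
(`E ∪ univ.image b = E ∪ univ.image (b ∘ inr)`).
-/

open Finset

namespace Pool.Agent.LibSC93

open Pool.Agent.LibRG87 Pool.Agent.LibLG5 Pool.Agent.LibPL63

variable {κ ν : Type} [Fintype κ] [DecidableEq κ] [Fintype ν] [DecidableEq ν] (P : Finset ℕ)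

private theorem J8_step_mono {V : Finset ℕ → ℝ} {v : ℝ} {pos pos' : Finset ℕ} {K : ℕ}
    (h : StepV V v pos K) (hs : pos' ⊆ pos) : StepV V v pos' K :=
  fun A x hA hc hx hxA => h A x (hA.trans hs) hc (hs hx) hxA

omit P in
private theorem J8_card {P : Finset ℕ} {z : ℕ} (hP : ∀ p ∈ P, Nat.Prime p ∧ z < p) (hz : 2 ≤ z)
    {S : Finset ℕ} (hS : S ⊆ P) {N : ℕ} (h : rr S ≤ (z : ℝ) ^ N) : S.card ≤ N := by
  have h1 : (z : ℝ) ^ S.card ≤ rr S := by
    unfold rr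
    rw [← Finset.prod_const]
    exact Finset.prod_le_prod (fun _ _ => Nat.cast_nonneg _)
      (fun p hp => by exact_mod_cast (hP p (hS hp)).2.le)
  have h2 : (z : ℝ) ^ S.card ≤ (z : ℝ) ^ N := h1.trans h
  exact (pow_le_pow_iff_right₀ (by exact_mod_cast (by omega : 1 < z))).1 h2

open scoped Classical in
private theorem J8_term (z q0 a I L r0 r1 Kν : ℕ) (hP : ∀ p ∈ P, Nat.Prime p ∧ z < p) (hz : 2 ≤ z)
    (hr0 : 1 ≤ r0) (hK : 2 * r1 ≤ Kν * r0)
    (hD : 0 < Dn P z r0 r1) (hD1 : 1 ≤ Dn P z r0 r1 * (r0 * Real.log z))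
    (V : Finset ℕ → ℝ) (hV0 : ∀ B, 0 ≤ V B) {v : ℝ} (hv : 0 ≤ v) (b : κ ⊕ ν → ℕ)
    (hb : Function.Injective b) (E : Finset ℕ) (hE : ∀ i, b (Sum.inl i) ∈ E)
    (hE' : ∀ j, b (Sum.inr j) ∉ E) (hV : StepV V v (E ∪ univ.image b) (E.card + Kν)) {ε : ℝ}
    (hε : ((L + 2 * r1 : ℕ) : ℝ) * (∏ p ∈ P, (1 + 1 / ((p : ℝ) - 1))) / z ≤ ε) (j : ν)
    (β : P → Option (κ ⊕ ν)) :
    yCol P (Sum.inr j) (yJ P z q0 a I L r0 r1) β ^ 2 *
        V (insert (b (Sum.inr j)) (E ∪ su P b β)) / ph (sp P β) ≤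
      yM P z q0 a I L (bL P β) ^ 2 * (y5 P z r0 r1 (bR P β) ^ 2 *
        (v * V (E ∪ su P (fun j => b (Sum.inr j)) (bR P β))) *
          ((if (z : ℝ) ^ r1 < rr (sp P (bR P β)) then 1 else 0) + ε ^ 2)) / ph (sp P β) := by
  have hP' : ∀ p ∈ P, Nat.Prime p := fun p hp => (hP p hp).1
  have hph : 0 < ph (sp P β) := ph_pos P hP' (sp_subset P β)
  have hind : (0 : ℝ) ≤ (if (z : ℝ) ^ r1 < rr (sp P (bR P β)) then 1 else 0) + ε ^ 2 := by
    split_ifs
    · positivity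
    · positivity
  have hw : 0 ≤ y5 P z r0 r1 (bR P β) ^ 2 *
      (v * V (E ∪ su P (fun j => b (Sum.inr j)) (bR P β))) *
          ((if (z : ℝ) ^ r1 < rr (sp P (bR P β)) then 1 else 0) + ε ^ 2) :=
    mul_nonneg (mul_nonneg (sq_nonneg _) (mul_nonneg hv (hV0 _))) hind
  refine (div_le_div_iff_of_pos_right hph).2 ?_
  by_cases hβ : ∀ p, β p ≠ some (Sum.inr j)
  · rw [yCol_inr P hP' z q0 a I L r0 r1 j β hβ]
    unfold yJ
    by_cases h1 : yM P z q0 a I L (bL P β) = 0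
    · rw [h1]
      simp
    by_cases h2 : y5 P z r0 r1 (bR P β) = 0
    · rw [h2]
      simp
    obtain ⟨h3, h4⟩ := y5_supp P z r0 r1 hP' hz hr0 hK (bR P β) h2
    have h5 : rr (sp P (bL P β)) ≤ (z : ℝ) ^ L := by
      by_contra h
      apply h1
      unfold yM
      rw [if_neg h]
    have hR0 : 0 ≤ rr (sp P (bR P β)) := by
      unfold rr
      exact Finset.prod_nonneg fun _ _ => Nat.cast_nonneg _
    have hL0 : 0 ≤ rr (sp P (bL P β)) := by
      unfold rr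
      exact Finset.prod_nonneg fun _ _ => Nat.cast_nonneg _
    have h6 : rr (sp P β) ≤ (z : ℝ) ^ (L + 2 * r1) := by
      rw [rr_bLR, pow_add]
      exact mul_le_mul h5 h3 hR0 (pow_nonneg (Nat.cast_nonneg _) _)
    have h7 : (sp P β).card ≤ L + 2 * r1 := J8_card hP hz (sp_subset P β) h6
    have hc0 := cS_nonneg P hP' hz hD (sp P β) hR0
    have hc1 := cS_le_one P hP' hz hD (sp P β) hR0
    have hcc : cS P z r0 r1 (sp P β) (rr (sp P (bR P β))) ^ 2 ≤
        (if (z : ℝ) ^ r1 < rr (sp P (bR P β)) then 1 else 0) + ε ^ 2 := by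
      split_ifs with h8
      · have h9 : cS P z r0 r1 (sp P β) (rr (sp P (bR P β))) ^ 2 ≤ 1 := pow_le_one₀ hc0 hc1
        linarith [sq_nonneg ε]
      · have h9 := cS_small P hP hz hr0 hD hD1 (sp_subset P β) hR0 (not_lt.1 h8)
        have hprod : 0 ≤ ∏ p ∈ P, (1 + 1 / ((p : ℝ) - 1)) := by
          refine Finset.prod_nonneg fun p hp => ?_
          have h10 : (2 : ℝ) ≤ p := by exact_mod_cast (hP' p hp).two_le
          have h11 : (0 : ℝ) ≤ 1 / ((p : ℝ) - 1) := div_nonneg zero_le_one (by linarith)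
          linarith
        have h10 : ((sp P β).card : ℝ) * (∏ p ∈ P, (1 + 1 / ((p : ℝ) - 1))) / z ≤ ε := by
          refine le_trans ?_ hε
          refine div_le_div_of_nonneg_right ?_ (Nat.cast_nonneg _)
          exact mul_le_mul_of_nonneg_right (by exact_mod_cast h7) hprod
        rw [zero_add]
        exact pow_le_pow_left₀ hc0 (h9.trans h10) 2
    have hnot : b (Sum.inr j) ∉ E ∪ su P (fun j => b (Sum.inr j)) (bR P β) := by
      rw [← su_bR P b E hE β, Finset.mem_union]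
      rintro (h | h)
      · exact hE' j h
      · unfold su at h
        obtain ⟨i, hi, hbi⟩ := Finset.mem_image.1 h
        have h8 := hb hbi
        subst h8
        unfold sui at hi
        obtain ⟨p, hp⟩ := (Finset.mem_filter.1 hi).2
        exact hβ p hp
    have hVs : V (insert (b (Sum.inr j)) (E ∪ su P b β)) ≤
        v * V (E ∪ su P (fun j => b (Sum.inr j)) (bR P β)) := by
      rw [su_bR P b E hE β]
      refine hV _ _ ?_ ?_ ?_ hnot
      · refine Finset.union_subset_union_right ?_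
        unfold su
        intro x hx
        obtain ⟨i, _, hbi⟩ := Finset.mem_image.1 hx
        exact Finset.mem_image.2 ⟨Sum.inr i, Finset.mem_univ _, hbi⟩
      · refine (Finset.card_union_le _ _).trans (Nat.add_le_add_left ?_ _)
        exact Finset.card_image_le.trans h4
      · exact Finset.mem_union_right _ (Finset.mem_image_of_mem _ (Finset.mem_univ _))
    have e1 : (yM P z q0 a I L (bL P β) * y5 P z r0 r1 (bR P β) *
        cS P z r0 r1 (sp P β) (rr (sp P (bR P β)))) ^ 2 *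
        V (insert (b (Sum.inr j)) (E ∪ su P b β)) =
        yM P z q0 a I L (bL P β) ^ 2 * (y5 P z r0 r1 (bR P β) ^ 2 *
          (V (insert (b (Sum.inr j)) (E ∪ su P b β)) *
            cS P z r0 r1 (sp P β) (rr (sp P (bR P β))) ^ 2)) := by
      ring
    have e2 : yM P z q0 a I L (bL P β) ^ 2 * (y5 P z r0 r1 (bR P β) ^ 2 *
        (v * V (E ∪ su P (fun j => b (Sum.inr j)) (bR P β))) *
          ((if (z : ℝ) ^ r1 < rr (sp P (bR P β)) then 1 else 0) + ε ^ 2)) =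
        yM P z q0 a I L (bL P β) ^ 2 * (y5 P z r0 r1 (bR P β) ^ 2 *
          ((v * V (E ∪ su P (fun j => b (Sum.inr j)) (bR P β))) *
            ((if (z : ℝ) ^ r1 < rr (sp P (bR P β)) then 1 else 0) + ε ^ 2))) := by
      ring
    rw [e1, e2]
    refine mul_le_mul_of_nonneg_left (mul_le_mul_of_nonneg_left ?_ (sq_nonneg _)) (sq_nonneg _)
    exact mul_le_mul hVs hcc (sq_nonneg _) (mul_nonneg hv (hV0 _))
  · rw [yCol_of_not P _ _ _ hβ]
    have h1 : (0 : ℝ) ^ 2 * V (insert (b (Sum.inr j)) (E ∪ su P b β)) = 0 := by ring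
    rw [h1]
    exact mul_nonneg (sq_nonneg _) hw

theorem kill_le (z q0 a I L r0 r1 Kν : ℕ) (hP : ∀ p ∈ P, Nat.Prime p ∧ z < p) (hz : 2 ≤ z)
    (hr0 : 1 ≤ r0) (hr1 : 1 ≤ r1) (hK : 2 * r1 ≤ Kν * r0)
    (hD : 0 < Dn P z r0 r1) (hD1 : 1 ≤ Dn P z r0 r1 * (r0 * Real.log z))
    (V : Finset ℕ → ℝ) (hV0 : ∀ B, 0 ≤ V B) {v : ℝ} (hv : 0 ≤ v) (b : κ ⊕ ν → ℕ)
    (hb : Function.Injective b) (E : Finset ℕ) (hE : ∀ i, b (Sum.inl i) ∈ E)
    (hE' : ∀ j, b (Sum.inr j) ∉ E) (hV : StepV V v (E ∪ univ.image b) (E.card + Kν)) {ε : ℝ}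
    (hε : ((L + 2 * r1 : ℕ) : ℝ) * (∏ p ∈ P, (1 + 1 / ((p : ℝ) - 1))) / z ≤ ε) :
    ∑ j : ν, ∑ β : P → Option (κ ⊕ ν), yCol P (Sum.inr j) (yJ P z q0 a I L r0 r1) β ^ 2 *
        V (insert (b (Sum.inr j)) (E ∪ su P b β)) / ph (sp P β) ≤
      G2s P z q0 a I ^ Fintype.card κ * ((Fintype.card ν * v) *
        (Fintype.card ν * v / (Dn P z r0 r1 * (r1 * Real.log z)) + ε ^ 2) *
          dgV P V (fun j => b (Sum.inr j)) E (y5 P z r0 r1)) := by
  classical
  have hP' : ∀ p ∈ P, Nat.Prime p := fun p hp => (hP p hp).1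
  have hb' : Function.Injective (fun j : ν => b (Sum.inr j)) := fun j j' h =>
    Sum.inr_injective (hb h)
  have hV' : StepV V v (E ∪ univ.image (fun j : ν => b (Sum.inr j))) (E.card + Kν) := by
    refine J8_step_mono hV (Finset.union_subset_union_right ?_)
    intro x hx
    obtain ⟨i, _, hbi⟩ := Finset.mem_image.1 hx
    exact Finset.mem_image.2 ⟨Sum.inr i, Finset.mem_univ _, hbi⟩
  have hT := tbigV P z r0 r1 Kν hP hz hr0 hr1 hK hD hD1 V hV0 hv (fun j : ν => b (Sum.inr j)) hb' E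
    hE' hV'
  obtain ⟨w, hw⟩ : ∃ w : (P → Option ν) → ℝ, w = fun γ => y5 P z r0 r1 γ ^ 2 *
        (v * V (E ∪ su P (fun j => b (Sum.inr j)) γ)) *
          ((if (z : ℝ) ^ r1 < rr (sp P γ) then 1 else 0) + ε ^ 2) := ⟨_, rfl⟩
  have hw0 : ∀ γ, 0 ≤ w γ := by
    intro γ
    rw [hw]
    refine mul_nonneg (mul_nonneg (sq_nonneg _) (mul_nonneg hv (hV0 _))) ?_
    split_ifs
    · positivity
    · positivity
  have hJ6 := sum_yM_le P hP' z q0 a I L (κ := κ) w hw0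
  have hG0 : 0 ≤ G2s P z q0 a I ^ Fintype.card κ := by
    refine pow_nonneg ?_ _
    unfold G2s
    refine Finset.sum_nonneg fun A hA => div_nonneg (sq_nonneg _) ?_
    exact (ph_pos P hP' (Finset.mem_powerset.1 hA)).le
  have h1 : ∑ j : ν, ∑ β : P → Option (κ ⊕ ν),
      yCol P (Sum.inr j) (yJ P z q0 a I L r0 r1) β ^ 2 *
        V (insert (b (Sum.inr j)) (E ∪ su P b β)) / ph (sp P β) ≤
      ∑ _j : ν, ∑ β : P → Option (κ ⊕ ν),
        yM P z q0 a I L (bL P β) ^ 2 * w (bR P β) / ph (sp P β) := by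
    refine Finset.sum_le_sum fun j _ => Finset.sum_le_sum fun β _ => ?_
    have h2 := J8_term P z q0 a I L r0 r1 Kν hP hz hr0 hK hD hD1 V hV0 hv b hb E hE hE' hV hε j β
    rw [hw]
    exact h2
  have h2 : ∑ γ : P → Option ν, w γ / ph (sp P γ) =
      v * ((∑ γ : P → Option ν, (if (z : ℝ) ^ r1 < rr (sp P γ) then
        y5 P z r0 r1 γ ^ 2 * V (E ∪ su P (fun j => b (Sum.inr j)) γ) / ph (sp P γ) else 0)) +
        ε ^ 2 * dgV P V (fun j => b (Sum.inr j)) E (y5 P z r0 r1)) := by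
    unfold dgV
    rw [Finset.mul_sum, ← Finset.sum_add_distrib, Finset.mul_sum]
    refine Finset.sum_congr rfl fun γ _ => ?_
    rw [hw]
    split_ifs with h3
    · simp only [if_pos h3]
      ring
    · simp only [if_neg h3]
      ring
  rw [Finset.sum_const, Finset.card_univ, nsmul_eq_mul] at h1
  refine h1.trans ?_
  have h3 : v * ((∑ γ : P → Option ν, (if (z : ℝ) ^ r1 < rr (sp P γ) then
        y5 P z r0 r1 γ ^ 2 * V (E ∪ su P (fun j => b (Sum.inr j)) γ) / ph (sp P γ) else 0)) +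
        ε ^ 2 * dgV P V (fun j => b (Sum.inr j)) E (y5 P z r0 r1)) ≤
      v * ((Fintype.card ν * v / (Dn P z r0 r1 * (r1 * Real.log z))) *
        dgV P V (fun j => b (Sum.inr j)) E (y5 P z r0 r1) +
        ε ^ 2 * dgV P V (fun j => b (Sum.inr j)) E (y5 P z r0 r1)) :=
    mul_le_mul_of_nonneg_left (add_le_add_left hT _) hv
  calc (Fintype.card ν : ℝ) * ∑ β : P → Option (κ ⊕ ν),
        yM P z q0 a I L (bL P β) ^ 2 * w (bR P β) / ph (sp P β)
      ≤ (Fintype.card ν : ℝ) * (G2s P z q0 a I ^ Fintype.card κ *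
          ∑ γ : P → Option ν, w γ / ph (sp P γ)) :=
        mul_le_mul_of_nonneg_left hJ6 (Nat.cast_nonneg _)
    _ ≤ (Fintype.card ν : ℝ) * (G2s P z q0 a I ^ Fintype.card κ *
          (v * ((Fintype.card ν * v / (Dn P z r0 r1 * (r1 * Real.log z))) *
        dgV P V (fun j => b (Sum.inr j)) E (y5 P z r0 r1) +
        ε ^ 2 * dgV P V (fun j => b (Sum.inr j)) E (y5 P z r0 r1)))) := by
        refine mul_le_mul_of_nonneg_left (mul_le_mul_of_nonneg_left ?_ hG0) (Nat.cast_nonneg _)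
        rw [h2]
        exact h3
    _ = _ := by ring

end Pool.Agent.LibSC93
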