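import Pool.Agent.LibSC93.J1
import Pool.Agent.LibLG5.M1
import Pool.Agent.LibLG5.M4
import Pool.Agent.LibPL63.M1

/-!
Row J4 (the collapsed coefficients of `yJ`). For `β` avoiding `inl i0` and `A ⊆ P \ sp β`: `fb (ins (inl i0) A β) (inl i0) = A`, the other `fb` are unchanged (`LibLG5.M4`: `fb_ins_self`, `fb_ins_ne`), `bR (ins (inl i0) A β) = bR β`,
`sp (bL (ins (inl i0) A β)) = A ∪ sp (bL β)` (disjoint), so `rr` of it is `rr A * rr (sp (bL β))`; `g1 ∅ = 1` (`g1_empty`), `fb β (inl i0) = ∅`. In the same way for `inr j0` with `f5` (`f5_empty`); in `yCol_inr`, if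
`rr (sp (bR β)) > z^(2 r1)` both sides are `0` (`rr A ≥ 1`).
-/

open Finset

namespace Pool.Agent.LibSC93

open Pool.Agent.LibRG87 Pool.Agent.LibLG5 Pool.Agent.LibPL63

variable {κ ν : Type} [Fintype κ] [DecidableEq κ] [Fintype ν] [DecidableEq ν] (P : Finset ℕ)

theorem yCol_of_not {ι : Type} [Fintype ι] [DecidableEq ι] (i0 : ι) (y : (P → Option ι) → ℝ)
    (β : P → Option ι) (h : ¬ ∀ p, β p ≠ some i0) : yCol P i0 y β = 0 := by
  unfold yCol
  rw [if_neg h]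

private theorem J4_sub_bL {A : Finset ℕ} {β : P → Option (κ ⊕ ν)} (hA : A ⊆ P \ sp P β) :
    A ⊆ P \ sp P (bL P β) := by
  intro p hp
  have h1 := Finset.mem_sdiff.1 (hA hp)
  refine Finset.mem_sdiff.2 ⟨h1.1, fun h2 => h1.2 ?_⟩
  rw [sp_bLR]
  exact Finset.mem_union_left _ h2

private theorem J4_sub_bR {A : Finset ℕ} {β : P → Option (κ ⊕ ν)} (hA : A ⊆ P \ sp P β) :
    A ⊆ P \ sp P (bR P β) := by
  intro p hp
  have h1 := Finset.mem_sdiff.1 (hA hp)
  refine Finset.mem_sdiff.2 ⟨h1.1, fun h2 => h1.2 ?_⟩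
  rw [sp_bLR]
  exact Finset.mem_union_right _ h2

private theorem J4_ne_bL {i0 : κ} {β : P → Option (κ ⊕ ν)}
    (hβ : ∀ p, β p ≠ some (Sum.inl i0)) : ∀ p, bL P β p ≠ some i0 := by
  intro p h
  unfold bL at h
  cases hp : β p with
  | none => rw [hp] at h; simp at h
  | some s =>
    rw [hp] at h
    cases s with
    | inl i =>
      simp only [Option.bind_some, Sum.getLeft?_inl, Option.some.injEq] at h
      rw [h] at hp
      exact hβ p hp
    | inr j => simp at h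

private theorem J4_ne_bR {j0 : ν} {β : P → Option (κ ⊕ ν)}
    (hβ : ∀ p, β p ≠ some (Sum.inr j0)) : ∀ p, bR P β p ≠ some j0 := by
  intro p h
  unfold bR at h
  cases hp : β p with
  | none => rw [hp] at h; simp at h
  | some s =>
    rw [hp] at h
    cases s with
    | inl i => simp at h
    | inr j =>
      simp only [Option.bind_some, Sum.getRight?_inr, Option.some.injEq] at h
      rw [h] at hp
      exact hβ p hp

private theorem J4_bL_ins_inl (i0 : κ) {A : Finset ℕ} {β : P → Option (κ ⊕ ν)}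
    (hA : A ⊆ P \ sp P β) : bL P (ins P (Sum.inl i0) A β) = ins P i0 A (bL P β) := by
  funext p
  by_cases hp : (p : ℕ) ∈ A
  · rw [M4_ins_mem P i0 hp]
    unfold bL
    rw [M4_ins_mem P (Sum.inl i0) hp]
    rfl
  · rw [M4_ins_notMem P i0 hp]
    unfold bL
    rw [M4_ins_notMem P (Sum.inl i0) hp]

private theorem J4_bR_ins_inl (i0 : κ) {A : Finset ℕ} {β : P → Option (κ ⊕ ν)}
    (hA : A ⊆ P \ sp P β) : bR P (ins P (Sum.inl i0) A β) = bR P β := by
  funext p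
  unfold bR
  by_cases hp : (p : ℕ) ∈ A
  · rw [M4_ins_mem P (Sum.inl i0) hp, M4_none P hA hp]
    rfl
  · rw [M4_ins_notMem P (Sum.inl i0) hp]

private theorem J4_bR_ins_inr (j0 : ν) {A : Finset ℕ} {β : P → Option (κ ⊕ ν)}
    (hA : A ⊆ P \ sp P β) : bR P (ins P (Sum.inr j0) A β) = ins P j0 A (bR P β) := by
  funext p
  by_cases hp : (p : ℕ) ∈ A
  · rw [M4_ins_mem P j0 hp]
    unfold bR
    rw [M4_ins_mem P (Sum.inr j0) hp]
    rfl
  · rw [M4_ins_notMem P j0 hp]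
    unfold bR
    rw [M4_ins_notMem P (Sum.inr j0) hp]

private theorem J4_bL_ins_inr (j0 : ν) {A : Finset ℕ} {β : P → Option (κ ⊕ ν)}
    (hA : A ⊆ P \ sp P β) : bL P (ins P (Sum.inr j0) A β) = bL P β := by
  funext p
  unfold bL
  by_cases hp : (p : ℕ) ∈ A
  · rw [M4_ins_mem P (Sum.inr j0) hp, M4_none P hA hp]
    rfl
  · rw [M4_ins_notMem P (Sum.inr j0) hp]

private theorem J4_prod {ι : Type} [Fintype ι] [DecidableEq ι] (g : Finset ℕ → ℝ) (hg : g ∅ = 1)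
    (i0 : ι) {A : Finset ℕ} {γ : P → Option ι} (hγ : ∀ p, γ p ≠ some i0) (hA : A ⊆ P \ sp P γ) :
    ∏ i, g (fb P (ins P i0 A γ) i) = g A * ∏ i, g (fb P γ i) := by
  rw [← Finset.mul_prod_erase Finset.univ (fun i => g (fb P (ins P i0 A γ) i)) (Finset.mem_univ i0),
    ← Finset.mul_prod_erase Finset.univ (fun i => g (fb P γ i)) (Finset.mem_univ i0),
    fb_ins_self P i0 hγ hA, fb_self_eq_empty P hγ, hg, one_mul]
  congr 1
  refine Finset.prod_congr rfl fun i hi => ?_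
  rw [fb_ins_ne P i0 hγ hA (Finset.ne_of_mem_erase hi)]

theorem yCol_inl (z q0 a I L r0 r1 : ℕ) (hz : 1 ≤ z) (i0 : κ) (β : P → Option (κ ⊕ ν))
    (hβ : ∀ p, β p ≠ some (Sum.inl i0)) :
    yCol P (Sum.inl i0) (yJ P z q0 a I L r0 r1) β =
      (∏ i, g1 z q0 a I (fb P (bL P β) i)) * gS P z q0 a I L (sp P β) (rr (sp P (bL P β))) *
        y5 P z r0 r1 (bR P β) := by
  classical
  unfold yCol gS
  rw [if_pos hβ, Finset.sum_filter, Finset.mul_sum, Finset.sum_mul]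
  refine Finset.sum_congr rfl fun A hA => ?_
  rw [Finset.mem_powerset] at hA
  unfold yJ
  rw [J4_bR_ins_inl P i0 hA, J4_bL_ins_inl P i0 hA]
  unfold yM
  rw [rr_sp_ins P i0 (J4_ne_bL P hβ) (J4_sub_bL P hA),
    J4_prod P (g1 z q0 a I) (g1_empty hz) i0 (J4_ne_bL P hβ) (J4_sub_bL P hA)]
  by_cases h : rr A * rr (sp P (bL P β)) ≤ (z : ℝ) ^ L
  · rw [if_pos h, if_pos h]
    ring
  · rw [if_neg h, if_neg h]
    ring

theorem yCol_inr (hP : ∀ p ∈ P, Nat.Prime p) (z q0 a I L r0 r1 : ℕ) (j0 : ν)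
    (β : P → Option (κ ⊕ ν)) (hβ : ∀ p, β p ≠ some (Sum.inr j0)) :
    yCol P (Sum.inr j0) (yJ P z q0 a I L r0 r1) β =
      yJ P z q0 a I L r0 r1 β * cS P z r0 r1 (sp P β) (rr (sp P (bR P β))) := by
  classical
  unfold yCol cS
  rw [if_pos hβ, Finset.sum_filter, Finset.mul_sum]
  refine Finset.sum_congr rfl fun A hA => ?_
  rw [Finset.mem_powerset] at hA
  unfold yJ
  rw [J4_bR_ins_inr P j0 hA, J4_bL_ins_inr P j0 hA]
  unfold y5
  rw [rr_sp_ins P j0 (J4_ne_bR P hβ) (J4_sub_bR P hA),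
    J4_prod P (f5 P z r0 r1) (f5_empty P z r0 r1) j0 (J4_ne_bR P hβ) (J4_sub_bR P hA)]
  by_cases h : rr A * rr (sp P (bR P β)) ≤ (z : ℝ) ^ (2 * r1)
  · have hA1 : 1 ≤ rr A := one_le_rr P hP (hA.trans Finset.sdiff_subset)
    have hS : 0 < rr (sp P (bR P β)) := rr_pos P hP (sp_subset P _)
    have h2 : rr (sp P (bR P β)) ≤ (z : ℝ) ^ (2 * r1) := by nlinarith
    rw [if_pos h, if_pos h, if_pos h2]
    ring
  · rw [if_neg h, if_neg h]
    ring

end Pool.Agent.LibSC93
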