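import Pool.Agent.LibSC93.J4
import Pool.Agent.LibSC93.K1
import Pool.Agent.LibLG5.M2

/-!
Row J5 (bounds and supports). `|yM| ≤ 1` (`yM_abs_le`), `|y5| ≤ 1` (`y5_abs_le`), `yM_supp`, `y5_supp` (`|sui| ≤ Kν` from `2 r1 ≤ Kν r0`), `rr (sp β) = rr (sp (bL β)) rr (sp (bR β))` (`rr_bLR`), `card_sui_le`.
Collapsed at `inl i0` (`yCol_inl`): `∏ g1 ≤ 1`, `gS ≤ G1s` (all terms `≥ 0`), zero if `rr (sp (bL β)) > z^L` (then the sum `gS` is empty) or if `y5 (bR β) = 0`. Collapsed at `inr j0` (`yCol_inr`): `0 ≤ cS ≤ 1` (K1).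
`alw P (univ.erase i) β` means: no prime has `β p = some i`.
-/

open Finset

namespace Pool.Agent.LibSC93

open Pool.Agent.LibRG87 Pool.Agent.LibLG5 Pool.Agent.LibPL63

variable {κ ν : Type} [Fintype κ] [DecidableEq κ] [Fintype ν] [DecidableEq ν] (P : Finset ℕ)
variable {z a r0 r1 : ℕ}

private theorem J5_supp (hP : ∀ p ∈ P, Nat.Prime p) {L Kν : ℕ} {β : P → Option (κ ⊕ ν)}
    (h1 : rr (sp P (bL P β)) ≤ (z : ℝ) ^ L) (h2 : rr (sp P (bR P β)) ≤ (z : ℝ) ^ (2 * r1))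
    (h3 : (sui P (bR P β)).card ≤ Kν) :
    rr (sp P β) ≤ (z : ℝ) ^ (L + 2 * r1) ∧ (sui P β).card ≤ Fintype.card κ + Kν := by
  constructor
  · rw [rr_bLR, pow_add]
    exact mul_le_mul h1 h2 (zero_le_one.trans (one_le_rr P hP (sp_subset P _))) (by positivity)
  · exact (card_sui_le P β).trans (Nat.add_le_add_left h3 _)

private theorem J5_alw {ι : Type} [Fintype ι] [DecidableEq ι] {i0 : ι} {β : P → Option ι}
    (hβ : ∀ p, β p ≠ some i0) : alw P (univ.erase i0) β := by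
  intro p i hpi
  rw [Finset.mem_erase]
  refine ⟨?_, Finset.mem_univ i⟩
  rintro rfl
  exact hβ p hpi

private theorem J5_gS_nonneg (hP : ∀ p ∈ P, Nat.Prime p) (z q0 a I L : ℕ) (S : Finset ℕ) (R : ℝ) :
    0 ≤ gS P z q0 a I L S R := by
  unfold gS
  refine Finset.sum_nonneg fun A hA => ?_
  rw [Finset.mem_filter, Finset.mem_powerset] at hA
  exact div_nonneg (g1_nonneg z q0 a I A) (ph_pos P hP (hA.1.trans Finset.sdiff_subset)).le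

private theorem J5_gS_le (hP : ∀ p ∈ P, Nat.Prime p) (z q0 a I L : ℕ) (S : Finset ℕ) (R : ℝ) :
    gS P z q0 a I L S R ≤ G1s P z q0 a I := by
  unfold gS G1s
  refine Finset.sum_le_sum_of_subset_of_nonneg ?_ fun A hA _ =>
    div_nonneg (g1_nonneg z q0 a I A) (ph_pos P hP (Finset.mem_powerset.1 hA)).le
  intro A hA
  rw [Finset.mem_filter, Finset.mem_powerset] at hA
  exact Finset.mem_powerset.2 (hA.1.trans Finset.sdiff_subset)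

private theorem J5_gS_ne (hP : ∀ p ∈ P, Nat.Prime p) {z q0 a I L : ℕ} {S : Finset ℕ} {R : ℝ}
    (h : gS P z q0 a I L S R ≠ 0) (hR : 0 ≤ R) : R ≤ (z : ℝ) ^ L := by
  by_contra h1
  apply h
  unfold gS
  refine Finset.sum_eq_zero fun A hA => ?_
  exfalso
  rw [Finset.mem_filter, Finset.mem_powerset] at hA
  have h3 : 1 ≤ rr A := one_le_rr P hP (hA.1.trans Finset.sdiff_subset)
  apply h1
  refine le_trans ?_ hA.2
  nlinarith

theorem yJ_abs_le (hP : ∀ p ∈ P, Nat.Prime p) (hz : 2 ≤ z) (ha : 1 ≤ a) (hr0 : 1 ≤ r0)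
    (hD : 0 < Dn P z r0 r1) (hD1 : 1 ≤ Dn P z r0 r1 * (r0 * Real.log z)) (q0 I L : ℕ)
    (β : P → Option (κ ⊕ ν)) : |yJ P z q0 a I L r0 r1 β| ≤ 1 := by
  unfold yJ
  rw [abs_mul]
  calc |yM P z q0 a I L (bL P β)| * |y5 P z r0 r1 (bR P β)| ≤ 1 * 1 :=
        mul_le_mul (yM_abs_le P ha L _) (y5_abs_le P z r0 r1 hP hz hr0 hD hD1 _) (abs_nonneg _)
          zero_le_one
    _ = 1 := one_mul 1

theorem yJ_supp (hP : ∀ p ∈ P, Nat.Prime p) (hz : 2 ≤ z) (hr0 : 1 ≤ r0) {Kν : ℕ}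
    (hK : 2 * r1 ≤ Kν * r0) (q0 I L : ℕ) {β : P → Option (κ ⊕ ν)}
    (h : yJ P z q0 a I L r0 r1 β ≠ 0) :
    rr (sp P β) ≤ (z : ℝ) ^ (L + 2 * r1) ∧ (sui P β).card ≤ Fintype.card κ + Kν := by
  unfold yJ at h
  have h1 := yM_supp P (left_ne_zero_of_mul h)
  have h2 := y5_supp P z r0 r1 hP hz hr0 hK _ (right_ne_zero_of_mul h)
  exact J5_supp P hP h1.1 h2.1 h2.2

theorem yColL_abs_le (hP : ∀ p ∈ P, Nat.Prime p) (hz : 2 ≤ z) (ha : 1 ≤ a) (hr0 : 1 ≤ r0)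
    (hD : 0 < Dn P z r0 r1) (hD1 : 1 ≤ Dn P z r0 r1 * (r0 * Real.log z)) (q0 I L : ℕ) (i0 : κ)
    (β : P → Option (κ ⊕ ν)) :
    |yCol P (Sum.inl i0) (yJ P z q0 a I L r0 r1) β| ≤ G1s P z q0 a I := by
  have hG := G1s_nonneg P hP z q0 a I
  by_cases hβ : ∀ p, β p ≠ some (Sum.inl i0)
  · rw [yCol_inl P z q0 a I L r0 r1 (by omega) i0 β hβ, abs_mul, abs_mul]
    have h1 : |∏ i, g1 z q0 a I (fb P (bL P β) i)| ≤ 1 := by
      rw [abs_of_nonneg (Finset.prod_nonneg fun i _ => g1_nonneg _ _ _ _ _)]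
      exact Finset.prod_le_one (fun i _ => g1_nonneg _ _ _ _ _) (fun i _ => g1_le_one ha _)
    have h2 : |gS P z q0 a I L (sp P β) (rr (sp P (bL P β)))| ≤ G1s P z q0 a I := by
      rw [abs_of_nonneg (J5_gS_nonneg P hP _ _ _ _ _ _ _)]
      exact J5_gS_le P hP _ _ _ _ _ _ _
    have h3 := y5_abs_le P z r0 r1 hP hz hr0 hD hD1 (bR P β)
    calc _ ≤ (1 * G1s P z q0 a I) * 1 :=
          mul_le_mul (mul_le_mul h1 h2 (abs_nonneg _) zero_le_one) h3 (abs_nonneg _)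
            (mul_nonneg zero_le_one hG)
      _ = _ := by rw [one_mul, mul_one]
  · rw [yCol_of_not P _ _ β hβ, abs_zero]
    exact hG

theorem yColL_supp (hP : ∀ p ∈ P, Nat.Prime p) (hz : 2 ≤ z) (hr0 : 1 ≤ r0) {Kν : ℕ}
    (hK : 2 * r1 ≤ Kν * r0) (q0 I L : ℕ) (i0 : κ) {β : P → Option (κ ⊕ ν)}
    (h : yCol P (Sum.inl i0) (yJ P z q0 a I L r0 r1) β ≠ 0) :
    rr (sp P β) ≤ (z : ℝ) ^ (L + 2 * r1) ∧ alw P (univ.erase (Sum.inl i0)) β ∧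
      (sui P β).card ≤ Fintype.card κ + Kν := by
  by_cases hβ : ∀ p, β p ≠ some (Sum.inl i0)
  · rw [yCol_inl P z q0 a I L r0 r1 (by omega) i0 β hβ] at h
    have h5 := y5_supp P z r0 r1 hP hz hr0 hK _ (right_ne_zero_of_mul h)
    have hg : gS P z q0 a I L (sp P β) (rr (sp P (bL P β))) ≠ 0 :=
      right_ne_zero_of_mul (left_ne_zero_of_mul h)
    have hL := J5_gS_ne P hP hg (zero_le_one.trans (one_le_rr P hP (sp_subset P _)))
    have h6 := J5_supp P hP hL h5.1 h5.2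
    exact ⟨h6.1, J5_alw P hβ, h6.2⟩
  · exact absurd (yCol_of_not P _ _ β hβ) h

theorem yColR_abs_le (hP : ∀ p ∈ P, Nat.Prime p) (hz : 2 ≤ z) (ha : 1 ≤ a) (hr0 : 1 ≤ r0)
    (hD : 0 < Dn P z r0 r1) (hD1 : 1 ≤ Dn P z r0 r1 * (r0 * Real.log z)) (q0 I L : ℕ) (j0 : ν)
    (β : P → Option (κ ⊕ ν)) :
    |yCol P (Sum.inr j0) (yJ P z q0 a I L r0 r1) β| ≤ 1 := by
  by_cases hβ : ∀ p, β p ≠ some (Sum.inr j0)
  · rw [yCol_inr P hP z q0 a I L r0 r1 j0 β hβ, abs_mul]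
    have hR : 0 ≤ rr (sp P (bR P β)) := zero_le_one.trans (one_le_rr P hP (sp_subset P _))
    have h1 := yJ_abs_le P hP hz ha hr0 hD hD1 q0 I L β
    have h2 : |cS P z r0 r1 (sp P β) (rr (sp P (bR P β)))| ≤ 1 := by
      rw [abs_of_nonneg (cS_nonneg P hP hz hD _ hR)]
      exact cS_le_one P hP hz hD _ hR
    calc _ ≤ (1 : ℝ) * 1 := mul_le_mul h1 h2 (abs_nonneg _) zero_le_one
      _ = 1 := one_mul 1
  · rw [yCol_of_not P _ _ β hβ, abs_zero]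
    exact zero_le_one

theorem yColR_supp (hP : ∀ p ∈ P, Nat.Prime p) (hz : 2 ≤ z) (hr0 : 1 ≤ r0) {Kν : ℕ}
    (hK : 2 * r1 ≤ Kν * r0) (q0 I L : ℕ) (j0 : ν) {β : P → Option (κ ⊕ ν)}
    (h : yCol P (Sum.inr j0) (yJ P z q0 a I L r0 r1) β ≠ 0) :
    rr (sp P β) ≤ (z : ℝ) ^ (L + 2 * r1) ∧ alw P (univ.erase (Sum.inr j0)) β ∧
      (sui P β).card ≤ Fintype.card κ + Kν := by
  by_cases hβ : ∀ p, β p ≠ some (Sum.inr j0)
  · rw [yCol_inr P hP z q0 a I L r0 r1 j0 β hβ] at h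
    have h6 := yJ_supp P hP hz hr0 hK q0 I L (left_ne_zero_of_mul h)
    exact ⟨h6.1, J5_alw P hβ, h6.2⟩
  · exact absurd (yCol_of_not P _ _ β hβ) h

end Pool.Agent.LibSC93
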