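import Pool.Agent.LibSC93.T5

/-!
LibSC93, file T6: the final statement.
-/

open Finset Filter

namespace Pool.Agent.LibSC93

open Pool.Agent.LibRG87 Pool.Agent.LibLG5 Pool.Agent.LibPL63

theorem T6_eta {k : ℕ} (t : Fin k → ℝ) (ε L : ℝ) (ht : StrictMono t) (htL : ∀ i, 0 ≤ t i ∧ t i < L)
    (hε : 0 < ε) : ∃ η : ℝ, 0 < η ∧ η ≤ ε ∧ (∀ i, t i + η ≤ L) ∧ ∀ i j, i < j → t i + η ≤ t j := by
  have hpos : ∀ a : ℝ, 0 < a → ∀ᶠ η : ℝ in nhdsWithin 0 (Set.Ioi 0), η ≤ a := by
    intro a ha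
    filter_upwards [Ioo_mem_nhdsGT ha] with η hη
    exact hη.2.le
  have h0 : ∀ᶠ η : ℝ in nhdsWithin 0 (Set.Ioi 0), 0 < η := self_mem_nhdsWithin
  have h1 : ∀ᶠ η : ℝ in nhdsWithin 0 (Set.Ioi 0), ∀ i, t i + η ≤ L := by
    rw [Filter.eventually_all]
    intro i
    filter_upwards [hpos (L - t i) (by linarith [(htL i).2])] with η hη
    linarith
  have h2 : ∀ᶠ η : ℝ in nhdsWithin 0 (Set.Ioi 0), ∀ i j, i < j → t i + η ≤ t j := by
    rw [Filter.eventually_all]
    intro i
    rw [Filter.eventually_all]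
    intro j
    by_cases hij : i < j
    · filter_upwards [hpos (t j - t i) (by linarith [ht hij])] with η hη _
      linarith
    · exact Filter.Eventually.of_forall fun η h => absurd h hij
  exact (h0.and ((hpos ε hε).and (h1.and h2))).exists

/-- the event of the final statement -/
def Ev {k : ℕ} (m : ℕ) (t : Fin k → ℝ) (ε L : ℝ) (n : ℕ) : Prop :=
  ∃ (S : Finset (Fin k)) (f : Fin k → ℕ), m ≤ S.card ∧ StrictMonoOn f S ∧
    (Ioc n ⌊(n : ℝ) + L * Real.log n⌋₊).filter Nat.Prime = S.image f ∧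
    ∀ i ∈ S, t i * Real.log n < (f i : ℝ) - n ∧ (f i : ℝ) - n < (t i + ε) * Real.log n

theorem T6_event {k m n : ℕ} {t : Fin k → ℝ} {ε L η x U : ℝ} (ht0 : ∀ i, 0 ≤ t i)
    (hη : 0 < η) (hηε : η ≤ ε) (hηL : ∀ i, t i + η ≤ L) (hηt : ∀ i j, i < j → t i + η ≤ t j)
    (hU : 0 ≤ U) (hL : 0 < L) (hx1 : 4 * L * U < η * x) (hxU : U ≤ x) (hx0 : 0 < x)
    (hn1 : Real.exp (x - U) < n) (hn2 : (n : ℝ) ≤ Real.exp (x + U))
    (hG : Gd m (fun i => ⌈(t i + η / 4) * x⌉₊) (fun i => ⌊(t i + η / 2) * x⌋₊)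
      ⌊L * (x + U)⌋₊ n) : Ev m t ε L n := by
  obtain ⟨h, hh, hm, hp⟩ := hG
  have hn0 : (0 : ℝ) < n := (Real.exp_pos _).trans hn1
  have hlog1 : x - U < Real.log n := (Real.lt_log_iff_exp_lt hn0).2 hn1
  have hlog2 : Real.log n ≤ x + U := (Real.log_le_iff_le_exp hn0).2 hn2
  have hlog0 : 0 ≤ Real.log n := by linarith
  have hlow : ∀ i, (t i + η / 4) * x < h i := by
    intro i
    have h1 : (⌈(t i + η / 4) * x⌉₊ : ℝ) < h i := by exact_mod_cast (hh i).1
    exact (Nat.le_ceil _).trans_lt h1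
  have hup : ∀ i, (h i : ℝ) ≤ (t i + η / 2) * x := by
    intro i
    have h1 : (h i : ℝ) ≤ (⌊(t i + η / 2) * x⌋₊ : ℝ) := by exact_mod_cast (hh i).2
    refine h1.trans (Nat.floor_le ?_)
    have := ht0 i
    positivity
  have hhpos : ∀ i, 0 < h i := fun i => lt_of_le_of_lt (Nat.zero_le _) (hh i).1
  have htL : ∀ i, t i ≤ L := fun i => by linarith [hηL i]
  have hmono : StrictMono h := by
    intro i j hij
    have h1 := hup i
    have h2 := hlow j
    have h3 := hηt i j hij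
    have h4 : (t i + η / 2) * x ≤ (t j + η / 4) * x :=
      mul_le_mul_of_nonneg_right (by linarith) hx0.le
    have h5 : (h i : ℝ) < h j := by linarith
    exact_mod_cast h5
  -- upper bound through log n
  have hkey : ∀ i, (t i + η / 2) * x < (t i + η) * Real.log n := by
    intro i
    have h1 : (t i + η) * (x - U) ≤ (t i + η) * Real.log n := by
      refine mul_le_mul_of_nonneg_left hlog1.le ?_
      linarith [ht0 i]
    refine lt_of_lt_of_le ?_ h1
    have h2 : (t i + η) * U ≤ L * U := mul_le_mul_of_nonneg_right (hηL i) hU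
    have h3 : 0 ≤ L * U := by positivity
    nlinarith
  refine ⟨univ.filter fun i => (n + h i).Prime, fun i => n + h i, hm, ?_, ?_, ?_⟩
  · intro i _ j _ hij
    exact Nat.add_lt_add_left (hmono hij) n
  · ext p
    rw [Finset.mem_filter, Finset.mem_Ioc, Finset.mem_image]
    constructor
    · rintro ⟨⟨h1, h2⟩, h3⟩
      obtain ⟨a, rfl⟩ : ∃ a, p = n + a := ⟨p - n, by omega⟩
      have h4 : ((n + a : ℕ) : ℝ) ≤ (n : ℝ) + L * Real.log n := by
        refine (Nat.le_floor_iff ?_).1 h2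
        positivity
      push_cast at h4
      have h5 : (a : ℝ) ≤ L * (x + U) := by
        have h6 : L * Real.log n ≤ L * (x + U) := mul_le_mul_of_nonneg_left hlog2 hL.le
        linarith
      obtain ⟨i, hi⟩ := hp a (by omega) (Nat.le_floor h5) h3
      refine ⟨i, ?_, ?_⟩
      · rw [Finset.mem_filter]
        refine ⟨Finset.mem_univ _, ?_⟩
        rw [← hi]
        exact h3
      · show n + h i = n + a
        rw [hi]
    · rintro ⟨i, hi, rfl⟩
      rw [Finset.mem_filter] at hi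
      refine ⟨⟨?_, ?_⟩, hi.2⟩
      · have := hhpos i
        show n < n + h i
        omega
      · show n + h i ≤ _
        refine Nat.le_floor ?_
        push_cast
        have h1 := hup i
        have h2 := hkey i
        have h3 : (t i + η) * Real.log n ≤ L * Real.log n :=
          mul_le_mul_of_nonneg_right (hηL i) hlog0
        linarith
  · intro i _
    push_cast
    constructor
    · have h1 := hlow i
      have h2 : t i * Real.log n ≤ t i * (x + U) := mul_le_mul_of_nonneg_left hlog2 (ht0 i)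
      have h3 : t i * U ≤ L * U := mul_le_mul_of_nonneg_right (htL i) hU
      nlinarith
    · have h1 := hup i
      have h2 := hkey i
      have h3 : (t i + η) * Real.log n ≤ (t i + ε) * Real.log n :=
        mul_le_mul_of_nonneg_right (by linarith) hlog0
      linarith

theorem final (m : ℕ) (hSC : SCg m) : ∃ k : ℕ, 1 ≤ k ∧ ∀ (t : Fin k → ℝ) (ε L : ℝ), StrictMono t →
    (∀ i, 0 ≤ t i ∧ t i < L) → 0 < ε → ∃ c : ℝ, 0 < c ∧ ∀ᶠ x : ℕ in atTop,
      c * x ≤ (open scoped Classical in ((Icc 1 x).filter fun n : ℕ => Ev m t ε L n).card : ℝ) := by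
  classical
  obtain ⟨k, hk, hT5⟩ := T5 m hSC
  refine ⟨k, hk, fun t ε L ht htL hε => ?_⟩
  obtain ⟨η, hη, hηε, hηL, hηt⟩ := T6_eta t ε L ht htL hε
  have hL0 : 0 < L := by
    have h1 := (htL ⟨0, hk⟩).1
    have h2 := (htL ⟨0, hk⟩).2
    linarith
  obtain ⟨U, c, hU, hc, hX⟩ := hT5 (max L 1) (η / 8) (le_max_right _ _) (by positivity)
  refine ⟨c, hc, ?_⟩
  filter_upwards [hX (16 / η + 8 * L * U / η + U + 1)] with X hXX
  obtain ⟨x, hBx, hcount⟩ := hXX
  have h0a : 0 ≤ 16 / η := by positivity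
  have h0b : 0 ≤ 8 * L * U / η := by positivity
  have hx0 : 0 < x := by linarith
  have hxU : U ≤ x := by linarith
  have hx16 : 16 ≤ η * x := by
    have h1 : 16 / η ≤ x := by linarith
    rw [div_le_iff₀ hη] at h1
    linarith
  have hxL : 4 * L * U < η * x := by
    have h1 : 16 / η + 8 * L * U / η ≤ x := by linarith
    rw [← add_div, div_le_iff₀ hη] at h1
    have h2 : 0 ≤ L * U := by positivity
    linarith
  refine (hcount (fun i => ⌈(t i + η / 4) * x⌉₊) (fun i => ⌊(t i + η / 2) * x⌋₊)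
    ⌊L * (x + U)⌋₊ ?_ ?_ ?_ ?_).trans ?_
  · intro i j hij
    have h1 : (⌊(t i + η / 2) * x⌋₊ : ℝ) ≤ (t i + η / 2) * x := by
      refine Nat.floor_le ?_
      have := (htL i).1
      positivity
    have h2 := Nat.le_ceil ((t j + η / 4) * x)
    have h3 := hηt i j hij
    have h4 : (t i + η / 2) * x ≤ (t j + η / 4) * x :=
      mul_le_mul_of_nonneg_right (by linarith) hx0.le
    have h5 : (⌊(t i + η / 2) * x⌋₊ : ℝ) ≤ (⌈(t j + η / 4) * x⌉₊ : ℝ) := by linarith
    exact_mod_cast h5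
  · intro i
    refine Nat.floor_le_floor ?_
    have h1 := hηL i
    have h2 : (t i + η / 2) * x ≤ L * x := mul_le_mul_of_nonneg_right (by linarith) hx0.le
    have h3 : L * x ≤ L * (x + U) := mul_le_mul_of_nonneg_left (by linarith) hL0.le
    exact h2.trans h3
  · intro i
    have h1 := Nat.lt_floor_add_one ((t i + η / 2) * x)
    have h2 : (⌈(t i + η / 4) * x⌉₊ : ℝ) < (t i + η / 4) * x + 1 := by
      refine Nat.ceil_lt_add_one ?_
      have := (htL i).1
      positivity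
    nlinarith
  · have h1 : (⌊L * (x + U)⌋₊ : ℝ) ≤ L * (x + U) := Nat.floor_le (by positivity)
    exact h1.trans (mul_le_mul_of_nonneg_right (le_max_left _ _) (by linarith))
  · refine Nat.cast_le.2 (Finset.card_le_card ?_)
    intro n hn
    rw [Finset.mem_filter] at hn ⊢
    exact ⟨hn.1, T6_event (fun i => (htL i).1) hη hηε hηL hηt hU hL0 hxL hxU hx0 hn.2.1 hn.2.2.1
      hn.2.2.2⟩

end Pool.Agent.LibSC93
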