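import Pool.Agent.LibSC93.Defs
import Pool.Agent.LibLG5.NT
import Pool.Agent.LibPL63.V0

/-!
Row D1. `dnp`: `LibLG5.nt_D` (file LibLG5/NT57.lean) with `T = {p1}`; the subsets of `PP z (z^(A^J r0)) \ {p1}` are subsets of `PL z k1 p1` when `A^J r0 ≤ k1`, and the terms `1/(ph A log (rr A))` are nonnegative
(`rr A > z^r0 ≥ 1`). `merc`: `mert_lower` of LibPL63/V2.lean, inverted.
-/

open Finset Filter

namespace Pool.Agent.LibSC93

open Pool.Agent.LibRG87 Pool.Agent.LibLG5 Pool.Agent.LibPL63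

/-- lower bound for the normalising sum of the killing part -/
def DnP (A : ℕ) (cD : ℝ) : Prop :=
  2 ≤ A ∧ 0 < cD ∧ ∀ J r0 : ℕ, 1 ≤ r0 → ∀ᶠ z : ℕ in atTop, ∀ p1 k1 : ℕ, A ^ J * r0 ≤ k1 →
    cD * J / Real.log z ≤ Dn (PL z k1 p1) z r0 (A ^ J * r0)

theorem dnp : ∃ (A : ℕ) (cD : ℝ), DnP A cD := by
  classical
  obtain ⟨a, c, ha, hc, h⟩ := nt_D
  refine ⟨a, c, ha, hc, fun J r0 hr0 => ?_⟩
  filter_upwards [eventually_ge_atTop 2] with z hz
  intro p1 k1 hk1
  have h1 := h z J r0 hz hr0 {p1} (by rw [Finset.card_singleton]; omega)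
  refine h1.trans ?_
  unfold Dn
  have hsub : PP z (z ^ (a ^ J * r0)) \ {p1} ⊆ PL z k1 p1 := by
    intro p hp
    unfold PL
    rw [Finset.mem_sdiff, Finset.mem_singleton] at hp
    rw [Finset.mem_erase]
    refine ⟨hp.2, ?_⟩
    have h2 := nt_mem.1 hp.1
    exact nt_mem.2 ⟨h2.1, h2.2.1.trans (Nat.pow_le_pow_right (by omega) hk1), h2.2.2⟩
  refine Finset.sum_le_sum_of_subset_of_nonneg ?_ ?_
  · intro A hA
    rw [Finset.mem_filter, Finset.mem_powerset] at hA ⊢
    refine ⟨hA.1.trans hsub, ?_⟩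
    have h3 := hA.2
    push_cast at h3
    exact h3
  · intro A hA _
    rw [Finset.mem_filter, Finset.mem_powerset] at hA
    have hprime : ∀ p ∈ PL z k1 p1, Nat.Prime p := by
      intro p hp
      unfold PL at hp
      exact (nt_mem.1 (Finset.mem_of_mem_erase hp)).2.2
    have h3 : 0 < ph A := by
      unfold ph
      refine Finset.prod_pos fun p hp => ?_
      have h : (1 : ℝ) < (p : ℝ) := by exact_mod_cast (hprime p (hA.1 hp)).one_lt
      linarith
    have h4 : (1 : ℝ) ≤ rr A := by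
      have h5 : (1 : ℝ) ≤ (z : ℝ) ^ r0 := one_le_pow₀ (by exact_mod_cast (by omega : 1 ≤ z))
      exact h5.trans hA.2.1.le
    exact div_nonneg zero_le_one (mul_nonneg h3.le (Real.log_nonneg h4))

end Pool.Agent.LibSC93
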