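import Pool.Agent.LibPL63.Defs
import Pool.Agent.LibLG5.M0

/-!
LibSC93 (MP_ff81b6_nt, sparse clusters of primes in a positive proportion of the windows `(n, n + L log n]`): definitions.

As in LibPL63: `z → ∞` natural, `x = q log z`, small primes `P0 z p1`, large primes `PL z k1 p1`, `n ≡ c` modulo `Wp z p1`.
Positions `ι` with `b : ι → ℕ`; the function `Φ` contains the roughness indicator of `E` and of all positions which are used (as in LibLG5).
-/

open Finset

namespace Pool.Agent.LibSC93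

open Pool.Agent.LibRG87 Pool.Agent.LibLG5 Pool.Agent.LibPL63

section

variable {ι : Type} [Fintype ι] [DecidableEq ι] (P : Finset ℕ)

/-- the function with coefficients `y` and the roughness indicator of `E` and of the positions used -/
noncomputable def PhiS (Pr : Finset ℕ) (b : ι → ℕ) (y : (P → Option ι) → ℝ) (E : Finset ℕ) (n : ℕ) : ℝ :=
  ∑ β, y β * rhoP Pr (E ∪ su P b β) n * ee P b β n

/-- the diagonal, for a density function `V` -/
noncomputable def dgV (V : Finset ℕ → ℝ) (b : ι → ℕ) (E : Finset ℕ) (y : (P → Option ι) → ℝ) : ℝ :=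
  ∑ β, y β ^ 2 * V (E ∪ su P b β) / ph (sp P β)

open scoped Classical in
/-- the collapsed coefficients at the position `i0` -/
noncomputable def yCol (i0 : ι) (y : (P → Option ι) → ℝ) (β : P → Option ι) : ℝ :=
  if ∀ p, β p ≠ some i0 then ∑ A ∈ (P \ sp P β).powerset, y (ins P i0 A β) / ph A else 0

open scoped Classical in
/-- the collapsed factor of `f5`: configurations with set of primes `S`, level so far `R` -/
noncomputable def cS (z q0 k1 : ℕ) (S : Finset ℕ) (R : ℝ) : ℝ :=
  ∑ A ∈ (P \ S).powerset with (rr A * R ≤ (z : ℝ) ^ (2 * k1)), f5 P z q0 k1 A / ph A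

open scoped Classical in
/-- the collapsed factor of `g1` -/
noncomputable def gS (z q0 a I L : ℕ) (S : Finset ℕ) (R : ℝ) : ℝ :=
  ∑ A ∈ (P \ S).powerset with (rr A * R ≤ (z : ℝ) ^ L), g1 z q0 a I A / ph A

end

section

variable {κ ν : Type} (P : Finset ℕ)

/-- the part of the configuration on the first kind of positions -/
def bL (β : P → Option (κ ⊕ ν)) : P → Option κ := fun p => (β p).bind Sum.getLeft?

/-- the part of the configuration on the second kind of positions -/
def bR (β : P → Option (κ ⊕ ν)) : P → Option ν := fun p => (β p).bind Sum.getRight?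

/-- extension by `none` on `S` -/
def ext (S : Finset ℕ) (α : ↥(P \ S) → Option κ) : P → Option κ :=
  fun p => if h : (p : ℕ) ∈ P \ S then α ⟨p, h⟩ else none

variable [Fintype κ] [DecidableEq κ] [Fintype ν] [DecidableEq ν]

/-- the joint coefficients: Maynard part on `κ`, killing part on `ν` -/
noncomputable def yJ (z q0 a I L r0 r1 : ℕ) (β : P → Option (κ ⊕ ν)) : ℝ :=
  yM P z q0 a I L (bL P β) * y5 P z r0 r1 (bR P β)

end

/-- the step property of a density function `V`, with factor `v`, for the positions in `pos` -/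
def StepV (V : Finset ℕ → ℝ) (v : ℝ) (pos : Finset ℕ) (K : ℕ) : Prop :=
  ∀ (A : Finset ℕ) (x : ℕ), A ⊆ pos → A.card ≤ K → x ∈ pos → x ∉ A → V (insert x A) ≤ v * V A

/-! ### the interface -/

/-- the main proposition: at least `m` primes among the `k` positions of `h`, no prime among the positions of `K`, at most `M0` rough ones -/
def SCg (m : ℕ) : Prop := ∃ k : ℕ, 1 ≤ k ∧ ∀ Λ : ℝ, 1 ≤ Λ → ∃ (q M0 : ℕ) (κ : ℝ), 1 ≤ q ∧ 0 < κ ∧
  ∃ z0 : ℕ, ∀ z : ℕ, z0 ≤ z → ∃ p1 : ℕ, p1.Prime ∧ ∀ c : ℕ, ∀ h K : Finset ℕ, h.card = k → Disjoint h K →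
    (∀ a ∈ h ∪ K, (a : ℝ) ≤ Real.log z ^ 2 ∧ (c + a).Coprime (Wp z p1)) →
    K.card * V1p (P0 z p1) ≤ 4 * Λ * q →
    κ * (VP (P0 z p1) h / Wp z p1) ≤
      ∑ n ∈ clsU (q * Real.log z) (Wp z p1) c, omU (q * Real.log z) n *
        (rhoP (P0 z p1) h n * if m ≤ (h.filter fun a => (n + a).Prime).card ∧ (∀ a ∈ K, ¬ (n + a).Prime) ∧
          (K.filter fun a => ∀ p ∈ P0 z p1, ¬ p ∣ n + a).card ≤ M0 then 1 else 0)

end Pool.Agent.LibSC93
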