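import Pool.Agent.LibSC93.SB

/-!
Row QP (quadratic form, prime average at the position `a0`; `A = avgQ x p1 Dv (Wp z p1) c0 a0 lo`, `x = qS log z`, `lo = z^(120 LS)`). General coefficients `y` (used with `y = yCol (inl i0) YS / G1S`, `a0 = i0 ∈ h`, and `y = yCol (inr j) YS`, `a0 = j ∈ K`).
`hp.qf` (QFRp) with `k = kS`, `K = KS`, `k1 = q0S a^I`, `b0 = 2 LS`, `L = 2 LS + 2 q0S`, `ι = ↥h ⊕ ↥K`, `b = bS h K`, `J = univ.erase i0`, `E = h`, `v = V1p`, `VE = VP h * V1p^(…)`: `VA_avgQ`: `VA B = VP (insert a0 B)/V1p`.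
If `a0 ∈ h`: `VA (h ∪ B) = VP (h ∪ B)/V1p ≤ 4 V1p^|B \ h| (VP h/V1p)`. If `a0 ∉ h` (then `a0 ∉ B`): `VP (insert a0 (h ∪ B))/V1p ≤ 4 V1p^(|B \ h| + 1) VP h/V1p = 4 V1p^|B \ h| VP h` (`VP_step` with `insert a0 B`). In both cases
`VE = VP (insert a0 h) …` is bounded by `VP h * V1p⁻¹ ^ (if a0 ∈ h then 1 else 0)`, written below as `VE`. Remainder: `remA_avgQ` (`C = 2 kS`, `B = exp (-x^(1/4))`, `T = z^(8 LS + 4 q0S + 6)`, `Wp T ≤ z^(20 LS) = e^(x/24)`,
`lo + a0 ≤ e^(x/2)`), times `(log z)^N`, is `≤ exp (-(log z)^(1/5))` for large `z`. `smallOK_avgQ`, `locOK_avgQ`.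
-/

open Finset Filter

namespace Pool.Agent.LibSC93

open Pool.Agent.LibRG87 Pool.Agent.LibLG5 Pool.Agent.LibPL63

theorem QP_bound (N : ℕ) (q M : ℝ) (hq : 480 ≤ q) (hM : M ≤ 2 * q) : ∀ᶠ z : ℕ in atTop,
    Real.log z ^ N * (Real.exp (-(q * Real.log z) ^ ((1 : ℝ) / 4)) +
      Real.exp (-((q * Real.log z) ^ 2 / 16)) * Real.exp (M * Real.log z)) ≤
    Real.exp (-Real.log z ^ ((1 : ℝ) / 5)) := by
  have t1 : Tendsto (fun z : ℕ => Real.log (z : ℝ)) atTop atTop :=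
    Real.tendsto_log_atTop.comp tendsto_natCast_atTop_atTop
  have t2 : Tendsto (fun z : ℕ => Real.log (z : ℝ) ^ ((1 : ℝ) / 20)) atTop atTop :=
    (tendsto_rpow_atTop (by norm_num)).comp t1
  have t3 : Tendsto (fun u : ℝ => u ^ (20 * (N : ℝ)) * Real.exp (-1 * u)) atTop (nhds 0) :=
    tendsto_rpow_mul_exp_neg_mul_atTop_nhds_zero _ _ one_pos
  have t4 := (t3.comp t2).eventually (gt_mem_nhds (by norm_num : (0 : ℝ) < 1 / 2))
  filter_upwards [t1.eventually_ge_atTop (2 ^ 20), t4] with z hz h0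
  simp only [Function.comp, neg_mul, one_mul] at h0
  set l := Real.log (z : ℝ) with hl
  have hl1 : (1 : ℝ) ≤ l := le_trans (by norm_num) hz
  have hl0 : 0 < l := by linarith
  set u := l ^ ((1 : ℝ) / 20) with hu
  have hu2 : 2 ≤ u := by
    have h1 : ((2 : ℝ) ^ (20 : ℕ)) ^ ((1 : ℝ) / 20) ≤ l ^ ((1 : ℝ) / 20) :=
      Real.rpow_le_rpow (by norm_num) hz (by norm_num)
    rw [← Real.rpow_natCast, ← Real.rpow_mul (by norm_num)] at h1
    norm_num at h1
    exact h1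
  have h4 : l ^ ((1 : ℝ) / 5) = u ^ 4 := by
    rw [hu, ← Real.rpow_natCast, ← Real.rpow_mul hl0.le]
    norm_num
  have h5 : l ^ ((1 : ℝ) / 4) = u ^ 5 := by
    rw [hu, ← Real.rpow_natCast, ← Real.rpow_mul hl0.le]
    norm_num
  have h6 : u ^ 4 + u ≤ u ^ 5 := by
    have h61 : 1 ≤ u ^ 3 := one_le_pow₀ (by linarith)
    have h62 : u ≤ u ^ 4 := by nlinarith
    nlinarith
  have h7 : Real.exp (-(q * l) ^ ((1 : ℝ) / 4)) ≤ Real.exp (-(u ^ 5)) := by
    apply Real.exp_le_exp.2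
    rw [← h5, neg_le_neg_iff]
    exact Real.rpow_le_rpow hl0.le (by nlinarith) (by norm_num)
  have h8 : Real.exp (-((q * l) ^ 2 / 16)) * Real.exp (M * l) ≤ Real.exp (-(u ^ 5)) := by
    rw [← Real.exp_add]
    apply Real.exp_le_exp.2
    have h9 : u ^ 5 ≤ l := by
      rw [← h5]
      have := Real.rpow_le_rpow_of_exponent_le hl1 (by norm_num : (1 : ℝ) / 4 ≤ 1)
      rwa [Real.rpow_one] at this
    have h10 : M * l ≤ 2 * q * l := mul_le_mul_of_nonneg_right hM hl0.le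
    have h11 : (q * l) ^ 2 ≥ 480 * (q * l) := by
      have : 480 ≤ q * l := by nlinarith
      nlinarith
    nlinarith
  have hN : l ^ N = u ^ (20 * (N : ℝ)) := by
    rw [hu, ← Real.rpow_mul hl0.le, ← Real.rpow_natCast]
    congr 1
    ring
  have h9 : l ^ N * Real.exp (-u) < 1 / 2 := by rw [hN]; exact h0
  have h10 : Real.exp (-(u ^ 5)) ≤ Real.exp (-(u ^ 4)) * Real.exp (-u) := by
    rw [← Real.exp_add]
    apply Real.exp_le_exp.2
    linarith
  have hlN : 0 ≤ l ^ N := by positivity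
  have he4 := Real.exp_pos (-(u ^ 4))
  rw [h4]
  calc l ^ N * (Real.exp (-(q * l) ^ ((1 : ℝ) / 4)) +
        Real.exp (-((q * l) ^ 2 / 16)) * Real.exp (M * l)) ≤
      l ^ N * (2 * (Real.exp (-(u ^ 4)) * Real.exp (-u))) :=
        mul_le_mul_of_nonneg_left (by linarith) hlN
    _ = 2 * (l ^ N * Real.exp (-u)) * Real.exp (-(u ^ 4)) := by ring
    _ ≤ 1 * Real.exp (-(u ^ 4)) := mul_le_mul_of_nonneg_right (by linarith) he4.le
    _ = _ := one_mul _

open scoped Classical in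
theorem quP {C Cq Cm D a I A2 I2 r0 : ℕ} {c cD Λ τ : ℝ}
    (hp : ParS C Cq Cm D a I A2 I2 r0 c cD Λ τ) :
    ∀ᶠ z : ℕ in atTop, ∀ p1 : ℕ, p1.Prime → ∀ Dv : BVdata (qS D a I A2 I2 r0 * Real.log z) p1,
      ∑ r ∈ (Icc 1 ⌊Real.exp ((qS D a I A2 I2 r0 * Real.log z) / 24)⌋₊).filter
          (fun r => Squarefree r ∧ ¬ p1 ∣ r),
        ((2 * kS a I A2 I2 : ℕ) : ℝ) ^ r.primeFactors.card * Dv.er r ≤
          Real.exp (-(qS D a I A2 I2 r0 * Real.log z) ^ ((1 : ℝ) / 4)) →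
      ∀ (c0 : ℕ) (h K : Finset ℕ), PosS z p1 c0 (a ^ I) (Λ * qS D a I A2 I2 r0) h K →
      ∀ (i0 : ↥h ⊕ ↥K) (hc : (c0 + bS h K i0).Coprime (Wp z p1))
        (y : (PS a I A2 I2 r0 z p1 → Option (↥h ⊕ ↥K)) → ℝ), (∀ β, |y β| ≤ 1) →
        (∀ β, y β ≠ 0 →
          rr (sp (PS a I A2 I2 r0 z p1) β) ≤ (z : ℝ) ^ (2 * LS D a I A2 I2 r0 + 2 * q0S A2 I2 r0) ∧
          alw (PS a I A2 I2 r0 z p1) (univ.erase i0) β ∧
          (sui (PS a I A2 I2 r0 z p1) β).card ≤ KS a I A2 I2) →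
        |∑ n ∈ (avgQ (qS D a I A2 I2 r0 * Real.log z) p1 Dv (Wp z p1) c0 (bS h K i0)
              (z ^ (120 * LS D a I A2 I2 r0)) (Wp_pos z p1) hc).s,
            (avgQ (qS D a I A2 I2 r0 * Real.log z) p1 Dv (Wp z p1) c0 (bS h K i0)
              (z ^ (120 * LS D a I A2 I2 r0)) (Wp_pos z p1) hc).om n *
              PhiS (PS a I A2 I2 r0 z p1) (P0 z p1) (bS h K) y h n ^ 2 -
            Dv.M / (Wp z p1).totient * (dgV (PS a I A2 I2 r0 z p1)
              (fun B => VP (P0 z p1) (insert (bS h K i0) B) / V1p (P0 z p1)) (bS h K) h y)| ≤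
          Dv.M / (Wp z p1).totient * ((VP (P0 z p1) h / (if bS h K i0 ∈ h then V1p (P0 z p1) else 1)) *
            eS Cq D a I A2 I2 r0 Λ + 1 / Real.sqrt z) + Real.exp (-Real.log z ^ ((1 : ℝ) / 5)) := by
  have hA2 : 2 ≤ A2 := hp.dn.1
  have ha : 2 ≤ a := hp.sums.1
  have hk : 1 ≤ kS a I A2 I2 := by unfold kS; omega
  have hq0 : 1 ≤ q0S A2 I2 r0 := by
    have := hp.hr0
    have h2 : 1 ≤ A2 ^ I2 := Nat.one_le_pow _ _ (by omega)
    exact Nat.one_le_iff_ne_zero.2 (by unfold q0S; positivity)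
  have haI : 1 ≤ a ^ I := Nat.one_le_pow _ _ (by omega)
  have hk1 : 1 ≤ q0S A2 I2 r0 * a ^ I := Nat.one_le_iff_ne_zero.2 (by positivity)
  set L := LS D a I A2 I2 r0 with hL
  set q0 := q0S A2 I2 r0 with hq0d
  have hLq : q0 ≤ L := by
    rw [hL]; unfold LS LL
    have h1 := hp.hD1
    calc q0 = 1 * 1 * 1 * q0 := by ring
      _ ≤ D * a ^ I * (I + 1) * q0 := by gcongr; omega
  have hL1 : 1 ≤ L := hq0.trans hLq
  set Q : ℝ := (qS D a I A2 I2 r0 : ℝ) with hQ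
  have hQL : Q = 480 * L := by rw [hQ]; unfold qS; push_cast; rw [hL]
  have hLr : (1 : ℝ) ≤ L := by exact_mod_cast hL1
  have hqLr : (q0 : ℝ) ≤ L := by exact_mod_cast hLq
  have hQ480 : 480 ≤ Q := by rw [hQL]; linarith
  set N := Cq * (2 * L + 2 * q0 + 1) with hN
  set K' := KS a I A2 I2 with hK'
  set k := kS a I A2 I2 with hkd
  have hq := hp.qf k K' (q0 * a ^ I) (2 * L) (2 * L + 2 * q0) hk hk1 (even_two_mul _) hp.eps1
  have t1 : Tendsto (fun z : ℕ => Real.log (z : ℝ)) atTop atTop :=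
    Real.tendsto_log_atTop.comp tendsto_natCast_atTop_atTop
  have e1 : ∀ᶠ z : ℕ in atTop, Real.log (z : ℝ) ^ 2 ≤ z := by
    have h1 : ∀ᶠ x : ℝ in atTop, ‖Real.log x ^ 2‖ ≤ 1 * ‖id x‖ :=
      (Real.isLittleO_pow_log_id_atTop (n := 2)).bound one_pos
    filter_upwards [tendsto_natCast_atTop_atTop.eventually h1] with z h2
    simp only [id, one_mul, Real.norm_eq_abs] at h2
    rwa [abs_of_nonneg (sq_nonneg _), abs_of_nonneg (Nat.cast_nonneg z)] at h2
  filter_upwards [hq, remA_avgQ (q0 * a ^ I) (2 * k) hk1 (by omega), VP_step k,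
    wf_tendsto.eventually_ge_atTop (4 * k + 4), e1, eventually_ge_atTop 4,
    t1.eventually_ge_atTop 1, QP_bound N Q (8 * L + 4 * q0 + 7) hQ480 (by rw [hQL]; linarith)]
    with z h1 h2 h3 h4 h5 h6 h7 h8
  set x : ℝ := Q * Real.log z with hx
  set lo : ℕ := z ^ (120 * L) with hlo
  intro p1 hp1 Dv hDv c0 h K hpos i0 hc y hy1 hy2
  obtain ⟨hcard, hdisj, hposx, hKc⟩ := id hpos
  have hz0 : (0 : ℝ) < z := by
    have : 0 < z := by omega
    exact_mod_cast this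
  have hz1 : (1 : ℝ) ≤ z := by exact_mod_cast (by omega : 1 ≤ z)
  have hlz : 0 < Real.log (z : ℝ) := by linarith
  have hbmem : ∀ i : ↥h ⊕ ↥K, bS h K i ∈ h ∪ K := by
    rintro (i | j)
    · exact Finset.mem_union_left _ i.2
    · exact Finset.mem_union_right _ j.2
  have hble : ∀ i : ↥h ⊕ ↥K, ((bS h K i : ℕ) : ℝ) ≤ z := fun i =>
    ((hposx _ (hbmem i)).1).trans h5
  have hbleN : ∀ i : ↥h ⊕ ↥K, bS h K i ≤ z := fun i => by exact_mod_cast hble i
  have hinj := bS_inj hdisj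
  set A := avgQ x p1 Dv (Wp z p1) c0 (bS h K i0) lo (Wp_pos z p1) hc with hA
  have hP0 : ∀ p ∈ P0 z p1, p.Prime := fun p hp => (mem_P0.1 hp).2.1
  have hV1 : 0 < V1p (P0 z p1) := V1p_pos _ hP0
  have hVP0 : 0 ≤ VP (P0 z p1) h := VP_nonneg _ hP0 h
  have hcp := card_pos hp hpos
  set VE : ℝ := VP (P0 z p1) h / (if (bS h K i0) ∈ h then V1p (P0 z p1) else 1) with hVE
  have hVE0 : 0 ≤ VE := by
    rw [hVE]
    split_ifs
    · exact div_nonneg hVP0 hV1.le
    · rw [div_one]; exact hVP0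
  have hVA : ∀ B, VA A (P0 z p1) B = VP (P0 z p1) (insert (bS h K i0) B) / V1p (P0 z p1) := fun B =>
    VA_avgQ x p1 Dv _ c0 (bS h K i0) lo _ hc _ hP0 B
  have hVAf : (VA A (P0 z p1)) = fun B => VP (P0 z p1) (insert (bS h K i0) B) / V1p (P0 z p1) := funext hVA
  have hstep : ∀ B ⊆ (univ.erase i0).image (bS h K), B.card ≤ 2 * K' →
      VA A (P0 z p1) (h ∪ B) ≤ 4 * V1p (P0 z p1) ^ (B \ h).card * VE := by
    intro B hB hBc
    have hBmem : ∀ b ∈ B, b ∈ h ∪ K ∧ b ≠ (bS h K i0) := by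
      intro b hb
      obtain ⟨i, hi, rfl⟩ := Finset.mem_image.1 (hB hb)
      exact ⟨hbmem i, fun h9 => (Finset.mem_erase.1 hi).1 (hinj h9)⟩
    rw [hVA, div_le_iff₀ hV1]
    by_cases ha0h : (bS h K i0) ∈ h
    · have h9 : insert (bS h K i0) (h ∪ B) = h ∪ B :=
        Finset.insert_eq_of_mem (Finset.mem_union_left _ ha0h)
      have h10 := h3 p1 hp1 h B (fun b hb => by
        rcases Finset.mem_union.1 hb with hb | hb
        · exact (hposx b (Finset.mem_union_left _ hb)).1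
        · exact (hposx b (hBmem b hb).1).1) (by
        have := Finset.card_union_le h B
        rw [hkd]; unfold kS
        omega)
      rw [h9, hVE, if_pos ha0h]
      refine h10.trans (le_of_eq ?_)
      field_simp
    · have h9 : insert (bS h K i0) (h ∪ B) = h ∪ insert (bS h K i0) B := by
        rw [Finset.union_insert]
      have h10 := h3 p1 hp1 h (insert (bS h K i0) B) (fun b hb => by
        rcases Finset.mem_union.1 hb with hb | hb
        · exact (hposx b (Finset.mem_union_left _ hb)).1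
        · rcases Finset.mem_insert.1 hb with rfl | hb
          · exact (hposx _ (hbmem i0)).1
          · exact (hposx b (hBmem b hb).1).1) (by
        have := Finset.card_union_le h (insert (bS h K i0) B)
        have := Finset.card_insert_le (bS h K i0) B
        rw [hkd]; unfold kS
        omega)
      have h11 : (insert (bS h K i0) B \ h).card = (B \ h).card + 1 := by
        rw [Finset.insert_sdiff_of_notMem _ ha0h, Finset.card_insert_of_notMem]
        intro h12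
        exact (hBmem (bS h K i0) (Finset.mem_sdiff.1 h12).1).2 rfl
      rw [h9, hVE, if_neg ha0h]
      rw [h11, pow_succ] at h10
      refine h10.trans (le_of_eq ?_)
      rw [div_one]
      ring
  have hmain := h1 p1 A (smallOK_avgQ z p1 k h4 x Dv c0 (bS h K i0) lo hc) (↥h ⊕ ↥K) (bS h K)
    (univ.erase i0) h y (V1p (P0 z p1)) VE
    (locOK_avgQ z p1 (q0 * a ^ I) (by omega) x Dv c0 (bS h K i0) lo hc _ _
      (fun i _ => hbleN i) (hbleN i0)
      (fun i _ j _ hij hval => hij (hinj hval))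
      (fun i hi hval => (Finset.mem_erase.1 hi).1 (hinj hval)))
    (fun i _ j _ hij => hinj hij) hcp.1 (by
      rw [hkd, hcard]; unfold kS
      omega) hV1.le hVE0 hstep hy1 hy2
  rw [hVAf] at hmain
  have hX : A.X = Dv.M / ((Wp z p1).totient : ℝ) := rfl
  rw [hX] at hmain
  set X := Dv.M / ((Wp z p1).totient : ℝ) with hXd
  have hX0 : 0 ≤ X := div_nonneg (by linarith [Dv.M_ge]) (Nat.cast_nonneg _)
  -- the remainder
  have hRle : Real.log z ^ N * RemA A.Er (P0 z p1 ∪ PL z (q0 * a ^ I) p1) (2 * k)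
      (z ^ (2 * (2 * L + 2 * q0) + 2 * (2 * L) + 6)) ≤ Real.exp (-Real.log z ^ ((1 : ℝ) / 5)) := by
    have hzp : ∀ e : ℕ, (z : ℝ) ^ e = Real.exp (e * Real.log z) := fun e => by
      rw [Real.exp_nat_mul, Real.exp_log hz0]
    have hc1 : ((Wp z p1 * z ^ (2 * (2 * L + 2 * q0) + 2 * (2 * L) + 6) : ℕ) : ℝ) ≤
        Real.exp (x / 24) := by
      have h11 : (Wp z p1 : ℝ) ≤ z := by exact_mod_cast Wp_le_self (by omega : 4 ≤ z) p1
      push_cast
      calc (Wp z p1 : ℝ) * (z : ℝ) ^ (2 * (2 * L + 2 * q0) + 2 * (2 * L) + 6) ≤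
          z * (z : ℝ) ^ (2 * (2 * L + 2 * q0) + 2 * (2 * L) + 6) := by gcongr
        _ = (z : ℝ) ^ (2 * (2 * L + 2 * q0) + 2 * (2 * L) + 6 + 1) := by ring
        _ ≤ Real.exp (x / 24) := by
          rw [hzp]
          apply Real.exp_le_exp.2
          rw [hx, hQL]
          push_cast
          nlinarith
    have hc2 : ((lo + (bS h K i0) : ℕ) : ℝ) ≤ Real.exp (x / 2) := by
      push_cast
      have h11 : ((bS h K i0) : ℝ) ≤ z := hble i0
      have h12 : (lo : ℝ) = (z : ℝ) ^ (120 * L) := by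
        rw [hlo]; push_cast; rfl
      have h13 : (z : ℝ) ≤ (z : ℝ) ^ (120 * L) := le_self_pow₀ hz1 (by omega)
      have h14 : (z : ℝ) ^ (120 * L) + (z : ℝ) ^ (120 * L) ≤ (z : ℝ) ^ (120 * L + 1) := by
        rw [pow_succ]
        have h15 : (2 : ℝ) ≤ z := by exact_mod_cast (by omega : 2 ≤ z)
        have h16 : 0 < (z : ℝ) ^ (120 * L) := by positivity
        nlinarith
      calc (lo : ℝ) + (bS h K i0) ≤ (z : ℝ) ^ (120 * L + 1) := by linarith
        _ ≤ Real.exp (x / 2) := by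
          rw [hzp]
          apply Real.exp_le_exp.2
          rw [hx, hQL]
          push_cast
          nlinarith
    have h11 := h2 p1 hp1 x (Real.exp (-x ^ ((1 : ℝ) / 4))) (by nlinarith) Dv hDv c0 (bS h K i0) lo
      (z ^ (2 * (2 * L + 2 * q0) + 2 * (2 * L) + 6)) hc hc1 hc2
    have h13 : ((z ^ (2 * (2 * L + 2 * q0) + 2 * (2 * L) + 6) : ℕ) : ℝ) * z =
        Real.exp ((8 * L + 4 * q0 + 7 : ℝ) * Real.log z) := by
      push_cast
      rw [← pow_succ, hzp]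
      congr 1
      push_cast
      ring
    rw [h13] at h11
    exact (mul_le_mul_of_nonneg_left h11 (by positivity)).trans h8
  -- the error factor
  have heps : eps0 Cq (2 * k) (2 * L) * ((Cq * (q0 * a ^ I) : ℕ) : ℝ) ^ (Cq * (k + 1) ^ 2) *
      (1 + Fintype.card (↥h ⊕ ↥K) * V1p (P0 z p1)) ^ (2 * K') ≤ eS Cq D a I A2 I2 r0 Λ := by
    unfold eS
    rw [← hkd, ← hL, ← hq0d, ← hK']
    refine mul_le_mul_of_nonneg_left (pow_le_pow_left₀ ?_ ?_ _) ?_
    · have : 0 ≤ (Fintype.card (↥h ⊕ ↥K) : ℝ) * V1p (P0 z p1) :=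
        mul_nonneg (Nat.cast_nonneg _) hV1.le
      linarith
    · have := hcp.2
      rw [← hQ]
      linarith
    · refine mul_nonneg ?_ (by positivity)
      unfold eps0
      positivity
  refine hmain.trans ?_
  have h20 : X * VE * (eps0 Cq (2 * k) (2 * L) *
      ((Cq * (q0 * a ^ I) : ℕ) : ℝ) ^ (Cq * (k + 1) ^ 2) *
      (1 + Fintype.card (↥h ⊕ ↥K) * V1p (P0 z p1)) ^ (2 * K')) ≤
      X * VE * eS Cq D a I A2 I2 r0 Λ :=
    mul_le_mul_of_nonneg_left heps (mul_nonneg hX0 hVE0)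
  have h21 : X * (VE * eS Cq D a I A2 I2 r0 Λ + 1 / Real.sqrt z) =
      X * VE * eS Cq D a I A2 I2 r0 Λ + X / Real.sqrt z := by ring
  rw [h21]
  linarith [hRle]

end Pool.Agent.LibSC93
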