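import Pool.Agent.LibSC93.SB

/-!
Row QU (quadratic form, uniform average). `hp.qf` (QFRp) with `k = kS`, `K = KS`, `k1 = q0S a^I`, `b0 = 2 LS`, `L = 2 LS + 2 q0S`, `A = avgU x (Wp z p1) c0`, `ι = ↥h ⊕ ↥K`, `b = bS h K`, `J = univ`, `y = YS`, `v = V1p`, `VE = VP E`
(`|E| ≤ a^I + 1`; `hV` from `VP_step`, `VA_avgU`; `smallOK_avgU`, `locOK_avgU`). `dgV` with `VA A Pr` is `dgV` with `VP` (`VA_avgU`). `(1 + card ι V1p)^(2K) ≤ (1 + (a^I + 4 Λ q))^(2K)` (`card_pos`), so the first error is `≤ (1/Wp) VP E eS`.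
`A.X/√z = (1/Wp)/√z`; `(log z)^N RemA ≤ (log z)^N 6 e^{-x} T z ≤ 1/z² ≤ (1/Wp)/√z` (`remA_avgU`, `e^{-x} = z^(-480 LS)`, `T = z^(8 LS + 4 q0S + 6) ≤ z^(18 LS)`, `q0S ≤ LS`). Model: the finished `sideU` in LibPL63/W1.lean.
-/

open Finset Filter

namespace Pool.Agent.LibSC93

open Pool.Agent.LibRG87 Pool.Agent.LibLG5 Pool.Agent.LibPL63

theorem quU {C Cq Cm D a I A2 I2 r0 : ℕ} {c cD Λ τ : ℝ}
    (hp : ParS C Cq Cm D a I A2 I2 r0 c cD Λ τ) :
    ∀ᶠ z : ℕ in atTop, ∀ p1 : ℕ, p1.Prime → ∀ (c0 : ℕ) (h K E : Finset ℕ),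
      PosS z p1 c0 (a ^ I) (Λ * qS D a I A2 I2 r0) h K →
      (E = h ∨ ∃ j ∈ K, E = insert j h) →
      |∑ n ∈ clsU (qS D a I A2 I2 r0 * Real.log z) (Wp z p1) c0,
          omU (qS D a I A2 I2 r0 * Real.log z) n *
            PhiS (PS a I A2 I2 r0 z p1) (P0 z p1) (bS h K) (YS D a I A2 I2 r0 z p1 h K) E n ^ 2 -
          1 / Wp z p1 * dgV (PS a I A2 I2 r0 z p1) (VP (P0 z p1)) (bS h K) E
            (YS D a I A2 I2 r0 z p1 h K)| ≤
        1 / Wp z p1 * (VP (P0 z p1) E * eS Cq D a I A2 I2 r0 Λ + 2 / Real.sqrt z) := by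
  have ha : 2 ≤ a := hp.sums.1
  have hA2 := hp.dn.1
  have hr0 := hp.hr0
  have hD1 := hp.hD1
  have hq01 : 1 ≤ q0S A2 I2 r0 := by
    unfold q0S
    exact Nat.one_le_iff_ne_zero.2 (by positivity)
  have hk1 : 1 ≤ q0S A2 I2 r0 * a ^ I :=
    Nat.one_le_iff_ne_zero.2 (by positivity)
  have hqL : q0S A2 I2 r0 ≤ LS D a I A2 I2 r0 := by
    unfold LS LL
    exact Nat.le_mul_of_pos_left _ (by positivity)
  have hL1 : 1 ≤ LS D a I A2 I2 r0 := hq01.trans hqL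
  have hqf := hp.qf (kS a I A2 I2) (KS a I A2 I2) (q0S A2 I2 r0 * a ^ I)
    (2 * LS D a I A2 I2 r0) (2 * LS D a I A2 I2 r0 + 2 * q0S A2 I2 r0)
    (by unfold kS; omega) hk1 (even_two_mul _) hp.eps1
  set N : ℕ := Cq * ((2 * LS D a I A2 I2 r0 + 2 * q0S A2 I2 r0) + 1) with hN
  have e3 : ∀ᶠ z : ℕ in atTop, 6 * Real.log (z : ℝ) ^ N ≤ z := by
    have h1 : ∀ᶠ x : ℝ in atTop, ‖Real.log x ^ N‖ ≤ (1 / 6) * ‖id x‖ :=
      (Real.isLittleO_pow_log_id_atTop (n := N)).bound (by norm_num)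
    filter_upwards [tendsto_natCast_atTop_atTop.eventually h1, eventually_ge_atTop 1] with z h2 h3
    have h4 : 0 ≤ Real.log (z : ℝ) := Real.log_nonneg (by exact_mod_cast h3)
    simp only [id, Real.norm_eq_abs] at h2
    rw [abs_of_nonneg (pow_nonneg h4 _), abs_of_nonneg (Nat.cast_nonneg z)] at h2
    linarith
  filter_upwards [hqf, remA_avgU (q0S A2 I2 r0 * a ^ I) (2 * kS a I A2 I2) hk1,
    VP_step (kS a I A2 I2), baseS hp 1 one_pos, e3, eventually_ge_atTop 4]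
    with z h1 h2 h3 h4 h5 h6 p1 hp1 c0 h K E hpos hE
  have hB := h4 p1
  obtain ⟨hz3, hl1, hlz, hwf, hz16, _⟩ := h4 p1
  have hzN : 1 ≤ z := by omega
  have hz0 : (0 : ℝ) < z := by
    have : 0 < z := by omega
    exact_mod_cast this
  have hz1 : (1 : ℝ) ≤ z := by exact_mod_cast hzN
  have hl0 : (0 : ℝ) < Real.log z := by linarith
  obtain ⟨hh, hd, hpos', _⟩ := id hpos
  set x : ℝ := qS D a I A2 I2 r0 * Real.log z with hx
  set A := avgU x (Wp z p1) c0 (Wp_pos z p1) with hA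
  have hP0 : ∀ p ∈ P0 z p1, p.Prime := fun p hp => (mem_P0.1 hp).2.1
  have hVA : ∀ B, VA A (P0 z p1) B = VP (P0 z p1) B := fun B => VA_avgU x _ c0 _ _ hP0 B
  have hX : A.X = 1 / (Wp z p1 : ℝ) := rfl
  have hbmem : ∀ i, bS h K i ∈ h ∪ K := by
    rintro (i | i)
    · exact Finset.mem_union_left _ i.2
    · exact Finset.mem_union_right _ i.2
  have hinj := bS_inj hd
  have hEsub : E ⊆ h ∪ K := by
    rcases hE with rfl | ⟨j, hj, rfl⟩
    · exact Finset.subset_union_left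
    · exact Finset.insert_subset (Finset.mem_union_right _ hj) Finset.subset_union_left
  have hEc : E.card ≤ a ^ I + 1 := by
    rcases hE with rfl | ⟨j, hj, rfl⟩
    · omega
    · exact (Finset.card_insert_le _ _).trans (by omega)
  have hEk : E.card + 2 * KS a I A2 I2 ≤ kS a I A2 I2 := by
    unfold kS
    omega
  obtain ⟨hc1, hc2⟩ := card_pos hp hpos
  have hV0 : 0 ≤ V1p (P0 z p1) := (V1p_pos _ hP0).le
  have hVE0 : 0 ≤ VP (P0 z p1) E := VP_nonneg _ hP0 E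
  have hmain := h1 p1 A (smallOK_avgU z p1 (kS a I A2 I2) hwf x c0) (↥h ⊕ ↥K) (bS h K)
    univ E (YS D a I A2 I2 r0 z p1 h K) (V1p (P0 z p1)) (VP (P0 z p1) E)
    (locOK_avgU z p1 (q0S A2 I2 r0 * a ^ I) hz3 x c0 _ _
      (fun i _ => by
        have h7 := (hpos' _ (hbmem i)).1
        have h8 : (bS h K i : ℝ) ≤ z := by linarith
        exact_mod_cast h8)
      (fun i _ j _ hij hval => hij (hinj hval)))
    hinj.injOn hc1 hEk hV0 hVE0
    (fun B hBs hBc => by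
      rw [hVA]
      refine h3 p1 hp1 E B (fun y hy => ?_) ?_
      · rcases Finset.mem_union.1 hy with hy | hy
        · exact (hpos' y (hEsub hy)).1
        · obtain ⟨i, _, rfl⟩ := Finset.mem_image.1 (hBs hy)
          exact (hpos' _ (hbmem i)).1
      · exact (Finset.card_union_le _ _).trans (by omega))
    (fun β => YS_abs hp hB β)
    (fun β hβ => by
      obtain ⟨h7, h8⟩ := YS_supp hp hB hh hβ
      exact ⟨h7, fun _ _ _ => Finset.mem_univ _, h8⟩)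
  have hWpos : (0 : ℝ) < Wp z p1 := by exact_mod_cast Wp_pos z p1
  -- the remainder
  have hWz : (Wp z p1 : ℝ) ≤ z := by
    have h7 := Wp_le h6 p1
    have h8 : Real.log z / Real.log 2 ≤ (z : ℝ) ^ 2 := by
      have := Real.log_two_gt_d9
      rw [div_le_iff₀ (by linarith)]
      have h9 : Real.log z ≤ z := by
        have := Real.log_le_sub_one_of_pos hz0
        linarith
      nlinarith
    exact le_of_sq_le_sq (h7.trans h8) hz0.le
  have hsq : Real.sqrt z ≤ z := by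
    rw [Real.sqrt_le_left hz0.le]
    nlinarith
  have hsq0 : 0 < Real.sqrt z := Real.sqrt_pos.2 hz0
  have hrem : Real.log z ^ N * RemA A.Er (P0 z p1 ∪ PL z (q0S A2 I2 r0 * a ^ I) p1)
      (2 * kS a I A2 I2) (z ^ (2 * (2 * LS D a I A2 I2 r0 + 2 * q0S A2 I2 r0) +
        2 * (2 * LS D a I A2 I2 r0) + 6)) ≤ 1 / (Wp z p1 : ℝ) / Real.sqrt z := by
    have h7 := h2 p1 hp1 x c0 (z ^ (2 * (2 * LS D a I A2 I2 r0 + 2 * q0S A2 I2 r0) +
        2 * (2 * LS D a I A2 I2 r0) + 6))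
    have h8 : Real.exp (-x) = ((z : ℝ) ^ qS D a I A2 I2 r0)⁻¹ := by
      rw [Real.exp_neg, hx, ← Real.log_pow, Real.exp_log (by positivity)]
    rw [h8] at h7
    set T : ℕ := 2 * (2 * LS D a I A2 I2 r0 + 2 * q0S A2 I2 r0) +
        2 * (2 * LS D a I A2 I2 r0) + 6 with hT
    have h9 : qS D a I A2 I2 r0 = (T + 1) + 3 + (qS D a I A2 I2 r0 - (T + 4)) := by
      have : qS D a I A2 I2 r0 = 480 * LS D a I A2 I2 r0 := rfl
      omega
    have h10 : (1 : ℝ) ≤ (z : ℝ) ^ (qS D a I A2 I2 r0 - (T + 4)) := one_le_pow₀ hz1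
    have h11 : 6 * ((z : ℝ) ^ qS D a I A2 I2 r0)⁻¹ * (((z ^ T : ℕ) : ℝ) * z) ≤ 6 / (z : ℝ) ^ 3 := by
      rw [h9, pow_add, pow_add]
      push_cast
      rw [show 6 * ((z : ℝ) ^ (T + 1) * (z : ℝ) ^ 3 * (z : ℝ) ^ (qS D a I A2 I2 r0 - (T + 4)))⁻¹ *
        ((z : ℝ) ^ T * z) = 6 / (z : ℝ) ^ 3 *
          (1 / (z : ℝ) ^ (qS D a I A2 I2 r0 - (T + 4))) by
        rw [pow_succ (z : ℝ) T]
        field_simp]
      refine mul_le_of_le_one_right (by positivity) ?_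
      rw [div_le_one (by positivity)]
      exact h10
    have h12 : Real.log z ^ N * RemA A.Er (P0 z p1 ∪ PL z (q0S A2 I2 r0 * a ^ I) p1)
        (2 * kS a I A2 I2) (z ^ T) ≤ Real.log z ^ N * (6 / (z : ℝ) ^ 3) :=
      mul_le_mul_of_nonneg_left (h7.trans h11) (by positivity)
    refine h12.trans ?_
    rw [div_div, mul_div_assoc', div_le_div_iff₀ (by positivity) (by positivity), one_mul]
    calc Real.log z ^ N * 6 * (Wp z p1 * Real.sqrt z) ≤ z * (z * z) := by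
          have h13 : Real.log z ^ N * 6 ≤ z := by linarith
          have h14 : (Wp z p1 : ℝ) * Real.sqrt z ≤ z * z :=
            mul_le_mul hWz hsq hsq0.le hz0.le
          exact mul_le_mul h13 h14 (by positivity) hz0.le
      _ = (z : ℝ) ^ 3 := by ring
  -- the main error
  have hcv : (1 + (Fintype.card (↥h ⊕ ↥K) : ℝ) * V1p (P0 z p1)) ^ (2 * KS a I A2 I2) ≤
      (1 + (a ^ I + 4 * Λ * qS D a I A2 I2 r0)) ^ (2 * KS a I A2 I2) := by
    refine pow_le_pow_left₀ (by positivity) ?_ _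
    have : (4 : ℝ) * Λ * qS D a I A2 I2 r0 = 4 * (Λ * qS D a I A2 I2 r0) := by ring
    rw [this]
    linarith
  have heps0 : 0 ≤ eps0 Cq (2 * kS a I A2 I2) (2 * LS D a I A2 I2 r0) := by
    unfold eps0
    positivity
  have herr : eps0 Cq (2 * kS a I A2 I2) (2 * LS D a I A2 I2 r0) *
      ((Cq * (q0S A2 I2 r0 * a ^ I) : ℕ) : ℝ) ^ (Cq * (kS a I A2 I2 + 1) ^ 2) *
        (1 + (Fintype.card (↥h ⊕ ↥K) : ℝ) * V1p (P0 z p1)) ^ (2 * KS a I A2 I2) ≤
      eS Cq D a I A2 I2 r0 Λ := by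
    unfold eS
    exact mul_le_mul_of_nonneg_left hcv (by positivity)
  have hdg : dgV (PS a I A2 I2 r0 z p1) (VA A (P0 z p1)) (bS h K) E
      (YS D a I A2 I2 r0 z p1 h K) = dgV (PS a I A2 I2 r0 z p1) (VP (P0 z p1)) (bS h K) E
      (YS D a I A2 I2 r0 z p1 h K) := by
    unfold dgV
    refine Finset.sum_congr rfl fun β _ => ?_
    rw [hVA]
  have hmain2 : |∑ n ∈ clsU x (Wp z p1) c0, omU x n *
        PhiS (PS a I A2 I2 r0 z p1) (P0 z p1) (bS h K) (YS D a I A2 I2 r0 z p1 h K) E n ^ 2 -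
      1 / Wp z p1 * dgV (PS a I A2 I2 r0 z p1) (VA A (P0 z p1)) (bS h K) E
        (YS D a I A2 I2 r0 z p1 h K)| ≤ _ := hmain
  rw [hdg] at hmain2
  refine hmain2.trans ?_
  rw [hX]
  have hW0 : (0 : ℝ) ≤ 1 / Wp z p1 := by positivity
  have h20 := mul_le_mul_of_nonneg_left herr (mul_nonneg hW0 hVE0)
  have h21 : 1 / (Wp z p1 : ℝ) * (VP (P0 z p1) E * eS Cq D a I A2 I2 r0 Λ + 2 / Real.sqrt z) =
      1 / (Wp z p1 : ℝ) * VP (P0 z p1) E * eS Cq D a I A2 I2 r0 Λ +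
        1 / (Wp z p1 : ℝ) / Real.sqrt z + 1 / (Wp z p1 : ℝ) / Real.sqrt z := by ring
  rw [h21]
  linarith [hrem, h20]

end Pool.Agent.LibSC93
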