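import Pool.Agent.LibSC93.Defs
import Pool.Agent.LibPL63.Q1
import Pool.Agent.LibRG87.R0

/-!
Row R1 (off-diagonal sum when the number `N` of positions grows; configurations with at most `L` primes). Same proof as the finished `LibPL63.Q1` (`off_sum`; copy its private lemmas): telescoping, but every prime
of `sp β ∪ sp β'` gets the extra factor `t = 1/(9 (N+1)^2)`: a pair with at most `L` primes each has `1 ≤ (9 (N+1)^2)^(2L) * t^|sp β ∪ sp β'|`
(`t^|sp β ∪ sp β'| = ∏_{p : P} (if β p = none ∧ β' p = none then 1 else t)`), drop the condition on the number of primes, factorize: for each `p0` the factor of `p0` is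
`t * 8 N^2/(p0-1)^2 ≤ 1/(p0-1)^2`, the factors of `p ≠ p0` are `≤ 1 + t (N/(p-1) + 8 N^2/(p-1)^2) ≤ 1 + 1/(p-1)` (`p - 1 ≥ 1`, `N + 8 N^2 ≤ 9 (N+1)^2`).
-/

open Finset

namespace Pool.Agent.LibSC93

open Pool.Agent.LibRG87 Pool.Agent.LibLG5 Pool.Agent.LibPL63

variable {ι : Type} [Fintype ι] [DecidableEq ι] (P : Finset ℕ)

private theorem R1_tel {α : Type} [DecidableEq α] (s : Finset α) (e d : α → ℝ) :
    |∏ a ∈ s, e a - ∏ a ∈ s, d a| ≤
      ∑ a0 ∈ s, ∏ a ∈ s, (if a = a0 then |e a - d a| else |d a| + |e a - d a|) := by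
  induction s using Finset.induction_on with
  | empty => simp
  | insert a s ha ih =>
    rw [Finset.prod_insert ha, Finset.prod_insert ha, Finset.sum_insert ha]
    have h1 : ∏ x ∈ insert a s, (if x = a then |e x - d x| else |d x| + |e x - d x|) =
        |e a - d a| * ∏ x ∈ s, (|d x| + |e x - d x|) := by
      rw [Finset.prod_insert ha, if_pos rfl]
      congr 1
      refine Finset.prod_congr rfl fun x hx => ?_
      rw [if_neg]
      intro h
      exact ha (h ▸ hx)
    have h2 : ∀ a0 ∈ s, ∏ x ∈ insert a s, (if x = a0 then |e x - d x| else |d x| + |e x - d x|) =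
        (|d a| + |e a - d a|) * ∏ x ∈ s, (if x = a0 then |e x - d x| else |d x| + |e x - d x|) := by
      intro a0 ha0
      rw [Finset.prod_insert ha, if_neg]
      intro h
      exact ha (h ▸ ha0)
    rw [h1, Finset.sum_congr rfl h2, ← Finset.mul_sum]
    have h3 : e a * ∏ a ∈ s, e a - d a * ∏ a ∈ s, d a =
        (e a - d a) * ∏ a ∈ s, e a + d a * (∏ a ∈ s, e a - ∏ a ∈ s, d a) := by ring
    have h4 : |∏ a ∈ s, e a| ≤ ∏ x ∈ s, (|d x| + |e x - d x|) := by
      rw [Finset.abs_prod]
      refine Finset.prod_le_prod (fun x _ => abs_nonneg _) fun x _ => ?_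
      have := abs_add_le (d x) (e x - d x)
      rwa [add_sub_cancel] at this
    rw [h3]
    refine (abs_add_le _ _).trans (add_le_add ?_ ?_)
    · rw [abs_mul]
      exact mul_le_mul_of_nonneg_left h4 (abs_nonneg _)
    · rw [abs_mul]
      refine mul_le_mul ?_ ih (abs_nonneg _) (by positivity)
      exact le_add_of_nonneg_right (abs_nonneg _)

/-- the diagonal local matrix -/
private noncomputable def R1_d (p : ℕ) (o o' : Option ι) : ℝ :=
  if o = o' then (if o = none then 1 else 1 / ((p : ℝ) - 1)) else 0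

private theorem R1_Dd (β β' : P → Option ι) :
    Dd P β β' = ∏ p : P, R1_d (p : ℕ) (β p) (β' p) := by
  unfold Dd R1_d
  by_cases h : β = β'
  · subst h
    rw [if_pos rfl]
    simp only [if_true]
    unfold ph sp
    rw [Finset.prod_image (fun a _ b _ hab => Subtype.ext hab), one_div, ← Finset.prod_inv_distrib,
      Finset.prod_filter]
    refine Finset.prod_congr rfl fun p _ => ?_
    by_cases hp : β p = none
    · rw [if_neg (not_not.2 hp), if_pos hp]
    · rw [if_pos hp, if_neg hp, one_div]
  · rw [if_neg h]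
    obtain ⟨p, hp⟩ := Function.ne_iff.1 h
    refine (Finset.prod_eq_zero (Finset.mem_univ p) ?_).symm
    rw [if_neg hp]

private theorem R1_fac (g : P → Option ι → Option ι → ℝ) :
    ∑ β : P → Option ι, ∑ β' : P → Option ι, ∏ p : P, g p (β p) (β' p) =
      ∏ p : P, ∑ o, ∑ o', g p o o' := by
  have h1 : ∀ f : P → Option ι → ℝ, ∑ β : P → Option ι, ∏ p : P, f p (β p) = ∏ p : P, ∑ o, f p o := by
    intro f
    have := Finset.prod_univ_sum (fun _ : P => (Finset.univ : Finset (Option ι))) f
    rw [this, Fintype.piFinset_univ]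
  rw [← h1 (fun p o => ∑ o', g p o o')]
  refine Finset.sum_congr rfl fun β _ => ?_
  exact h1 (fun p o' => g p (β p) o')

open scoped Classical in
private theorem R1_fac2 (J : Finset ι) (g : P → Option ι → Option ι → ℝ) :
    ∑ β : P → Option ι, ∑ β' : P → Option ι,
        (if alw P J β ∧ alw P J β' then ∏ p : P, g p (β p) (β' p) else 0) =
      ∏ p : P, ∑ o, ∑ o', (if (∀ i, o = some i → i ∈ J) ∧ (∀ i, o' = some i → i ∈ J) then
        g p o o' else 0) := by
  rw [← R1_fac]
  refine Finset.sum_congr rfl fun β _ => Finset.sum_congr rfl fun β' _ => ?_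
  by_cases h : alw P J β ∧ alw P J β'
  · rw [if_pos h]
    refine Finset.prod_congr rfl fun p _ => ?_
    rw [if_pos ⟨fun i hi => h.1 p i hi, fun i hi => h.2 p i hi⟩]
  · rw [if_neg h]
    have : ∃ p : P, ¬ ((∀ i, β p = some i → i ∈ J) ∧ (∀ i, β' p = some i → i ∈ J)) := by
      by_contra hc
      push Not at hc
      exact h ⟨fun p i hi => (hc p).1 i hi, fun p i hi => (hc p).2 i hi⟩
    obtain ⟨p, hp⟩ := this
    refine (Finset.prod_eq_zero (Finset.mem_univ p) ?_).symm
    rw [if_neg hp]

/-- the extra factor of a pair with few primes -/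
private theorem R1_wt (t : ℝ) (ht0 : 0 < t) (ht1 : t ≤ 1) (L : ℕ) (β β' : P → Option ι)
    (h : (sp P β).card ≤ L) (h' : (sp P β').card ≤ L) :
    1 ≤ (1 / t) ^ (2 * L) * ∏ p : P, (if β p = none ∧ β' p = none then (1 : ℝ) else t) := by
  classical
  have h1 : ∏ p : P, (if β p = none ∧ β' p = none then (1 : ℝ) else t) =
      t ^ (Finset.univ.filter fun p : P => ¬ (β p = none ∧ β' p = none)).card := by
    rw [Finset.prod_ite, Finset.prod_const_one, one_mul, Finset.prod_const]
  have h2 : (Finset.univ.filter fun p : P => ¬ (β p = none ∧ β' p = none)).card ≤ 2 * L := by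
    have h3 : (Finset.univ.filter fun p : P => ¬ (β p = none ∧ β' p = none)).card =
        ((Finset.univ.filter fun p : P => ¬ (β p = none ∧ β' p = none)).image
          (fun p : P => (p : ℕ))).card :=
      (Finset.card_image_of_injective _ Subtype.val_injective).symm
    have h4 : ((Finset.univ.filter fun p : P => ¬ (β p = none ∧ β' p = none)).image
          (fun p : P => (p : ℕ))) ⊆ sp P β ∪ sp P β' := by
      intro x hx
      obtain ⟨p, hp, rfl⟩ := Finset.mem_image.1 hx
      have hp' := (Finset.mem_filter.1 hp).2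
      rw [Finset.mem_union]
      unfold sp
      by_cases h5 : β p = none
      · right
        exact Finset.mem_image_of_mem _ (Finset.mem_filter.2 ⟨Finset.mem_univ _,
          fun h6 => hp' ⟨h5, h6⟩⟩)
      · left
        exact Finset.mem_image_of_mem _ (Finset.mem_filter.2 ⟨Finset.mem_univ _, h5⟩)
    rw [h3]
    refine (Finset.card_le_card h4).trans ((Finset.card_union_le _ _).trans ?_)
    omega
  rw [h1]
  have h5 : t ^ (2 * L) ≤
      t ^ (Finset.univ.filter fun p : P => ¬ (β p = none ∧ β' p = none)).card :=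
    pow_le_pow_of_le_one ht0.le ht1 h2
  calc (1 : ℝ) = (1 / t) ^ (2 * L) * t ^ (2 * L) := by
        rw [← mul_pow, one_div, inv_mul_cancel₀ ht0.ne', one_pow]
    _ ≤ _ := mul_le_mul_of_nonneg_left h5 (by positivity)

open scoped Classical in
theorem off_sumS (A : Average) (b : ι → ℕ) (J : Finset ι) (hL : LocOK P A b J) (L : ℕ) :
    ∑ β : P → Option ι, ∑ β' : P → Option ι,
        (if (alw P J β ∧ (sp P β).card ≤ L) ∧ (alw P J β' ∧ (sp P β').card ≤ L) then
          |EPA P A b β β' - Dd P β β'| else 0) ≤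
      (9 * ((Fintype.card ι : ℝ) + 1) ^ 2) ^ (2 * L) * ((∑ p ∈ P, 1 / ((p : ℝ) - 1) ^ 2) *
        ∏ p ∈ P, (1 + 1 / ((p : ℝ) - 1))) := by
  set k : ℝ := (Fintype.card ι : ℝ) with hk
  have hk0 : 0 ≤ k := Nat.cast_nonneg _
  have hkk : k ≤ k ^ 2 := by
    rw [hk]
    have : Fintype.card ι ≤ (Fintype.card ι) ^ 2 := Nat.le_self_pow (by norm_num) _
    exact_mod_cast this
  set e : P → Option ι → Option ι → ℝ :=
    fun p o o' => A.Ep (p : ℕ) (fun n => loc b p o n * loc b p o' n) with he
  set d : P → Option ι → Option ι → ℝ := fun p o o' => R1_d (p : ℕ) o o' with hd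
  have hp1 : ∀ p : P, (1 : ℝ) ≤ ((p : ℕ) : ℝ) - 1 := by
    intro p
    have h3 := hL.three p p.2
    have : (3 : ℝ) ≤ ((p : ℕ) : ℝ) := by exact_mod_cast h3
    linarith
  -- pointwise bounds
  have hnn : ∀ p : P, e p none none = 1 := by
    intro p
    have h1 := A.lp_sum p (hL.good p p.2)
    rw [he]
    simp only [Average.Ep, loc, mul_one]
    exact h1
  have hns : ∀ (p : P) (i : ι), i ∈ J → |e p none (some i)| ≤ 1 / (((p : ℕ) : ℝ) - 1) ^ 2 := by
    intro p i hi
    have h1 := hL.m1 p p.2 i hi
    rw [he]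
    simp only [loc, one_mul]
    exact h1
  have hsn : ∀ (p : P) (i : ι), i ∈ J → |e p (some i) none| ≤ 1 / (((p : ℕ) : ℝ) - 1) ^ 2 := by
    intro p i hi
    have h1 := hL.m1 p p.2 i hi
    rw [he]
    simp only [loc, mul_one]
    exact h1
  have hss : ∀ (p : P) (i : ι), i ∈ J →
      |e p (some i) (some i) - 1 / (((p : ℕ) : ℝ) - 1)| ≤ 1 / (((p : ℕ) : ℝ) - 1) ^ 2 := by
    intro p i hi
    have h1 := hL.m2 p p.2 i hi
    rw [he]
    simp only [loc]
    exact h1
  have hst : ∀ (p : P) (i j : ι), i ∈ J → j ∈ J → i ≠ j →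
      |e p (some i) (some j)| ≤ 2 / (((p : ℕ) : ℝ) - 1) ^ 2 := by
    intro p i j hi hj hij
    have h1 := hL.m3 p p.2 i hi j hj hij
    rw [he]
    simp only [loc]
    exact h1
  -- the sum of the differences
  have hdiff : ∀ p : P, ∑ o, ∑ o', (if (∀ i, o = some i → i ∈ J) ∧ (∀ i, o' = some i → i ∈ J) then
        |e p o o' - d p o o'| else 0) ≤ 8 * k ^ 2 / (((p : ℕ) : ℝ) - 1) ^ 2 := by
    intro p
    set u : ℝ := 1 / (((p : ℕ) : ℝ) - 1) ^ 2 with hu
    have hu0 : 0 ≤ u := by positivity
    have b1 : (if (∀ i, (none : Option ι) = some i → i ∈ J) ∧ (∀ i, (none : Option ι) = some i → i ∈ J)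
        then |e p none none - d p none none| else 0) ≤ 0 := by
      rw [hnn p, hd]
      simp [R1_d]
    have b2 : ∀ j : ι, (if (∀ i, (none : Option ι) = some i → i ∈ J) ∧
        (∀ i, (some j : Option ι) = some i → i ∈ J)
        then |e p none (some j) - d p none (some j)| else 0) ≤ u := by
      intro j
      by_cases h : (∀ i, (none : Option ι) = some i → i ∈ J) ∧ (∀ i, (some j : Option ι) = some i → i ∈ J)
      · rw [if_pos h]
        have hj := h.2 j rfl
        have : d p none (some j) = 0 := by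
          rw [hd]; simp [R1_d]
        rw [this, sub_zero]
        exact hns p j hj
      · rw [if_neg h]
        exact hu0
    have b3 : ∀ j : ι, (if (∀ i, (some j : Option ι) = some i → i ∈ J) ∧
        (∀ i, (none : Option ι) = some i → i ∈ J)
        then |e p (some j) none - d p (some j) none| else 0) ≤ u := by
      intro j
      by_cases h : (∀ i, (some j : Option ι) = some i → i ∈ J) ∧ (∀ i, (none : Option ι) = some i → i ∈ J)
      · rw [if_pos h]
        have hj := h.1 j rfl
        have : d p (some j) none = 0 := by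
          rw [hd]; simp [R1_d]
        rw [this, sub_zero]
        exact hsn p j hj
      · rw [if_neg h]
        exact hu0
    have b4 : ∀ j l : ι, (if (∀ i, (some j : Option ι) = some i → i ∈ J) ∧
        (∀ i, (some l : Option ι) = some i → i ∈ J)
        then |e p (some j) (some l) - d p (some j) (some l)| else 0) ≤ 2 * u := by
      intro j l
      split_ifs with h
      · have hj := h.1 j rfl
        have hl := h.2 l rfl
        by_cases hjl : j = l
        · subst hjl
          have : d p (some j) (some j) = 1 / (((p : ℕ) : ℝ) - 1) := by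
            rw [hd]; simp [R1_d]
          rw [this]
          have := hss p j hj
          linarith
        · have : d p (some j) (some l) = 0 := by
            rw [hd]; simp [R1_d, hjl]
          rw [this, sub_zero]
          have := hst p j l hj hl hjl
          rw [hu]
          calc _ ≤ _ := this
            _ = _ := by ring
      · linarith
    have key : ∑ o, ∑ o', (if (∀ i, o = some i → i ∈ J) ∧ (∀ i, o' = some i → i ∈ J) then
        |e p o o' - d p o o'| else 0) ≤ (0 + ∑ _j : ι, u) + ∑ _j : ι, (u + ∑ _l : ι, 2 * u) := by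
      rw [Fintype.sum_option]
      refine add_le_add ?_ (Finset.sum_le_sum fun j _ => ?_)
      · rw [Fintype.sum_option]
        exact add_le_add b1 (Finset.sum_le_sum fun j _ => b2 j)
      · rw [Fintype.sum_option]
        exact add_le_add (b3 j) (Finset.sum_le_sum fun l _ => b4 j l)
    refine key.trans ?_
    simp only [Finset.sum_const, Finset.card_univ, nsmul_eq_mul]
    rw [← hk]
    have e1 : 8 * k ^ 2 / (((p : ℕ) : ℝ) - 1) ^ 2 = 8 * k ^ 2 * u := by rw [hu]; ring
    rw [e1]
    nlinarith [mul_nonneg hk0 hu0, mul_nonneg (sub_nonneg.2 hkk) hu0, mul_nonneg (sq_nonneg k) hu0]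
  set t : ℝ := 1 / (9 * (k + 1) ^ 2) with ht
  have hT : 1 / t = 9 * (k + 1) ^ 2 := by rw [ht, one_div_one_div]
  have hT0 : (0 : ℝ) < 9 * (k + 1) ^ 2 := by positivity
  have ht0 : 0 < t := by rw [ht]; positivity
  have htT : t * (9 * (k + 1) ^ 2) = 1 := by rw [ht]; field_simp
  have ht1 : t ≤ 1 := by nlinarith
  set tt : Option ι → Option ι → ℝ := fun o o' => if o = none ∧ o' = none then 1 else t with htt
  have htt0 : ∀ o o', 0 ≤ tt o o' := by
    intro o o'
    rw [htt]
    dsimp only
    split_ifs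
    · exact zero_le_one
    · exact ht0.le
  have hdiffT : ∀ p : P, ∑ o, ∑ o', (if (∀ i, o = some i → i ∈ J) ∧ (∀ i, o' = some i → i ∈ J) then
        tt o o' * |e p o o' - d p o o'| else 0) ≤ t * (8 * k ^ 2 / (((p : ℕ) : ℝ) - 1) ^ 2) := by
    intro p
    refine le_trans ?_ (mul_le_mul_of_nonneg_left (hdiff p) ht0.le)
    rw [Finset.mul_sum]
    refine Finset.sum_le_sum fun o _ => ?_
    rw [Finset.mul_sum]
    refine Finset.sum_le_sum fun o' _ => ?_
    split_ifs with h
    · by_cases ho : o = none ∧ o' = none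
      · obtain ⟨rfl, rfl⟩ := ho
        have : e p none none - d p none none = 0 := by
          rw [hnn p, hd]
          simp [R1_d]
        rw [this, abs_zero, mul_zero, mul_zero]
      · rw [htt]
        dsimp only
        rw [if_neg ho]
    · rw [mul_zero]
  have hdiagT : ∀ p : P, ∑ o, ∑ o', tt o o' * |d p o o'| ≤ 1 + t * (k / (((p : ℕ) : ℝ) - 1)) := by
    intro p
    have hp := hp1 p
    have hinv : 0 ≤ 1 / (((p : ℕ) : ℝ) - 1) := by positivity
    rw [Fintype.sum_option]
    refine add_le_add ?_ ?_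
    · rw [Fintype.sum_option, hd, htt]
      simp [R1_d]
    · have : ∀ i : ι, ∑ o', tt (some i) o' * |d p (some i) o'| =
          t * (1 / (((p : ℕ) : ℝ) - 1)) := by
        intro i
        rw [Fintype.sum_option, hd, htt]
        simp only [R1_d]
        have h0 : ¬ ((some i : Option ι) = none) := by simp
        rw [if_neg h0, abs_zero, mul_zero, zero_add]
        rw [Finset.sum_eq_single i]
        · rw [if_pos rfl, if_neg h0, abs_of_nonneg hinv, if_neg (fun h => h0 h.1)]
        · intro j _ hj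
          have : ¬ ((some i : Option ι) = some j) := fun h => hj (Option.some.inj h).symm
          rw [if_neg this, abs_zero, mul_zero]
        · intro h
          exact absurd (Finset.mem_univ _) h
      rw [Finset.sum_congr rfl fun i _ => this i]
      simp only [Finset.sum_const, Finset.card_univ, nsmul_eq_mul]
      rw [← hk]
      exact le_of_eq (by ring)
  have hmaxT : ∀ p : P, ∑ o, ∑ o', (if (∀ i, o = some i → i ∈ J) ∧ (∀ i, o' = some i → i ∈ J) then
        tt o o' * (|d p o o'| + |e p o o' - d p o o'|) else 0) ≤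
        1 + t * (k / (((p : ℕ) : ℝ) - 1)) + t * (8 * k ^ 2 / (((p : ℕ) : ℝ) - 1) ^ 2) := by
    intro p
    refine le_trans ?_ (add_le_add (hdiagT p) (hdiffT p))
    rw [← Finset.sum_add_distrib]
    refine Finset.sum_le_sum fun o _ => ?_
    rw [← Finset.sum_add_distrib]
    refine Finset.sum_le_sum fun o' _ => ?_
    split_ifs
    · rw [mul_add]
    · have := mul_nonneg (htt0 o o') (abs_nonneg (d p o o'))
      linarith
  -- the two bounds
  have hA : ∀ p : P, t * (8 * k ^ 2 / (((p : ℕ) : ℝ) - 1) ^ 2) ≤ 1 / (((p : ℕ) : ℝ) - 1) ^ 2 := by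
    intro p
    have h1 : t * (8 * k ^ 2) ≤ 1 := by nlinarith
    have h2 : 0 ≤ 1 / (((p : ℕ) : ℝ) - 1) ^ 2 := by positivity
    calc t * (8 * k ^ 2 / (((p : ℕ) : ℝ) - 1) ^ 2) =
          t * (8 * k ^ 2) * (1 / (((p : ℕ) : ℝ) - 1) ^ 2) := by ring
      _ ≤ 1 * (1 / (((p : ℕ) : ℝ) - 1) ^ 2) := mul_le_mul_of_nonneg_right h1 h2
      _ = _ := one_mul _
  have hB : ∀ p : P, 1 + t * (k / (((p : ℕ) : ℝ) - 1)) +
      t * (8 * k ^ 2 / (((p : ℕ) : ℝ) - 1) ^ 2) ≤ 1 + 1 / (((p : ℕ) : ℝ) - 1) := by
    intro p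
    have hp := hp1 p
    have hi0 : 0 < 1 / (((p : ℕ) : ℝ) - 1) := by positivity
    have hi1 : 1 / (((p : ℕ) : ℝ) - 1) ≤ 1 := by
      rw [div_le_one (by linarith)]
      exact hp
    set v : ℝ := 1 / (((p : ℕ) : ℝ) - 1) with hv
    have e1 : k / (((p : ℕ) : ℝ) - 1) = k * v := by rw [hv]; ring
    have e2 : 8 * k ^ 2 / (((p : ℕ) : ℝ) - 1) ^ 2 = 8 * k ^ 2 * (v * v) := by
      rw [hv]; field_simp
    rw [e1, e2]
    have h1 : v * v ≤ v := by nlinarith
    have h2 : 8 * k ^ 2 * (v * v) ≤ 8 * k ^ 2 * v :=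
      mul_le_mul_of_nonneg_left h1 (by positivity)
    have h3 : t * (k + 8 * k ^ 2) ≤ 1 := by
      rw [← htT]
      exact mul_le_mul_of_nonneg_left (by nlinarith) ht0.le
    have h4 : t * (k + 8 * k ^ 2) * v ≤ 1 * v := mul_le_mul_of_nonneg_right h3 hi0.le
    have h5 : t * (8 * k ^ 2 * (v * v)) ≤ t * (8 * k ^ 2 * v) :=
      mul_le_mul_of_nonneg_left h2 ht0.le
    nlinarith
  -- telescoping
  have htel : ∀ β β' : P → Option ι, (if (alw P J β ∧ (sp P β).card ≤ L) ∧
      (alw P J β' ∧ (sp P β').card ≤ L) then |EPA P A b β β' - Dd P β β'| else 0) ≤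
      ∑ p0 : P, (1 / t) ^ (2 * L) * (if alw P J β ∧ alw P J β' then ∏ p : P,
        (tt (β p) (β' p) * (if p = p0 then |e p (β p) (β' p) - d p (β p) (β' p)| else
          |d p (β p) (β' p)| + |e p (β p) (β' p) - d p (β p) (β' p)|)) else 0) := by
    intro β β'
    by_cases h : (alw P J β ∧ (sp P β).card ≤ L) ∧ (alw P J β' ∧ (sp P β').card ≤ L)
    · have h' : alw P J β ∧ alw P J β' := ⟨h.1.1, h.2.1⟩
      rw [if_pos h]
      simp only [if_pos h']
      rw [R1_Dd]
      have h1 := R1_tel Finset.univ (fun p : P => e p (β p) (β' p)) (fun p : P => d p (β p) (β' p))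
      have h2 := R1_wt P t ht0 ht1 L β β' h.1.2 h.2.2
      have h3 : (0 : ℝ) ≤ ∑ a0 : P, ∏ a : P, (if a = a0 then |e a (β a) (β' a) - d a (β a) (β' a)| else
          |d a (β a) (β' a)| + |e a (β a) (β' a) - d a (β a) (β' a)|) :=
        (abs_nonneg _).trans h1
      refine h1.trans ?_
      calc _ ≤ ((1 / t) ^ (2 * L) * ∏ p : P, (if β p = none ∧ β' p = none then (1 : ℝ) else t)) *
            ∑ a0 : P, ∏ a : P, (if a = a0 then |e a (β a) (β' a) - d a (β a) (β' a)| else
              |d a (β a) (β' a)| + |e a (β a) (β' a) - d a (β a) (β' a)|) :=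
            le_mul_of_one_le_left h3 h2
        _ = _ := by
            rw [mul_assoc, Finset.mul_sum, Finset.mul_sum]
            refine Finset.sum_congr rfl fun p0 _ => ?_
            rw [← Finset.prod_mul_distrib]
    · rw [if_neg h]
      refine Finset.sum_nonneg fun p0 _ => mul_nonneg (by positivity) ?_
      split_ifs
      · refine Finset.prod_nonneg fun p _ => mul_nonneg (htt0 _ _) ?_
        split_ifs
        · exact abs_nonneg _
        · positivity
      · exact le_refl _
  have hN0 : ∀ p : P, 0 ≤ 1 / (((p : ℕ) : ℝ) - 1) := fun p => by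
    have := hp1 p
    positivity
  rw [← hT]
  calc ∑ β : P → Option ι, ∑ β' : P → Option ι,
        (if (alw P J β ∧ (sp P β).card ≤ L) ∧ (alw P J β' ∧ (sp P β').card ≤ L) then
          |EPA P A b β β' - Dd P β β'| else 0)
      ≤ ∑ β : P → Option ι, ∑ β' : P → Option ι, ∑ p0 : P, (1 / t) ^ (2 * L) *
        (if alw P J β ∧ alw P J β' then ∏ p : P,
        (tt (β p) (β' p) * (if p = p0 then |e p (β p) (β' p) - d p (β p) (β' p)| else
          |d p (β p) (β' p)| + |e p (β p) (β' p) - d p (β p) (β' p)|)) else 0) :=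
        Finset.sum_le_sum fun β _ => Finset.sum_le_sum fun β' _ => htel β β'
    _ = ∑ p0 : P, (1 / t) ^ (2 * L) * ∑ β : P → Option ι, ∑ β' : P → Option ι,
        (if alw P J β ∧ alw P J β' then ∏ p : P,
        (tt (β p) (β' p) * (if p = p0 then |e p (β p) (β' p) - d p (β p) (β' p)| else
          |d p (β p) (β' p)| + |e p (β p) (β' p) - d p (β p) (β' p)|)) else 0) := by
        refine ((Finset.sum_congr rfl fun β _ => Finset.sum_comm).trans Finset.sum_comm).trans ?_
        refine Finset.sum_congr rfl fun p0 _ => ?_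
        rw [Finset.mul_sum]
        refine Finset.sum_congr rfl fun β _ => ?_
        rw [Finset.mul_sum]
    _ ≤ ∑ p0 : P, (1 / t) ^ (2 * L) * (1 / (((p0 : ℕ) : ℝ) - 1) ^ 2 *
        ∏ p ∈ P, (1 + 1 / ((p : ℝ) - 1))) := by
        refine Finset.sum_le_sum fun p0 _ => mul_le_mul_of_nonneg_left ?_ (by positivity)
        rw [R1_fac2 P J (fun p o o' => tt o o' * (if p = p0 then |e p o o' - d p o o'| else
          |d p o o'| + |e p o o' - d p o o'|))]
        set M : P → ℝ := fun p => 1 + 1 / (((p : ℕ) : ℝ) - 1) with hM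
        have hM0' : ∀ p : P, 0 ≤ M p := fun p => add_nonneg zero_le_one (hN0 p)
        have hM1' : ∀ p : P, 1 ≤ M p := fun p => le_add_of_nonneg_right (hN0 p)
        have hc0 : ∀ p : P, 0 ≤ 1 / (((p : ℕ) : ℝ) - 1) ^ 2 := fun p => by positivity
        have hle : ∀ p : P, ∑ o, ∑ o', (if (∀ i, o = some i → i ∈ J) ∧ (∀ i, o' = some i → i ∈ J) then
            (tt o o' * (if p = p0 then |e p o o' - d p o o'| else
              |d p o o'| + |e p o o' - d p o o'|)) else 0) ≤
            (if p = p0 then 1 / (((p : ℕ) : ℝ) - 1) ^ 2 else 1) * M p := by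
          intro p
          by_cases hp : p = p0
          · simp only [if_pos hp]
            exact (hdiffT p).trans ((hA p).trans (le_mul_of_one_le_right (hc0 p) (hM1' p)))
          · simp only [if_neg hp, one_mul]
            exact (hmaxT p).trans (hB p)
        refine (Finset.prod_le_prod (fun p _ => ?_) fun p _ => hle p).trans (le_of_eq ?_)
        · refine Finset.sum_nonneg fun o _ => Finset.sum_nonneg fun o' _ => ?_
          split_ifs
          · exact mul_nonneg (htt0 _ _) (abs_nonneg _)
          · exact mul_nonneg (htt0 _ _) (by positivity)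
          · exact le_refl _
        · rw [Finset.prod_mul_distrib, Finset.prod_ite_eq', if_pos (Finset.mem_univ _)]
          congr 1
          exact Finset.prod_coe_sort P (fun p : ℕ => 1 + 1 / ((p : ℝ) - 1))
    _ = _ := by
        rw [← Finset.mul_sum, ← Finset.sum_mul]
        congr 2
        exact Finset.sum_coe_sort P (fun p : ℕ => 1 / ((p : ℝ) - 1) ^ 2)

end Pool.Agent.LibSC93
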