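import Pool.Agent.LibSC93.Defs
import Pool.Agent.LibPL63.Q2
import Pool.Agent.LibRG87.R0

/-!
Row R2 (absolute mass with support dependent density). For a pair `(β, β')` in the sum let `S = sui β ∪ sui β' ⊆ J`, `|S| ≤ 2K`: `su β ∪ su β' = S.image b`, so by `hV`
`VA (E ∪ (su β ∪ su β')) ≤ 4 v^|(S.image b) \ E| VE`. Group by `S`: the pairs with `sui β ∪ sui β' = S` have values in `insertNone S`, and
`∑_{β, β' with values in insertNone S} AMA β β' = ∏_p ∑_{o, o' ∈ insertNone S} E_p |loc o * loc o'| ≤ ∏_p (1 + 2 (|S|+1)^2/(p-1))` (proof of the finished `LibPL63.Q2.mass_sum`: the pair `(none, none)` gives `1`, every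
other pair at most `2/(p-1)`), and `|S| + 1 ≤ 2K + 1`. Then `∑_{S ⊆ J, |S| ≤ 2K} v^|(S.image b) \ E| ≤ 2^|E| (1 + N v)^(2K)`: with `J1 = {i ∈ J | b i ∈ E}` (`|J1| ≤ |E|`, `b` injective on `J`), `J2 = J \ J1`,
`|(S.image b) \ E| = |S ∩ J2|`, `∑_S ≤ 2^|J1| ∑_{S2 ⊆ J2, |S2| ≤ 2K} v^|S2| ≤ 2^|E| ∑_{s ≤ 2K} C(N,s) v^s ≤ 2^|E| (1 + N v)^(2K)` (`C(N,s) ≤ N^s ≤ N^s C(2K,s)`; compare `LibLG5.M9_card`).
-/

open Finset

namespace Pool.Agent.LibSC93

open Pool.Agent.LibRG87 Pool.Agent.LibLG5 Pool.Agent.LibPL63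

variable {ι : Type} [Fintype ι] [DecidableEq ι] (P : Finset ℕ)

private theorem R2_none (A : Average) (b : ι → ℕ) {p : ℕ} (hp : p ∈ A.good) :
    A.Ep p (fun n => |loc b p (none : Option ι) n * loc b p (none : Option ι) n|) = 1 := by
  unfold Average.Ep
  simp only [loc, mul_one, abs_one]
  exact A.lp_sum p hp

private theorem R2_le (A : Average) (b : ι → ℕ) {p : ℕ} (hp : p ∈ A.good)
    (hlp : ∀ y < p, A.lp p y ≤ 1 / ((p : ℝ) - 1)) (o o' : Option ι)
    (h : ¬(o = none ∧ o' = none)) :
    A.Ep p (fun n => |loc b p o n * loc b p o' n|) ≤ 2 / ((p : ℝ) - 1) := by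
  have hpp := A.good_prime p hp
  have h1 := Q1_pm hpp
  unfold Average.Ep
  calc ∑ x ∈ range p, A.lp p x * |loc b p o x * loc b p o' x|
      ≤ ∑ x ∈ range p, 1 / ((p : ℝ) - 1) * |loc b p o x * loc b p o' x| :=
        Finset.sum_le_sum fun x hx =>
          mul_le_mul_of_nonneg_right (hlp x (Finset.mem_range.1 hx)) (abs_nonneg _)
    _ = 1 / ((p : ℝ) - 1) * ∑ x ∈ range p, |loc b p o x * loc b p o' x| := by
        rw [Finset.mul_sum]
    _ ≤ 1 / ((p : ℝ) - 1) * 2 :=
        mul_le_mul_of_nonneg_left (tot_le b hpp o o' h) (by positivity)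
    _ = 2 / ((p : ℝ) - 1) := by ring

private theorem R2_local (A : Average) (b : ι → ℕ) {p : ℕ} (hp : p ∈ A.good)
    (hlp : ∀ y < p, A.lp p y ≤ 1 / ((p : ℝ) - 1)) (S : Finset ι) :
    ∑ o ∈ insertNone S, ∑ o' ∈ insertNone S, A.Ep p (fun n => |loc b p o n * loc b p o' n|) ≤
      1 + 2 * ((S.card : ℝ) + 1) ^ 2 / ((p : ℝ) - 1) := by
  have hpp := A.good_prime p hp
  have h1 := Q1_pm hpp
  have h2 : (0 : ℝ) ≤ 2 / ((p : ℝ) - 1) := by positivity
  have hle : ∀ o o' : Option ι, A.Ep p (fun n => |loc b p o n * loc b p o' n|) ≤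
      (if o = none then (if o' = none then (1 : ℝ) else 0) else 0) + 2 / ((p : ℝ) - 1) := by
    intro o o'
    by_cases h : o = none ∧ o' = none
    · obtain ⟨rfl, rfl⟩ := h
      rw [R2_none A b hp, if_pos rfl, if_pos rfl]
      linarith
    · refine (R2_le A b hp hlp o o' h).trans ?_
      have h3 : (0 : ℝ) ≤ (if o = none then (if o' = none then (1 : ℝ) else 0) else 0) := by
        split_ifs <;> norm_num
      linarith
  refine (Finset.sum_le_sum fun o _ => Finset.sum_le_sum fun o' _ => hle o o').trans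
    (le_of_eq ?_)
  simp only [Finset.sum_add_distrib, Finset.sum_const, card_insertNone, nsmul_eq_mul]
  have h4 : ∀ o : Option ι, (∑ o' ∈ insertNone S,
      if o = none then (if o' = none then (1 : ℝ) else 0) else 0) =
      if o = none then 1 else 0 := by
    intro o
    split_ifs with ho
    · rw [Finset.sum_ite_eq', if_pos (none_mem_insertNone (s := S))]
    · simp
  simp only [h4, Finset.sum_ite_eq', none_mem_insertNone, if_true]
  push_cast
  ring

/-- the mass of the pairs with values in `insertNone S` -/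
private theorem R2_mass (A : Average) (b : ι → ℕ) (J : Finset ι) (hL : LocOK P A b J)
    (S : Finset ι) (m : ℕ) (hS : S.card ≤ m) :
    ∑ β ∈ Fintype.piFinset (fun _ : P => insertNone S),
      ∑ β' ∈ Fintype.piFinset (fun _ : P => insertNone S), AMA P A b β β' ≤
      ∏ p ∈ P, (1 + 2 * ((m : ℝ) + 1) ^ 2 / ((p : ℝ) - 1)) := by
  have h1 : ∀ β : P → Option ι, ∑ β' ∈ Fintype.piFinset (fun _ : P => insertNone S),
      AMA P A b β β' = ∏ p : P, ∑ o' ∈ insertNone S,
        A.Ep (p : ℕ) (fun n => |loc b p (β p) n * loc b p o' n|) := by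
    intro β
    unfold AMA
    rw [Finset.prod_univ_sum]
  simp only [h1]
  have h2 := Finset.prod_univ_sum (ι := P) (t := fun _ : P => insertNone S)
    (f := fun p o => ∑ o' ∈ insertNone S,
      A.Ep (p : ℕ) (fun n => |loc b p o n * loc b p o' n|))
  rw [← h2, ← Finset.prod_coe_sort P]
  refine Finset.prod_le_prod (fun p _ => ?_) fun p _ => ?_
  · exact Finset.sum_nonneg fun o _ => Finset.sum_nonneg fun o' _ =>
      A.Ep_nonneg (hL.good p p.2) fun _ => abs_nonneg _
  · refine (R2_local A b (hL.good p p.2) (hL.lp_le p p.2) S).trans ?_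
    have h3 := Q1_pm (A.good_prime p (hL.good p p.2))
    have h4 : (S.card : ℝ) ≤ m := by exact_mod_cast hS
    have h5 : 0 < (((p : ℕ) : ℝ) - 1) := by positivity
    gcongr

/-- subsets of bounded size -/
private theorem R2_small (J2 : Finset ι) (N m : ℕ) (hN : J2.card ≤ N) {v : ℝ} (hv : 0 ≤ v) :
    ∑ S ∈ J2.powerset.filter (fun S => S.card ≤ m), v ^ S.card ≤ (1 + N * v) ^ m := by
  have h1 : ∑ S ∈ J2.powerset.filter (fun S => S.card ≤ m), v ^ S.card =
      ∑ S ∈ J2.powerset, (fun s : ℕ => if s ≤ m then v ^ s else 0) S.card := by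
    rw [Finset.sum_filter]
  rw [h1, Finset.sum_powerset_apply_card (fun s : ℕ => if s ≤ m then v ^ s else 0)]
  have h2 : ∑ s ∈ range (J2.card + 1), J2.card.choose s • (if s ≤ m then v ^ s else 0) =
      ∑ s ∈ (range (J2.card + 1)).filter (fun s => s ≤ m), J2.card.choose s • v ^ s := by
    rw [Finset.sum_filter]
    refine Finset.sum_congr rfl fun s _ => ?_
    split_ifs <;> simp
  rw [h2]
  have h3 : ∑ s ∈ (range (J2.card + 1)).filter (fun s => s ≤ m), J2.card.choose s • v ^ s ≤
      ∑ s ∈ range (m + 1), J2.card.choose s • v ^ s := by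
    refine Finset.sum_le_sum_of_subset_of_nonneg ?_ fun s _ _ => by positivity
    intro s hs
    rw [Finset.mem_filter] at hs
    rw [Finset.mem_range]
    omega
  refine h3.trans ?_
  have h4 : (1 + (N : ℝ) * v) ^ m = ((N : ℝ) * v + 1) ^ m := by rw [add_comm]
  rw [h4, add_pow]
  refine Finset.sum_le_sum fun s hs => ?_
  rw [Finset.mem_range] at hs
  rw [one_pow, mul_one, nsmul_eq_mul, mul_pow]
  have h5 : (J2.card.choose s : ℝ) ≤ (N : ℝ) ^ s := by
    have h6 : J2.card.choose s ≤ J2.card ^ s := Nat.choose_le_pow _ _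
    have h7 : J2.card ^ s ≤ N ^ s := Nat.pow_le_pow_left hN s
    exact_mod_cast h6.trans h7
  have h6 : (1 : ℝ) ≤ (m.choose s : ℝ) := by
    exact_mod_cast Nat.choose_pos (by omega)
  have h7 : (0 : ℝ) ≤ v ^ s := by positivity
  calc (J2.card.choose s : ℝ) * v ^ s ≤ (N : ℝ) ^ s * v ^ s := by gcongr
    _ = (N : ℝ) ^ s * v ^ s * 1 := by ring
    _ ≤ (N : ℝ) ^ s * v ^ s * (m.choose s : ℝ) := by gcongr

/-- the weighted number of supports -/
private theorem R2_supports (b : ι → ℕ) (J : Finset ι) (hb : Set.InjOn b (J : Set ι))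
    (E : Finset ℕ) (m : ℕ) {v : ℝ} (hv : 0 ≤ v) :
    ∑ S ∈ J.powerset.filter (fun S => S.card ≤ m), v ^ ((S.image b) \ E).card ≤
      2 ^ E.card * (1 + Fintype.card ι * v) ^ m := by
  set J1 := J.filter fun i => b i ∈ E with hJ1
  set J2 := J.filter fun i => ¬ b i ∈ E with hJ2
  have hcard1 : J1.card ≤ E.card := by
    refine Finset.card_le_card_of_injOn b ?_ ?_
    · intro i hi
      rw [hJ1, Finset.mem_coe, Finset.mem_filter] at hi
      exact hi.2
    · refine hb.mono ?_
      rw [Finset.coe_subset]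
      exact Finset.filter_subset _ _
  have hcard2 : J2.card ≤ Fintype.card ι := Finset.card_le_univ _
  have hexp : ∀ S ∈ J.powerset.filter (fun S => S.card ≤ m),
      ((S.image b) \ E).card = (S ∩ J2).card := by
    intro S hS
    rw [Finset.mem_filter, Finset.mem_powerset] at hS
    have h1 : (S.image b) \ E = (S ∩ J2).image b := by
      ext x
      simp only [Finset.mem_sdiff, Finset.mem_image, Finset.mem_inter, hJ2, Finset.mem_filter]
      constructor
      · rintro ⟨⟨i, hi, rfl⟩, hx⟩
        exact ⟨i, ⟨hi, hS.1 hi, hx⟩, rfl⟩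
      · rintro ⟨i, ⟨hi, _, hx⟩, rfl⟩
        exact ⟨⟨i, hi, rfl⟩, hx⟩
    rw [h1]
    apply Finset.card_image_of_injOn
    refine hb.mono ?_
    rw [Finset.coe_subset]
    exact Finset.inter_subset_left.trans hS.1
  rw [Finset.sum_congr rfl fun S hS => by rw [hexp S hS]]
  have hsplit : ∀ S ⊆ J, S = (S ∩ J1) ∪ (S ∩ J2) := by
    intro S hS
    ext i
    simp only [Finset.mem_union, Finset.mem_inter, hJ1, hJ2, Finset.mem_filter]
    constructor
    · intro hi
      by_cases h : b i ∈ E
      · exact Or.inl ⟨hi, hS hi, h⟩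
      · exact Or.inr ⟨hi, hS hi, h⟩
    · rintro (h | h) <;> exact h.1
  have h1 : ∑ S ∈ J.powerset.filter (fun S => S.card ≤ m), v ^ (S ∩ J2).card ≤
      ∑ q ∈ J1.powerset ×ˢ J2.powerset.filter (fun S => S.card ≤ m), v ^ q.2.card := by
    have h2 : ∑ S ∈ J.powerset.filter (fun S => S.card ≤ m), v ^ (S ∩ J2).card =
        ∑ q ∈ (J.powerset.filter (fun S => S.card ≤ m)).image (fun S => (S ∩ J1, S ∩ J2)),
          v ^ q.2.card := by
      rw [Finset.sum_image]
      intro S hS T hT hST
      rw [Finset.mem_coe, Finset.mem_filter, Finset.mem_powerset] at hS hT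
      simp only [Prod.mk.injEq] at hST
      rw [hsplit S hS.1, hsplit T hT.1, hST.1, hST.2]
    rw [h2]
    refine Finset.sum_le_sum_of_subset_of_nonneg ?_ fun q _ _ => by positivity
    intro q hq
    rw [Finset.mem_image] at hq
    obtain ⟨S, hS, rfl⟩ := hq
    rw [Finset.mem_filter, Finset.mem_powerset] at hS
    rw [Finset.mem_product, Finset.mem_powerset, Finset.mem_filter, Finset.mem_powerset]
    exact ⟨Finset.inter_subset_right, Finset.inter_subset_right,
      (Finset.card_le_card Finset.inter_subset_left).trans hS.2⟩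
  refine h1.trans ?_
  rw [Finset.sum_product]
  simp only [Finset.sum_const, Finset.card_powerset, nsmul_eq_mul]
  have h3 := R2_small J2 (Fintype.card ι) m hcard2 hv
  push_cast
  have h4 : (2 : ℝ) ^ J1.card ≤ 2 ^ E.card := pow_le_pow_right₀ (by norm_num) hcard1
  have h5 : 0 ≤ ∑ S ∈ J2.powerset.filter (fun S => S.card ≤ m), v ^ S.card :=
    Finset.sum_nonneg fun S _ => by positivity
  exact mul_le_mul h4 h3 h5 (by positivity)

open scoped Classical in
theorem mass_sumS (A : Average) (b : ι → ℕ) (J : Finset ι) (hL : LocOK P A b J)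
    (hb : Set.InjOn b (J : Set ι)) (Pr E : Finset ℕ) (K : ℕ) {v VE : ℝ} (hv : 0 ≤ v) (hVE : 0 ≤ VE)
    (hV : ∀ B ⊆ J.image b, B.card ≤ 2 * K → VA A Pr (E ∪ B) ≤ 4 * v ^ (B \ E).card * VE) :
    ∑ β : P → Option ι, ∑ β' : P → Option ι,
        (if (alw P J β ∧ (sui P β).card ≤ K) ∧ (alw P J β' ∧ (sui P β').card ≤ K) then
          VA A Pr (E ∪ (su P b β ∪ su P b β')) * AMA P A b β β' else 0) ≤
      4 * VE * 2 ^ E.card * (1 + Fintype.card ι * v) ^ (2 * K) *
        ∏ p ∈ P, (1 + 2 * (2 * (K : ℝ) + 1) ^ 2 / ((p : ℝ) - 1)) := by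
  set U := J.powerset.filter (fun S => S.card ≤ 2 * K) with hU
  have hAM : ∀ β β' : P → Option ι, 0 ≤ AMA P A b β β' := fun β β' =>
    AMA_nonneg P A b hL.good β β'
  have hterm : ∀ β β' : P → Option ι,
      (if (alw P J β ∧ (sui P β).card ≤ K) ∧ (alw P J β' ∧ (sui P β').card ≤ K) then
          VA A Pr (E ∪ (su P b β ∪ su P b β')) * AMA P A b β β' else 0) ≤
      ∑ S ∈ U, if β ∈ Fintype.piFinset (fun _ : P => insertNone S) then
        (if β' ∈ Fintype.piFinset (fun _ : P => insertNone S) then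
          4 * v ^ ((S.image b) \ E).card * VE * AMA P A b β β' else 0) else 0 := by
    intro β β'
    have hnn : ∀ S ∈ U, (0 : ℝ) ≤ if β ∈ Fintype.piFinset (fun _ : P => insertNone S) then
        (if β' ∈ Fintype.piFinset (fun _ : P => insertNone S) then
          4 * v ^ ((S.image b) \ E).card * VE * AMA P A b β β' else 0) else 0 := by
      intro S _
      have := hAM β β'
      split_ifs <;> positivity
    split_ifs with h
    · obtain ⟨⟨h1, h2⟩, h3, h4⟩ := h
      have hsub : ∀ γ : P → Option ι, alw P J γ → sui P γ ⊆ J := by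
        intro γ hγ i hi
        rw [sui, Finset.mem_filter] at hi
        obtain ⟨p, hp⟩ := hi.2
        exact hγ p i hp
      have hcard : (sui P β ∪ sui P β').card ≤ 2 * K :=
        (Finset.card_union_le _ _).trans (by omega)
      have hSU : sui P β ∪ sui P β' ∈ U := by
        rw [hU, Finset.mem_filter, Finset.mem_powerset]
        exact ⟨Finset.union_subset (hsub β h1) (hsub β' h3), hcard⟩
      refine le_trans ?_ (Finset.single_le_sum hnn hSU)
      have hm : ∀ γ : P → Option ι, sui P γ ⊆ sui P β ∪ sui P β' →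
          γ ∈ Fintype.piFinset (fun _ : P => insertNone (sui P β ∪ sui P β')) := by
        intro γ hγ
        rw [Fintype.mem_piFinset]
        intro p
        rw [Finset.mem_insertNone]
        intro i hi
        apply hγ
        rw [sui, Finset.mem_filter]
        exact ⟨Finset.mem_univ _, p, hi⟩
      rw [if_pos (hm β Finset.subset_union_left), if_pos (hm β' Finset.subset_union_right)]
      refine mul_le_mul_of_nonneg_right ?_ (hAM β β')
      have e : su P b β ∪ su P b β' = (sui P β ∪ sui P β').image b := by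
        rw [Finset.image_union]; rfl
      rw [e]
      exact hV _ (Finset.image_subset_image (Finset.union_subset (hsub β h1) (hsub β' h3)))
        (Finset.card_image_le.trans hcard)
    · exact Finset.sum_nonneg hnn
  refine (Finset.sum_le_sum fun β _ => Finset.sum_le_sum fun β' _ => hterm β β').trans ?_
  have hswap : ∑ β : P → Option ι, ∑ β' : P → Option ι,
      ∑ S ∈ U, (if β ∈ Fintype.piFinset (fun _ : P => insertNone S) then
        (if β' ∈ Fintype.piFinset (fun _ : P => insertNone S) then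
          4 * v ^ ((S.image b) \ E).card * VE * AMA P A b β β' else 0) else 0) =
      ∑ S ∈ U, 4 * v ^ ((S.image b) \ E).card * VE *
        ∑ β ∈ Fintype.piFinset (fun _ : P => insertNone S),
          ∑ β' ∈ Fintype.piFinset (fun _ : P => insertNone S), AMA P A b β β' := by
    have h1 : ∀ β : P → Option ι, ∑ β' : P → Option ι,
      ∑ S ∈ U, (if β ∈ Fintype.piFinset (fun _ : P => insertNone S) then
        (if β' ∈ Fintype.piFinset (fun _ : P => insertNone S) then
          4 * v ^ ((S.image b) \ E).card * VE * AMA P A b β β' else 0) else 0) =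
        ∑ S ∈ U, ∑ β' : P → Option ι,
          (if β ∈ Fintype.piFinset (fun _ : P => insertNone S) then
        (if β' ∈ Fintype.piFinset (fun _ : P => insertNone S) then
          4 * v ^ ((S.image b) \ E).card * VE * AMA P A b β β' else 0) else 0) := fun β =>
      Finset.sum_comm
    rw [Finset.sum_congr rfl fun β _ => h1 β, Finset.sum_comm]
    refine Finset.sum_congr rfl fun S _ => ?_
    rw [Finset.mul_sum, ← Finset.sum_filter_add_sum_filter_not Finset.univ
      (fun β : P → Option ι => β ∈ Fintype.piFinset (fun _ : P => insertNone S))]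
    have h2 : ∑ β ∈ Finset.univ.filter (fun β : P → Option ι =>
        ¬ β ∈ Fintype.piFinset (fun _ : P => insertNone S)), ∑ β' : P → Option ι,
        (if β ∈ Fintype.piFinset (fun _ : P => insertNone S) then
        (if β' ∈ Fintype.piFinset (fun _ : P => insertNone S) then
          4 * v ^ ((S.image b) \ E).card * VE * AMA P A b β β' else 0) else 0) = 0 := by
      refine Finset.sum_eq_zero fun β hβ => Finset.sum_eq_zero fun β' _ => ?_
      rw [Finset.mem_filter] at hβ
      rw [if_neg hβ.2]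
    rw [h2, add_zero]
    refine Finset.sum_congr (by ext β; simp) fun β hβ => ?_
    rw [Finset.mul_sum, ← Finset.sum_filter_add_sum_filter_not Finset.univ
      (fun β' : P → Option ι => β' ∈ Fintype.piFinset (fun _ : P => insertNone S))]
    have h3 : ∑ β' ∈ Finset.univ.filter (fun β' : P → Option ι =>
        ¬ β' ∈ Fintype.piFinset (fun _ : P => insertNone S)),
        (if β ∈ Fintype.piFinset (fun _ : P => insertNone S) then
        (if β' ∈ Fintype.piFinset (fun _ : P => insertNone S) then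
          4 * v ^ ((S.image b) \ E).card * VE * AMA P A b β β' else 0) else 0) = 0 := by
      refine Finset.sum_eq_zero fun β' hβ' => ?_
      rw [Finset.mem_filter] at hβ'
      rw [if_neg hβ'.2, ite_self]
    rw [h3, add_zero]
    refine Finset.sum_congr (by ext β'; simp) fun β' hβ' => ?_
    rw [if_pos hβ, if_pos hβ']
  rw [hswap]
  set G := ∏ p ∈ P, (1 + 2 * (2 * (K : ℝ) + 1) ^ 2 / ((p : ℝ) - 1)) with hG
  have hG' : ∀ S ∈ U, ∑ β ∈ Fintype.piFinset (fun _ : P => insertNone S),
      ∑ β' ∈ Fintype.piFinset (fun _ : P => insertNone S), AMA P A b β β' ≤ G := by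
    intro S hS
    rw [hU, Finset.mem_filter] at hS
    have h1 := R2_mass P A b J hL S (2 * K) hS.2
    push_cast at h1
    exact h1
  have hG0 : 0 ≤ G := by
    refine Finset.prod_nonneg fun p hp => ?_
    have h3 := Q1_pm (A.good_prime p (hL.good p hp))
    have h5 : 0 < ((p : ℝ) - 1) := by positivity
    positivity
  calc ∑ S ∈ U, 4 * v ^ ((S.image b) \ E).card * VE *
        ∑ β ∈ Fintype.piFinset (fun _ : P => insertNone S),
          ∑ β' ∈ Fintype.piFinset (fun _ : P => insertNone S), AMA P A b β β'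
      ≤ ∑ S ∈ U, 4 * v ^ ((S.image b) \ E).card * VE * G :=
        Finset.sum_le_sum fun S hS => mul_le_mul_of_nonneg_left (hG' S hS) (by positivity)
    _ = 4 * VE * (∑ S ∈ U, v ^ ((S.image b) \ E).card) * G := by
        rw [← Finset.sum_mul, Finset.mul_sum]
        congr 1
        exact Finset.sum_congr rfl fun S _ => by ring
    _ ≤ 4 * VE * (2 ^ E.card * (1 + Fintype.card ι * v) ^ (2 * K)) * G := by
        refine mul_le_mul_of_nonneg_right (mul_le_mul_of_nonneg_left ?_ (by positivity)) hG0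
        exact R2_supports b J hb E (2 * K) hv
    _ = 4 * VE * 2 ^ E.card * (1 + Fintype.card ι * v) ^ (2 * K) * G := by ring

end Pool.Agent.LibSC93
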