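import Pool.Agent.LibSC93.R1
import Pool.Agent.LibSC93.R2
import Pool.Agent.LibSC93.R3
import Pool.Agent.LibPL63.Q3
import Pool.Agent.LibPL63.Q5

/-!
Row R4 (the quadratic form, assembly). Expand the square (`rhoP Pr A n * rhoP Pr B n = rhoP Pr (A ∪ B) n`, `(E ∪ su β) ∪ (E ∪ su β') = E ∪ (su β ∪ su β')`), exchange the sums; for each pair `β, β'` with
`y β y β' ≠ 0` use `PairA` with `B = E ∪ (su β ∪ su β')` (`|B| ≤ |E| + 2K ≤ k`, `|su β| ≤ |sui β|`). Main terms: `VA B * EPA = VA B * Dd + VA B * (EPA - Dd)`; `∑ y y' VA Dd = dgV` (for `β = β'`: `E ∪ (su β ∪ su β) = E ∪ su β`), and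
`0 ≤ VA ≤ 1` with `off_sumS` (the primes are `> z`, so `rr (sp β) ≤ z^L` gives `|sp β| ≤ L`); then `mass_sumS`, `rem_sumS`. Model: the finished `LibPL63.Q5` (`QFA`) and `LibLG5.Q6` (`Q6_det`).
-/

open Finset Filter

namespace Pool.Agent.LibSC93

open Pool.Agent.LibRG87 Pool.Agent.LibLG5 Pool.Agent.LibPL63

private theorem R4_rho (Pr A B : Finset ℕ) (n : ℕ) :
    rhoP Pr A n * rhoP Pr B n = rhoP Pr (A ∪ B) n := by
  classical
  unfold rhoP
  by_cases h1 : ∀ a ∈ A, ∀ p ∈ Pr, ¬ p ∣ n + a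
  · by_cases h2 : ∀ a ∈ B, ∀ p ∈ Pr, ¬ p ∣ n + a
    · have h3 : ∀ a ∈ A ∪ B, ∀ p ∈ Pr, ¬ p ∣ n + a := by
        intro a ha
        rcases Finset.mem_union.1 ha with h | h
        · exact h1 a h
        · exact h2 a h
      rw [if_pos h1, if_pos h2, if_pos h3, mul_one]
    · have h3 : ¬ ∀ a ∈ A ∪ B, ∀ p ∈ Pr, ¬ p ∣ n + a := fun h =>
        h2 fun a ha => h a (Finset.mem_union_right _ ha)
      rw [if_neg h2, if_neg h3, mul_zero]
  · have h3 : ¬ ∀ a ∈ A ∪ B, ∀ p ∈ Pr, ¬ p ∣ n + a := fun h =>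
      h1 fun a ha => h a (Finset.mem_union_left _ ha)
    rw [if_neg h1, if_neg h3, zero_mul]

section

variable {ι : Type} [Fintype ι] [DecidableEq ι] (P : Finset ℕ)

private theorem R4_union (b : ι → ℕ) (E : Finset ℕ) (β β' : P → Option ι) :
    (E ∪ su P b β) ∪ (E ∪ su P b β') = E ∪ (su P b β ∪ su P b β') := by
  rw [Finset.union_union_union_comm, Finset.union_self]

private theorem R4_sq (Pr : Finset ℕ) (b : ι → ℕ) (y : (P → Option ι) → ℝ) (E : Finset ℕ)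
    (n : ℕ) : PhiS P Pr b y E n ^ 2 = ∑ β, ∑ β', y β * y β' *
      (rhoP Pr (E ∪ (su P b β ∪ su P b β')) n * (ee P b β n * ee P b β' n)) := by
  rw [PhiS, sq, Finset.sum_mul_sum]
  refine Finset.sum_congr rfl fun β _ => Finset.sum_congr rfl fun β' _ => ?_
  have h := R4_rho Pr (E ∪ su P b β) (E ∪ su P b β') n
  rw [R4_union] at h
  rw [← h]
  ring

private theorem R4_main (A : Average) (Pr : Finset ℕ) (b : ι → ℕ) (y : (P → Option ι) → ℝ)
    (E : Finset ℕ) :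
    ∑ n ∈ A.s, A.om n * PhiS P Pr b y E n ^ 2 = ∑ β, ∑ β', y β * y β' *
      ∑ n ∈ A.s, A.om n *
        (rhoP Pr (E ∪ (su P b β ∪ su P b β')) n * (ee P b β n * ee P b β' n)) := by
  simp only [R4_sq, Finset.mul_sum]
  rw [Finset.sum_comm]
  refine Finset.sum_congr rfl fun β _ => ?_
  rw [Finset.sum_comm]
  exact Finset.sum_congr rfl fun β' _ => Finset.sum_congr rfl fun n _ => by ring

private theorem R4_dg (V : Finset ℕ → ℝ) (b : ι → ℕ) (E : Finset ℕ) (y : (P → Option ι) → ℝ) :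
    dgV P V b E y = ∑ β, ∑ β', y β * y β' *
      (V (E ∪ (su P b β ∪ su P b β')) * Dd P β β') := by
  unfold dgV
  refine Finset.sum_congr rfl fun β _ => ?_
  rw [Finset.sum_eq_single β]
  · rw [Dd, if_pos rfl, Finset.union_self]
    ring
  · intro β' _ h
    rw [Dd, if_neg (Ne.symm h), mul_zero, mul_zero]
  · intro h
    exact absurd (Finset.mem_univ _) h

private theorem R4_VA_le (A : Average) (Pr B : Finset ℕ) (hPr : ∀ p ∈ Pr, p ∈ A.good) :
    VA A Pr B ≤ 1 := by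
  unfold VA
  refine Finset.prod_le_one (fun p hp => ?_) fun p hp => ?_
  · exact sub_nonneg.mpr (Q3_Ep_le_one A (hPr p hp) B)
  · have := Q3_Ep_nonneg A (hPr p hp) B
    linarith

private theorem R4_card (z L : ℕ) (hz : 2 ≤ z) (hP : ∀ p ∈ P, z < p) (β : P → Option ι)
    (h : rr (sp P β) ≤ (z : ℝ) ^ L) : (sp P β).card ≤ L := by
  have h1 : (z : ℝ) ^ (sp P β).card ≤ rr (sp P β) := by
    have h2 : z ^ (sp P β).card ≤ ∏ p ∈ sp P β, p := by
      rw [← Finset.prod_const]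
      exact Finset.prod_le_prod' fun p hp => (hP p (sp_subset P β hp)).le
    unfold rr
    have h4 : ((z ^ (sp P β).card : ℕ) : ℝ) ≤ ((∏ p ∈ sp P β, p : ℕ) : ℝ) := by exact_mod_cast h2
    rw [Nat.cast_pow, Nat.cast_prod] at h4
    exact h4
  have h3 : (1 : ℝ) < z := by exact_mod_cast (by omega : 1 < z)
  exact (pow_le_pow_iff_right₀ h3).1 (h1.trans h)

open scoped Classical in
/-- one pair of configurations -/
private theorem R4_pair (C : ℕ) (hC : PairA C) (k b0 : ℕ) (hb : Even b0)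
    (he : eps0 C (2 * k) b0 ≤ 1)
    (A : Average) (z L K : ℕ) (Pr : Finset ℕ) (hz : 2 ≤ z) (hS : SmallOK A Pr z k)
    (hPz : ∀ p ∈ P, z < p) (b : ι → ℕ) (J : Finset ι)
    (hL : LocOK P A b J) (E : Finset ℕ) (hE : E.card + 2 * K ≤ k)
    (y : (P → Option ι) → ℝ) (hy : ∀ β, |y β| ≤ 1)
    (hy' : ∀ β, y β ≠ 0 → rr (sp P β) ≤ (z : ℝ) ^ L ∧ alw P J β ∧ (sui P β).card ≤ K)
    (β β' : P → Option ι) :
    |y β * y β' * (∑ n ∈ A.s, A.om n *
        (rhoP Pr (E ∪ (su P b β ∪ su P b β')) n * (ee P b β n * ee P b β' n)) -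
      A.X * (VA A Pr (E ∪ (su P b β ∪ su P b β')) * Dd P β β'))| ≤
      A.X * (if (alw P J β ∧ (sp P β).card ≤ L) ∧ (alw P J β' ∧ (sp P β').card ≤ L) then
          |EPA P A b β β' - Dd P β β'| else 0) +
      eps0 C (2 * k) b0 * A.X *
        (if (alw P J β ∧ (sui P β).card ≤ K) ∧ (alw P J β' ∧ (sui P β').card ≤ K) then
          VA A Pr (E ∪ (su P b β ∪ su P b β')) * AMA P A b β β' else 0) +
      (if rr (sp P β) ≤ (z : ℝ) ^ L ∧ rr (sp P β') ≤ (z : ℝ) ^ L then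
          (∑ D ∈ Pr.powerset with ∏ p ∈ D, p ≤ z ^ (2 * b0 + 6),
            ((2 * k : ℕ) : ℝ) ^ D.card * A.Er ((∏ p ∈ D, p) * ∏ p ∈ sp P β ∪ sp P β', p)) *
            2 ^ (sp P β ∪ sp P β').card else 0) := by
  set B := E ∪ (su P b β ∪ su P b β') with hB
  have hV0 : 0 ≤ VA A Pr B := VA_nonneg A Pr B hS.good
  have hV1 : VA A Pr B ≤ 1 := R4_VA_le A Pr B hS.good
  have hX := A.X_nonneg
  have he0 : 0 ≤ eps0 C (2 * k) b0 := by
    unfold eps0
    positivity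
  have hAM : 0 ≤ AMA P A b β β' := AMA_nonneg P A b hL.good β β'
  by_cases h : y β ≠ 0 ∧ y β' ≠ 0
  · obtain ⟨h1, h2, h2'⟩ := hy' β h.1
    obtain ⟨h3, h4, h4'⟩ := hy' β' h.2
    rw [if_pos ⟨⟨h2, R4_card P z L hz hPz β h1⟩, h4, R4_card P z L hz hPz β' h3⟩,
      if_pos ⟨⟨h2, h2'⟩, h4, h4'⟩, if_pos ⟨h1, h3⟩, abs_mul]
    have hyy : |y β * y β'| ≤ 1 := by
      rw [abs_mul]
      exact mul_le_one₀ (hy β) (abs_nonneg _) (hy β')
    have hBk : B.card ≤ k := by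
      have c1 : (su P b β).card ≤ (sui P β).card := Finset.card_image_le
      have c2 : (su P b β').card ≤ (sui P β').card := Finset.card_image_le
      have c3 := Finset.card_union_le E (su P b β ∪ su P b β')
      have c4 := Finset.card_union_le (su P b β) (su P b β')
      rw [hB]
      omega
    have hpair := hC k b0 hb he A z Pr P (by omega) hS
      (fun p hp => ⟨hL.good p hp, hPz p hp⟩) ι b B β β' hBk
    refine (mul_le_of_le_one_left (abs_nonneg _) hyy).trans ?_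
    have e : ∑ n ∈ A.s, A.om n * (rhoP Pr B n * (ee P b β n * ee P b β' n)) -
        A.X * (VA A Pr B * Dd P β β') =
        (∑ n ∈ A.s, A.om n * (rhoP Pr B n * (ee P b β n * ee P b β' n)) -
          A.X * VA A Pr B * EPA P A b β β') +
        A.X * VA A Pr B * (EPA P A b β β' - Dd P β β') := by ring
    rw [e]
    refine (abs_add_le _ _).trans ?_
    rw [abs_mul (A.X * VA A Pr B), abs_of_nonneg (mul_nonneg hX hV0)]
    have h5 : A.X * VA A Pr B * |EPA P A b β β' - Dd P β β'| ≤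
        A.X * |EPA P A b β β' - Dd P β β'| := by
      refine mul_le_mul_of_nonneg_right ?_ (abs_nonneg _)
      exact mul_le_of_le_one_right hX hV1
    have h6 : eps0 C (2 * k) b0 * (A.X * VA A Pr B * AMA P A b β β') =
        eps0 C (2 * k) b0 * A.X * (VA A Pr B * AMA P A b β β') := by ring
    rw [h6] at hpair
    linarith
  · have h0 : y β * y β' = 0 := by
      rcases not_and_or.1 h with h | h
      · rw [not_not.1 h, zero_mul]
      · rw [not_not.1 h, mul_zero]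
    rw [h0, zero_mul, abs_zero]
    refine add_nonneg (add_nonneg (mul_nonneg hX ?_) (mul_nonneg (mul_nonneg he0 hX) ?_)) ?_
    · split_ifs
      · exact abs_nonneg _
      · exact le_rfl
    · split_ifs
      · exact mul_nonneg hV0 hAM
      · exact le_rfl
    · split_ifs
      · refine mul_nonneg (Finset.sum_nonneg fun D _ => mul_nonneg (by positivity)
          (A.Er_nonneg _)) (by positivity)
      · exact le_rfl

end

theorem QFS (C : ℕ) (hC : PairA C) (k b0 : ℕ) (hk : 1 ≤ k) (hb : Even b0) (he : eps0 C (2 * k) b0 ≤ 1)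
    (A : Average) (z L K : ℕ) (Pr P : Finset ℕ) (hz : 2 ≤ z) (hS : SmallOK A Pr z k)
    (hPz : ∀ p ∈ P, z < p) (ι : Type) [Fintype ι] [DecidableEq ι] (b : ι → ℕ) (J : Finset ι)
    (hbJ : Set.InjOn b (J : Set ι)) (hL : LocOK P A b J) (E : Finset ℕ) (hE : E.card + 2 * K ≤ k)
    {v VE : ℝ} (hv : 0 ≤ v) (hVE : 0 ≤ VE)
    (hV : ∀ B ⊆ J.image b, B.card ≤ 2 * K → VA A Pr (E ∪ B) ≤ 4 * v ^ (B \ E).card * VE)
    (y : (P → Option ι) → ℝ) (hy : ∀ β, |y β| ≤ 1)
    (hy' : ∀ β, y β ≠ 0 → rr (sp P β) ≤ (z : ℝ) ^ L ∧ alw P J β ∧ (sui P β).card ≤ K) :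
    |∑ n ∈ A.s, A.om n * PhiS P Pr b y E n ^ 2 - A.X * dgV P (VA A Pr) b E y| ≤
      A.X * ((9 * ((Fintype.card ι : ℝ) + 1) ^ 2) ^ (2 * L) * ((∑ p ∈ P, 1 / ((p : ℝ) - 1) ^ 2) *
        ∏ p ∈ P, (1 + 1 / ((p : ℝ) - 1)))) +
      eps0 C (2 * k) b0 * (A.X * (4 * VE * 2 ^ E.card * (1 + Fintype.card ι * v) ^ (2 * K) *
        ∏ p ∈ P, (1 + 2 * (2 * (K : ℝ) + 1) ^ 2 / ((p : ℝ) - 1)))) +
      (((Fintype.card ι : ℝ) + 1) ^ 2) ^ (2 * L) *
        RemA A.Er (Pr ∪ P) (2 * k) (z ^ (2 * L + 2 * b0 + 6)) := by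
  classical
  have hX := A.X_nonneg
  have he0 : 0 ≤ eps0 C (2 * k) b0 := by
    unfold eps0
    positivity
  have e1 : ∑ n ∈ A.s, A.om n * PhiS P Pr b y E n ^ 2 - A.X * dgV P (VA A Pr) b E y =
      ∑ β, ∑ β', y β * y β' *
        (∑ n ∈ A.s, A.om n *
          (rhoP Pr (E ∪ (su P b β ∪ su P b β')) n * (ee P b β n * ee P b β' n)) -
          A.X * (VA A Pr (E ∪ (su P b β ∪ su P b β')) * Dd P β β')) := by
    rw [R4_main, R4_dg, Finset.mul_sum, ← Finset.sum_sub_distrib]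
    refine Finset.sum_congr rfl fun β _ => ?_
    rw [Finset.mul_sum, ← Finset.sum_sub_distrib]
    exact Finset.sum_congr rfl fun β' _ => by ring
  rw [e1]
  refine (Finset.abs_sum_le_sum_abs _ _).trans ?_
  refine (Finset.sum_le_sum fun β _ => Finset.abs_sum_le_sum_abs _ _).trans ?_
  refine (Finset.sum_le_sum fun β _ => Finset.sum_le_sum fun β' _ =>
    R4_pair P C hC k b0 hb he A z L K Pr hz hS hPz b J hL E hE y hy hy' β β').trans ?_
  have h1 := off_sumS P A b J hL L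
  have h2 := mass_sumS P A b J hL hbJ Pr E K hv hVE hV
  have h3 := rem_sumS A.Er A.Er_nonneg k z L b0 hk hz Pr P
    (fun p hp => ⟨A.good_prime p (hS.good p hp), hS.le p hp⟩)
    (fun p hp => ⟨A.good_prime p (hL.good p hp), hPz p hp⟩) ι
  simp only [Finset.sum_add_distrib, ← Finset.mul_sum]
  have h1' := mul_le_mul_of_nonneg_left h1 hX
  have h2' := mul_le_mul_of_nonneg_left h2 (mul_nonneg he0 hX)
  refine (add_le_add (add_le_add h1' h2') h3).trans (le_of_eq ?_)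
  ring

end Pool.Agent.LibSC93
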