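import Pool.Agent.LibSC93.D1
import Pool.Agent.LibPL63.SA7
import Pool.Agent.LibPL63.V2
import Pool.Agent.LibPL63.BV

/-!
Row X1. `MertP`: `mert_lower` inverted (`φ(Wp)/Wp V1p ≥ c/log z`).
`M_le`: `Dv.unit` with `q = 1`, `a = 0`: `M ≤ ∑' wp x n + er 1`; `wp x n ≤ Λ(n) gw(log n - x)/n` (equal for primes), so `∑' wp ≤ LibMaier.S0 x ≤ 2` for large `x` (`LibMaier.tendsto_S0`; see the finished LibPL63/B7.lean, BV.lean
where `D.M = S0 x` is used, for the summability lemmas).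
`prime_part_le`: the reverse of the finished `wp_transfer`, `prime_part_ge` (LibPL63/SA7.lean): for `n > lo ≥ e^(x/4)`, `x a0 ≤ lo`, `n ≤ e^(2x)`, `n + a0` prime: `log (n + a0) ≥ x/4`, with `δ = log (1 + a0/n) ≤ 1/x` and `|log n - x| ≤ x`:
`gw (log n + δ - x) ≥ e^(-1-1/x²) gw (log n - x)`, `n + a0 ≤ 2 n`; so `omU x n ≤ (8 e^2/x) wp x (n + a0) ≤ (64/x) wp x (n + a0)`.
-/

open Finset Filter

namespace Pool.Agent.LibSC93

open Pool.Agent.LibRG87 Pool.Agent.LibLG5 Pool.Agent.LibPL63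

/-- Mertens, lower bound, inverted -/
def MertP (Cm : ℕ) : Prop := 1 ≤ Cm ∧ ∀ᶠ z : ℕ in atTop, ∀ p1 : ℕ, p1.Prime →
  1 / (((Wp z p1).totient : ℝ) * V1p (P0 z p1)) ≤ Cm * Real.log z / Wp z p1

theorem mertp : ∃ Cm : ℕ, MertP Cm := by
  obtain ⟨c, hc, h⟩ := mert_lower
  refine ⟨⌈1 / c⌉₊ + 1, by omega, ?_⟩
  filter_upwards [h, eventually_ge_atTop 2] with z hz hz2 p1 hp1
  have h1 := hz p1 hp1
  have hl : 0 < Real.log z := Real.log_pos (by exact_mod_cast hz2)
  have hW : (0 : ℝ) < Wp z p1 := by exact_mod_cast Wp_pos z p1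
  have hlow : 0 < c / Real.log z := div_pos hc hl
  set T : ℝ := ((Wp z p1).totient : ℝ) * V1p (P0 z p1) with hT
  have h2 : c / Real.log z ≤ T / Wp z p1 := by
    rw [hT, mul_div_right_comm]
    exact h1
  have hT0 : 0 < T := by
    have h3 : 0 < T / Wp z p1 := hlow.trans_le h2
    exact (div_pos_iff_of_pos_right hW).1 h3
  have h4 : (1 : ℝ) / c ≤ ((⌈1 / c⌉₊ + 1 : ℕ) : ℝ) := by
    push_cast
    linarith [Nat.le_ceil (1 / c)]
  rw [div_le_div_iff₀ hl hW] at h2
  rw [div_le_div_iff₀ hT0 hW, one_mul]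
  calc (Wp z p1 : ℝ) = (1 / c) * (c * Wp z p1) := by field_simp
    _ ≤ (1 / c) * (T * Real.log z) := mul_le_mul_of_nonneg_left h2 (by positivity)
    _ ≤ ((⌈1 / c⌉₊ + 1 : ℕ) : ℝ) * (T * Real.log z) := mul_le_mul_of_nonneg_right h4 (by positivity)
    _ = ((⌈1 / c⌉₊ + 1 : ℕ) : ℝ) * Real.log z * T := by ring

theorem M_le : ∃ x0 : ℝ, ∀ x : ℝ, x0 ≤ x → ∀ (p1 : ℕ) (D : BVdata x p1), D.er 1 ≤ 1 → D.M ≤ 3 := by
  have h2 : ∀ᶠ x : ℝ in atTop, LibMaier.S0 x ≤ 2 :=
    (LibMaier.tendsto_S0.eventually (gt_mem_nhds (show (1 : ℝ) < 2 by norm_num))).mono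
      fun x hx => le_of_lt hx
  obtain ⟨x0, hx0⟩ := Filter.eventually_atTop.1 h2
  refine ⟨x0, fun x hx p1 D hD => ?_⟩
  have h3 := D.unit 1 0 le_rfl (by norm_num)
  have h4 : (∑' n : ℕ, if n ≡ 0 [MOD 1] then wp x n else 0) = ∑' n : ℕ, wp x n :=
    tsum_congr fun n => if_pos (Nat.modEq_one)
  have h5 : ∑' n : ℕ, wp x n ≤ LibMaier.S0 x :=
    (wp_summable x).tsum_le_tsum (wp_le_wn x) (LibMaier.summable_wn x)
  rw [h4, Nat.totient_one, Nat.cast_one, div_one, abs_le] at h3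
  linarith [hx0 x hx, h3.1]

private theorem X1_om {x : ℝ} (hx : 2 ≤ x) {n a0 : ℕ} (hn1 : Real.exp (x / 4) ≤ n) (h1 : x * a0 ≤ n)
    (h2 : (n : ℝ) ≤ Real.exp (2 * x)) (hp : (n + a0).Prime) :
    omU x n ≤ 64 / x * wp x (n + a0) := by
  have hx0 : 0 < x := by linarith
  have hn : (0 : ℝ) < n := (Real.exp_pos _).trans_le hn1
  have ha0 : (0 : ℝ) ≤ a0 := Nat.cast_nonneg _
  have ha : (a0 : ℝ) ≤ n := by
    have : (a0 : ℝ) ≤ x * a0 := le_mul_of_one_le_left ha0 (by linarith)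
    linarith
  have hna : (0 : ℝ) < n + a0 := by positivity
  have hc : ((n + a0 : ℕ) : ℝ) = n + a0 := by push_cast; rfl
  unfold wp
  rw [if_pos hp]
  unfold omU
  rw [hc]
  have hl4 : x / 4 ≤ Real.log n := by
    rw [← Real.log_exp (x / 4)]
    exact Real.log_le_log (Real.exp_pos _) hn1
  have hl2 : Real.log n ≤ 2 * x := by
    rw [← Real.log_exp (2 * x)]
    exact Real.log_le_log hn h2
  have hd0 : 0 ≤ Real.log (n + a0) - Real.log n := by
    rw [sub_nonneg]
    exact Real.log_le_log hn (by linarith)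
  have hd : Real.log (n + a0) - Real.log n ≤ a0 / n := by
    rw [← Real.log_div hna.ne' hn.ne']
    have h4 : ((n : ℝ) + a0) / n = 1 + a0 / n := by field_simp
    rw [h4]
    have h5 := Real.log_le_sub_one_of_pos (show (0 : ℝ) < 1 + a0 / n by positivity)
    linarith
  have hxa : x * (a0 / n) ≤ 1 := by
    rw [mul_div_assoc', div_le_one hn]
    exact h1
  have hxd : x * (Real.log (n + a0) - Real.log n) ≤ 1 :=
    (mul_le_mul_of_nonneg_left hd hx0.le).trans hxa
  have hG : LibMaier.gw (Real.log n - x) ≤ 8 * LibMaier.gw (Real.log (n + a0) - x) := by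
    unfold LibMaier.gw
    have he : Real.exp (-(Real.log (n : ℝ) - x) ^ 2 / 2) ≤
        8 * Real.exp (-(Real.log (n + a0) - x) ^ 2 / 2) := by
      have h6 : Real.exp (-(Real.log (n : ℝ) - x) ^ 2 / 2) ≤
          Real.exp (2 + -(Real.log (n + a0) - x) ^ 2 / 2) := by
        apply Real.exp_le_exp.2
        set d := Real.log (n + a0) - Real.log n with hdd
        have h7 : Real.log (n + a0) = Real.log n + d := by rw [hdd]; ring
        rw [h7]
        have h8 : d * (Real.log n) ≤ d * (2 * x) := mul_le_mul_of_nonneg_left hl2 hd0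
        have h9 : d ≤ 1 / 2 := by nlinarith
        nlinarith
      refine h6.trans ?_
      rw [Real.exp_add]
      have h9 := Real.exp_one_lt_d9
      have h10 : Real.exp 2 ≤ 8 := by
        have h11 : Real.exp 2 = Real.exp 1 * Real.exp 1 := by
          rw [← Real.exp_add]
          norm_num
        rw [h11]
        have h12 := Real.exp_pos 1
        nlinarith
      exact mul_le_mul_of_nonneg_right h10 (Real.exp_pos _).le
    rw [mul_div_assoc']
    exact div_le_div_of_nonneg_right he (Real.sqrt_nonneg _)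
  have hg0 : 0 ≤ LibMaier.gw (Real.log (n + a0) - x) := LibMaier.gw_nonneg _
  have hll : x / 4 ≤ Real.log (n + a0) := by linarith
  calc LibMaier.gw (Real.log n - x) / n ≤ 8 * LibMaier.gw (Real.log (n + a0) - x) / n :=
        div_le_div_of_nonneg_right hG hn.le
    _ ≤ 16 * LibMaier.gw (Real.log (n + a0) - x) / (n + a0) := by
        rw [div_le_div_iff₀ hn hna]
        nlinarith [mul_le_mul_of_nonneg_left ha hg0]
    _ = 64 / x * ((x / 4) * LibMaier.gw (Real.log (n + a0) - x) / (n + a0)) := by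
        field_simp
        ring
    _ ≤ 64 / x * (Real.log (n + a0) * LibMaier.gw (Real.log (n + a0) - x) / (n + a0)) := by
        refine mul_le_mul_of_nonneg_left ?_ (by positivity)
        exact div_le_div_of_nonneg_right (mul_le_mul_of_nonneg_right hll hg0) hna.le

theorem prime_part_le {x : ℝ} (hx : 2 ≤ x) (p1 : ℕ) (D : BVdata x p1) (W c a0 lo : ℕ) (hW : 0 < W)
    (hc : (c + a0).Coprime W) (hlo : x * a0 ≤ lo) (hlo1 : Real.exp (x / 4) ≤ lo) (F : ℕ → ℝ)
    (hF : ∀ n, 0 ≤ F n) :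
    ∑ n ∈ (clsU x W c).filter (fun n => lo < n ∧ (n + a0).Prime), omU x n * F n ≤
      64 / x * ∑ n ∈ (avgQ x p1 D W c a0 lo hW hc).s, (avgQ x p1 D W c a0 lo hW hc).om n * F n := by
  change _ ≤ 64 / x * ∑ n ∈ (clsU x W c).filter (fun n => lo < n), wp x (n + a0) * F n
  rw [Finset.mul_sum]
  calc ∑ n ∈ (clsU x W c).filter (fun n => lo < n ∧ (n + a0).Prime), omU x n * F n
      ≤ ∑ n ∈ (clsU x W c).filter (fun n => lo < n ∧ (n + a0).Prime),
          64 / x * (wp x (n + a0) * F n) := by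
        refine Finset.sum_le_sum fun n hn => ?_
        rw [Finset.mem_filter] at hn
        obtain ⟨h2, h3, hp⟩ := hn
        unfold clsU at h2
        rw [Finset.mem_filter, Finset.mem_Icc] at h2
        have h4 : (n : ℝ) ≤ Real.exp (2 * x) := (Nat.le_floor_iff (Real.exp_pos _).le).1 h2.1.2
        have h5 : (lo : ℝ) < n := by exact_mod_cast h3
        have h6 := X1_om hx (hlo1.trans h5.le) (hlo.trans h5.le) h4 hp
        have h7 := mul_le_mul_of_nonneg_right h6 (hF n)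
        rwa [mul_assoc] at h7
    _ ≤ _ := by
        refine Finset.sum_le_sum_of_subset_of_nonneg (fun n hn => ?_) fun n _ _ => ?_
        · rw [Finset.mem_filter] at hn ⊢
          exact ⟨hn.1, hn.2.1⟩
        · exact mul_nonneg (by positivity) (mul_nonneg (wp_nonneg x _) (hF n))

end Pool.Agent.LibSC93
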