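import Pool.Agent.LibSC93.R5
import Pool.Agent.LibSC93.J5
import Pool.Agent.LibSC93.J6
import Pool.Agent.LibSC93.J7
import Pool.Agent.LibSC93.J8
import Pool.Agent.LibSC93.V1
import Pool.Agent.LibSC93.D1
import Pool.Agent.LibSC93.X1
import Pool.Agent.LibSC93.PB
import Pool.Agent.LibPL63.W0
import Pool.Agent.LibPL63.SA9

/-!
Parameters of the S rows. `k = a^I` positions in `h` (`κ = h`), `I2` scales of the killing part with base `A2`: `q0 = A2^I2 r0` (killing part: `f5` with `z^r0 < r ≤ z^q0`, level `z^(2 q0)`, at most `2 A2^I2` positions used);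
Maynard part: `g1` with the scales `z^(q0 a^i)`, `i ≤ I`, level `z^(2 LS)`, `LS = LL D a I q0 = D a^I (I+1) q0`; large primes `PL z (q0 a^I) p1`; `b0 = 2 LS`; total level of a configuration `2 LS + 2 q0`;
remainder level `T = z^(2 (2 LS + 2 q0) + 2 (2 LS) + 6) ≤ z^(18 LS)`; `q = qS = 480 LS`, `x = q log z`, `lo = z^(120 LS) = e^(x/4)`.
-/

open Finset Filter

namespace Pool.Agent.LibSC93

open Pool.Agent.LibRG87 Pool.Agent.LibLG5 Pool.Agent.LibPL63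

/-- the largest scale of the killing part, the first scale of the Maynard part -/
def q0S (A2 I2 r0 : ℕ) : ℕ := A2 ^ I2 * r0

/-- half the level of the Maynard part -/
def LS (D a I A2 I2 r0 : ℕ) : ℕ := LL D a I (q0S A2 I2 r0)

/-- the exponent `q` -/
def qS (D a I A2 I2 r0 : ℕ) : ℕ := 480 * LS D a I A2 I2 r0

/-- number of positions used by a configuration -/
def KS (a I A2 I2 : ℕ) : ℕ := a ^ I + 2 * A2 ^ I2

/-- number of positions in the roughness sets -/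
def kS (a I A2 I2 : ℕ) : ℕ := a ^ I + 1 + 2 * KS a I A2 I2

/-- the error factor of the quadratic form -/
noncomputable def eS (Cq D a I A2 I2 r0 : ℕ) (Λ : ℝ) : ℝ :=
  eps0 Cq (2 * kS a I A2 I2) (2 * LS D a I A2 I2 r0) *
    ((Cq * (q0S A2 I2 r0 * a ^ I) : ℕ) : ℝ) ^ (Cq * (kS a I A2 I2 + 1) ^ 2) *
      (1 + (a ^ I + 4 * Λ * qS D a I A2 I2 r0)) ^ (2 * KS a I A2 I2)

/-- the conditions on the parameters -/
structure ParS (C Cq Cm D a I A2 I2 r0 : ℕ) (c cD Λ τ : ℝ) : Prop where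
  sums : SumsP a C c
  qf : QFRp Cq
  hCq : 1 ≤ Cq
  dn : DnP A2 cD
  mert : MertP Cm
  hΛ : 1 ≤ Λ
  hD : (8 * C : ℝ) ≤ c * D
  hD1 : 1 ≤ D
  hI : 1 ≤ I
  hI2 : 1 ≤ I2
  hcD : 1 ≤ cD * I2
  hr0 : 1 ≤ r0
  hτ : 0 < τ
  hτ1 : τ ≤ 1
  kill : 10 ^ 8 * Cm * Λ ^ 2 * (D * a ^ I * (I + 1)) ≤ τ * (cD * I2)
  eps1 : eps0 Cq (2 * kS a I A2 I2) (2 * LS D a I A2 I2 r0) ≤ 1
  eps2 : eS Cq D a I A2 I2 r0 Λ * (10 ^ 5 * Cm * Λ * qS D a I A2 I2 r0) ≤ τ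

section

variable (D a I A2 I2 r0 : ℕ)

/-- the large primes -/
def PS (z p1 : ℕ) : Finset ℕ := PL z (q0S A2 I2 r0 * a ^ I) p1

/-- the positions -/
def bS (h K : Finset ℕ) : ↥h ⊕ ↥K → ℕ := Sum.elim Subtype.val Subtype.val

/-- the joint coefficients -/
noncomputable def YS (z p1 : ℕ) (h K : Finset ℕ) : (PS a I A2 I2 r0 z p1 → Option (↥h ⊕ ↥K)) → ℝ :=
  yJ (PS a I A2 I2 r0 z p1) z (q0S A2 I2 r0) a I (2 * LS D a I A2 I2 r0) r0 (q0S A2 I2 r0)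

/-- the function `Ψ` -/
noncomputable def PsS (z p1 : ℕ) (h K : Finset ℕ) (n : ℕ) : ℝ :=
  PhiS (PS a I A2 I2 r0 z p1) (P0 z p1) (bS h K) (YS D a I A2 I2 r0 z p1 h K) h n

/-- the diagonal of the killing part -/
noncomputable def DKS (z p1 : ℕ) (h K : Finset ℕ) : ℝ :=
  dgV (PS a I A2 I2 r0 z p1) (VP (P0 z p1)) (Subtype.val : ↥K → ℕ) h
    (y5 (PS a I A2 I2 r0 z p1) z r0 (q0S A2 I2 r0))

/-- the sum `G1` -/
noncomputable def G1S (z p1 : ℕ) : ℝ := G1s (PS a I A2 I2 r0 z p1) z (q0S A2 I2 r0) a I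

/-- the sum `G2` -/
noncomputable def G2S (z p1 : ℕ) : ℝ := G2s (PS a I A2 I2 r0 z p1) z (q0S A2 I2 r0) a I

/-- the conditions on the positions -/
def PosS (z p1 c0 k : ℕ) (Λq : ℝ) (h K : Finset ℕ) : Prop :=
  h.card = k ∧ Disjoint h K ∧ (∀ x ∈ h ∪ K, (x : ℝ) ≤ Real.log z ^ 2 ∧ (c0 + x).Coprime (Wp z p1)) ∧
    K.card * V1p (P0 z p1) ≤ 4 * Λq

end

end Pool.Agent.LibSC93
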