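import Pool.Agent.LibSC93.QU
import Pool.Agent.LibSC93.J3
import Pool.Agent.LibSC93.K2

/-!
Rows S1, S2 (uniform side). S1: `quU` with `E = h`, `dgJ_le`: `dgV h YS ≤ G2^k DKS` (`k = a^I = card ↥h`), errors `VP h eS + 2/√z ≤ VP h (1/100 + 1/100) ≤ DKS ≤ G2^k DKS` (`eS_le`, `tiny`, `DKS_ge`, `1 ≤ G2`).
S2: `PsS^2 1[n + j rough] = PhiS (insert j h)^2` (`PhiS_insert`, J3), sum over `j ∈ K` of `quU` with `E = insert j h`; `dgJ_le` with `E = insert j h`, then `sumNrV` (K2) with `V = VP`, `v = 4 V1p` (`stepVP`), `card ↥K * v ≤ 16 Λ q`: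
`∑_j dgV (insert j h) YS ≤ G2^k (2 A2^I2 + 16 Λ q) DKS`. Errors: `∑_j VP (insert j h) eS ≤ card K 4 V1p VP h eS ≤ 16 Λ q eS VP h ≤ VP h/100` (`stepVP`/`VP_step`, `eS_le`), `card K 2/√z ≤ 2 (log² z + 1)/√z ≤ VP h/100` (`tiny`).
-/

open Finset Filter

namespace Pool.Agent.LibSC93

open Pool.Agent.LibRG87 Pool.Agent.LibLG5 Pool.Agent.LibPL63

variable {C Cq Cm D a I A2 I2 r0 : ℕ} {c cD Λ τ : ℝ}

private theorem S1_P {z p1 : ℕ} : ∀ p ∈ PS a I A2 I2 r0 z p1, Nat.Prime p :=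
  fun _ hp => (PS_mem hp).1

private theorem S1_P0 {z p1 : ℕ} : ∀ p ∈ P0 z p1, Nat.Prime p := fun _ hp => (mem_P0.1 hp).2.1

private theorem S1_G2 {z p1 : ℕ} (hz : 1 ≤ z) : 1 ≤ G2S a I A2 I2 r0 z p1 := by
  unfold G2S
  exact one_le_G2s _ S1_P hz

/-- the diagonal with the joint coefficients -/
private theorem S1_dg {z p1 : ℕ} {h K : Finset ℕ} (hh : h.card = a ^ I) (E : Finset ℕ)
    (hE : h ⊆ E) :
    dgV (PS a I A2 I2 r0 z p1) (VP (P0 z p1)) (bS h K) E (YS D a I A2 I2 r0 z p1 h K) ≤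
      G2S a I A2 I2 r0 z p1 ^ a ^ I * dgV (PS a I A2 I2 r0 z p1) (VP (P0 z p1))
        (Subtype.val : ↥K → ℕ) E (y5 (PS a I A2 I2 r0 z p1) z r0 (q0S A2 I2 r0)) := by
  have h1 := dgJ_le (κ := ↥h) (ν := ↥K) (PS a I A2 I2 r0 z p1) S1_P z (q0S A2 I2 r0) a I
    (2 * LS D a I A2 I2 r0) r0 (q0S A2 I2 r0) (VP (P0 z p1)) (VP_nonneg _ S1_P0) (bS h K) E
    (fun i => hE i.2)
  rw [Fintype.card_coe, hh] at h1
  exact h1

theorem side1 (hp : ParS C Cq Cm D a I A2 I2 r0 c cD Λ τ) :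
    ∀ᶠ z : ℕ in atTop, ∀ p1 : ℕ, p1.Prime → ∀ (c0 : ℕ) (h K : Finset ℕ),
      PosS z p1 c0 (a ^ I) (Λ * qS D a I A2 I2 r0) h K →
      ∑ n ∈ clsU (qS D a I A2 I2 r0 * Real.log z) (Wp z p1) c0,
          omU (qS D a I A2 I2 r0 * Real.log z) n * PsS D a I A2 I2 r0 z p1 h K n ^ 2 ≤
        1 / Wp z p1 * (2 * G2S a I A2 I2 r0 z p1 ^ a ^ I * DKS a I A2 I2 r0 z p1 h K) := by
  filter_upwards [quU hp, baseS hp 1 zero_lt_one, tiny (a ^ I) 0 (1 / 200) (by norm_num)]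
    with z hQ hB hT p1 hp1 c0 h K hpos
  have hQ1 := hQ p1 hp1 c0 h K h hpos (Or.inl rfl)
  have hB1 := hB p1
  have hz3 : 3 ≤ z := hB1.1
  have hT1 := (hT p1 hp1 h hpos.1).1
  rw [pow_zero] at hT1
  have hW : (0 : ℝ) < Wp z p1 := by exact_mod_cast Wp_pos z p1
  have hG : 1 ≤ G2S a I A2 I2 r0 z p1 := S1_G2 (by omega)
  have hGk : 1 ≤ G2S a I A2 I2 r0 z p1 ^ a ^ I := one_le_pow₀ hG
  have hDK := DKS_ge hp hB1 h K
  have hVP := VP_nonneg (P0 z p1) S1_P0 h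
  obtain ⟨he0, he1, _⟩ := eS_le hp
  have hdg := S1_dg (D := D) (a := a) (I := I) (A2 := A2) (I2 := I2) (r0 := r0) (z := z)
    (p1 := p1) (K := K) hpos.1 h (Finset.Subset.refl h)
  have hDKS0 : 0 ≤ DKS a I A2 I2 r0 z p1 h K := hVP.trans hDK
  have h1 := (abs_le.1 hQ1).2
  have h2 : VP (P0 z p1) h * eS Cq D a I A2 I2 r0 Λ ≤ VP (P0 z p1) h * (1 / 100) :=
    mul_le_mul_of_nonneg_left he1 hVP
  have h3 : 2 / Real.sqrt z ≤ VP (P0 z p1) h / 100 := by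
    have : 2 / Real.sqrt z = 2 * (1 / Real.sqrt z) := by ring
    rw [this]
    linarith
  have h4 : DKS a I A2 I2 r0 z p1 h K ≤
      G2S a I A2 I2 r0 z p1 ^ a ^ I * DKS a I A2 I2 r0 z p1 h K :=
    le_mul_of_one_le_left hDKS0 hGk
  have h5 : ∑ n ∈ clsU (qS D a I A2 I2 r0 * Real.log z) (Wp z p1) c0,
      omU (qS D a I A2 I2 r0 * Real.log z) n * PsS D a I A2 I2 r0 z p1 h K n ^ 2 ≤
      1 / Wp z p1 * dgV (PS a I A2 I2 r0 z p1) (VP (P0 z p1)) (bS h K) h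
        (YS D a I A2 I2 r0 z p1 h K) +
      1 / Wp z p1 * (VP (P0 z p1) h * eS Cq D a I A2 I2 r0 Λ + 2 / Real.sqrt z) := by
    unfold PsS
    linarith
  refine h5.trans ?_
  rw [← mul_add]
  refine mul_le_mul_of_nonneg_left ?_ (by positivity)
  have h6 : dgV (PS a I A2 I2 r0 z p1) (VP (P0 z p1)) (bS h K) h
      (YS D a I A2 I2 r0 z p1 h K) ≤
      G2S a I A2 I2 r0 z p1 ^ a ^ I * DKS a I A2 I2 r0 z p1 h K := hdg
  linarith

open scoped Classical in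
theorem side2 (hp : ParS C Cq Cm D a I A2 I2 r0 c cD Λ τ) :
    ∀ᶠ z : ℕ in atTop, ∀ p1 : ℕ, p1.Prime → ∀ (c0 : ℕ) (h K : Finset ℕ),
      PosS z p1 c0 (a ^ I) (Λ * qS D a I A2 I2 r0) h K →
      ∑ n ∈ clsU (qS D a I A2 I2 r0 * Real.log z) (Wp z p1) c0,
          omU (qS D a I A2 I2 r0 * Real.log z) n * (PsS D a I A2 I2 r0 z p1 h K n ^ 2 *
            (K.filter fun j => ∀ p ∈ P0 z p1, ¬ p ∣ n + j).card) ≤
        1 / Wp z p1 * ((2 * A2 ^ I2 + 16 * (Λ * qS D a I A2 I2 r0) + 1) *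
          G2S a I A2 I2 r0 z p1 ^ a ^ I * DKS a I A2 I2 r0 z p1 h K) := by
  filter_upwards [quU hp, baseS hp 1 zero_lt_one, tiny (a ^ I) 2 (1 / 400) (by norm_num),
    stepVP (a ^ I + 2 * A2 ^ I2)] with z hQ hB hT hSt p1 hp1 c0 h K hpos
  have hB1 := hB p1
  have hz3 : 3 ≤ z := hB1.1
  have hlog : 1 ≤ Real.log z := hB1.2.1
  have hT1 := (hT p1 hp1 h hpos.1).1
  have hW : (0 : ℝ) < Wp z p1 := by exact_mod_cast Wp_pos z p1
  have hG : 1 ≤ G2S a I A2 I2 r0 z p1 := S1_G2 (by omega)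
  have hGk : 1 ≤ G2S a I A2 I2 r0 z p1 ^ a ^ I := one_le_pow₀ hG
  have hDK := DKS_ge hp hB1 h K
  have hVP := VP_nonneg (P0 z p1) S1_P0 h
  have hV1 : 0 < V1p (P0 z p1) := V1p_pos _ S1_P0
  obtain ⟨he0, he1, he2⟩ := eS_le hp
  have hDKS0 : 0 ≤ DKS a I A2 I2 r0 z p1 h K := hVP.trans hDK
  have hposx := hpos
  obtain ⟨hhc, hdis, hxs, hKV⟩ := hposx
  -- the step property
  have hStep : StepV (VP (P0 z p1)) (4 * V1p (P0 z p1)) (h ∪ K) (a ^ I + 2 * A2 ^ I2) :=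
    hSt p1 hp1 (h ∪ K) fun x hx => (hxs x hx).1
  have hVj : ∀ j ∈ K, VP (P0 z p1) (insert j h) ≤ 4 * V1p (P0 z p1) * VP (P0 z p1) h := by
    intro j hj
    refine hStep h j Finset.subset_union_left (by omega) (Finset.mem_union_right _ hj) ?_
    exact fun hh => (Finset.disjoint_left.1 hdis) hh hj
  -- the pointwise identity
  have hpt : ∀ n, omU (qS D a I A2 I2 r0 * Real.log z) n * (PsS D a I A2 I2 r0 z p1 h K n ^ 2 *
      (K.filter fun j => ∀ p ∈ P0 z p1, ¬ p ∣ n + j).card) =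
      ∑ j ∈ K, omU (qS D a I A2 I2 r0 * Real.log z) n *
        PhiS (PS a I A2 I2 r0 z p1) (P0 z p1) (bS h K) (YS D a I A2 I2 r0 z p1 h K)
          (insert j h) n ^ 2 := by
    intro n
    rw [← Finset.mul_sum]
    congr 1
    have h1 : ∀ j ∈ K, PhiS (PS a I A2 I2 r0 z p1) (P0 z p1) (bS h K)
        (YS D a I A2 I2 r0 z p1 h K) (insert j h) n ^ 2 =
        if ∀ p ∈ P0 z p1, ¬ p ∣ n + j then PsS D a I A2 I2 r0 z p1 h K n ^ 2 else 0 :=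
      fun j _ => PhiS_insert _ _ _ _ _ _ _
    rw [Finset.sum_congr rfl h1, ← Finset.sum_filter, Finset.sum_const, nsmul_eq_mul, mul_comm]
  rw [Finset.sum_congr rfl fun n _ => hpt n, Finset.sum_comm]
  -- every `j`
  have hj : ∀ j ∈ K, ∑ n ∈ clsU (qS D a I A2 I2 r0 * Real.log z) (Wp z p1) c0,
      omU (qS D a I A2 I2 r0 * Real.log z) n *
        PhiS (PS a I A2 I2 r0 z p1) (P0 z p1) (bS h K) (YS D a I A2 I2 r0 z p1 h K)
          (insert j h) n ^ 2 ≤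
      1 / Wp z p1 * (G2S a I A2 I2 r0 z p1 ^ a ^ I * dgV (PS a I A2 I2 r0 z p1) (VP (P0 z p1))
        (Subtype.val : ↥K → ℕ) (insert j h) (y5 (PS a I A2 I2 r0 z p1) z r0 (q0S A2 I2 r0)) +
        (4 * V1p (P0 z p1) * VP (P0 z p1) h * eS Cq D a I A2 I2 r0 Λ + 2 / Real.sqrt z)) := by
    intro j hj
    have h1 := (abs_le.1 (hQ p1 hp1 c0 h K (insert j h) hpos (Or.inr ⟨j, hj, rfl⟩))).2
    have h2 := S1_dg (D := D) (a := a) (I := I) (A2 := A2) (I2 := I2) (r0 := r0) (z := z)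
      (p1 := p1) (K := K) hhc (insert j h) (Finset.subset_insert j h)
    have h3 : VP (P0 z p1) (insert j h) * eS Cq D a I A2 I2 r0 Λ ≤
        4 * V1p (P0 z p1) * VP (P0 z p1) h * eS Cq D a I A2 I2 r0 Λ :=
      mul_le_mul_of_nonneg_right (hVj j hj) he0
    have h4 : ∑ n ∈ clsU (qS D a I A2 I2 r0 * Real.log z) (Wp z p1) c0,
        omU (qS D a I A2 I2 r0 * Real.log z) n *
          PhiS (PS a I A2 I2 r0 z p1) (P0 z p1) (bS h K) (YS D a I A2 I2 r0 z p1 h K)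
            (insert j h) n ^ 2 ≤
        1 / Wp z p1 * dgV (PS a I A2 I2 r0 z p1) (VP (P0 z p1)) (bS h K) (insert j h)
          (YS D a I A2 I2 r0 z p1 h K) +
        1 / Wp z p1 * (VP (P0 z p1) (insert j h) * eS Cq D a I A2 I2 r0 Λ + 2 / Real.sqrt z) := by
      linarith
    refine h4.trans ?_
    rw [← mul_add]
    refine mul_le_mul_of_nonneg_left ?_ (by positivity)
    linarith
  refine (Finset.sum_le_sum hj).trans ?_
  rw [← Finset.mul_sum]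
  refine mul_le_mul_of_nonneg_left ?_ (by positivity)
  rw [Finset.sum_add_distrib, ← Finset.mul_sum, Finset.sum_const, nsmul_eq_mul]
  -- the diagonal sum
  have hNr : ∑ j ∈ K, dgV (PS a I A2 I2 r0 z p1) (VP (P0 z p1))
        (Subtype.val : ↥K → ℕ) (insert j h) (y5 (PS a I A2 I2 r0 z p1) z r0 (q0S A2 I2 r0)) ≤
      (2 * A2 ^ I2 + 16 * (Λ * qS D a I A2 I2 r0)) * DKS a I A2 I2 r0 z p1 h K := by
    have hE : ∀ j : ↥K, (j : ℕ) ∉ h := fun j hh => (Finset.disjoint_left.1 hdis) hh j.2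
    have himg : (univ : Finset ↥K).image (Subtype.val : ↥K → ℕ) = K := by
      ext x
      rw [Finset.mem_image]
      constructor
      · rintro ⟨j, _, rfl⟩
        exact j.2
      · intro hx
        exact ⟨⟨x, hx⟩, Finset.mem_univ _, rfl⟩
    have h1 := sumNrV (ν := ↥K) (PS a I A2 I2 r0 z p1) z r0 (q0S A2 I2 r0) (2 * A2 ^ I2)
      (fun p hp' => ⟨(PS_mem hp').1, (PS_mem hp').2.1⟩) (by omega) hp.hr0
      (by unfold q0S; exact le_of_eq (by ring)) (VP (P0 z p1)) (VP_nonneg _ S1_P0)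
      (v := 4 * V1p (P0 z p1)) (by positivity) (Subtype.val : ↥K → ℕ) Subtype.val_injective h hE
      (by rw [himg, hhc]; exact hStep)
    have h2 : ∑ j ∈ K, dgV (PS a I A2 I2 r0 z p1) (VP (P0 z p1))
        (Subtype.val : ↥K → ℕ) (insert j h) (y5 (PS a I A2 I2 r0 z p1) z r0 (q0S A2 I2 r0)) =
        ∑ j : ↥K, dgV (PS a I A2 I2 r0 z p1) (VP (P0 z p1))
        (Subtype.val : ↥K → ℕ) (insert (j : ℕ) h)
          (y5 (PS a I A2 I2 r0 z p1) z r0 (q0S A2 I2 r0)) :=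
      (Finset.sum_coe_sort K _).symm
    rw [h2]
    refine h1.trans ?_
    refine mul_le_mul_of_nonneg_right ?_ hDKS0
    rw [Fintype.card_coe]
    push_cast
    have h3 : (K.card : ℝ) * (4 * V1p (P0 z p1)) = 4 * (K.card * V1p (P0 z p1)) := by ring
    rw [h3]
    linarith
  have hGN : G2S a I A2 I2 r0 z p1 ^ a ^ I * ∑ j ∈ K, dgV (PS a I A2 I2 r0 z p1) (VP (P0 z p1))
        (Subtype.val : ↥K → ℕ) (insert j h) (y5 (PS a I A2 I2 r0 z p1) z r0 (q0S A2 I2 r0)) ≤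
      G2S a I A2 I2 r0 z p1 ^ a ^ I * ((2 * A2 ^ I2 + 16 * (Λ * qS D a I A2 I2 r0)) *
        DKS a I A2 I2 r0 z p1 h K) := mul_le_mul_of_nonneg_left hNr (by linarith)
  -- the errors
  have hE1 : (K.card : ℝ) * (4 * V1p (P0 z p1) * VP (P0 z p1) h * eS Cq D a I A2 I2 r0 Λ) ≤
      VP (P0 z p1) h / 100 := by
    have h1 : (K.card : ℝ) * (4 * V1p (P0 z p1) * VP (P0 z p1) h * eS Cq D a I A2 I2 r0 Λ) =
        4 * (K.card * V1p (P0 z p1)) * (VP (P0 z p1) h * eS Cq D a I A2 I2 r0 Λ) := by ring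
    rw [h1]
    have h2 : 4 * ((K.card : ℝ) * V1p (P0 z p1)) * (VP (P0 z p1) h * eS Cq D a I A2 I2 r0 Λ) ≤
        16 * (Λ * qS D a I A2 I2 r0) * (VP (P0 z p1) h * eS Cq D a I A2 I2 r0 Λ) :=
      mul_le_mul_of_nonneg_right (by linarith) (mul_nonneg hVP he0)
    refine h2.trans ?_
    have h3 : 16 * (Λ * qS D a I A2 I2 r0) * (VP (P0 z p1) h * eS Cq D a I A2 I2 r0 Λ) =
        VP (P0 z p1) h * (16 * (Λ * qS D a I A2 I2 r0) * eS Cq D a I A2 I2 r0 Λ) := by ring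
    rw [h3]
    have h4 := mul_le_mul_of_nonneg_left he2 hVP
    linarith
  have hE2 : (K.card : ℝ) * (2 / Real.sqrt z) ≤ VP (P0 z p1) h / 100 := by
    have h1 := (card_pos hp hpos).1
    rw [Fintype.card_sum, Fintype.card_coe, Fintype.card_coe] at h1
    push_cast at h1
    have h2 : (0 : ℝ) ≤ (h.card : ℝ) := Nat.cast_nonneg _
    have h3 : (K.card : ℝ) ≤ 2 * Real.log z ^ 2 := by nlinarith
    have h4 : 0 ≤ 2 / Real.sqrt z := by positivity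
    calc (K.card : ℝ) * (2 / Real.sqrt z) ≤ 2 * Real.log z ^ 2 * (2 / Real.sqrt z) :=
          mul_le_mul_of_nonneg_right h3 h4
      _ = 4 * (Real.log z ^ 2 / Real.sqrt z) := by ring
      _ ≤ VP (P0 z p1) h / 100 := by linarith
  have h4 : DKS a I A2 I2 r0 z p1 h K ≤
      G2S a I A2 I2 r0 z p1 ^ a ^ I * DKS a I A2 I2 r0 z p1 h K :=
    le_mul_of_one_le_left hDKS0 hGk
  have h5 : (K.card : ℝ) * (4 * V1p (P0 z p1) * VP (P0 z p1) h * eS Cq D a I A2 I2 r0 Λ +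
      2 / Real.sqrt z) ≤ VP (P0 z p1) h / 50 := by
    rw [mul_add]
    linarith
  calc _ ≤ G2S a I A2 I2 r0 z p1 ^ a ^ I * ((2 * A2 ^ I2 + 16 * (Λ * qS D a I A2 I2 r0)) *
        DKS a I A2 I2 r0 z p1 h K) + VP (P0 z p1) h / 50 := add_le_add hGN h5
    _ ≤ G2S a I A2 I2 r0 z p1 ^ a ^ I * ((2 * A2 ^ I2 + 16 * (Λ * qS D a I A2 I2 r0)) *
        DKS a I A2 I2 r0 z p1 h K) +
        G2S a I A2 I2 r0 z p1 ^ a ^ I * DKS a I A2 I2 r0 z p1 h K := by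
          refine add_le_add le_rfl ?_
          linarith
    _ = _ := by ring

end Pool.Agent.LibSC93
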