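import Pool.Agent.LibSC93.QP
import Pool.Agent.LibSC93.J3
import Pool.Agent.LibPL63.W1

/-!
Row S3 (prime side at `i0 ∈ h`, lower bound). `prime_part_ge` (LibPL63/SA7, with `F n = if lo < n then PsS n ^ 2 else 0`): the right side is `≥ (1/(9x)) ∑_{avgQ at i0} wp (n + i0) PsS²`. There (if `wp ≠ 0`) `n + i0` is a prime
`> z^(120 LS) ≥ z^(q0S a^I)`, so no prime of `P0` or `PS` divides it: `PsS n = PhiS (yCol (inl i0) YS) h n` (`collapseS`). `quP` with `y = yCol (inl i0) YS/G1S` (`YL_abs`, `YL_supp`; `1 ≤ G1S`: `one_le_G1s`; `PhiS`, `dgV` are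
homogeneous in `y`), multiplied by `G1S²`: `≥ (M/φ(Wp)) (dgV h (yCol) / V1p - G1S² (VP h/V1p eS + 1/√z)) - G1S² exp(…)` (`insert i0 (h ∪ …) = h ∪ …`). `dgJ_ge` (J7; `L' = LS`, `h2`: `8 k L2 ≤ 8 k C (I+1) q0² log z ≤ c q0 LS log z ≤ G2 LS log z` by
`hp.sums`, `hp.hD`): `dgV h yCol ≥ G1S² G2S^(k-1)/16 DKS`. With `eS ≤ 1/100`, `1/√z ≤ VP h/100` (`V1p ≤ 1`), `VP h ≤ DKS`, `1 ≤ G2S`: the bracket is `≥ G1S² G2S^(k-1) DKS/(32 V1p)`. `M/(9 x φ(Wp) V1p) ≥ (9/10) (log z/2)/(9 q log z)/Wp =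
1/(20 q Wp)` (`mert_upper`, `M_ge`), total `≥ G1S² G2S^(k-1) DKS/(640 q Wp)`; the last error `G1S² exp (-(log z)^(1/5)) ≤ G1S² (1/(10^4 q)) VP h/Wp` (`tiny`).
-/

open Finset Filter

namespace Pool.Agent.LibSC93

open Pool.Agent.LibRG87 Pool.Agent.LibLG5 Pool.Agent.LibPL63

private theorem S3_Phi_div {ι : Type} [Fintype ι] [DecidableEq ι] (P Pr : Finset ℕ) (b : ι → ℕ)
    (y : (P → Option ι) → ℝ) (E : Finset ℕ) (G : ℝ) (n : ℕ) :
    PhiS P Pr b (fun β => y β / G) E n = PhiS P Pr b y E n / G := by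
  unfold PhiS
  rw [Finset.sum_div]
  exact Finset.sum_congr rfl fun β _ => by ring

private theorem S3_dg_div {ι : Type} [Fintype ι] [DecidableEq ι] (P : Finset ℕ)
    (V : Finset ℕ → ℝ) (b : ι → ℕ) (y : (P → Option ι) → ℝ) (E : Finset ℕ) (G : ℝ) :
    dgV P V b E (fun β => y β / G) = dgV P V b E y / G ^ 2 := by
  unfold dgV
  rw [Finset.sum_div]
  exact Finset.sum_congr rfl fun β _ => by rw [div_pow]; ring

private theorem S3_dg_ins {ι : Type} [Fintype ι] [DecidableEq ι] (P Pr : Finset ℕ)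
    (b : ι → ℕ) (y : (P → Option ι) → ℝ) (E : Finset ℕ) {a0 : ℕ} (ha : a0 ∈ E) :
    dgV P (fun B => VP Pr (insert a0 B) / V1p Pr) b E y = dgV P (VP Pr) b E y / V1p Pr := by
  unfold dgV
  rw [Finset.sum_div]
  refine Finset.sum_congr rfl fun β _ => ?_
  have h1 : insert a0 (E ∪ su P b β) = E ∪ su P b β :=
    Finset.insert_eq_of_mem (Finset.mem_union_left _ ha)
  simp only [h1]
  ring

private theorem S3_V1_le (Pr : Finset ℕ) (hPr : ∀ p ∈ Pr, p.Prime) : V1p Pr ≤ 1 := by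
  unfold V1p
  refine Finset.prod_le_one (fun p hp => ?_) (fun p hp => ?_)
  · have h1 : (2 : ℝ) ≤ p := by exact_mod_cast (hPr p hp).two_le
    have h2 : 1 / (p : ℝ) ≤ 1 := by
      rw [div_le_one (by linarith)]
      linarith
    linarith
  · have h1 : (0 : ℝ) ≤ 1 / (p : ℝ) := by positivity
    linarith

private theorem S3_sqrt : ∀ᶠ z : ℕ in atTop,
    1 / Real.sqrt z ≤ Real.exp (-Real.log z ^ ((1 : ℝ) / 5)) := by
  have t1 : Tendsto (fun z : ℕ => Real.log (z : ℝ)) atTop atTop :=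
    Real.tendsto_log_atTop.comp tendsto_natCast_atTop_atTop
  filter_upwards [t1.eventually_ge_atTop 32, eventually_ge_atTop 1] with z hz hz1
  have hz0 : (0 : ℝ) < z := by exact_mod_cast hz1
  set l := Real.log (z : ℝ) with hl
  have hl0 : 0 < l := by linarith
  set u := l ^ ((1 : ℝ) / 5) with hu
  have hu2 : 2 ≤ u := by
    have h1 : ((2 : ℝ) ^ (5 : ℕ)) ^ ((1 : ℝ) / 5) ≤ l ^ ((1 : ℝ) / 5) :=
      Real.rpow_le_rpow (by norm_num) (by linarith) (by norm_num)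
    rw [← Real.rpow_natCast, ← Real.rpow_mul (by norm_num)] at h1
    norm_num at h1
    exact h1
  have h5 : l = u ^ 5 := by
    rw [hu, ← Real.rpow_natCast, ← Real.rpow_mul hl0.le]
    norm_num
  have h6 : u ≤ l / 2 := by
    rw [h5]
    have h7 : (16 : ℝ) ≤ u ^ 4 := by
      calc (16 : ℝ) = 2 ^ 4 := by norm_num
        _ ≤ u ^ 4 := pow_le_pow_left₀ (by norm_num) hu2 4
    nlinarith
  have h8 : 1 / Real.sqrt z = Real.exp (-(l / 2)) := by
    rw [Real.exp_neg, one_div, hl]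
    congr 1
    rw [Real.sqrt_eq_rpow, Real.rpow_def_of_pos hz0]
    congr 1
    ring
  rw [h8]
  apply Real.exp_le_exp.2
  linarith

theorem side3 {C Cq Cm D a I A2 I2 r0 : ℕ} {c cD Λ τ : ℝ}
    (hp : ParS C Cq Cm D a I A2 I2 r0 c cD Λ τ) :
    ∀ᶠ z : ℕ in atTop, ∀ p1 : ℕ, p1.Prime → ∀ Dv : BVdata (qS D a I A2 I2 r0 * Real.log z) p1,
      ∑ r ∈ (Icc 1 ⌊Real.exp ((qS D a I A2 I2 r0 * Real.log z) / 24)⌋₊).filter
          (fun r => Squarefree r ∧ ¬ p1 ∣ r),
        ((2 * kS a I A2 I2 : ℕ) : ℝ) ^ r.primeFactors.card * Dv.er r ≤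
          Real.exp (-(qS D a I A2 I2 r0 * Real.log z) ^ ((1 : ℝ) / 4)) →
      ∀ (c0 : ℕ) (h K : Finset ℕ), PosS z p1 c0 (a ^ I) (Λ * qS D a I A2 I2 r0) h K → ∀ i0 ∈ h,
        1 / Wp z p1 * (G1S a I A2 I2 r0 z p1 ^ 2 * G2S a I A2 I2 r0 z p1 ^ (a ^ I - 1) *
            DKS a I A2 I2 r0 z p1 h K / (1000 * qS D a I A2 I2 r0)) ≤
          ∑ n ∈ (clsU (qS D a I A2 I2 r0 * Real.log z) (Wp z p1) c0).filter
              (fun n => z ^ (120 * LS D a I A2 I2 r0) < n ∧ (n + i0).Prime),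
            omU (qS D a I A2 I2 r0 * Real.log z) n * PsS D a I A2 I2 r0 z p1 h K n ^ 2 := by
  classical
  have ha : 2 ≤ a := hp.sums.1
  have hA2 : 2 ≤ A2 := hp.dn.1
  have hk : 1 ≤ a ^ I := Nat.one_le_pow _ _ (by omega)
  have hq0 : 1 ≤ q0S A2 I2 r0 := by
    unfold q0S
    exact Nat.one_le_iff_ne_zero.2 (Nat.mul_ne_zero (pow_ne_zero _ (by omega))
      (by have := hp.hr0; omega))
  set q0 := q0S A2 I2 r0 with hq0d
  set L := LS D a I A2 I2 r0 with hL
  have hLd : L = D * a ^ I * (I + 1) * q0 := rfl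
  have hLk : q0 * a ^ I ≤ L := by
    rw [hLd]
    have h1 := hp.hD1
    calc q0 * a ^ I = 1 * a ^ I * 1 * q0 := by ring
      _ ≤ D * a ^ I * (I + 1) * q0 := by gcongr; omega
  have hk1 : 1 ≤ q0 * a ^ I := Nat.one_le_iff_ne_zero.2 (by positivity)
  have hL1 : 1 ≤ L := hk1.trans hLk
  have hqS : qS D a I A2 I2 r0 = 480 * L := rfl
  set Q : ℝ := (qS D a I A2 I2 r0 : ℝ) with hQ
  have hQL : Q = 480 * L := by rw [hQ, hqS]; push_cast; ring
  have hLr : (1 : ℝ) ≤ L := by exact_mod_cast hL1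
  have hQ480 : 480 ≤ Q := by rw [hQL]; linarith
  have hsum := hp.sums.2.2.2.2 I q0 hp.hI hq0
  have t1 : Tendsto (fun z : ℕ => Real.log (z : ℝ)) atTop atTop :=
    Real.tendsto_log_atTop.comp tendsto_natCast_atTop_atTop
  have e1 : ∀ᶠ z : ℕ in atTop, Q * Real.log (z : ℝ) * Real.log (z : ℝ) ^ 2 ≤ z := by
    have h1 : ∀ᶠ x : ℝ in atTop, ‖Real.log x ^ 3‖ ≤ (1 / Q) * ‖id x‖ :=
      (Real.isLittleO_pow_log_id_atTop (n := 3)).bound (by positivity)
    filter_upwards [tendsto_natCast_atTop_atTop.eventually h1] with z h2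
    simp only [id, Real.norm_eq_abs] at h2
    rw [abs_of_nonneg (Nat.cast_nonneg z : (0 : ℝ) ≤ (z : ℝ))] at h2
    have h3 := (le_abs_self _).trans h2
    have hQ0 : 0 < Q := by linarith
    calc Q * Real.log (z : ℝ) * Real.log (z : ℝ) ^ 2 = Q * Real.log (z : ℝ) ^ 3 := by ring
      _ ≤ Q * (1 / Q * z) := mul_le_mul_of_nonneg_left h3 hQ0.le
      _ = z := by field_simp
  filter_upwards [baseS hp 1 one_pos, quP hp, VPW_ge (a ^ I) (1 / 1000) (by norm_num), hsum,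
    mert_upper, e1, t1.eventually_ge_atTop 1, S3_sqrt, eventually_ge_atTop 6]
    with z hB h1 h3 h9 h10 h5 h7 h8 hz6
  set x : ℝ := Q * Real.log z with hx
  intro p1 hp1 Dv hDv c0 h K hpos i0 hi0
  have hBz := hB p1
  have hh : h.card = a ^ I := hpos.1
  have hdis : Disjoint h K := hpos.2.1
  have hz0 : (0 : ℝ) < z := by
    have : 0 < z := by omega
    exact_mod_cast this
  have hz1 : (1 : ℝ) ≤ z := by exact_mod_cast (by omega : 1 ≤ z)
  have hlz : 0 < Real.log (z : ℝ) := by linarith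
  have hx1 : 1 ≤ x := by nlinarith
  have hx0 : 0 < x := by linarith
  set P := PS a I A2 I2 r0 z p1 with hPdef
  have hPeq : P = PL z (q0 * a ^ I) p1 := rfl
  have hPL : ∀ p ∈ P, p.Prime := fun p hp' => (mem_PL.1 hp').2.1
  have hP0 : ∀ p ∈ P0 z p1, p.Prime := fun p hp' => (mem_P0.1 hp').2.1
  have hWpos : (0 : ℝ) < Wp z p1 := by exact_mod_cast Wp_pos z p1
  have hW1 : (1 : ℝ) ≤ Wp z p1 := by exact_mod_cast Wp_pos z p1
  set iz : ↥h ⊕ ↥K := Sum.inl ⟨i0, hi0⟩ with hiz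
  have hbz : bS h K iz = i0 := rfl
  have hcop : (c0 + bS h K iz).Coprime (Wp z p1) :=
    (hpos.2.2.1 i0 (Finset.mem_union_left _ hi0)).2
  set lo : ℕ := z ^ (120 * L) with hlo
  have hzlo : z ≤ lo := by
    rw [hlo]
    exact Nat.le_self_pow (by omega) z
  set A := avgQ x p1 Dv (Wp z p1) c0 (bS h K iz) lo (Wp_pos z p1) hcop with hA
  -- the prime part
  set F : ℕ → ℝ := fun n => if lo < n then PsS D a I A2 I2 r0 z p1 h K n ^ 2 else 0 with hF
  have hF0 : ∀ n, 0 ≤ F n := fun n => by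
    rw [hF]
    simp only
    split_ifs
    · exact sq_nonneg _
    · exact le_rfl
  have hxlo : x * (bS h K iz : ℕ) ≤ (lo : ℕ) := by
    have h11 := (hpos.2.2.1 i0 (Finset.mem_union_left _ hi0)).1
    have h12 : (z : ℝ) ≤ (lo : ℕ) := by exact_mod_cast hzlo
    have h13 : x * i0 ≤ Q * Real.log (z : ℝ) * Real.log (z : ℝ) ^ 2 :=
      mul_le_mul_of_nonneg_left h11 hx0.le
    rw [hbz]
    linarith
  have hpart := prime_part_ge hx1 p1 Dv (Wp z p1) c0 (bS h K iz) lo (Wp_pos z p1) hcop hxlo F hF0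
  rw [← hA] at hpart
  have hfilt : ∑ n ∈ clsU x (Wp z p1) c0, omU x n * (F n * if (n + bS h K iz).Prime then 1 else 0) =
      ∑ n ∈ (clsU x (Wp z p1) c0).filter (fun n => lo < n ∧ (n + i0).Prime),
        omU x n * PsS D a I A2 I2 r0 z p1 h K n ^ 2 := by
    rw [Finset.sum_filter]
    refine Finset.sum_congr rfl fun n _ => ?_
    rw [hbz, hF]
    simp only
    by_cases c1 : lo < n
    · by_cases c2 : (n + i0).Prime
      · rw [if_pos c1, if_pos c2, if_pos ⟨c1, c2⟩, mul_one]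
      · simp only [c1, c2, and_false, if_false, mul_zero]
    · simp only [c1, false_and, if_false, zero_mul, mul_zero]
  rw [hfilt] at hpart
  -- collapse
  set G1 := G1S a I A2 I2 r0 z p1 with hG1
  set G2 := G2S a I A2 I2 r0 z p1 with hG2
  have hG11 : 1 ≤ G1 := one_le_G1s _ hPL (by omega)
  have hG21 : 1 ≤ G2 := one_le_G2s _ hPL (by omega)
  set yc := yCol P iz (YS D a I A2 I2 r0 z p1 h K) with hyc
  have hcoll : ∑ n ∈ A.s, A.om n * F n =
      ∑ n ∈ A.s, A.om n * PhiS P (P0 z p1) (bS h K) yc h n ^ 2 := by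
    refine Finset.sum_congr rfl fun n hn => ?_
    have hnlo : lo < n := by
      have hn' : n ∈ (clsU x (Wp z p1) c0).filter (fun n => lo < n) := hn
      exact (Finset.mem_filter.1 hn').2
    by_cases hprime : (n + i0).Prime
    · have hnd : ∀ p ∈ P, ¬ p ∣ n + bS h K iz := by
        intro p hp' hd
        rw [hbz] at hd
        have h11 : p = n + i0 := (Nat.prime_dvd_prime_iff_eq (hPL p hp') hprime).1 hd
        have h12 : p ≤ z ^ (q0 * a ^ I) := (mem_PL.1 hp').2.2.2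
        have h13 : z ^ (q0 * a ^ I) ≤ lo := by
          rw [hlo]
          exact Nat.pow_le_pow_right (by omega) (by omega)
        omega
      have hnd0 : ∀ p ∈ P0 z p1, ¬ p ∣ n + bS h K iz := by
        intro p hp' hd
        rw [hbz] at hd
        have h11 : p = n + i0 := (Nat.prime_dvd_prime_iff_eq (hP0 p hp') hprime).1 hd
        have h12 : p ≤ z := (mem_P0.1 hp').2.2.2
        omega
      have h13 := collapseS P (P0 z p1) hPL (bS h K) iz n hnd0 hnd
        (YS D a I A2 I2 r0 z p1 h K) h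
      rw [hF]
      simp only
      rw [if_pos hnlo]
      unfold PsS
      rw [h13]
    · have h14 : A.om n = 0 := by
        change wp x (n + i0) = 0
        unfold wp
        rw [if_neg hprime]
      rw [h14, zero_mul, zero_mul]
  -- the quadratic form
  have hmain := h1 p1 hp1 Dv hDv c0 h K hpos iz hcop (fun β => yc β / G1)
    (fun β => by
      rw [abs_div, abs_of_pos (by linarith : 0 < G1), div_le_one (by linarith)]
      exact YL_abs hp hBz _ β)
    (fun β hβ => YL_supp hp hBz hh _ (fun h0 => hβ (by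
      show yc β / G1 = 0
      rw [hyc, h0, zero_div])))
  rw [← hA] at hmain
  have hmem : bS h K iz ∈ h := hi0
  rw [if_pos hmem, S3_dg_div, S3_dg_ins P (P0 z p1) (bS h K) yc h hmem] at hmain
  have hPhi : ∑ n ∈ A.s, A.om n * PhiS P (P0 z p1) (bS h K) (fun β => yc β / G1) h n ^ 2 =
      (∑ n ∈ A.s, A.om n * F n) / G1 ^ 2 := by
    rw [hcoll, Finset.sum_div]
    refine Finset.sum_congr rfl fun n _ => ?_
    rw [S3_Phi_div, div_pow]
    ring
  rw [hPhi] at hmain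
  -- the diagonal
  obtain ⟨hs1, hs2, hs3, hs4, hs5⟩ := h9 p1
  set DK := DKS a I A2 I2 r0 z p1 h K with hDK
  have hDD : G1 ^ 2 * G2 ^ (a ^ I - 1) / 16 * DK ≤ dgV P (VP (P0 z p1)) (bS h K) h yc := by
    have h11 := dgJ_ge (κ := ↥h) (ν := ↥K) P z q0 a I L r0 q0
      (fun p hp' => ⟨(mem_PL.1 hp').2.1, (mem_PL.1 hp').2.2.1⟩) (by omega)
      (VP (P0 z p1)) (VP_nonneg _ hP0) (bS h K) h (fun i => i.2) ⟨i0, hi0⟩ hLk hL1
      (by
        rw [Fintype.card_coe, hh]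
        exact hBz.2.2.2.2.1)
      (by
        rw [Fintype.card_coe, hh]
        have hLL : (L : ℝ) = D * (a ^ I : ℕ) * (I + 1) * q0 := by
          rw [hLd]; push_cast; ring
        have h12 : 8 * ((a ^ I : ℕ) : ℝ) * L2s P z q0 a I ≤
            8 * ((a ^ I : ℕ) : ℝ) * (C * (I + 1) * q0 ^ 2 * Real.log z) :=
          mul_le_mul_of_nonneg_left hs5 (by positivity)
        have h13 : (c * q0) * (L : ℝ) * Real.log z ≤ G2s P z q0 a I * (L : ℝ) * Real.log z := by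
          have h14 : c * q0 ≤ G2s P z q0 a I := hs3
          gcongr
        refine h12.trans (le_trans ?_ h13)
        rw [hLL]
        have h14 : 8 * (C : ℝ) ≤ c * D := hp.hD
        have h15 : 0 ≤ ((a ^ I : ℕ) : ℝ) * (I + 1) * q0 ^ 2 * Real.log z := by positivity
        calc 8 * ((a ^ I : ℕ) : ℝ) * (C * (I + 1) * q0 ^ 2 * Real.log z) =
            (8 * C) * (((a ^ I : ℕ) : ℝ) * (I + 1) * q0 ^ 2 * Real.log z) := by ring
          _ ≤ (c * D) * (((a ^ I : ℕ) : ℝ) * (I + 1) * q0 ^ 2 * Real.log z) :=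
            mul_le_mul_of_nonneg_right h14 h15
          _ = _ := by ring)
    rw [Fintype.card_coe, hh] at h11
    exact h11
  -- assembly
  have hV1 : 0 < V1p (P0 z p1) := V1p_pos _ hP0
  have hV1' : V1p (P0 z p1) ≤ 1 := S3_V1_le _ hP0
  have hVP0 : 0 ≤ VP (P0 z p1) h := VP_nonneg _ hP0 h
  have hφ : (0 : ℝ) < ((Wp z p1).totient : ℝ) := by
    exact_mod_cast Nat.totient_pos.2 (Wp_pos z p1)
  have hmu := h10 p1 hp1
  have hM := Dv.M_ge
  have hDKge : VP (P0 z p1) h ≤ DK := DKS_ge hp hBz h K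
  have hDK0 : 0 ≤ DK := hVP0.trans hDKge
  obtain ⟨he0, he1, -⟩ := eS_le hp
  set e := eS Cq D a I A2 I2 r0 Λ with hed
  have htiny := (h3 p1 hp1 h hh).2
  set V1 := V1p (P0 z p1) with hV1d
  set VH := VP (P0 z p1) h with hVH
  set T := Real.exp (-Real.log z ^ ((1 : ℝ) / 5)) with hT
  have hT0 : 0 < T := Real.exp_pos _
  have hTV : T ≤ 1 / 1000 * (DK / Wp z p1) := by
    refine htiny.trans ?_
    gcongr
  have hTV' : T ≤ 1 / 1000 * (VH / V1) := by
    refine htiny.trans ?_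
    have h11 : VH / Wp z p1 ≤ VH / V1 := div_le_div_of_nonneg_left hVP0 hV1 (hV1'.trans hW1)
    linarith
  set E := G1 ^ 2 * G2 ^ (a ^ I - 1) with hE
  have hG1sq : 0 < G1 ^ 2 := by positivity
  have hGE : G1 ^ 2 ≤ E := by
    rw [hE]
    exact le_mul_of_one_le_right hG1sq.le (one_le_pow₀ hG21)
  have hE0 : 0 < E := lt_of_lt_of_le hG1sq hGE
  set Mφ := Dv.M / ((Wp z p1).totient : ℝ) with hMφ
  have hMφ0 : 0 < Mφ := div_pos (by linarith) hφ
  set dg := dgV P (VP (P0 z p1)) (bS h K) h yc with hdg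
  set Sm := ∑ n ∈ A.s, A.om n * F n with hSm
  have hlow := (abs_le.1 hmain).1
  -- the lower bound for the sum
  have hS : Mφ * (dg / V1 - G1 ^ 2 * (VH / V1 * e + 1 / Real.sqrt z)) - G1 ^ 2 * T ≤ Sm := by
    have h11 : Mφ * (dg / V1 / G1 ^ 2) - (Mφ * (VH / V1 * e + 1 / Real.sqrt z) + T) ≤
        Sm / G1 ^ 2 := by linarith
    rw [le_div_iff₀ hG1sq] at h11
    have h12 : (Mφ * (dg / V1 / G1 ^ 2) - (Mφ * (VH / V1 * e + 1 / Real.sqrt z) + T)) * G1 ^ 2 =
        Mφ * (dg / V1 - G1 ^ 2 * (VH / V1 * e + 1 / Real.sqrt z)) - G1 ^ 2 * T := by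
      field_simp
      ring
    linarith
  have hVV : VH / V1 ≤ DK / V1 := div_le_div_of_nonneg_right hDKge hV1.le
  have hVV0 : 0 ≤ VH / V1 := div_nonneg hVP0 hV1.le
  have hbr : E * (DK / V1) / 32 ≤ dg / V1 - G1 ^ 2 * (VH / V1 * e + 1 / Real.sqrt z) := by
    have h11 : E / 16 * (DK / V1) ≤ dg / V1 := by
      rw [← mul_div_assoc]
      exact div_le_div_of_nonneg_right hDD hV1.le
    have h12 : VH / V1 * e + 1 / Real.sqrt z ≤ 11 / 1000 * (DK / V1) := by
      have h13 : VH / V1 * e ≤ VH / V1 * (1 / 100) := mul_le_mul_of_nonneg_left he1 hVV0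
      have h14 : 1 / Real.sqrt z ≤ 1 / 1000 * (VH / V1) := h8.trans hTV'
      linarith
    have h15 : G1 ^ 2 * (VH / V1 * e + 1 / Real.sqrt z) ≤ E * (11 / 1000 * (DK / V1)) := by
      have h16 : 0 ≤ VH / V1 * e + 1 / Real.sqrt z := by positivity
      exact mul_le_mul hGE h12 h16 hE0.le
    have h17 : 0 ≤ E * (DK / V1) := mul_nonneg hE0.le (div_nonneg hDK0 hV1.le)
    nlinarith
  have hMV : 9 / 20 * Real.log z * (DK / Wp z p1) ≤ Mφ * (DK / V1) := by
    have h11 : ((Wp z p1).totient : ℝ) * V1 ≤ 2 / Real.log z * Wp z p1 := by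
      have h12 : ((Wp z p1).totient : ℝ) / (Wp z p1 : ℝ) * V1 * Wp z p1 =
          ((Wp z p1).totient : ℝ) * V1 := by field_simp
      rw [← h12]
      exact mul_le_mul_of_nonneg_right hmu hWpos.le
    rw [hMφ, show Dv.M / ((Wp z p1).totient : ℝ) * (DK / V1) =
      Dv.M * DK / (((Wp z p1).totient : ℝ) * V1) by field_simp]
    rw [le_div_iff₀ (by positivity)]
    have h13 : 9 / 20 * Real.log z * (DK / Wp z p1) * (((Wp z p1).totient : ℝ) * V1) ≤
        9 / 20 * Real.log z * (DK / Wp z p1) * (2 / Real.log z * Wp z p1) :=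
      mul_le_mul_of_nonneg_left h11 (by positivity)
    have h14 : 9 / 20 * Real.log z * (DK / Wp z p1) * (2 / Real.log z * Wp z p1) =
        9 / 10 * DK := by
      field_simp
      ring
    rw [h14] at h13
    refine h13.trans ?_
    gcongr
  have hfin : 1 / Wp z p1 * (E * DK / (1000 * Q)) * (9 * x) ≤ Sm := by
    refine le_trans ?_ hS
    have h11 : Mφ * (E * (DK / V1) / 32) ≤
        Mφ * (dg / V1 - G1 ^ 2 * (VH / V1 * e + 1 / Real.sqrt z)) :=
      mul_le_mul_of_nonneg_left hbr hMφ0.le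
    have h12 : E / 32 * (9 / 20 * Real.log z * (DK / Wp z p1)) ≤ E / 32 * (Mφ * (DK / V1)) :=
      mul_le_mul_of_nonneg_left hMV (by positivity)
    have h13 : G1 ^ 2 * T ≤ E * (1 / 1000 * (DK / Wp z p1)) :=
      mul_le_mul hGE hTV hT0.le hE0.le
    have h14 : 1 / Wp z p1 * (E * DK / (1000 * Q)) * (9 * x) =
        9 / 1000 * (E * (DK / Wp z p1) * Real.log z) := by
      rw [hx]
      field_simp
    have h15 : 0 ≤ E * (DK / Wp z p1) := mul_nonneg hE0.le (div_nonneg hDK0 hWpos.le)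
    have h16 : E * (DK / Wp z p1) ≤ E * (DK / Wp z p1) * Real.log z :=
      le_mul_of_one_le_right h15 h7
    rw [h14]
    nlinarith
  have h19 := hfin.trans hpart
  have h20 : 0 < 9 * x := by linarith
  have h21 : 1 / Wp z p1 * (E * DK / (1000 * Q)) * (9 * x) ≤
      (∑ n ∈ (clsU x (Wp z p1) c0).filter (fun n => lo < n ∧ (n + i0).Prime),
        omU x n * PsS D a I A2 I2 r0 z p1 h K n ^ 2) * (9 * x) := by linarith
  exact le_of_mul_le_mul_right h21 h20

end Pool.Agent.LibSC93
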