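import Pool.Agent.LibSC93.QP
import Pool.Agent.LibSC93.J3

/-!
Row S4 (kill side, upper bound). For `j ∈ K`: `prime_part_le` (X1, `lo = z^(120 LS) = e^(x/4)`): the sum is `≤ (64/x) ∑_{avgQ at j} wp (n + j) PsS²`; there `PsS n = PhiS (yCol (inr j) YS) h n` (`collapseS`, as in row S3), and `quP` with
`y = yCol (inr j) YS` (`YR_abs`, `YR_supp`) gives `≤ (64/x) [ (M/φ(Wp)) ( dgV (VP (insert j ·)/V1p) h yCol + VP h eS + 1/√z ) + exp (-(log z)^(1/5)) ]`. Sum over `j ∈ K`: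
`∑_j dgV (VP (insert j ·)) h yCol ≤ G2^k (16 Λ q) (16 Λ q/(Dn q0S log z) + e²) DKS` (`kill_le` with `V = VP`, `v = 4 V1p` (`stepVP`), `card K * v ≤ 16 Λ q`, `ε = e` from `BaseS`), `Dn log z ≥ cD I2`. `M ≤ 3` (`M_le`; `er 1 ≤ 1` from the
hypothesis, term `r = 1`), `1/(φ(Wp) V1p) ≤ Cm log z/Wp` (`MertP`), `x = q log z`: the main part is `≤ (64·3·Cm/(q Wp)) G2^k 16 Λ q (16 Λ q/(cD I2 q0S) + e²) DKS ≤ (1/Wp) G2^k (τ/4 + τ/8) DKS` (`kill_ratio`; `e` small in terms of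
`Λ, Cm, τ`). Errors: `(64·3·Cm log z/(x Wp)) (card K V1p) VP h eS ≤ (1/Wp) 192 Cm 4 Λ eS VP h ≤ (1/Wp) (τ/8) DKS` (`eps2`), the rest by `tiny` (`card K ≤ log² z + 1`, `1/φ(Wp) ≤ Cm log z/Wp` as `V1p ≤ 1`).
-/

open Finset Filter

namespace Pool.Agent.LibSC93

open Pool.Agent.LibRG87 Pool.Agent.LibLG5 Pool.Agent.LibPL63

private theorem S4_num {M φ V1 W Lz q x Cm N Λ S Gk DK Dn q0 cDI e τ eS VPh rz ex e1 : ℝ}
    (hM0 : 0 ≤ M) (hM : M ≤ 3) (hφ : 0 < φ) (hW : 0 < W) (hV0 : 0 < V1) (hV1 : V1 ≤ 1)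
    (hLz : 2 ≤ Lz) (hq : 1 ≤ q) (hx : x = q * Lz) (hCm : 1 ≤ Cm) (hΛ : 1 ≤ Λ) (hq0 : 1 ≤ q0)
    (hmert : 1 / (φ * V1) ≤ Cm * Lz / W) (hN0 : 0 ≤ N) (hN : N * V1 ≤ 4 * (Λ * q))
    (hN2 : N ≤ Lz ^ 2 + 1)
    (hS : S ≤ Gk * ((N * (4 * V1)) * (N * (4 * V1) / (Dn * (q0 * Lz)) + e ^ 2) * DK))
    (hcDI : 0 < cDI) (hDn : cDI ≤ Dn * Lz)
    (hkr : 64 * 3 * Cm * (16 * Λ) * (16 * (Λ * q) / (cDI * q0)) ≤ τ / 4)
    (he : 64 * 3 * Cm * (16 * Λ) * e ^ 2 ≤ τ / 8) (hτ : 0 < τ)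
    (heS0 : 0 ≤ eS) (heps : eS * (10 ^ 5 * Cm * Λ * q) ≤ τ)
    (hrz0 : 0 ≤ rz) (hex0 : 0 ≤ ex)
    (ht1 : Lz ^ 3 * rz ≤ e1 * VPh) (ht3 : Lz ^ 3 * ex ≤ e1 * (VPh / W))
    (he1 : 192 * Cm * e1 ≤ τ / 8)
    (hVPh : 0 ≤ VPh) (hDK : VPh ≤ DK) (hGk : 1 ≤ Gk) :
    64 / x * (M / φ / V1 * S + N * (M / φ * (VPh * eS + rz) + ex)) ≤
      1 / W * (τ * (Gk * DK)) := by
  have hLz0 : 0 < Lz := by linarith
  have hq' : 0 < q := by linarith
  have hx0 : 0 < x := by rw [hx]; positivity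
  have hDK0 : 0 ≤ DK := hVPh.trans hDK
  have hGD : VPh ≤ Gk * DK := hDK.trans (le_mul_of_one_le_left hDK0 hGk)
  have hGD0 : 0 ≤ Gk * DK := hVPh.trans hGD
  -- `M / φ / V1`
  have h1 : M / φ / V1 ≤ 3 * (Cm * Lz / W) := by
    have e1 : M / φ / V1 = M * (1 / (φ * V1)) := by
      rw [div_div, div_eq_mul_one_div]
    rw [e1]
    exact mul_le_mul hM hmert (by positivity) (by norm_num)
  have h10 : 0 ≤ M / φ / V1 := by positivity
  have h2 : M / φ ≤ 3 * (Cm * Lz / W) := by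
    refine le_trans ?_ h1
    rw [le_div_iff₀ hV0]
    exact mul_le_of_le_one_right (by positivity) hV1
  have h20 : 0 ≤ M / φ := by positivity
  -- `64 / x * 3 Cm Lz / W = 192 Cm / (q W)`
  have h3 : 64 / x * (3 * (Cm * Lz / W)) = 1 / W * (192 * Cm / q) := by
    rw [hx]
    field_simp
    norm_num
  have h64 : 0 < 64 / x := by positivity
  -- the kill part
  have ht : N * (4 * V1) ≤ 16 * (Λ * q) := by linarith
  have ht0 : 0 ≤ N * (4 * V1) := by positivity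
  have hfrac : N * (4 * V1) / (Dn * (q0 * Lz)) ≤ 16 * (Λ * q) / (cDI * q0) := by
    have h4 : cDI * q0 ≤ Dn * (q0 * Lz) := by
      have : Dn * (q0 * Lz) = Dn * Lz * q0 := by ring
      rw [this]
      exact mul_le_mul_of_nonneg_right hDn (by linarith)
    exact div_le_div₀ (by positivity) ht (by positivity) h4
  have hS2 : S ≤ 16 * (Λ * q) * (16 * (Λ * q) / (cDI * q0) + e ^ 2) * (Gk * DK) := by
    refine hS.trans ?_
    have h5 : Gk * ((N * (4 * V1)) * (N * (4 * V1) / (Dn * (q0 * Lz)) + e ^ 2) * DK) =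
        (N * (4 * V1)) * (N * (4 * V1) / (Dn * (q0 * Lz)) + e ^ 2) * (Gk * DK) := by ring
    rw [h5]
    refine mul_le_mul_of_nonneg_right ?_ hGD0
    have h7 : 0 ≤ Dn * (q0 * Lz) := by
      have : Dn * (q0 * Lz) = Dn * Lz * q0 := by ring
      rw [this]
      exact mul_nonneg (hcDI.le.trans hDn) (by linarith)
    have h6 : 0 ≤ N * (4 * V1) / (Dn * (q0 * Lz)) + e ^ 2 :=
      add_nonneg (div_nonneg ht0 h7) (sq_nonneg e)
    exact mul_le_mul ht (by linarith) h6 (by positivity)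
  have hA : 64 / x * (M / φ / V1 * S) ≤ 1 / W * ((3 * τ / 8) * (Gk * DK)) := by
    set B : ℝ := 16 * (Λ * q) * (16 * (Λ * q) / (cDI * q0) + e ^ 2) * (Gk * DK) with hB
    have hB0 : 0 ≤ B := by positivity
    calc 64 / x * (M / φ / V1 * S) ≤ 64 / x * (3 * (Cm * Lz / W) * B) :=
          mul_le_mul_of_nonneg_left ((mul_le_mul_of_nonneg_left hS2 h10).trans
            (mul_le_mul_of_nonneg_right h1 hB0)) h64.le
      _ = 64 / x * (3 * (Cm * Lz / W)) * B := by ring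
      _ = 1 / W * (192 * Cm / q) * B := by rw [h3]
      _ = 1 / W * ((64 * 3 * Cm * (16 * Λ) * (16 * (Λ * q) / (cDI * q0)) +
            64 * 3 * Cm * (16 * Λ) * e ^ 2) * (Gk * DK)) := by
          rw [hB]
          field_simp
          ring
      _ ≤ 1 / W * ((3 * τ / 8) * (Gk * DK)) := by
          refine mul_le_mul_of_nonneg_left (mul_le_mul_of_nonneg_right (by linarith) hGD0)
            (by positivity)
  have hBB : 64 / x * (N * (M / φ * (VPh * eS))) ≤ 1 / W * ((τ / 8) * (Gk * DK)) := by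
    have h5 : N * (M / φ * (VPh * eS)) = (N * V1) * (M / φ / V1) * (VPh * eS) := by
      field_simp
    have h6 : (N * V1) * (M / φ / V1) ≤ 4 * (Λ * q) * (3 * (Cm * Lz / W)) :=
      mul_le_mul hN h1 h10 (by positivity)
    calc 64 / x * (N * (M / φ * (VPh * eS)))
        ≤ 64 / x * (4 * (Λ * q) * (3 * (Cm * Lz / W)) * (VPh * eS)) := by
          rw [h5]
          exact mul_le_mul_of_nonneg_left (mul_le_mul_of_nonneg_right h6 (by positivity)) h64.le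
      _ = 64 / x * (3 * (Cm * Lz / W)) * (4 * (Λ * q)) * (VPh * eS) := by ring
      _ = 1 / W * (192 * Cm / q) * (4 * (Λ * q)) * (VPh * eS) := by rw [h3]
      _ = 1 / W * ((768 * (eS * (Cm * Λ))) * VPh) := by
          field_simp
          ring
      _ ≤ 1 / W * ((τ / 8) * (Gk * DK)) := by
          refine mul_le_mul_of_nonneg_left ?_ (by positivity)
          refine mul_le_mul ?_ hGD hVPh (by positivity)
          have h7 : eS * (Cm * Λ) ≤ eS * (Cm * Λ) * q :=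
            le_mul_of_one_le_right (by positivity) hq
          nlinarith
  have hCC : 64 / x * (N * (M / φ * rz)) ≤ 1 / W * ((τ / 8) * (Gk * DK)) := by
    have h5 : N * rz ≤ e1 * VPh := by
      refine le_trans (mul_le_mul_of_nonneg_right ?_ hrz0) ht1
      nlinarith [sq_nonneg Lz, mul_nonneg (sq_nonneg Lz) (sub_nonneg.2 hLz)]
    have h50 : 0 ≤ N * rz := by positivity
    calc 64 / x * (N * (M / φ * rz)) = 64 / x * (M / φ) * (N * rz) := by ring
      _ ≤ 64 / x * (3 * (Cm * Lz / W)) * (e1 * VPh) := by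
          refine mul_le_mul (mul_le_mul_of_nonneg_left h2 h64.le) h5 h50 (by positivity)
      _ = 1 / W * (192 * Cm / q) * (e1 * VPh) := by rw [h3]
      _ = 1 / W * ((192 * Cm * e1 * VPh) / q) := by ring
      _ ≤ 1 / W * ((τ / 8) * (Gk * DK)) := by
          refine mul_le_mul_of_nonneg_left ?_ (by positivity)
          have h6 : 0 ≤ 192 * Cm * e1 * VPh := by
            have : 192 * Cm * e1 * VPh = 192 * Cm * (e1 * VPh) := by ring
            rw [this]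
            exact mul_nonneg (by positivity) (h50.trans h5)
          refine (div_le_self h6 hq).trans ?_
          exact mul_le_mul he1 hGD hVPh (by positivity)
  have hDD : 64 / x * (N * ex) ≤ 1 / W * ((τ / 8) * (Gk * DK)) := by
    have hx1 : 1 ≤ x := by
      rw [hx]
      nlinarith
    have h5 : N * ex ≤ e1 * (VPh / W) := by
      refine le_trans (mul_le_mul_of_nonneg_right ?_ hex0) ht3
      nlinarith [sq_nonneg Lz, mul_nonneg (sq_nonneg Lz) (sub_nonneg.2 hLz)]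
    have h50 : 0 ≤ N * ex := by positivity
    calc 64 / x * (N * ex) ≤ 64 * (e1 * (VPh / W)) :=
          mul_le_mul (div_le_self (by norm_num) hx1) h5 h50 (by norm_num)
      _ = 1 / W * (64 * e1 * VPh) := by ring
      _ ≤ 1 / W * ((τ / 8) * (Gk * DK)) := by
          refine mul_le_mul_of_nonneg_left ?_ (by positivity)
          rcases hVPh.eq_or_lt with h | h
          · rw [← h, mul_zero]
            positivity
          · have h8 : 0 ≤ e1 := by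
              have h9 : 0 ≤ e1 * (VPh / W) := h50.trans h5
              exact nonneg_of_mul_nonneg_left h9 (by positivity)
            refine mul_le_mul ?_ hGD hVPh (by positivity)
            nlinarith
  have hsum : 64 / x * (M / φ / V1 * S + N * (M / φ * (VPh * eS + rz) + ex)) =
      64 / x * (M / φ / V1 * S) + 64 / x * (N * (M / φ * (VPh * eS))) +
        64 / x * (N * (M / φ * rz)) + 64 / x * (N * ex) := by ring
  rw [hsum]
  have hfin : 1 / W * ((3 * τ / 8) * (Gk * DK)) + 1 / W * ((τ / 8) * (Gk * DK)) +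
      1 / W * ((τ / 8) * (Gk * DK)) + 1 / W * ((τ / 8) * (Gk * DK)) ≤
      1 / W * (τ * (Gk * DK)) := by
    have h9 : 0 ≤ 1 / W * (Gk * DK) := by positivity
    have h10 : 1 / W * (τ * (Gk * DK)) = τ * (1 / W * (Gk * DK)) := by ring
    have h11 : 1 / W * ((3 * τ / 8) * (Gk * DK)) = 3 * τ / 8 * (1 / W * (Gk * DK)) := by ring
    have h12 : 1 / W * ((τ / 8) * (Gk * DK)) = τ / 8 * (1 / W * (Gk * DK)) := by ring
    rw [h10, h11, h12]
    nlinarith
  linarith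

private theorem S4_memPS {a I A2 I2 r0 z p1 p : ℕ} (h : p ∈ PS a I A2 I2 r0 z p1) :
    p ≤ z ^ (q0S A2 I2 r0 * a ^ I) := by
  unfold PS PL at h
  exact (mem_PPi.1 (Finset.mem_of_mem_erase h)).1.2

private theorem S4_memP0 {z p1 p : ℕ} (h : p ∈ P0 z p1) : p ≤ z ∧ p.Prime := by
  unfold P0 at h
  have h1 := mem_PPi.1 (Finset.mem_of_mem_erase h)
  exact ⟨h1.1.2, h1.2⟩

private theorem S4_free {a I A2 I2 r0 z p1 m N : ℕ} (hz : 1 ≤ z)
    (hL : q0S A2 I2 r0 * a ^ I ≤ N) (hL1 : 1 ≤ N) (hm : m.Prime) (hlo : z ^ N < m) :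
    (∀ p ∈ P0 z p1, ¬ p ∣ m) ∧ (∀ p ∈ PS a I A2 I2 r0 z p1, ¬ p ∣ m) := by
  constructor
  · intro p hp hd
    obtain ⟨h1, h2⟩ := S4_memP0 hp
    have h3 : p = m := (Nat.prime_dvd_prime_iff_eq h2 hm).1 hd
    have h4 : z ^ 1 ≤ z ^ N := Nat.pow_le_pow_right hz hL1
    rw [pow_one] at h4
    omega
  · intro p hp hd
    have h2 := (PS_mem hp).1
    have h3 : p = m := (Nat.prime_dvd_prime_iff_eq h2 hm).1 hd
    have h1 := S4_memPS hp
    have h4 : z ^ (q0S A2 I2 r0 * a ^ I) ≤ z ^ N := Nat.pow_le_pow_right hz hL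
    omega

private theorem S4_q0 {A2 I2 r0 : ℕ} (hA : 2 ≤ A2) (hr : 1 ≤ r0) : 1 ≤ q0S A2 I2 r0 := by
  unfold q0S
  exact Nat.mul_pos (pow_pos (by omega) _) hr

private theorem S4_LS {D a I A2 I2 r0 : ℕ} (hD : 1 ≤ D) :
    q0S A2 I2 r0 * a ^ I ≤ LS D a I A2 I2 r0 := by
  unfold LS LL
  have h1 : D * a ^ I * (I + 1) * q0S A2 I2 r0 =
      q0S A2 I2 r0 * a ^ I * (D * (I + 1)) := by ring
  rw [h1]
  exact Nat.le_mul_of_pos_right _ (Nat.mul_pos hD (Nat.succ_pos _))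

private theorem S4_er {x : ℝ} (hx : 0 ≤ x) {p1 k : ℕ} (hp1 : p1.Prime) (Dv : BVdata x p1)
    (h : ∑ r ∈ (Icc 1 ⌊Real.exp (x / 24)⌋₊).filter (fun r => Squarefree r ∧ ¬ p1 ∣ r),
        (k : ℝ) ^ r.primeFactors.card * Dv.er r ≤ Real.exp (-x ^ ((1 : ℝ) / 4))) :
    Dv.er 1 ≤ 1 := by
  have h1 : (1 : ℕ) ∈ (Icc 1 ⌊Real.exp (x / 24)⌋₊).filter
      (fun r => Squarefree r ∧ ¬ p1 ∣ r) := by
    rw [Finset.mem_filter, Finset.mem_Icc]
    refine ⟨⟨le_rfl, ?_⟩, squarefree_one, ?_⟩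
    · rw [Nat.le_floor_iff (Real.exp_pos _).le]
      push_cast
      exact Real.one_le_exp (by positivity)
    · intro hd
      exact hp1.one_lt.ne' (Nat.dvd_one.1 hd)
  have h2 := Finset.single_le_sum
    (f := fun r : ℕ => (k : ℝ) ^ r.primeFactors.card * Dv.er r)
    (fun r _ => mul_nonneg (pow_nonneg (Nat.cast_nonneg k) _) (Dv.er_nonneg r)) h1
  simp only [Nat.primeFactors_one, Finset.card_empty, pow_zero, one_mul] at h2
  refine h2.trans (h.trans ?_)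
  rw [Real.exp_le_one_iff]
  have := Real.rpow_nonneg hx ((1 : ℝ) / 4)
  linarith

private theorem S4_V1 (z p1 : ℕ) : 0 < V1p (P0 z p1) ∧ V1p (P0 z p1) ≤ 1 := by
  have hpr : ∀ p ∈ P0 z p1, p.Prime := fun p hp => (S4_memP0 hp).2
  refine ⟨V1p_pos _ hpr, ?_⟩
  unfold V1p
  refine Finset.prod_le_one (fun p hp => ?_) (fun p hp => ?_)
  · have h2 : (2 : ℝ) ≤ p := by exact_mod_cast (hpr p hp).two_le
    have h1 : 1 / (p : ℝ) ≤ 1 := by
      rw [div_le_one (by linarith)]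
      linarith
    linarith
  · have h1 : 0 ≤ 1 / (p : ℝ) := by positivity
    linarith

private theorem S4_log (N : ℕ) (c : ℝ) (hc : 0 < c) :
    ∀ᶠ z : ℕ in atTop, c * Real.log z ^ N ≤ z := by
  have h1 := (Real.isLittleO_pow_log_id_atTop (n := N)).bound (show (0 : ℝ) < 1 / c by positivity)
  have h2 := tendsto_natCast_atTop_atTop (R := ℝ) |>.eventually h1
  filter_upwards [h2, eventually_ge_atTop 1] with z h3 h4
  simp only [id, Real.norm_eq_abs] at h3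
  have h5 : |(z : ℝ)| = z := abs_of_nonneg (Nat.cast_nonneg z)
  rw [h5] at h3
  have h6 := (le_abs_self _).trans h3
  calc c * Real.log z ^ N ≤ c * (1 / c * z) := mul_le_mul_of_nonneg_left h6 hc.le
    _ = z := by field_simp

private theorem S4_loglim (B : ℝ) : ∀ᶠ z : ℕ in atTop, B ≤ Real.log z :=
  (Real.tendsto_log_atTop.comp (tendsto_natCast_atTop_atTop (R := ℝ))).eventually_ge_atTop B

/-- one position of the killing part -/
private theorem S4_one {D a I A2 I2 r0 : ℕ} {z p1 : ℕ} {q : ℕ} (hq : q = qS D a I A2 I2 r0)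
    (hz : 1 ≤ z) (hL : q0S A2 I2 r0 * a ^ I ≤ 120 * LS D a I A2 I2 r0)
    (hL1 : 1 ≤ 120 * LS D a I A2 I2 r0)
    (Dv : BVdata (q * Real.log z) p1) (hx2 : 2 ≤ (q : ℝ) * Real.log z)
    (hxlo : (q : ℝ) * Real.log z * Real.log z ^ 2 ≤ ((z ^ (120 * LS D a I A2 I2 r0) : ℕ) : ℝ))
    (c0 : ℕ) (h K : Finset ℕ) (j : ↥K)
    (hj : ((j : ℕ) : ℝ) ≤ Real.log z ^ 2) (hc : (c0 + bS h K (Sum.inr j)).Coprime (Wp z p1))
    {Q : ℝ}
    (hQ : ∑ n ∈ (avgQ (q * Real.log z) p1 Dv (Wp z p1) c0 (bS h K (Sum.inr j))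
              (z ^ (120 * LS D a I A2 I2 r0)) (Wp_pos z p1) hc).s,
            (avgQ (q * Real.log z) p1 Dv (Wp z p1) c0 (bS h K (Sum.inr j))
              (z ^ (120 * LS D a I A2 I2 r0)) (Wp_pos z p1) hc).om n *
              PhiS (PS a I A2 I2 r0 z p1) (P0 z p1) (bS h K)
                (yCol (PS a I A2 I2 r0 z p1) (Sum.inr j) (YS D a I A2 I2 r0 z p1 h K)) h n ^ 2 ≤ Q) :
    ∑ n ∈ (clsU (q * Real.log z) (Wp z p1) c0).filter
          (fun n => z ^ (120 * LS D a I A2 I2 r0) < n ∧ (n + (j : ℕ)).Prime),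
        omU (q * Real.log z) n * PsS D a I A2 I2 r0 z p1 h K n ^ 2 ≤
      64 / (q * Real.log z) * Q := by
  have hz0 : (0 : ℝ) < z := by exact_mod_cast hz
  have hexp : Real.exp (q * Real.log z / 4) ≤ ((z ^ (120 * LS D a I A2 I2 r0) : ℕ) : ℝ) := by
    have h1 : (q : ℝ) * Real.log z / 4 =
        ((120 * LS D a I A2 I2 r0 : ℕ) : ℝ) * Real.log z := by
      rw [hq]
      unfold qS
      push_cast
      ring
    rw [h1, Real.exp_nat_mul, Real.exp_log hz0]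
    push_cast
    exact le_rfl
  have hlo : (q : ℝ) * Real.log z * ((bS h K (Sum.inr j) : ℕ) : ℝ) ≤
      ((z ^ (120 * LS D a I A2 I2 r0) : ℕ) : ℝ) := by
    refine le_trans ?_ hxlo
    exact mul_le_mul_of_nonneg_left hj (by linarith)
  have h1 := prime_part_le hx2 p1 Dv (Wp z p1) c0 (bS h K (Sum.inr j))
    (z ^ (120 * LS D a I A2 I2 r0)) (Wp_pos z p1) hc hlo hexp
    (fun n => PsS D a I A2 I2 r0 z p1 h K n ^ 2) (fun n => sq_nonneg _)
  refine h1.trans ?_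
  refine mul_le_mul_of_nonneg_left ?_ (by positivity)
  refine le_trans (le_of_eq ?_) hQ
  refine Finset.sum_congr rfl fun n hn => ?_
  change n ∈ (clsU (q * Real.log z) (Wp z p1) c0).filter
    (fun n => z ^ (120 * LS D a I A2 I2 r0) < n) at hn
  have hn2 := (Finset.mem_filter.1 hn).2
  change wp (q * Real.log z) (n + bS h K (Sum.inr j)) * _ =
    wp (q * Real.log z) (n + bS h K (Sum.inr j)) * _
  by_cases hpr : (n + bS h K (Sum.inr j)).Prime
  · have hgt : z ^ (120 * LS D a I A2 I2 r0) < n + bS h K (Sum.inr j) := by omega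
    obtain ⟨h2, h3⟩ := S4_free (p1 := p1) hz hL hL1 hpr hgt
    have h4 := collapseS (PS a I A2 I2 r0 z p1) (P0 z p1) (fun p hp => (PS_mem hp).1) (bS h K)
      (Sum.inr j) n h2 h3 (YS D a I A2 I2 r0 z p1 h K) h
    show _ * (PhiS (PS a I A2 I2 r0 z p1) (P0 z p1) (bS h K) (YS D a I A2 I2 r0 z p1 h K) h n) ^ 2
      = _
    rw [h4]
  · unfold wp
    rw [if_neg hpr, zero_mul, zero_mul]

theorem side4 {C Cq Cm D a I A2 I2 r0 : ℕ} {c cD Λ τ : ℝ}
    (hp : ParS C Cq Cm D a I A2 I2 r0 c cD Λ τ) :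
    ∀ᶠ z : ℕ in atTop, ∀ p1 : ℕ, p1.Prime → ∀ Dv : BVdata (qS D a I A2 I2 r0 * Real.log z) p1,
      ∑ r ∈ (Icc 1 ⌊Real.exp ((qS D a I A2 I2 r0 * Real.log z) / 24)⌋₊).filter
          (fun r => Squarefree r ∧ ¬ p1 ∣ r),
        ((2 * kS a I A2 I2 : ℕ) : ℝ) ^ r.primeFactors.card * Dv.er r ≤
          Real.exp (-(qS D a I A2 I2 r0 * Real.log z) ^ ((1 : ℝ) / 4)) →
      ∀ (c0 : ℕ) (h K : Finset ℕ), PosS z p1 c0 (a ^ I) (Λ * qS D a I A2 I2 r0) h K →
        ∑ j ∈ K, ∑ n ∈ (clsU (qS D a I A2 I2 r0 * Real.log z) (Wp z p1) c0).filter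
              (fun n => z ^ (120 * LS D a I A2 I2 r0) < n ∧ (n + j).Prime),
            omU (qS D a I A2 I2 r0 * Real.log z) n * PsS D a I A2 I2 r0 z p1 h K n ^ 2 ≤
          1 / Wp z p1 * (τ * G2S a I A2 I2 r0 z p1 ^ a ^ I * DKS a I A2 I2 r0 z p1 h K) := by
  classical
  set q : ℕ := qS D a I A2 I2 r0 with hqdef
  have hA2 : 2 ≤ A2 := hp.dn.1
  have hq0 : 1 ≤ q0S A2 I2 r0 := S4_q0 hA2 hp.hr0
  have ha : 2 ≤ a := hp.sums.1
  have haI : 1 ≤ a ^ I := Nat.one_le_pow _ _ (by omega)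
  have hLS0 : q0S A2 I2 r0 * a ^ I ≤ LS D a I A2 I2 r0 := S4_LS hp.hD1
  have hLS1 : 1 ≤ LS D a I A2 I2 r0 :=
    (Nat.mul_pos hq0 haI).trans_le hLS0
  have hq1 : 1 ≤ q := by
    rw [hqdef]
    unfold qS
    omega
  have hq1R : (1 : ℝ) ≤ q := by exact_mod_cast hq1
  have hCm1 : (1 : ℝ) ≤ Cm := by exact_mod_cast hp.mert.1
  have hτ := hp.hτ
  have hΛ := hp.hΛ
  -- the parameters `e`, `e1`
  set B : ℝ := 64 * 3 * Cm * (16 * Λ) with hB
  have hB1 : 1 ≤ B := by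
    rw [hB]
    nlinarith [mul_le_mul hCm1 hΛ zero_le_one (by linarith : (0 : ℝ) ≤ Cm)]
  obtain ⟨e, he, heB⟩ : ∃ e : ℝ, 0 < e ∧ B * e ^ 2 ≤ τ / 8 := by
    refine ⟨τ / (8 * B), by positivity, ?_⟩
    have h1 : B * (τ / (8 * B)) ^ 2 = τ / 8 * (τ / (8 * B)) := by
      field_simp
    rw [h1]
    have h2 : τ / (8 * B) ≤ 1 := by
      rw [div_le_one (by positivity)]
      linarith [hp.hτ1]
    exact mul_le_of_le_one_right (by positivity) h2
  obtain ⟨e1, he1, he1C⟩ : ∃ e1 : ℝ, 0 < e1 ∧ 192 * Cm * e1 ≤ τ / 8 := by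
    refine ⟨τ / (1536 * Cm), by positivity, ?_⟩
    apply le_of_eq
    field_simp
    norm_num
  obtain ⟨x0, hx0⟩ := M_le
  filter_upwards [baseS hp e he, quP hp, hp.mert.2, stepVP (KS a I A2 I2), tiny (a ^ I) 3 e1 he1,
    S4_loglim (max x0 2), S4_log 3 q (by linarith)] with z hBs hqu hme hst hti hlg hlz
  intro p1 hp1 Dv hsum c0 h K hpos
  obtain ⟨hcard, hdis, hposs, hKV⟩ := id hpos
  have hL2 : 2 ≤ Real.log z := (le_max_right _ _).trans hlg
  have hx0z : x0 ≤ q * Real.log z := by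
    have h1 : x0 ≤ Real.log z := (le_max_left _ _).trans hlg
    nlinarith
  have hBz := hBs p1
  obtain ⟨hz3, hl1, hl2, hwf, hz16, hDn0, hDnc, hDn1, heps⟩ := id hBz
  have hz1 : 1 ≤ z := by omega
  have hz0R : (0 : ℝ) < z := by exact_mod_cast hz1
  have hx2 : 2 ≤ (q : ℝ) * Real.log z := by nlinarith
  have hxlo : (q : ℝ) * Real.log z * Real.log z ^ 2 ≤
      ((z ^ (120 * LS D a I A2 I2 r0) : ℕ) : ℝ) := by
    have h1 : (q : ℝ) * Real.log z * Real.log z ^ 2 = q * Real.log z ^ 3 := by ring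
    rw [h1]
    refine hlz.trans ?_
    have h2 : z ^ 1 ≤ z ^ (120 * LS D a I A2 I2 r0) := Nat.pow_le_pow_right hz1 (by omega)
    rw [pow_one] at h2
    exact_mod_cast h2
  have hM : Dv.M ≤ 3 := hx0 _ hx0z p1 Dv
    (S4_er (k := 2 * kS a I A2 I2) (by linarith) hp1 Dv hsum)
  have hM0 : 0 ≤ Dv.M := by linarith [Dv.M_ge]
  obtain ⟨hV0, hV1⟩ := S4_V1 z p1
  have hW0 : (0 : ℝ) < Wp z p1 := by exact_mod_cast Wp_pos z p1
  have hφ0 : (0 : ℝ) < (Wp z p1).totient := by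
    exact_mod_cast Nat.totient_pos.2 (Wp_pos z p1)
  obtain ⟨ht1, ht2, ht3⟩ := hti p1 hp1 h hcard
  have hposc : (Fintype.card (↥h ⊕ ↥K) : ℝ) ≤ Real.log z ^ 2 + 1 := (card_pos hp hpos).1
  have hKc : (K.card : ℝ) ≤ Real.log z ^ 2 + 1 := by
    refine le_trans ?_ hposc
    have h1 : K.card ≤ Fintype.card (↥h ⊕ ↥K) := by
      rw [Fintype.card_sum, Fintype.card_coe, Fintype.card_coe]
      omega
    exact_mod_cast h1
  have hVP0 : ∀ B : Finset ℕ, 0 ≤ VP (P0 z p1) B :=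
    VP_nonneg _ fun p hp => (S4_memP0 hp).2
  have hinr : ∀ j : ↥K, bS h K (Sum.inr j) = (j : ℕ) := fun j => rfl
  have hnot : ∀ j : ↥K, bS h K (Sum.inr j) ∉ h := fun j hj =>
    (Finset.disjoint_left.1 hdis hj) j.2
  -- the kill sum
  have hkill := kill_le (PS a I A2 I2 r0 z p1) z (q0S A2 I2 r0) a I (2 * LS D a I A2 I2 r0) r0
    (q0S A2 I2 r0) (2 * A2 ^ I2) (fun p hp => ⟨(PS_mem hp).1, (PS_mem hp).2.1⟩) (by omega)
    hp.hr0 hq0 (by unfold q0S; exact le_of_eq (by ring)) hDn0 hDn1 (VP (P0 z p1)) hVP0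
    (v := 4 * V1p (P0 z p1)) (by positivity) (bS h K) (bS_inj hdis) h (fun i => i.2) hnot
    (by
      have h1 : h.card + 2 * A2 ^ I2 = KS a I A2 I2 := by rw [hcard]; rfl
      rw [h1]
      refine hst p1 hp1 _ fun x hx => ?_
      rw [Finset.mem_union, Finset.mem_image] at hx
      rcases hx with hx | ⟨i, _, hi⟩
      · exact (hposs x (Finset.mem_union_left _ hx)).1
      · rcases i with i | j
        · have h2 : x ∈ h := by rw [← hi]; exact i.2
          exact (hposs x (Finset.mem_union_left _ h2)).1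
        · have h2 : x ∈ K := by rw [← hi]; exact j.2
          exact (hposs x (Finset.mem_union_right _ h2)).1) (ε := e) heps
  rw [Fintype.card_coe, Fintype.card_coe, hcard] at hkill
  -- one position
  set S : ↥K → ℝ := fun j => ∑ β : PS a I A2 I2 r0 z p1 → Option (↥h ⊕ ↥K),
    yCol (PS a I A2 I2 r0 z p1) (Sum.inr j) (YS D a I A2 I2 r0 z p1 h K) β ^ 2 *
      VP (P0 z p1) (insert (bS h K (Sum.inr j)) (h ∪ su (PS a I A2 I2 r0 z p1) (bS h K) β)) /
        ph (sp (PS a I A2 I2 r0 z p1) β) with hSdef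
  have hone : ∀ j : ↥K, ∑ n ∈ (clsU (q * Real.log z) (Wp z p1) c0).filter
          (fun n => z ^ (120 * LS D a I A2 I2 r0) < n ∧ (n + (j : ℕ)).Prime),
        omU (q * Real.log z) n * PsS D a I A2 I2 r0 z p1 h K n ^ 2 ≤
      64 / (q * Real.log z) * (Dv.M / (Wp z p1).totient / V1p (P0 z p1) * S j +
        (Dv.M / (Wp z p1).totient * (VP (P0 z p1) h * eS Cq D a I A2 I2 r0 Λ + 1 / Real.sqrt z) +
          Real.exp (-Real.log z ^ ((1 : ℝ) / 5)))) := by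
    intro j
    have hjK := hposs j (Finset.mem_union_right _ j.2)
    have hcj : (c0 + bS h K (Sum.inr j)).Coprime (Wp z p1) := hjK.2
    refine S4_one hqdef hz1 (by omega) (by omega) Dv hx2 hxlo c0 h K j hjK.1 hcj ?_
    have h1 := hqu p1 hp1 Dv hsum c0 h K hpos (Sum.inr j) hcj
      (yCol (PS a I A2 I2 r0 z p1) (Sum.inr j) (YS D a I A2 I2 r0 z p1 h K))
      (YR_abs hp hBz j) (fun β hβ => YR_supp hp hBz hcard j hβ)
    rw [if_neg (hnot j), div_one] at h1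
    have h2 : dgV (PS a I A2 I2 r0 z p1)
        (fun B => VP (P0 z p1) (insert (bS h K (Sum.inr j)) B) / V1p (P0 z p1)) (bS h K) h
          (yCol (PS a I A2 I2 r0 z p1) (Sum.inr j) (YS D a I A2 I2 r0 z p1 h K)) =
        S j / V1p (P0 z p1) := by
      rw [hSdef]
      unfold dgV
      simp only []
      rw [Finset.sum_div]
      refine Finset.sum_congr rfl fun β _ => ?_
      ring
    rw [h2] at h1
    have h3 := (abs_le.1 h1).2
    have h4 : Dv.M / (Wp z p1).totient * (S j / V1p (P0 z p1)) =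
        Dv.M / (Wp z p1).totient / V1p (P0 z p1) * S j := by ring
    rw [h4] at h3
    linarith
  -- the sum
  have hsumK : ∑ j ∈ K, ∑ n ∈ (clsU (q * Real.log z) (Wp z p1) c0).filter
          (fun n => z ^ (120 * LS D a I A2 I2 r0) < n ∧ (n + j).Prime),
        omU (q * Real.log z) n * PsS D a I A2 I2 r0 z p1 h K n ^ 2 ≤
      64 / (q * Real.log z) * (Dv.M / (Wp z p1).totient / V1p (P0 z p1) * (∑ j, S j) +
        (K.card : ℝ) * (Dv.M / (Wp z p1).totient *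
          (VP (P0 z p1) h * eS Cq D a I A2 I2 r0 Λ + 1 / Real.sqrt z) +
            Real.exp (-Real.log z ^ ((1 : ℝ) / 5)))) := by
    rw [← Finset.sum_coe_sort K]
    refine (Finset.sum_le_sum fun j _ => hone j).trans (le_of_eq ?_)
    rw [← Finset.mul_sum, Finset.sum_add_distrib, ← Finset.mul_sum, Finset.sum_const,
      Finset.card_univ, Fintype.card_coe, nsmul_eq_mul]
  refine hsumK.trans ?_
  have hG : 1 ≤ G2S a I A2 I2 r0 z p1 ^ a ^ I :=
    one_le_pow₀ (one_le_G2s _ (fun p hp => (PS_mem hp).1) hz1)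
  rw [mul_assoc τ]
  refine S4_num (x := q * Real.log z) (q := q) (Lz := Real.log z) (Cm := Cm) (Λ := Λ)
    (q0 := q0S A2 I2 r0) (cDI := cD * I2) (e := e) (e1 := e1)
    (Dn := Dn (PS a I A2 I2 r0 z p1) z r0 (q0S A2 I2 r0))
    hM0 hM hφ0 hW0 hV0 hV1 hL2 hq1R rfl hCm1 hΛ (by exact_mod_cast hq0) (hme p1 hp1)
    (Nat.cast_nonneg _) (by linarith) hKc hkill (by linarith [hp.hcD]) hDnc
    (kill_ratio hp) heB hτ (eS_le hp).1 hp.eps2 (by positivity) (Real.exp_pos _).le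
    ?_ ht3 he1C (hVP0 h) (DKS_ge hp hBz h K) hG
  rw [mul_one_div]
  exact ht1

end Pool.Agent.LibSC93
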