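import Pool.Agent.LibSC93.S0
import Pool.Agent.LibPL63.M8

/-!
Row S5 (existence of the parameters). `D` fixed; `I2` with `hcD` and `kill`; then `r0 → ∞`: `b0 = 2 LS = 2 D a^I (I+1) A2^I2 r0 → ∞`, `kS`, `KS` are fixed and `q0S`, `qS` are linear in `r0`, so `eS * (10^5 Cm Λ qS)` is
`eps0 Cq (2 kS) (2 LS)` times a polynomial in `r0`, and `eps0 C k' b = C (C k')^(b+1) e^(C k')/(b+1)!` tends to `0` faster than any power (see the finished LibPL63/M8.lean, `params`).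
-/

open Finset Filter

namespace Pool.Agent.LibSC93

open Pool.Agent.LibRG87 Pool.Agent.LibLG5 Pool.Agent.LibPL63

private theorem S5_tend (K X : ℝ) :
    Tendsto (fun n : ℕ => K * (X ^ n / (n.factorial : ℝ))) atTop (nhds 0) := by
  have h := (FloorSemiring.tendsto_pow_div_factorial_atTop X).const_mul K
  rwa [mul_zero] at h

theorem paramsS (C Cq Cm a A2 : ℕ) (c cD : ℝ) (hs : SumsP a C c) (hq : QFRp Cq) (hCq : 1 ≤ Cq)
    (hdn : DnP A2 cD) (hm : MertP Cm) (D I : ℕ) (hD : (8 * C : ℝ) ≤ c * D) (hD1 : 1 ≤ D) (hI : 1 ≤ I)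
    (Λ τ : ℝ) (hΛ : 1 ≤ Λ) (hτ : 0 < τ) (hτ1 : τ ≤ 1) :
    ∃ I2 r0 : ℕ, ParS C Cq Cm D a I A2 I2 r0 c cD Λ τ := by
  have ha : 2 ≤ a := hs.1
  have hA2 : 2 ≤ A2 := hdn.1
  have hcD0 : 0 < cD := hdn.2.1
  have hΛ0 : 0 < Λ := by linarith
  -- choice of `I2`
  obtain ⟨n1, hn1⟩ := exists_nat_ge (1 / cD)
  obtain ⟨n2, hn2⟩ := exists_nat_ge
    ((10 ^ 8 * Cm * Λ ^ 2 * (D * a ^ I * (I + 1)) : ℝ) / (τ * cD))
  set I2 := 1 + n1 + n2 with hI2
  have hI2a : (n1 : ℝ) ≤ I2 := by exact_mod_cast (by omega : n1 ≤ I2)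
  have hI2b : (n2 : ℝ) ≤ I2 := by exact_mod_cast (by omega : n2 ≤ I2)
  have hcDI : 1 ≤ cD * I2 := by
    have h1 := hn1.trans hI2a
    rw [div_le_iff₀ hcD0] at h1
    linarith
  have hkill : 10 ^ 8 * Cm * Λ ^ 2 * (D * a ^ I * (I + 1)) ≤ τ * (cD * I2) := by
    have h1 := hn2.trans hI2b
    rw [div_le_iff₀ (mul_pos hτ hcD0)] at h1
    calc _ ≤ (I2 : ℝ) * (τ * cD) := h1
      _ = τ * (cD * I2) := by ring
  -- the constants
  set k := kS a I A2 I2 with hk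
  set K := KS a I A2 I2 with hK
  set s := D * a ^ I * (I + 1) * A2 ^ I2 with hsdef
  have hs1 : 1 ≤ s := by
    have h1 : 0 < D := hD1
    have h2 : 0 < a := by omega
    have h3 : 0 < A2 := by omega
    have : 0 < s := by positivity
    exact this
  have hLS : ∀ r0, LS D a I A2 I2 r0 = s * r0 := by
    intro r0
    unfold LS LL q0S
    rw [hsdef]
    ring
  have hqS : ∀ r0, qS D a I A2 I2 r0 = 480 * (s * r0) := by
    intro r0
    unfold qS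
    rw [hLS]
  set X : ℝ := (Cq : ℝ) * ((2 * k : ℕ) : ℝ) with hX
  have hX0 : 0 ≤ X := by positivity
  set K1 : ℝ := (Cq : ℝ) * Real.exp X with hK1
  have hK10 : 0 ≤ K1 := by positivity
  set m1 := Cq * (k + 1) ^ 2 with hm1
  set m2 := 2 * K with hm2
  set B1 : ℝ := ((Cq * A2 ^ I2 * a ^ I : ℕ) : ℝ) with hB1
  set B2 : ℝ := 1 + (a : ℝ) ^ I + 1920 * Λ * (s : ℝ) with hB2
  set B3 : ℝ := 10 ^ 5 * Cm * Λ * (480 * (s : ℝ)) with hB3
  have hB10 : 0 ≤ B1 := by positivity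
  have hB20 : 0 ≤ B2 := by positivity
  have hB30 : 0 ≤ B3 := by positivity
  set M := m1 + m2 + 1 with hM
  have h1 := (S5_tend K1 X).eventually_lt_const (zero_lt_one)
  have h2 := (S5_tend (K1 * (B1 ^ m1 * B2 ^ m2 * B3) * (M.factorial : ℝ))
    (Real.exp 1 * X)).eventually_lt_const hτ
  obtain ⟨N1, hN1⟩ := eventually_atTop.1 h1
  obtain ⟨N2, hN2⟩ := eventually_atTop.1 h2
  set r0 := 1 + N1 + N2 with hr0
  set N := 2 * (s * r0) + 1 with hN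
  have hNq : r0 ≤ N := by
    have : r0 ≤ s * r0 := Nat.le_mul_of_pos_left _ hs1
    omega
  have hr1 : (1 : ℝ) ≤ r0 := by exact_mod_cast (by omega : 1 ≤ r0)
  have heps : eps0 Cq (2 * k) (2 * LS D a I A2 I2 r0) = K1 * (X ^ N / (N.factorial : ℝ)) := by
    unfold eps0
    rw [hK1, hN, hLS, ← hX]
    ring
  have heps1 : eps0 Cq (2 * k) (2 * LS D a I A2 I2 r0) ≤ 1 := by
    rw [heps]
    exact (hN1 N (by omega)).le
  have hfac : (0 : ℝ) < (N.factorial : ℝ) := by exact_mod_cast Nat.factorial_pos N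
  have heps0 : 0 ≤ K1 * (X ^ N / (N.factorial : ℝ)) := by positivity
  have hpoly : ((Cq * (q0S A2 I2 r0 * a ^ I) : ℕ) : ℝ) ^ m1 *
      (1 + (a ^ I + 4 * Λ * qS D a I A2 I2 r0)) ^ m2 *
      (10 ^ 5 * Cm * Λ * qS D a I A2 I2 r0) ≤
      (B1 ^ m1 * B2 ^ m2 * B3) * ((M.factorial : ℝ) * Real.exp 1 ^ N) := by
    have e1 : ((Cq * (q0S A2 I2 r0 * a ^ I) : ℕ) : ℝ) = B1 * r0 := by
      rw [hB1]
      unfold q0S
      push_cast
      ring
    have e2 : (1 + ((a : ℝ) ^ I + 4 * Λ * qS D a I A2 I2 r0)) ≤ B2 * r0 := by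
      rw [hqS, hB2]
      push_cast
      have h3 : (0 : ℝ) ≤ 1 + (a : ℝ) ^ I := by positivity
      nlinarith
    have e3 : (10 ^ 5 * Cm * Λ * qS D a I A2 I2 r0 : ℝ) = B3 * r0 := by
      rw [hqS, hB3]
      push_cast
      ring
    have e4 : (0 : ℝ) ≤ 1 + ((a : ℝ) ^ I + 4 * Λ * qS D a I A2 I2 r0) := by positivity
    have h6 : (r0 : ℝ) ^ M ≤ (M.factorial : ℝ) * Real.exp 1 ^ N := by
      have h7 : (r0 : ℝ) ^ M ≤ (N : ℝ) ^ M :=
        pow_le_pow_left₀ (Nat.cast_nonneg _) (by exact_mod_cast hNq) M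
      have h8 := Real.pow_div_factorial_le_exp (N : ℝ) (Nat.cast_nonneg _) M
      have hmf : (0 : ℝ) < (M.factorial : ℝ) := by exact_mod_cast Nat.factorial_pos M
      rw [div_le_iff₀ hmf] at h8
      rw [← Real.exp_nat_mul, mul_one]
      linarith
    rw [e1, e3]
    calc (B1 * r0) ^ m1 * (1 + ((a : ℝ) ^ I + 4 * Λ * qS D a I A2 I2 r0)) ^ m2 * (B3 * r0)
        ≤ (B1 * r0) ^ m1 * (B2 * r0) ^ m2 * (B3 * r0) := by
          gcongr
      _ = (B1 ^ m1 * B2 ^ m2 * B3) * (r0 : ℝ) ^ M := by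
          rw [hM, mul_pow, mul_pow, pow_add, pow_add]
          ring
      _ ≤ _ := by gcongr
  refine ⟨I2, r0, ⟨hs, hq, hCq, hdn, hm, hΛ, hD, hD1, hI, by omega, hcDI, by omega, hτ, hτ1, hkill,
    heps1, ?_⟩⟩
  unfold eS
  rw [← hk, ← hK, heps, ← hm1, ← hm2]
  calc K1 * (X ^ N / (N.factorial : ℝ)) * ((Cq * (q0S A2 I2 r0 * a ^ I) : ℕ) : ℝ) ^ m1 *
        (1 + (a ^ I + 4 * Λ * qS D a I A2 I2 r0)) ^ m2 * (10 ^ 5 * Cm * Λ * qS D a I A2 I2 r0)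
      = K1 * (X ^ N / (N.factorial : ℝ)) * (((Cq * (q0S A2 I2 r0 * a ^ I) : ℕ) : ℝ) ^ m1 *
        (1 + (a ^ I + 4 * Λ * qS D a I A2 I2 r0)) ^ m2 *
        (10 ^ 5 * Cm * Λ * qS D a I A2 I2 r0)) := by ring
    _ ≤ K1 * (X ^ N / (N.factorial : ℝ)) *
        ((B1 ^ m1 * B2 ^ m2 * B3) * ((M.factorial : ℝ) * Real.exp 1 ^ N)) := by
        gcongr
    _ = K1 * (B1 ^ m1 * B2 ^ m2 * B3) * (M.factorial : ℝ) *
        ((Real.exp 1 * X) ^ N / (N.factorial : ℝ)) := by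
        rw [mul_pow (Real.exp 1)]
        ring
    _ ≤ τ := (hN2 N (by omega)).le

end Pool.Agent.LibSC93
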