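import Pool.Agent.LibSC93.S1
import Pool.Agent.LibSC93.S3
import Pool.Agent.LibSC93.S4
import Pool.Agent.LibSC93.S5
import Pool.Agent.LibSC93.PB

/-!
Row S7 (the main inequality, `SCg m` from Bombieri-Vinogradov). `a, C, c` from `sums` (LibPL63/M2), `Cq` from `qfrp`, `A2, cD` from `dnp`, `Cm` from `mertp`, `D ≥ 8C/c`, `I` with
`c² I² ≥ 480000 D (I+1) (2 m C + 2 C + 1)`, `k = a^I`; for given `Λ`: `τ = 1/k`, `paramsS`; `q = qS`, `M0 ≥ k (2 A2^I2 + 16 Λ q + 1)`. `BVprop` with the constant `2 kS` at `x = q log z` gives `p1`, `Dv`.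
With `w n = omU n PsS n ^ 2 ≥ 0`, `lo = z^(120 LS)`, sums over `n ∈ clsU`, `n > lo`; `N_h`, `N_K` = number of `i0 ∈ h`, `j ∈ K` with `n + i0`, `n + j` prime; `Nr` = number of rough `j ∈ K`:
`∑ w (N_h - m - k N_K - (k/M0) Nr) ≥ (DKS/Wp) G2^(k-1) [ k G1²/(1000 q) - 2 m G2 - k τ G2 - (k/M0) (2 A2^I2 + 16 Λ q + 1) G2 ]` by `side3` (sum over `i0 ∈ h`), `side1`, `side4`, `side2`.
The bracket is `≥ q0 (c² I²/(480000 D (I+1)) - C (2 m + 2)) ≥ q0 ≥ 1`; `G2 ≥ 1`, `DKS ≥ VP h` (`DKS_ge`). So the sum is `≥ VP h/Wp`.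
Upper bound of `w (N_h - m - k N_K - (k/M0) Nr)`: it is `≤ 0` unless `N_h ≥ m`, `N_K = 0`, `Nr ≤ M0`, and then `≤ omU rhoP(h) B0² k` (`PhiS_abs_le`, `PhiS_rho`, `YS_abs`; `NT_S_upper`). `κ = 1/(k B0²)`.
-/

open Finset Filter

namespace Pool.Agent.LibSC93

open Pool.Agent.LibRG87 Pool.Agent.LibLG5 Pool.Agent.LibPL63

variable {C Cq Cm D a I A2 I2 r0 : ℕ} {c cD Λ τ : ℝ}

/-- the bound of `Ψ` -/
private noncomputable def S7_B (D a I A2 I2 r0 M0 : ℕ) (B : ℝ) : ℝ :=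
  (2 ^ (2 * qS D a I A2 I2 r0 + 1) * B) ^ (a ^ I + M0)

private theorem S7_card (K : Finset ℕ) (Q : ℕ → Prop) [DecidablePred Q] :
    ((Finset.univ : Finset ↥K).filter fun j : ↥K => Q (j : ℕ)).card = (K.filter Q).card := by
  rw [Finset.card_filter, Finset.card_filter]
  exact Finset.sum_coe_sort K (fun j => if Q j then 1 else 0)

private theorem S7_ph (hp : ParS C Cq Cm D a I A2 I2 r0 c cD Λ τ) {e : ℝ} {z p1 c0 : ℕ}
    (hBs : BaseS a I A2 I2 r0 D cD e z p1) {B : ℝ} (hB1 : 1 ≤ B)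
    (hS : ∏ p ∈ PP z (z ^ (q0S A2 I2 r0 * a ^ I)), (1 + 1 / ((p : ℝ) - 1)) ≤ B)
    {h K : Finset ℕ} (hk : h.card = a ^ I) (hh : ∀ x ∈ h ∪ K, (x : ℝ) ≤ Real.log z ^ 2)
    {n : ℕ} (hn : n ∈ clsU (qS D a I A2 I2 r0 * Real.log z) (Wp z p1) c0) {M0 : ℕ}
    (hM : (K.filter fun j => ∀ p ∈ P0 z p1, ¬ p ∣ n + j).card ≤ M0) :
    PsS D a I A2 I2 r0 z p1 h K n ^ 2 ≤
      rhoP (P0 z p1) h n * S7_B D a I A2 I2 r0 M0 B ^ 2 := by
  have hz3 : 3 ≤ z := hBs.1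
  have hlogz : Real.log z ^ 2 + 1 ≤ z := hBs.2.2.1
  unfold clsU at hn
  rw [Finset.mem_filter, Finset.mem_Icc] at hn
  obtain ⟨⟨hn1, hn2⟩, _⟩ := hn
  have hz3' : (3 : ℝ) ≤ (z : ℝ) := by exact_mod_cast hz3
  have hz0 : (0 : ℝ) < (z : ℝ) := by linarith
  have hn3 : (n : ℝ) ≤ (z : ℝ) ^ (2 * qS D a I A2 I2 r0) := by
    have h1 : (n : ℝ) ≤ Real.exp (2 * (qS D a I A2 I2 r0 * Real.log z)) :=
      (Nat.le_floor_iff (Real.exp_pos _).le).1 hn2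
    refine h1.trans (le_of_eq ?_)
    have e : 2 * ((qS D a I A2 I2 r0 : ℝ) * Real.log z) =
        ((2 * qS D a I A2 I2 r0 : ℕ) : ℝ) * Real.log z := by
      push_cast
      ring
    rw [e, Real.exp_nat_mul, Real.exp_log hz0]
  have hn4 : n ≤ z ^ (2 * qS D a I A2 I2 r0) := by exact_mod_cast hn3
  have hxz : ∀ x ∈ h ∪ K, x < z := by
    intro x hx
    have h1 : (x : ℝ) < z := by
      have := hh x hx
      linarith
    exact_mod_cast h1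
  have hzpow : ∀ x, x < z → n + x ≤ z ^ (2 * qS D a I A2 I2 r0 + 1) := by
    intro x hx
    have h4 : z ^ (2 * qS D a I A2 I2 r0 + 1) = z ^ (2 * qS D a I A2 I2 r0) * z := pow_succ _ _
    have h5 : z ^ (2 * qS D a I A2 I2 r0) * z =
        (z ^ (2 * qS D a I A2 I2 r0) - 1) * (z - 1) + z ^ (2 * qS D a I A2 I2 r0) + (z - 1) := by
      have h6 : 1 ≤ z ^ (2 * qS D a I A2 I2 r0) := Nat.one_le_pow _ _ (by omega)
      obtain ⟨u, hu⟩ := Nat.exists_eq_add_of_le h6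
      obtain ⟨v, hv⟩ := Nat.exists_eq_add_of_le (by omega : 1 ≤ z)
      rw [hu, hv, Nat.add_sub_cancel_left, Nat.add_sub_cancel_left]
      ring
    rw [h4, h5]
    omega
  have hbmem : ∀ i, bS h K i ∈ h ∪ K := by
    rintro (i | i)
    · exact Finset.mem_union_left _ i.2
    · exact Finset.mem_union_right _ i.2
  have hPhi := PhiS_abs_le (κ := ↥h) (ν := ↥K) z (q0S A2 I2 r0 * a ^ I) p1
    (2 * qS D a I A2 I2 r0 + 1) (by omega) (P0 z p1) (bS h K)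
    (YS D a I A2 I2 r0 z p1 h K) (fun β => YS_abs hp hBs β) h n
    (fun i => ⟨by omega, hzpow _ (hxz _ (hbmem i))⟩)
  have hcard : ((Finset.univ : Finset ↥K).filter fun j => ∀ p ∈ P0 z p1,
      ¬ p ∣ n + bS h K (Sum.inr j)).card = (K.filter fun j => ∀ p ∈ P0 z p1, ¬ p ∣ n + j).card :=
    S7_card K (fun j => ∀ p ∈ P0 z p1, ¬ p ∣ n + j)
  rw [Fintype.card_coe, hk, hcard] at hPhi
  have hprod1 : 1 ≤ ∏ p ∈ PP z (z ^ (q0S A2 I2 r0 * a ^ I)), (1 + 1 / ((p : ℝ) - 1)) := by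
    have h1 := Finset.prod_le_prod (s := PP z (z ^ (q0S A2 I2 r0 * a ^ I)))
      (f := fun _ => (1 : ℝ)) (g := fun p : ℕ => 1 + 1 / ((p : ℝ) - 1))
      (fun _ _ => zero_le_one) (fun p hp' => by
        unfold PP at hp'
        rw [Finset.mem_filter] at hp'
        have h1 : (1 : ℝ) < (p : ℝ) := by exact_mod_cast hp'.2.one_lt
        have : (0 : ℝ) ≤ 1 / ((p : ℝ) - 1) := div_nonneg zero_le_one (by linarith)
        linarith)
    rwa [Finset.prod_const_one] at h1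
  have hG1 : (1 : ℝ) ≤ 2 ^ (2 * qS D a I A2 I2 r0 + 1) * B := by
    have h1 : (1 : ℝ) ≤ 2 ^ (2 * qS D a I A2 I2 r0 + 1) := one_le_pow₀ (by norm_num)
    nlinarith
  have hK : |PsS D a I A2 I2 r0 z p1 h K n| ≤ S7_B D a I A2 I2 r0 M0 B := by
    refine le_trans hPhi ?_
    unfold S7_B
    have h1 : (2 : ℝ) ^ (2 * qS D a I A2 I2 r0 + 1) *
        ∏ p ∈ PP z (z ^ (q0S A2 I2 r0 * a ^ I)), (1 + 1 / ((p : ℝ) - 1)) ≤
        2 ^ (2 * qS D a I A2 I2 r0 + 1) * B := mul_le_mul_of_nonneg_left hS (by positivity)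
    refine (pow_le_pow_left₀ (by positivity) h1 _).trans ?_
    exact pow_le_pow_right₀ hG1 (by omega)
  have h1 := pow_le_pow_left₀ (abs_nonneg _) hK 2
  rw [sq_abs] at h1
  have h2 : PsS D a I A2 I2 r0 z p1 h K n =
      rhoP (P0 z p1) h n * PsS D a I A2 I2 r0 z p1 h K n := PhiS_rho _ _ _ _ _ _
  by_cases hr : ∀ x ∈ h, ∀ p ∈ P0 z p1, ¬ p ∣ n + x
  · have hrho : rhoP (P0 z p1) h n = 1 := by
      unfold rhoP
      rw [if_pos hr]
    rw [hrho, one_mul]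
    exact h1
  · have hrho : rhoP (P0 z p1) h n = 0 := by
      unfold rhoP
      rw [if_neg hr]
    rw [h2, hrho]
    norm_num

private theorem S7_real {V G1 G2 C D k I1 I q0 c m : ℝ} {j : ℕ} (hV : 0 ≤ V) (hG2 : 1 ≤ G2)
    (hD : 1 ≤ D) (hk : 1 ≤ k) (hI : 0 ≤ I) (hI1 : I1 = I + 1) (hq0 : 1 ≤ q0)
    (hc : 0 < c) (hm : 0 ≤ m) (hG1 : c * I * q0 ≤ G1) (hG2' : G2 ≤ C * q0)
    (hbig : 480000 * D * I1 * ((2 * m + 2) * C + 1) ≤ c ^ 2 * I ^ 2) :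
    V ≤ k * (V * (G1 ^ 2 * G2 ^ j / (1000 * (480 * (D * k * I1 * q0))))) -
      (2 * m + 2) * (V * G2 ^ (j + 1)) := by
  have hI1p : 0 < I1 := by linarith
  have hDp : 0 < D := by linarith
  have hkp : 0 < k := by linarith
  have hqp : 0 < q0 := by linarith
  have hGj : 1 ≤ G2 ^ j := one_le_pow₀ hG2
  have h0 : 0 ≤ c * I * q0 := by positivity
  have h1 : (c * I * q0) ^ 2 ≤ G1 ^ 2 := pow_le_pow_left₀ h0 hG1 2
  have e1 : k * (G1 ^ 2 * G2 ^ j / (1000 * (480 * (D * k * I1 * q0)))) =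
      G1 ^ 2 * G2 ^ j / (480000 * D * I1 * q0) := by
    field_simp
    ring
  have h2 : q0 * ((2 * m + 2) * C + 1) * G2 ^ j ≤ G1 ^ 2 * G2 ^ j / (480000 * D * I1 * q0) := by
    rw [le_div_iff₀ (by positivity)]
    have h3 : 480000 * D * I1 * ((2 * m + 2) * C + 1) * (q0 ^ 2 * G2 ^ j) ≤
        c ^ 2 * I ^ 2 * (q0 ^ 2 * G2 ^ j) :=
      mul_le_mul_of_nonneg_right hbig (by positivity)
    have h4 : (c * I * q0) ^ 2 * G2 ^ j ≤ G1 ^ 2 * G2 ^ j :=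
      mul_le_mul_of_nonneg_right h1 (by positivity)
    calc q0 * ((2 * m + 2) * C + 1) * G2 ^ j * (480000 * D * I1 * q0)
        = 480000 * D * I1 * ((2 * m + 2) * C + 1) * (q0 ^ 2 * G2 ^ j) := by ring
      _ ≤ c ^ 2 * I ^ 2 * (q0 ^ 2 * G2 ^ j) := h3
      _ = (c * I * q0) ^ 2 * G2 ^ j := by ring
      _ ≤ _ := h4
  have h5 : (2 * m + 2) * G2 ^ (j + 1) ≤ q0 * ((2 * m + 2) * C) * G2 ^ j := by
    have h6 : G2 ^ j * G2 ≤ G2 ^ j * (C * q0) := mul_le_mul_of_nonneg_left hG2' (by positivity)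
    have h7 : (2 * m + 2) * (G2 ^ j * G2) ≤ (2 * m + 2) * (G2 ^ j * (C * q0)) :=
      mul_le_mul_of_nonneg_left h6 (by linarith)
    rw [pow_succ]
    refine h7.trans (le_of_eq ?_)
    ring
  have h8 : 1 ≤ q0 * G2 ^ j := by
    calc (1 : ℝ) = 1 * 1 := (one_mul 1).symm
      _ ≤ q0 * G2 ^ j := mul_le_mul hq0 hGj zero_le_one hqp.le
  have h9 : 1 ≤ k * (G1 ^ 2 * G2 ^ j / (1000 * (480 * (D * k * I1 * q0)))) -
      (2 * m + 2) * G2 ^ (j + 1) := by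
    rw [e1]
    have : q0 * ((2 * m + 2) * C + 1) * G2 ^ j = q0 * ((2 * m + 2) * C) * G2 ^ j + q0 * G2 ^ j := by
      ring
    linarith
  have h10 := mul_le_mul_of_nonneg_left h9 hV
  rw [mul_one] at h10
  refine h10.trans (le_of_eq ?_)
  ring

/-- the pointwise inequality -/
private theorem S7_point {w om rho B k M0 : ℝ} {Nh NK Nr m k' M' : ℕ} (hw0 : 0 ≤ w) (hk : k = (k' : ℝ)) (hM : M0 = (M' : ℝ)) (hM0 : 0 < M')
    (hNh : Nh ≤ k') (hB : Nr ≤ M' → w ≤ om * (rho * B)) :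
    w * ((Nh : ℝ) - m - k * NK - k / M0 * Nr) ≤
      k * B * (om * (rho * if m ≤ Nh ∧ NK = 0 ∧ Nr ≤ M' then 1 else 0)) := by
  have hk0 : 0 ≤ k := by rw [hk]; exact Nat.cast_nonneg _
  have hM0' : 0 < M0 := by rw [hM]; exact_mod_cast hM0
  have hNhk : (Nh : ℝ) ≤ k := by rw [hk]; exact_mod_cast hNh
  have hm0 : (0 : ℝ) ≤ m := Nat.cast_nonneg _
  have hNK0 : (0 : ℝ) ≤ NK := Nat.cast_nonneg _
  have hNr0 : (0 : ℝ) ≤ Nr := Nat.cast_nonneg _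
  have hkM : 0 ≤ k / M0 * Nr := by positivity
  have hkN : 0 ≤ k * NK := by positivity
  by_cases hc : m ≤ Nh ∧ NK = 0 ∧ Nr ≤ M'
  · rw [if_pos hc]
    have h1 := hB hc.2.2
    have h2 : (Nh : ℝ) - m - k * NK - k / M0 * Nr ≤ k := by linarith
    have h3 : w * ((Nh : ℝ) - m - k * NK - k / M0 * Nr) ≤ w * k :=
      mul_le_mul_of_nonneg_left h2 hw0
    refine h3.trans ((mul_le_mul_of_nonneg_right h1 hk0).trans (le_of_eq ?_))
    ring
  · rw [if_neg hc, mul_zero, mul_zero, mul_zero]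
    refine mul_nonpos_of_nonneg_of_nonpos hw0 ?_
    by_cases h1 : m ≤ Nh
    · by_cases h2 : NK = 0
      · have h3 : M' < Nr := by
          by_contra h3
          exact hc ⟨h1, h2, not_lt.1 h3⟩
        have h4 : M0 ≤ Nr := by
          rw [hM]
          exact_mod_cast h3.le
        have h5 : k ≤ k / M0 * Nr := by
          calc k = k / M0 * M0 := by field_simp
            _ ≤ k / M0 * Nr := mul_le_mul_of_nonneg_left h4 (by positivity)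
        linarith
      · have h3 : (1 : ℝ) ≤ NK := by exact_mod_cast Nat.one_le_iff_ne_zero.2 h2
        have h5 : k ≤ k * NK := le_mul_of_one_le_right hk0 h3
        linarith
    · have h3 : (Nh : ℝ) ≤ m := by exact_mod_cast (not_le.1 h1).le
      linarith

open scoped Classical in
private theorem S7_core (hp : ParS C Cq Cm D a I A2 I2 r0 c cD Λ τ) {e : ℝ} {z p1 c0 m M0 : ℕ}
    (hBs : BaseS a I A2 I2 r0 D cD e z p1) (ha : 1 ≤ a) (hc : 0 < c) (hA2 : 1 ≤ A2)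
    (hbig : 480000 * (D : ℝ) * ((I : ℝ) + 1) * ((2 * m + 2) * C + 1) ≤ c ^ 2 * (I : ℝ) ^ 2)
    (hτk : ((a ^ I : ℕ) : ℝ) * τ ≤ 1) (hM0 : 0 < M0)
    (hM0k : ((a ^ I : ℕ) : ℝ) * (2 * A2 ^ I2 + 16 * (Λ * qS D a I A2 I2 r0) + 1) ≤ M0)
    {B : ℝ} (hB1 : 1 ≤ B)
    (hS : ∏ p ∈ PP z (z ^ (q0S A2 I2 r0 * a ^ I)), (1 + 1 / ((p : ℝ) - 1)) ≤ B)
    (hG1 : c * I * q0S A2 I2 r0 ≤ G1S a I A2 I2 r0 z p1)
    (hG2 : G2S a I A2 I2 r0 z p1 ≤ C * q0S A2 I2 r0)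
    {h K : Finset ℕ} (hpos : PosS z p1 c0 (a ^ I) (Λ * qS D a I A2 I2 r0) h K)
    (h1 : ∑ n ∈ clsU (qS D a I A2 I2 r0 * Real.log z) (Wp z p1) c0,
          omU (qS D a I A2 I2 r0 * Real.log z) n * PsS D a I A2 I2 r0 z p1 h K n ^ 2 ≤
        1 / Wp z p1 * (2 * G2S a I A2 I2 r0 z p1 ^ a ^ I * DKS a I A2 I2 r0 z p1 h K))
    (h2 : ∑ n ∈ clsU (qS D a I A2 I2 r0 * Real.log z) (Wp z p1) c0,
          omU (qS D a I A2 I2 r0 * Real.log z) n * (PsS D a I A2 I2 r0 z p1 h K n ^ 2 *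
            (K.filter fun j => ∀ p ∈ P0 z p1, ¬ p ∣ n + j).card) ≤
        1 / Wp z p1 * ((2 * A2 ^ I2 + 16 * (Λ * qS D a I A2 I2 r0) + 1) *
          G2S a I A2 I2 r0 z p1 ^ a ^ I * DKS a I A2 I2 r0 z p1 h K))
    (h3 : ∀ i0 ∈ h, 1 / Wp z p1 * (G1S a I A2 I2 r0 z p1 ^ 2 *
          G2S a I A2 I2 r0 z p1 ^ (a ^ I - 1) *
            DKS a I A2 I2 r0 z p1 h K / (1000 * qS D a I A2 I2 r0)) ≤
          ∑ n ∈ (clsU (qS D a I A2 I2 r0 * Real.log z) (Wp z p1) c0).filter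
              (fun n => z ^ (120 * LS D a I A2 I2 r0) < n ∧ (n + i0).Prime),
            omU (qS D a I A2 I2 r0 * Real.log z) n * PsS D a I A2 I2 r0 z p1 h K n ^ 2)
    (h4 : ∑ j ∈ K, ∑ n ∈ (clsU (qS D a I A2 I2 r0 * Real.log z) (Wp z p1) c0).filter
              (fun n => z ^ (120 * LS D a I A2 I2 r0) < n ∧ (n + j).Prime),
            omU (qS D a I A2 I2 r0 * Real.log z) n * PsS D a I A2 I2 r0 z p1 h K n ^ 2 ≤
          1 / Wp z p1 * (τ * G2S a I A2 I2 r0 z p1 ^ a ^ I * DKS a I A2 I2 r0 z p1 h K)) :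
    1 / ((a ^ I : ℕ) * S7_B D a I A2 I2 r0 M0 B ^ 2) * (VP (P0 z p1) h / Wp z p1) ≤
      ∑ n ∈ clsU (qS D a I A2 I2 r0 * Real.log z) (Wp z p1) c0,
        omU (qS D a I A2 I2 r0 * Real.log z) n *
        (rhoP (P0 z p1) h n * if m ≤ (h.filter fun a => (n + a).Prime).card ∧
          (∀ a ∈ K, ¬ (n + a).Prime) ∧
          (K.filter fun a => ∀ p ∈ P0 z p1, ¬ p ∣ n + a).card ≤ M0 then 1 else 0) := by
  have hkpos : 1 ≤ a ^ I := Nat.one_le_pow _ _ (by omega)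
  have hz3 : 3 ≤ z := hBs.1
  have hWR : (0 : ℝ) < Wp z p1 := by exact_mod_cast Wp_pos z p1
  have hDK := DKS_ge hp hBs h K
  have hVP0 : 0 ≤ VP (P0 z p1) h := VP_nonneg _ (fun p hp => (mem_P0.1 hp).2.1) h
  have hG21 : 1 ≤ G2S a I A2 I2 r0 z p1 := by
    unfold G2S
    exact one_le_G2s _ (fun p hp' => (PS_mem hp').1) (by omega)
  obtain ⟨hhc, _, hxs, _⟩ := hpos
  set x : ℝ := qS D a I A2 I2 r0 * Real.log z with hx
  set V : ℝ := DKS a I A2 I2 r0 z p1 h K / Wp z p1 with hVdef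
  set G1 : ℝ := G1S a I A2 I2 r0 z p1
  set G2 : ℝ := G2S a I A2 I2 r0 z p1
  set w : ℕ → ℝ := fun n => omU x n * PsS D a I A2 I2 r0 z p1 h K n ^ 2 with hw
  set S := clsU x (Wp z p1) c0 with hSdef
  set S' := S.filter fun n => z ^ (120 * LS D a I A2 I2 r0) < n with hS'
  set Nh : ℕ → ℕ := fun n => (h.filter fun a => (n + a).Prime).card with hNh
  set NK : ℕ → ℕ := fun n => (K.filter fun a => (n + a).Prime).card with hNK
  set Nr : ℕ → ℕ := fun n => (K.filter fun a => ∀ p ∈ P0 z p1, ¬ p ∣ n + a).card with hNr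
  set k : ℝ := ((a ^ I : ℕ) : ℝ) with hkdef
  have hk1 : 1 ≤ k := by rw [hkdef]; exact_mod_cast hkpos
  have hkr : 0 < k := by linarith
  have hM0R : (0 : ℝ) < M0 := by exact_mod_cast hM0
  have hV : 0 ≤ V := div_nonneg (hVP0.trans hDK) hWR.le
  have hw0 : ∀ n, 0 ≤ w n := fun n => mul_nonneg (omU_nonneg x n) (sq_nonneg _)
  -- sums with counts
  have hcount : ∀ (T : Finset ℕ), ∑ n ∈ S', w n * ((T.filter fun a => (n + a).Prime).card : ℝ) =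
      ∑ i0 ∈ T, ∑ n ∈ S.filter (fun n => z ^ (120 * LS D a I A2 I2 r0) < n ∧ (n + i0).Prime),
        w n := by
    intro T
    have e : ∀ n, w n * ((T.filter fun a => (n + a).Prime).card : ℝ) =
        ∑ i0 ∈ T, (if (n + i0).Prime then w n else 0) := by
      intro n
      rw [← Finset.sum_filter, Finset.sum_const, nsmul_eq_mul, mul_comm]
    rw [Finset.sum_congr rfl fun n _ => e n, Finset.sum_comm]
    refine Finset.sum_congr rfl fun i0 _ => ?_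
    rw [← Finset.sum_filter, hS', Finset.filter_filter]
  have hA1 : k * (V * (G1 ^ 2 * G2 ^ (a ^ I - 1) / (1000 * qS D a I A2 I2 r0))) ≤
      ∑ n ∈ S', w n * (Nh n : ℝ) := by
    rw [hcount h]
    have h5 := Finset.sum_le_sum h3
    rw [Finset.sum_const, hhc, nsmul_eq_mul] at h5
    refine le_trans (le_of_eq ?_) h5
    rw [hVdef]
    ring
  have hA2 : ∑ n ∈ S', w n ≤ V * (2 * G2 ^ a ^ I) := by
    refine (Finset.sum_le_sum_of_subset_of_nonneg (Finset.filter_subset _ _)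
      fun n _ _ => hw0 n).trans (h1.trans (le_of_eq ?_))
    rw [hVdef]
    ring
  have hA3 : ∑ n ∈ S', w n * (NK n : ℝ) ≤ V * (τ * G2 ^ a ^ I) := by
    rw [hcount K]
    refine h4.trans (le_of_eq ?_)
    rw [hVdef]
    ring
  have hA4 : ∑ n ∈ S', w n * (Nr n : ℝ) ≤
      V * ((2 * A2 ^ I2 + 16 * (Λ * qS D a I A2 I2 r0) + 1) * G2 ^ a ^ I) := by
    refine (Finset.sum_le_sum_of_subset_of_nonneg (Finset.filter_subset _ _)
      fun n _ _ => mul_nonneg (hw0 n) (Nat.cast_nonneg _)).trans ?_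
    refine le_trans (le_of_eq (Finset.sum_congr rfl fun n _ => ?_)) (h2.trans (le_of_eq ?_))
    · rw [hw]
      ring
    · rw [hVdef]
      ring
  -- the main inequality
  have hq0 : 1 ≤ q0S A2 I2 r0 := by
    unfold q0S
    exact Nat.mul_pos (Nat.pos_of_ne_zero (pow_ne_zero _ (by omega))) hp.hr0
  have hreal := S7_real (V := V) (G1 := G1) (G2 := G2) (C := (C : ℝ)) (D := (D : ℝ))
    (k := k) (I1 := (I : ℝ) + 1) (I := (I : ℝ)) (q0 := (q0S A2 I2 r0 : ℝ)) (c := c) (m := (m : ℝ))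
    (j := a ^ I - 1) hV hG21 (by exact_mod_cast hp.hD1) hk1
    (Nat.cast_nonneg I) rfl (by exact_mod_cast hq0) hc (Nat.cast_nonneg m) hG1 hG2 hbig
  have hqc : ((qS D a I A2 I2 r0 : ℕ) : ℝ) =
      480 * ((D : ℝ) * k * ((I : ℝ) + 1) * (q0S A2 I2 r0 : ℝ)) := by
    unfold qS LS LL
    rw [hkdef]
    push_cast
    ring
  rw [← hqc, Nat.sub_add_cancel hkpos] at hreal
  have hGk : 0 ≤ V * G2 ^ a ^ I := by positivity
  have hdiff : V ≤ ∑ n ∈ S', w n * ((Nh n : ℝ) - m - k * NK n - k / M0 * Nr n) := by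
    have e : ∑ n ∈ S', w n * ((Nh n : ℝ) - m - k * NK n - k / M0 * Nr n) =
        ∑ n ∈ S', w n * (Nh n : ℝ) - m * ∑ n ∈ S', w n - k * ∑ n ∈ S', w n * (NK n : ℝ) -
          k / M0 * ∑ n ∈ S', w n * (Nr n : ℝ) := by
      rw [Finset.mul_sum, Finset.mul_sum, Finset.mul_sum, ← Finset.sum_sub_distrib,
        ← Finset.sum_sub_distrib, ← Finset.sum_sub_distrib]
      refine Finset.sum_congr rfl fun n _ => ?_
      ring
    rw [e]
    have h5 : (m : ℝ) * ∑ n ∈ S', w n ≤ m * (V * (2 * G2 ^ a ^ I)) :=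
      mul_le_mul_of_nonneg_left hA2 (Nat.cast_nonneg m)
    have h6 : k * ∑ n ∈ S', w n * (NK n : ℝ) ≤ V * G2 ^ a ^ I := by
      refine (mul_le_mul_of_nonneg_left hA3 hkr.le).trans ?_
      calc k * (V * (τ * G2 ^ a ^ I)) = k * τ * (V * G2 ^ a ^ I) := by ring
        _ ≤ 1 * (V * G2 ^ a ^ I) := mul_le_mul_of_nonneg_right hτk hGk
        _ = V * G2 ^ a ^ I := one_mul _
    have h7 : k / M0 * ∑ n ∈ S', w n * (Nr n : ℝ) ≤ V * G2 ^ a ^ I := by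
      refine (mul_le_mul_of_nonneg_left hA4 (by positivity)).trans ?_
      calc k / M0 * (V * ((2 * A2 ^ I2 + 16 * (Λ * qS D a I A2 I2 r0) + 1) * G2 ^ a ^ I)) =
            k * (2 * A2 ^ I2 + 16 * (Λ * qS D a I A2 I2 r0) + 1) / M0 * (V * G2 ^ a ^ I) := by ring
        _ ≤ 1 * (V * G2 ^ a ^ I) := by
            refine mul_le_mul_of_nonneg_right ?_ hGk
            rw [div_le_one hM0R]
            exact hM0k
        _ = V * G2 ^ a ^ I := one_mul _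
    linarith
  have hpt : ∀ n ∈ S', w n * ((Nh n : ℝ) - m - k * NK n - k / M0 * Nr n) ≤
      k * S7_B D a I A2 I2 r0 M0 B ^ 2 * (omU x n *
        (rhoP (P0 z p1) h n * if m ≤ Nh n ∧ (∀ a ∈ K, ¬ (n + a).Prime) ∧ Nr n ≤ M0
          then 1 else 0)) := by
    intro n hn
    have hnS : n ∈ S := (Finset.mem_filter.1 hn).1
    have h5 := S7_point (w := w n) (om := omU x n) (rho := rhoP (P0 z p1) h n)
      (B := S7_B D a I A2 I2 r0 M0 B ^ 2) (k := k) (M0 := (M0 : ℝ)) (Nh := Nh n) (NK := NK n)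
      (Nr := Nr n) (m := m) (k' := a ^ I) (M' := M0) (hw0 n) hkdef rfl hM0
      (by
        rw [← hhc]
        exact Finset.card_filter_le _ _)
      (fun hM => mul_le_mul_of_nonneg_left
        (S7_ph hp hBs hB1 hS hhc (fun y hy => (hxs y hy).1) hnS hM) (omU_nonneg x n))
    have h6 : NK n = 0 ↔ ∀ a ∈ K, ¬ (n + a).Prime := by
      rw [hNK]
      show (K.filter fun a => (n + a).Prime).card = 0 ↔ _
      rw [Finset.card_eq_zero, Finset.filter_eq_empty_iff]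
    simp only [h6] at h5
    exact h5
  have hfin := hdiff.trans (Finset.sum_le_sum hpt)
  rw [← Finset.mul_sum] at hfin
  have hBpos : 0 < S7_B D a I A2 I2 r0 M0 B := by
    unfold S7_B
    have : 0 < B := by linarith
    positivity
  have hkB : 0 < k * S7_B D a I A2 I2 r0 M0 B ^ 2 := by positivity
  have hsub : ∑ n ∈ S', omU x n *
        (rhoP (P0 z p1) h n * if m ≤ Nh n ∧ (∀ a ∈ K, ¬ (n + a).Prime) ∧ Nr n ≤ M0
          then 1 else 0) ≤ ∑ n ∈ S, omU x n *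
        (rhoP (P0 z p1) h n * if m ≤ Nh n ∧ (∀ a ∈ K, ¬ (n + a).Prime) ∧ Nr n ≤ M0
          then 1 else 0) := by
    refine Finset.sum_le_sum_of_subset_of_nonneg (Finset.filter_subset _ _) fun n _ _ => ?_
    refine mul_nonneg (omU_nonneg x n) (mul_nonneg (rhoP_nonneg (P0 z p1) h n).1 ?_)
    split_ifs
    · exact zero_le_one
    · exact le_rfl
  have hVV : VP (P0 z p1) h / Wp z p1 ≤ V := div_le_div_of_nonneg_right hDK hWR.le
  rw [one_div, inv_mul_le_iff₀ hkB]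
  exact hVV.trans (hfin.trans (mul_le_mul_of_nonneg_left hsub hkB.le))

theorem scg (hBV : BVprop) (m : ℕ) : SCg m := by
  classical
  obtain ⟨a, C, c, hs⟩ := sums
  obtain ⟨Cq, hCq1, hQ⟩ := qfrp
  obtain ⟨C0, hC01, hC0⟩ := NT_S_upper
  obtain ⟨A2, cD, hdn⟩ := dnp
  obtain ⟨Cm, hm⟩ := mertp
  obtain ⟨ha, hC1, hc, hc1, hsum⟩ := id hs
  obtain ⟨D, hD⟩ := exists_nat_ge (8 * (C : ℝ) / c)
  have hD' : (8 * C : ℝ) ≤ c * D := by
    rw [div_le_iff₀ hc] at hD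
    linarith
  have hD1 : 1 ≤ D := by
    rcases Nat.eq_zero_or_pos D with h0 | h0
    · exfalso
      rw [h0] at hD'
      have : (1 : ℝ) ≤ (C : ℝ) := by exact_mod_cast hC1
      simp only [Nat.cast_zero, mul_zero] at hD'
      linarith
    · exact h0
  obtain ⟨I, hI1, hI⟩ : ∃ I : ℕ, 1 ≤ I ∧
      480000 * (D : ℝ) * ((I : ℝ) + 1) * ((2 * m + 2) * C + 1) ≤ c ^ 2 * (I : ℝ) ^ 2 := by
    obtain ⟨I, hI⟩ := exists_nat_ge (960000 * (D : ℝ) * ((2 * m + 2) * C + 1) / c ^ 2)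
    have hc2 : 0 < c ^ 2 := by positivity
    rw [div_le_iff₀ hc2] at hI
    refine ⟨I + 1, by omega, ?_⟩
    have h1 : (0 : ℝ) ≤ (2 * m + 2) * C + 1 := by positivity
    have h2 : (1 : ℝ) ≤ (D : ℝ) := by exact_mod_cast hD1
    have h3 : (0 : ℝ) ≤ (I : ℝ) := Nat.cast_nonneg I
    push_cast
    have h4 : 960000 * (D : ℝ) * ((2 * m + 2) * C + 1) * ((I : ℝ) + 1) ≤
        ((I : ℝ) + 1) * c ^ 2 * ((I : ℝ) + 1) := by
      refine mul_le_mul_of_nonneg_right ?_ (by linarith)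
      nlinarith
    have h5 : 480000 * (D : ℝ) * ((I : ℝ) + 1 + 1) * ((2 * m + 2) * C + 1) ≤
        960000 * (D : ℝ) * ((2 * m + 2) * C + 1) * ((I : ℝ) + 1) := by
      have h6 : 0 ≤ (D : ℝ) * ((2 * m + 2) * C + 1) := by positivity
      nlinarith
    refine h5.trans (h4.trans (le_of_eq ?_))
    ring
  have hapos : 0 < a ^ I := Nat.pos_of_ne_zero (pow_ne_zero _ (by omega))
  have hkr : (0 : ℝ) < ((a ^ I : ℕ) : ℝ) := by exact_mod_cast hapos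
  have hkr1 : (1 : ℝ) ≤ ((a ^ I : ℕ) : ℝ) := by exact_mod_cast hapos
  refine ⟨a ^ I, hapos, fun Λ hΛ => ?_⟩
  obtain ⟨I2, r0, hp⟩ := paramsS C Cq Cm a A2 c cD hs (hQ Cq le_rfl) hCq1 hdn hm D I hD' hD1 hI1
    Λ (1 / ((a ^ I : ℕ) : ℝ)) hΛ (by positivity) (by rw [div_le_one hkr]; exact hkr1)
  have hA2 : 1 ≤ A2 := by
    have := hdn.1
    omega
  have hq0 : 1 ≤ q0S A2 I2 r0 := by
    unfold q0S
    exact Nat.mul_pos (Nat.pos_of_ne_zero (pow_ne_zero _ (by omega))) hp.hr0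
  have hq : 1 ≤ qS D a I A2 I2 r0 := by
    unfold qS LS LL
    have h1 : 0 < D * a ^ I * (I + 1) * q0S A2 I2 r0 :=
      Nat.mul_pos (Nat.mul_pos (Nat.mul_pos (by omega) hapos) (by omega)) hq0
    omega
  obtain ⟨M0, hM0⟩ := exists_nat_ge (((a ^ I : ℕ) : ℝ) *
    (2 * A2 ^ I2 + 16 * (Λ * qS D a I A2 I2 r0) + 1))
  have hM0pos : 0 < M0 := by
    have h1 : (0 : ℝ) < ((a ^ I : ℕ) : ℝ) *
        (2 * A2 ^ I2 + 16 * (Λ * qS D a I A2 I2 r0) + 1) := by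
      have : 0 < Λ := by linarith
      positivity
    have h2 : (0 : ℝ) < M0 := h1.trans_le hM0
    exact_mod_cast h2
  have hk1 : 1 ≤ q0S A2 I2 r0 * a ^ I := Nat.mul_pos hq0 hapos
  set B : ℝ := C0 * ((q0S A2 I2 r0 * a ^ I : ℕ) : ℝ) with hBdef
  have hB1 : 1 ≤ B := by
    have h1 : (1 : ℝ) ≤ (C0 : ℝ) := by exact_mod_cast hC01
    have h2 : (1 : ℝ) ≤ ((q0S A2 I2 r0 * a ^ I : ℕ) : ℝ) := by exact_mod_cast hk1
    rw [hBdef]
    nlinarith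
  have hBpos : 0 < S7_B D a I A2 I2 r0 M0 B := by
    unfold S7_B
    have : 0 < B := by linarith
    positivity
  refine ⟨qS D a I A2 I2 r0, M0, 1 / ((a ^ I : ℕ) * S7_B D a I A2 I2 r0 M0 B ^ 2), hq,
    by positivity, ?_⟩
  obtain ⟨x0, hx0⟩ := hBV (2 * kS a I A2 I2)
  have hlogtop : Tendsto (fun z : ℕ => (qS D a I A2 I2 r0 : ℝ) * Real.log z) atTop atTop := by
    refine Tendsto.const_mul_atTop (by exact_mod_cast hq) ?_
    exact Real.tendsto_log_atTop.comp tendsto_natCast_atTop_atTop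
  have hall := (side1 hp).and ((side2 hp).and ((side3 hp).and ((side4 hp).and
    ((hsum I (q0S A2 I2 r0) hI1 hq0).and ((hC0 (q0S A2 I2 r0 * a ^ I) hk1).and
      ((baseS hp 1 zero_lt_one).and (hlogtop.eventually_ge_atTop x0)))))))
  obtain ⟨z0, hz0⟩ := eventually_atTop.1 hall
  refine ⟨z0, fun z hz => ?_⟩
  obtain ⟨h1, h2, h3, h4, hsz, hSz, hBs, hxz⟩ := hz0 z hz
  obtain ⟨p1, hp1, Dv, hDv⟩ := hx0 _ hxz
  refine ⟨p1, hp1, fun c0 h K hcard hdis hh hK => ?_⟩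
  have hpos : PosS z p1 c0 (a ^ I) (Λ * qS D a I A2 I2 r0) h K :=
    ⟨hcard, hdis, hh, by rw [← mul_assoc]; exact hK⟩
  have hs1 := hsz p1
  exact S7_core hp (hBs p1) (by omega) hc hA2 hI
    (by rw [mul_one_div_cancel hkr.ne']) hM0pos hM0 hB1 hSz hs1.1 hs1.2.2.2.1 hpos
    (h1 p1 hp1 c0 h K hpos) (h2 p1 hp1 c0 h K hpos)
    (fun i0 hi0 => h3 p1 hp1 Dv hDv c0 h K hpos i0 hi0) (h4 p1 hp1 Dv hDv c0 h K hpos)

end Pool.Agent.LibSC93
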