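import Pool.Agent.LibSC93.S0

/-!
Row SB (what holds for large `z`). `Dn`: `hp.dn` with `J = I2`, `k1 = q0S * a^I ≥ q0S = A2^I2 * r0`. `eps`: `∏_{PS} (1 + 1/(p-1)) ≤ ∏_{PP z (z^k1)} ≤ C0 k1` (`NT_S_upper`), divided by `z`. `wf z → ∞` (`wf_tendsto`). `YS_abs`, `YS_supp`, …: J5 with
`Kν = 2 A2^I2` (`2 q0S = 2 A2^I2 r0 ≤ Kν r0`), `card ↥h = a^I`, `a^I + 2 A2^I2 = KS`.
-/

open Finset Filter

namespace Pool.Agent.LibSC93

open Pool.Agent.LibRG87 Pool.Agent.LibLG5 Pool.Agent.LibPL63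

variable {C Cq Cm D a I A2 I2 r0 : ℕ} {c cD Λ τ : ℝ}

/-- what holds for large `z`, uniformly in `p1` -/
def BaseS (a I A2 I2 r0 D : ℕ) (cD e : ℝ) (z p1 : ℕ) : Prop :=
  3 ≤ z ∧ 1 ≤ Real.log z ∧ Real.log z ^ 2 + 1 ≤ z ∧ 4 * kS a I A2 I2 + 4 ≤ wf z ∧
    16 * (a ^ I + q0S A2 I2 r0 + LS D a I A2 I2 r0 + 1) ^ 2 ≤ z ∧
    0 < Dn (PS a I A2 I2 r0 z p1) z r0 (q0S A2 I2 r0) ∧
    cD * I2 ≤ Dn (PS a I A2 I2 r0 z p1) z r0 (q0S A2 I2 r0) * Real.log z ∧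
    1 ≤ Dn (PS a I A2 I2 r0 z p1) z r0 (q0S A2 I2 r0) * (r0 * Real.log z) ∧
    ((2 * LS D a I A2 I2 r0 + 2 * q0S A2 I2 r0 : ℕ) : ℝ) *
      (∏ p ∈ PS a I A2 I2 r0 z p1, (1 + 1 / ((p : ℝ) - 1))) / z ≤ e

private theorem SB_a (hp : ParS C Cq Cm D a I A2 I2 r0 c cD Λ τ) : 2 ≤ a := hp.sums.1

private theorem SB_k1 (hp : ParS C Cq Cm D a I A2 I2 r0 c cD Λ τ) : 1 ≤ q0S A2 I2 r0 * a ^ I := by
  have h1 := hp.dn.1
  have h2 := SB_a hp
  have h3 := hp.hr0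
  unfold q0S
  exact Nat.one_le_iff_ne_zero.2 (by positivity)

private theorem SB_prime {z p1 : ℕ} : ∀ p ∈ PS a I A2 I2 r0 z p1, p.Prime :=
  fun _ hp => (mem_PL.1 hp).2.1

theorem baseS (hp : ParS C Cq Cm D a I A2 I2 r0 c cD Λ τ) (e : ℝ) (he : 0 < e) :
    ∀ᶠ z : ℕ in atTop, ∀ p1 : ℕ, BaseS a I A2 I2 r0 D cD e z p1 := by
  obtain ⟨C0, hC0, hS⟩ := NT_S_upper
  have hk1 := SB_k1 hp
  have ha := SB_a hp
  have t1 : Tendsto (fun z : ℕ => Real.log (z : ℝ)) atTop atTop :=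
    Real.tendsto_log_atTop.comp tendsto_natCast_atTop_atTop
  have e1 : ∀ᶠ z : ℕ in atTop, Real.log (z : ℝ) ^ 2 ≤ (z : ℝ) / 2 := by
    have h1 : ∀ᶠ x : ℝ in atTop, ‖Real.log x ^ 2‖ ≤ (1 / 2) * ‖id x‖ :=
      (Real.isLittleO_pow_log_id_atTop (n := 2)).bound (by norm_num)
    filter_upwards [tendsto_natCast_atTop_atTop.eventually h1] with z h2
    simp only [id, Real.norm_eq_abs] at h2
    rw [abs_of_nonneg (sq_nonneg _), abs_of_nonneg (Nat.cast_nonneg z)] at h2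
    linarith
  set B : ℝ := ((2 * LS D a I A2 I2 r0 + 2 * q0S A2 I2 r0 : ℕ) : ℝ) *
    ((C0 : ℝ) * (q0S A2 I2 r0 * a ^ I : ℕ)) with hB
  have hB0 : 0 ≤ B := by positivity
  have e2 : ∀ᶠ z : ℕ in atTop, B / e ≤ (z : ℝ) :=
    tendsto_natCast_atTop_atTop.eventually_ge_atTop _
  filter_upwards [hp.dn.2.2 I2 r0 hp.hr0, hS _ hk1, e1, e2, t1.eventually_ge_atTop 1,
    wf_tendsto.eventually_ge_atTop (4 * kS a I A2 I2 + 4),
    eventually_ge_atTop (16 * (a ^ I + q0S A2 I2 r0 + LS D a I A2 I2 r0 + 1) ^ 2),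
    eventually_ge_atTop 3] with z h1 h2 h3 h4 h5 h6 h7 h8 p1
  have hz3 : (3 : ℝ) ≤ z := by exact_mod_cast h8
  have hz0 : (0 : ℝ) < z := by linarith
  have hl : 0 < Real.log (z : ℝ) := by linarith
  have h9 : cD * I2 / Real.log z ≤ Dn (PS a I A2 I2 r0 z p1) z r0 (q0S A2 I2 r0) :=
    h1 p1 (q0S A2 I2 r0 * a ^ I) (Nat.le_mul_of_pos_right _ (by positivity))
  have h10 : cD * I2 ≤ Dn (PS a I A2 I2 r0 z p1) z r0 (q0S A2 I2 r0) * Real.log z := by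
    rwa [div_le_iff₀ hl] at h9
  have h11 := hp.hcD
  have h12 : 0 < Dn (PS a I A2 I2 r0 z p1) z r0 (q0S A2 I2 r0) := by
    refine lt_of_lt_of_le ?_ h9
    exact div_pos (by linarith) hl
  have hr0 : (1 : ℝ) ≤ r0 := by exact_mod_cast hp.hr0
  refine ⟨h8, h5, by linarith, h6, h7, h12, h10, ?_, ?_⟩
  · have h13 : 1 ≤ Dn (PS a I A2 I2 r0 z p1) z r0 (q0S A2 I2 r0) * Real.log z := by linarith
    calc (1 : ℝ) ≤ Dn (PS a I A2 I2 r0 z p1) z r0 (q0S A2 I2 r0) * Real.log z := h13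
      _ ≤ Dn (PS a I A2 I2 r0 z p1) z r0 (q0S A2 I2 r0) * Real.log z * r0 :=
        le_mul_of_one_le_right (by linarith) hr0
      _ = _ := by ring
  · have h14 : ∏ p ∈ PS a I A2 I2 r0 z p1, (1 + 1 / ((p : ℝ) - 1)) ≤
        (C0 : ℝ) * (q0S A2 I2 r0 * a ^ I : ℕ) := by
      refine le_trans ?_ h2
      unfold PS PL
      have hone : ∀ p ∈ PP z (z ^ (q0S A2 I2 r0 * a ^ I)), (1 : ℝ) ≤ 1 + 1 / ((p : ℝ) - 1) := by
        intro p hp
        unfold PP at hp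
        have h15 : (2 : ℝ) ≤ p := by exact_mod_cast (Finset.mem_filter.1 hp).2.two_le
        have : 0 ≤ 1 / ((p : ℝ) - 1) := div_nonneg zero_le_one (by linarith)
        linarith
      by_cases h : p1 ∈ PP z (z ^ (q0S A2 I2 r0 * a ^ I))
      · rw [← Finset.mul_prod_erase _ _ h]
        exact le_mul_of_one_le_left (Finset.prod_nonneg fun p hp =>
          le_trans zero_le_one (hone p (Finset.mem_of_mem_erase hp))) (hone p1 h)
      · rw [Finset.erase_eq_of_notMem h]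
    rw [div_le_iff₀ hz0]
    refine (mul_le_mul_of_nonneg_left h14 (Nat.cast_nonneg _)).trans ?_
    rw [div_le_iff₀ he] at h4
    linarith

theorem PS_mem {z p1 p : ℕ} (h : p ∈ PS a I A2 I2 r0 z p1) : p.Prime ∧ z < p ∧ p ≠ p1 := by
  obtain ⟨h1, h2, h3, _⟩ := mem_PL.1 h
  exact ⟨h2, h3, h1⟩

theorem bS_inj {h K : Finset ℕ} (hd : Disjoint h K) : Function.Injective (bS h K) := by
  rintro (i | i) (j | j) hij
  · exact congrArg _ (Subtype.ext hij)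
  · exfalso
    have h1 : (i : ℕ) = (j : ℕ) := hij
    exact Finset.disjoint_left.1 hd i.2 (by rw [h1]; exact j.2)
  · exfalso
    have h1 : (i : ℕ) = (j : ℕ) := hij
    exact Finset.disjoint_left.1 hd j.2 (by rw [← h1]; exact i.2)
  · exact congrArg _ (Subtype.ext hij)

private theorem SB_K {A2 I2 r0 : ℕ} : 2 * q0S A2 I2 r0 ≤ (2 * A2 ^ I2) * r0 := by
  unfold q0S
  exact le_of_eq (by ring)

private theorem SB_card {h : Finset ℕ} (hh : h.card = a ^ I) {m : ℕ}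
    (hm : m ≤ Fintype.card ↥h + 2 * A2 ^ I2) : m ≤ KS a I A2 I2 := by
  rw [Fintype.card_coe, hh] at hm
  exact hm

theorem YS_abs (hp : ParS C Cq Cm D a I A2 I2 r0 c cD Λ τ) {e : ℝ} {z p1 : ℕ}
    (hB : BaseS a I A2 I2 r0 D cD e z p1) {h K : Finset ℕ} (β) :
    |YS D a I A2 I2 r0 z p1 h K β| ≤ 1 := by
  obtain ⟨h1, _, _, _, _, h2, _, h3, _⟩ := hB
  exact yJ_abs_le _ SB_prime (by omega) (by have := SB_a hp; omega) hp.hr0 h2 h3 _ _ _ β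

theorem YS_supp (hp : ParS C Cq Cm D a I A2 I2 r0 c cD Λ τ) {e : ℝ} {z p1 : ℕ}
    (hB : BaseS a I A2 I2 r0 D cD e z p1) {h K : Finset ℕ} (hh : h.card = a ^ I) {β}
    (hβ : YS D a I A2 I2 r0 z p1 h K β ≠ 0) :
    rr (sp (PS a I A2 I2 r0 z p1) β) ≤ (z : ℝ) ^ (2 * LS D a I A2 I2 r0 + 2 * q0S A2 I2 r0) ∧
      (sui (PS a I A2 I2 r0 z p1) β).card ≤ KS a I A2 I2 := by
  obtain ⟨h1, _⟩ := hB
  obtain ⟨h2, h3⟩ := yJ_supp (κ := ↥h) (ν := ↥K) (a := a) _ SB_prime (by omega) hp.hr0 SB_K _ _ _ hβ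
  exact ⟨h2, SB_card hh h3⟩

theorem YL_abs (hp : ParS C Cq Cm D a I A2 I2 r0 c cD Λ τ) {e : ℝ} {z p1 : ℕ}
    (hB : BaseS a I A2 I2 r0 D cD e z p1) {h K : Finset ℕ} (i0 : ↥h) (β) :
    |yCol (PS a I A2 I2 r0 z p1) (Sum.inl i0) (YS D a I A2 I2 r0 z p1 h K) β| ≤
      G1S a I A2 I2 r0 z p1 := by
  obtain ⟨h1, _, _, _, _, h2, _, h3, _⟩ := hB
  exact yColL_abs_le _ SB_prime (by omega) (by have := SB_a hp; omega) hp.hr0 h2 h3 _ _ _ i0 β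

theorem YL_supp (hp : ParS C Cq Cm D a I A2 I2 r0 c cD Λ τ) {e : ℝ} {z p1 : ℕ}
    (hB : BaseS a I A2 I2 r0 D cD e z p1) {h K : Finset ℕ} (hh : h.card = a ^ I) (i0 : ↥h) {β}
    (hβ : yCol (PS a I A2 I2 r0 z p1) (Sum.inl i0) (YS D a I A2 I2 r0 z p1 h K) β ≠ 0) :
    rr (sp (PS a I A2 I2 r0 z p1) β) ≤ (z : ℝ) ^ (2 * LS D a I A2 I2 r0 + 2 * q0S A2 I2 r0) ∧
      alw (PS a I A2 I2 r0 z p1) (univ.erase (Sum.inl i0)) β ∧
      (sui (PS a I A2 I2 r0 z p1) β).card ≤ KS a I A2 I2 := by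
  obtain ⟨h1, _⟩ := hB
  obtain ⟨h2, h3, h4⟩ := yColL_supp (κ := ↥h) (ν := ↥K) (a := a) _ SB_prime (by omega) hp.hr0
    SB_K _ _ _ i0 hβ
  exact ⟨h2, h3, SB_card hh h4⟩

theorem YR_abs (hp : ParS C Cq Cm D a I A2 I2 r0 c cD Λ τ) {e : ℝ} {z p1 : ℕ}
    (hB : BaseS a I A2 I2 r0 D cD e z p1) {h K : Finset ℕ} (j0 : ↥K) (β) :
    |yCol (PS a I A2 I2 r0 z p1) (Sum.inr j0) (YS D a I A2 I2 r0 z p1 h K) β| ≤ 1 := by
  obtain ⟨h1, _, _, _, _, h2, _, h3, _⟩ := hB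
  exact yColR_abs_le _ SB_prime (by omega) (by have := SB_a hp; omega) hp.hr0 h2 h3 _ _ _ j0 β

theorem YR_supp (hp : ParS C Cq Cm D a I A2 I2 r0 c cD Λ τ) {e : ℝ} {z p1 : ℕ}
    (hB : BaseS a I A2 I2 r0 D cD e z p1) {h K : Finset ℕ} (hh : h.card = a ^ I) (j0 : ↥K) {β}
    (hβ : yCol (PS a I A2 I2 r0 z p1) (Sum.inr j0) (YS D a I A2 I2 r0 z p1 h K) β ≠ 0) :
    rr (sp (PS a I A2 I2 r0 z p1) β) ≤ (z : ℝ) ^ (2 * LS D a I A2 I2 r0 + 2 * q0S A2 I2 r0) ∧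
      alw (PS a I A2 I2 r0 z p1) (univ.erase (Sum.inr j0)) β ∧
      (sui (PS a I A2 I2 r0 z p1) β).card ≤ KS a I A2 I2 := by
  obtain ⟨h1, _⟩ := hB
  obtain ⟨h2, h3, h4⟩ := yColR_supp (κ := ↥h) (ν := ↥K) (a := a) _ SB_prime (by omega) hp.hr0
    SB_K _ _ _ j0 hβ
  exact ⟨h2, h3, SB_card hh h4⟩

/-- number of positions -/
theorem card_pos (hp : ParS C Cq Cm D a I A2 I2 r0 c cD Λ τ) {z p1 c0 : ℕ} {Λq : ℝ}
    {h K : Finset ℕ} (hpos : PosS z p1 c0 (a ^ I) Λq h K) :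
    (Fintype.card (↥h ⊕ ↥K) : ℝ) ≤ Real.log z ^ 2 + 1 ∧
      (Fintype.card (↥h ⊕ ↥K) : ℝ) * V1p (P0 z p1) ≤ a ^ I + 4 * Λq := by
  obtain ⟨h1, h2, h3, h4⟩ := hpos
  have hc : Fintype.card (↥h ⊕ ↥K) = h.card + K.card := by
    rw [Fintype.card_sum, Fintype.card_coe, Fintype.card_coe]
  constructor
  · rw [hc, ← Finset.card_union_of_disjoint h2]
    have h5 : h ∪ K ⊆ Finset.range (⌊Real.log z ^ 2⌋₊ + 1) := by
      intro x hx
      rw [Finset.mem_range]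
      have h6 := (h3 x hx).1
      have h7 : x ≤ ⌊Real.log z ^ 2⌋₊ := Nat.le_floor h6
      omega
    have h6 := Finset.card_le_card h5
    rw [Finset.card_range] at h6
    have h7 : (((h ∪ K).card : ℕ) : ℝ) ≤ (⌊Real.log z ^ 2⌋₊ : ℝ) + 1 := by exact_mod_cast h6
    have h8 := Nat.floor_le (sq_nonneg (Real.log z))
    linarith
  · rw [hc, h1]
    push_cast
    have hP0 : ∀ p ∈ P0 z p1, p.Prime := fun p hp => (mem_P0.1 hp).2.1
    have h5 : V1p (P0 z p1) ≤ 1 := by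
      unfold V1p
      refine Finset.prod_le_one (fun p hp => ?_) fun p hp => ?_
      · have h6 : (2 : ℝ) ≤ p := by exact_mod_cast (hP0 p hp).two_le
        have h7 : 1 / (p : ℝ) ≤ 1 := by
          rw [div_le_one (by linarith)]
          linarith
        linarith
      · have : 0 ≤ 1 / (p : ℝ) := by positivity
        linarith
    have h6 : (0 : ℝ) ≤ (a : ℝ) ^ I := by positivity
    have h7 : (a : ℝ) ^ I * V1p (P0 z p1) ≤ (a : ℝ) ^ I := mul_le_of_le_one_right h6 h5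
    rw [add_mul]
    linarith

/-- the diagonal of the killing part is at least its first term -/
theorem DKS_ge (hp : ParS C Cq Cm D a I A2 I2 r0 c cD Λ τ) {e : ℝ} {z p1 : ℕ}
    (hB : BaseS a I A2 I2 r0 D cD e z p1) (h K : Finset ℕ) :
    VP (P0 z p1) h ≤ DKS a I A2 I2 r0 z p1 h K := by
  obtain ⟨h1, _⟩ := hB
  have hP0 : ∀ p ∈ P0 z p1, p.Prime := fun p hp => (mem_P0.1 hp).2.1
  unfold DKS dgV
  let β0 : PS a I A2 I2 r0 z p1 → Option ↥K := fun _ => none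
  have hsp : sp (PS a I A2 I2 r0 z p1) β0 = ∅ := by
    unfold sp
    rw [Finset.filter_false_of_mem (fun p _ => by simp [β0]), Finset.image_empty]
  have hsu : su (PS a I A2 I2 r0 z p1) (Subtype.val : ↥K → ℕ) β0 = ∅ := by
    unfold su sui
    rw [Finset.filter_false_of_mem (fun i _ => by simp [β0]), Finset.image_empty]
  have h2 : VP (P0 z p1) h = y5 (PS a I A2 I2 r0 z p1) z r0 (q0S A2 I2 r0) β0 ^ 2 *
      VP (P0 z p1) (h ∪ su (PS a I A2 I2 r0 z p1) (Subtype.val : ↥K → ℕ) β0) /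
        ph (sp (PS a I A2 I2 r0 z p1) β0) := by
    rw [hsp, hsu, y5_none _ _ _ _ β0 (fun _ => rfl) (by omega), Finset.union_empty]
    unfold ph
    rw [Finset.prod_empty]
    ring
  rw [h2]
  refine Finset.single_le_sum (f := fun β : PS a I A2 I2 r0 z p1 → Option ↥K =>
    y5 (PS a I A2 I2 r0 z p1) z r0 (q0S A2 I2 r0) β ^ 2 *
      VP (P0 z p1) (h ∪ su (PS a I A2 I2 r0 z p1) (Subtype.val : ↥K → ℕ) β) /
        ph (sp (PS a I A2 I2 r0 z p1) β)) (fun β _ => ?_) (Finset.mem_univ β0)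
  refine div_nonneg (mul_nonneg (sq_nonneg _) (VP_nonneg _ hP0 _)) ?_
  unfold ph
  refine Finset.prod_nonneg fun p hp => ?_
  have h3 : p ∈ PS a I A2 I2 r0 z p1 := ((mem_sp _).1 hp).1
  have h4 : (2 : ℝ) ≤ p := by exact_mod_cast (SB_prime p h3).two_le
  linarith

/-- `Λ` times the error factor is small -/
theorem eS_le (hp : ParS C Cq Cm D a I A2 I2 r0 c cD Λ τ) :
    0 ≤ eS Cq D a I A2 I2 r0 Λ ∧ eS Cq D a I A2 I2 r0 Λ ≤ 1 / 100 ∧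
      16 * (Λ * qS D a I A2 I2 r0) * eS Cq D a I A2 I2 r0 Λ ≤ 1 / 100 := by
  have h0 : 0 ≤ eS Cq D a I A2 I2 r0 Λ := by
    have hΛ := hp.hΛ
    unfold eS eps0
    positivity
  have hq : (1 : ℝ) ≤ qS D a I A2 I2 r0 := by
    have h1 := hp.hD1
    have h2 := SB_a hp
    have h3 := hp.dn.1
    have h4 := hp.hr0
    have : 1 ≤ qS D a I A2 I2 r0 := by
      unfold qS LS LL q0S
      exact Nat.one_le_iff_ne_zero.2 (by positivity)
    exact_mod_cast this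
  have hCm : (1 : ℝ) ≤ Cm := by exact_mod_cast hp.mert.1
  have hΛ := hp.hΛ
  have h2 := hp.eps2
  have h3 := hp.hτ1
  have h4 : (1 : ℝ) ≤ Λ * qS D a I A2 I2 r0 := one_le_mul_of_one_le_of_one_le hΛ hq
  have h5 : eS Cq D a I A2 I2 r0 Λ * (10 ^ 5 * (Λ * qS D a I A2 I2 r0)) ≤ 1 := by
    calc eS Cq D a I A2 I2 r0 Λ * (10 ^ 5 * (Λ * qS D a I A2 I2 r0))
        ≤ eS Cq D a I A2 I2 r0 Λ * (10 ^ 5 * (Λ * qS D a I A2 I2 r0) * Cm) := by
          refine mul_le_mul_of_nonneg_left ?_ h0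
          exact le_mul_of_one_le_right (by positivity) hCm
      _ = eS Cq D a I A2 I2 r0 Λ * (10 ^ 5 * Cm * Λ * qS D a I A2 I2 r0) := by ring
      _ ≤ 1 := h2.trans h3
  refine ⟨h0, ?_, by nlinarith⟩
  nlinarith [mul_le_mul_of_nonneg_left h4 h0]

/-- the number of kill scales is large -/
theorem kill_ratio (hp : ParS C Cq Cm D a I A2 I2 r0 c cD Λ τ) :
    64 * 3 * Cm * (16 * Λ) * (16 * (Λ * qS D a I A2 I2 r0) / (cD * I2 * q0S A2 I2 r0)) ≤ τ / 4 := by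
  have h1 := hp.kill
  have h2 := hp.hcD
  have hq0 : (0 : ℝ) < q0S A2 I2 r0 := by
    have h3 := hp.dn.1
    have h4 := hp.hr0
    have : 0 < q0S A2 I2 r0 := by
      unfold q0S
      positivity
    exact_mod_cast this
  have hcI : 0 < cD * I2 := by linarith
  have h5 : (qS D a I A2 I2 r0 : ℝ) = 480 * (D * a ^ I * (I + 1)) * q0S A2 I2 r0 := by
    unfold qS LS LL
    push_cast
    ring
  have h6 : 64 * 3 * Cm * (16 * Λ) * (16 * (Λ * qS D a I A2 I2 r0) / (cD * I2 * q0S A2 I2 r0)) =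
      23592960 * (Cm * Λ ^ 2 * (D * a ^ I * (I + 1))) / (cD * I2) := by
    rw [h5]
    field_simp
    ring
  rw [h6, div_le_iff₀ hcI]
  have h7 : (0 : ℝ) ≤ Cm * Λ ^ 2 * (D * a ^ I * (I + 1)) := by positivity
  nlinarith

end Pool.Agent.LibSC93
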