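import Pool.Agent.LibSC93.Defs
import Pool.Agent.LibPL63.V0

/-!
LibSC93, file T1: positions coprime to the modulus.
-/

open Finset

namespace Pool.Agent.LibSC93

open Pool.Agent.LibRG87 Pool.Agent.LibLG5 Pool.Agent.LibPL63

/-- the positions of `(u, v]` coprime to `W` in the class `c` -/
def Jc (c W u v : ℕ) : Finset ℕ := (Ioc u v).filter fun a => (c + a).Coprime W

theorem mem_Jc {c W u v a : ℕ} : a ∈ Jc c W u v ↔ (u < a ∧ a ≤ v) ∧ (c + a).Coprime W := by
  unfold Jc
  rw [Finset.mem_filter, Finset.mem_Ioc]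

theorem Jc_card_le {c W u h : ℕ} (hW : W ≠ 0) : (Jc c W u (u + h)).card ≤ W.totient * (h / W + 1) := by
  refine le_trans ?_ (Nat.Ico_filter_coprime_le (c + u + 1) h hW)
  refine Finset.card_le_card_of_injOn (fun a => c + a) ?_ ?_
  · intro a ha
    rw [Finset.mem_coe, mem_Jc] at ha
    rw [Finset.mem_coe, Finset.mem_filter, Finset.mem_Ico]
    refine ⟨⟨?_, ?_⟩, Nat.Coprime.symm ha.2⟩
    · show c + u + 1 ≤ c + a
      omega
    · show c + a < c + u + 1 + h
      omega
  · intro a _ a' _ h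
    exact Nat.add_left_cancel h

theorem Jc_upper {c W T : ℕ} (hW : 0 < W) :
    ((Jc c W 0 T).card : ℝ) ≤ ((T : ℝ) + W) * ((W.totient : ℝ) / W) := by
  have hW' : (0 : ℝ) < W := by exact_mod_cast hW
  have h1 : ((Jc c W 0 T).card : ℝ) ≤ ((W.totient * (T / W + 1) : ℕ) : ℝ) := by
    have := Jc_card_le (c := c) (u := 0) (h := T) hW.ne'
    rw [Nat.zero_add] at this
    exact_mod_cast this
  refine h1.trans ?_
  push_cast
  have h3 : ((T / W : ℕ) : ℝ) ≤ (T : ℝ) / W := Nat.cast_div_le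
  calc (W.totient : ℝ) * (((T / W : ℕ) : ℝ) + 1) ≤ (W.totient : ℝ) * ((T : ℝ) / W + 1) :=
        mul_le_mul_of_nonneg_left (by linarith) (Nat.cast_nonneg _)
    _ = ((T : ℝ) + W) * ((W.totient : ℝ) / W) := by
        field_simp

theorem Jc_period (c W u : ℕ) : (Jc c W u (u + W)).card = W.totient := by
  rw [← Nat.filter_coprime_Ico_eq_totient W (c + u + 1)]
  refine Finset.card_bij (fun a _ => c + a) ?_ ?_ ?_
  · intro a ha
    rw [mem_Jc] at ha
    rw [Finset.mem_filter, Finset.mem_Ico]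
    exact ⟨⟨by omega, by omega⟩, ha.2.symm⟩
  · intro a _ b _ h
    exact Nat.add_left_cancel h
  · intro b hb
    rw [Finset.mem_filter, Finset.mem_Ico] at hb
    refine ⟨b - c, ?_, by omega⟩
    rw [mem_Jc]
    have h1 : c + (b - c) = b := by omega
    rw [h1]
    exact ⟨⟨by omega, by omega⟩, hb.2.symm⟩

theorem Jc_periods (c W u K : ℕ) : (Jc c W u (u + W * K)).card = W.totient * K := by
  induction K with
  | zero => simp [Jc]
  | succ K ih =>
    have h1 : Jc c W u (u + W * (K + 1)) = Jc c W u (u + W * K) ∪ Jc c W (u + W * K) (u + W * K + W) := by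
      ext a
      rw [Finset.mem_union, mem_Jc, mem_Jc, mem_Jc]
      have h2 : u + W * (K + 1) = u + W * K + W := by ring
      rw [h2]
      constructor
      · rintro ⟨⟨h3, h4⟩, h5⟩
        rcases le_or_gt a (u + W * K) with h6 | h6
        · exact Or.inl ⟨⟨h3, h6⟩, h5⟩
        · exact Or.inr ⟨⟨h6, h4⟩, h5⟩
      · rintro (⟨⟨h3, h4⟩, h5⟩ | ⟨⟨h3, h4⟩, h5⟩)
        · exact ⟨⟨h3, by omega⟩, h5⟩
        · exact ⟨⟨by omega, h4⟩, h5⟩
    rw [h1, Finset.card_union_of_disjoint, ih, Jc_period]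
    · ring
    · rw [Finset.disjoint_left]
      intro a ha hb
      rw [mem_Jc] at ha hb
      omega

theorem Jc_lower {c W u v : ℕ} (hW : 0 < W) :
    ((v : ℝ) - u - W) * ((W.totient : ℝ) / W) ≤ ((Jc c W u v).card : ℝ) := by
  have hW' : (0 : ℝ) < W := by exact_mod_cast hW
  rcases le_or_gt v u with h | h
  · have h1 : (v : ℝ) ≤ u := by exact_mod_cast h
    have h2 : ((v : ℝ) - u - W) * ((W.totient : ℝ) / W) ≤ 0 :=
      mul_nonpos_of_nonpos_of_nonneg (by linarith) (by positivity)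
    exact h2.trans (Nat.cast_nonneg _)
  · set K := (v - u) / W with hK
    have h1 : W * K ≤ v - u := Nat.mul_div_le _ _
    have h2 : v - u < W * (K + 1) := by
      have := Nat.lt_mul_div_succ (v - u) hW
      rw [hK]
      exact this
    have h3 : Jc c W u (u + W * K) ⊆ Jc c W u v := by
      intro a ha
      rw [mem_Jc] at ha ⊢
      exact ⟨⟨ha.1.1, by omega⟩, ha.2⟩
    have h4 := Finset.card_le_card h3
    rw [Jc_periods] at h4
    have h5 : ((W.totient * K : ℕ) : ℝ) ≤ ((Jc c W u v).card : ℝ) := by exact_mod_cast h4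
    refine le_trans ?_ h5
    push_cast
    have h6 : (v : ℝ) - u < W * (K + 1) := by
      have h7 : ((v - u : ℕ) : ℝ) < ((W * (K + 1) : ℕ) : ℝ) := by exact_mod_cast h2
      rw [Nat.cast_sub h.le] at h7
      push_cast at h7
      exact h7
    calc ((v : ℝ) - u - W) * ((W.totient : ℝ) / W) ≤ (W * K) * ((W.totient : ℝ) / W) := by
          refine mul_le_mul_of_nonneg_right ?_ (by positivity)
          linarith
      _ = W.totient * K := by
          field_simp

end Pool.Agent.LibSC93
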