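import Pool.Agent.LibSC93.T1
import Pool.Agent.LibPL63.V1

/-!
LibSC93, file T2: one class modulo the modulus; the union over the configurations.
-/

open Finset Filter

namespace Pool.Agent.LibSC93

open Pool.Agent.LibRG87 Pool.Agent.LibLG5 Pool.Agent.LibPL63

/-- the event: one position `h i` in each window, at least `m` of the `n + h i` are prime, all primes
`n + a`, `1 ≤ a ≤ T`, are among the `n + h i` -/
def Gd {k : ℕ} (m : ℕ) (u v : Fin k → ℕ) (T n : ℕ) : Prop :=
  ∃ h : Fin k → ℕ, (∀ i, u i < h i ∧ h i ≤ v i) ∧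
    m ≤ (univ.filter fun i => (n + h i).Prime).card ∧
    ∀ a, 1 ≤ a → a ≤ T → (n + a).Prime → ∃ i, a = h i

/-- the term of the configuration `h` -/
noncomputable def tm (m M0 z p1 c T n : ℕ) (h : Finset ℕ) : ℝ :=
  rhoP (P0 z p1) h n * if m ≤ (h.filter fun a => (n + a).Prime).card ∧
    (∀ a ∈ Jc c (Wp z p1) 0 T \ h, ¬ (n + a).Prime) ∧
    ((Jc c (Wp z p1) 0 T \ h).filter fun a => ∀ p ∈ P0 z p1, ¬ p ∣ n + a).card ≤ M0 then 1 else 0

theorem tm_le_one (m M0 z p1 c T n : ℕ) (h : Finset ℕ) : tm m M0 z p1 c T n h ≤ 1 := by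
  unfold tm
  have h1 := rhoP_nonneg (P0 z p1) h n
  split_ifs
  · rw [mul_one]
    exact h1.2
  · rw [mul_zero]
    exact zero_le_one

theorem tm_ne {m M0 z p1 c T n : ℕ} {h : Finset ℕ} (hne : tm m M0 z p1 c T n h ≠ 0) :
    (∀ a ∈ h, ∀ p ∈ P0 z p1, ¬ p ∣ n + a) ∧ m ≤ (h.filter fun a => (n + a).Prime).card ∧
    (∀ a ∈ Jc c (Wp z p1) 0 T \ h, ¬ (n + a).Prime) ∧
    ((Jc c (Wp z p1) 0 T \ h).filter fun a => ∀ p ∈ P0 z p1, ¬ p ∣ n + a).card ≤ M0 := by
  unfold tm at hne
  have h1 := left_ne_zero_of_mul hne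
  have h2 := right_ne_zero_of_mul hne
  unfold rhoP at h1
  refine ⟨?_, ?_⟩
  · by_contra hh
    exact h1 (if_neg hh)
  · by_contra hh
    exact h2 (if_neg hh)

theorem win_strictMono {k : ℕ} {u v h : Fin k → ℕ} (hwin : ∀ i j, i < j → v i ≤ u j)
    (hh : ∀ i, u i < h i ∧ h i ≤ v i) : StrictMono h := by
  intro i j hij
  have h1 := hwin i j hij
  have h2 := (hh i).2
  have h3 := (hh j).1
  omega

/-- a non-zero term gives the event -/
theorem tm_Gd {k m M0 z p1 c T n : ℕ} {u v : Fin k → ℕ} (hn : n ≡ c [MOD Wp z p1])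
    (hwin : ∀ i j, i < j → v i ≤ u j) {h : Fin k → ℕ} (hh : ∀ i, u i < h i ∧ h i ≤ v i)
    (hne : tm m M0 z p1 c T n (univ.image h) ≠ 0) : n ≤ wf z ∨ Gd m u v T n := by
  obtain ⟨_, h2, h3, _⟩ := tm_ne hne
  have hinj : Function.Injective h := (win_strictMono hwin hh).injective
  by_cases hnw : n ≤ wf z
  · exact Or.inl hnw
  · right
    refine ⟨h, hh, ?_, ?_⟩
    · refine h2.trans ?_
      rw [Finset.filter_image]
      exact Finset.card_image_le
    · intro a ha1 haT hap
      by_contra hno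
      push Not at hno
      have haI : a ∉ univ.image h := by
        rw [Finset.mem_image]
        rintro ⟨i, _, hi⟩
        exact hno i hi.symm
      by_cases hc : (c + a).Coprime (Wp z p1)
      · refine h3 a ?_ hap
        rw [Finset.mem_sdiff, mem_Jc]
        exact ⟨⟨⟨by omega, haT⟩, hc⟩, haI⟩
      · obtain ⟨r, hr, hr1, hr2⟩ := Nat.Prime.not_coprime_iff_dvd.mp hc
        have h4 := ((dvd_Wp hr).1 hr2).1
        have h5 : r ∣ n + a := by
          have h6 : n + a ≡ c + a [MOD r] := (hn.add_right a).of_dvd hr2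
          exact (h6.dvd_iff dvd_rfl).2 hr1
        have h7 := (Nat.prime_dvd_prime_iff_eq hr hap).1 h5
        omega

theorem T2_point {k m M0 z p1 c T n : ℕ} {u v : Fin k → ℕ} (hn : n ≡ c [MOD Wp z p1])
    (hwin : ∀ i j, i < j → v i ≤ u j) (hT : ∀ i, v i ≤ T) :
    ∑ h ∈ Fintype.piFinset (fun i => Jc c (Wp z p1) (u i) (v i)), tm m M0 z p1 c T n (univ.image h) ≤
      ((k : ℝ) + M0) ^ k * (open scoped Classical in if n ≤ wf z ∨ Gd m u v T n then 1 else 0) := by
  classical
  by_cases hex : ∃ h ∈ Fintype.piFinset (fun i => Jc c (Wp z p1) (u i) (v i)),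
      tm m M0 z p1 c T n (univ.image h) ≠ 0
  · obtain ⟨h0, hh0, hne0⟩ := hex
    have hmem : ∀ h ∈ Fintype.piFinset (fun i => Jc c (Wp z p1) (u i) (v i)),
        (∀ i, u i < h i ∧ h i ≤ v i) ∧ ∀ i, (c + h i).Coprime (Wp z p1) := by
      intro h hh
      rw [Fintype.mem_piFinset] at hh
      exact ⟨fun i => (mem_Jc.1 (hh i)).1, fun i => (mem_Jc.1 (hh i)).2⟩
    rw [if_pos (tm_Gd hn hwin (hmem h0 hh0).1 hne0), mul_one]
    set R := (Jc c (Wp z p1) 0 T).filter fun a => ∀ p ∈ P0 z p1, ¬ p ∣ n + a with hR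
    have hRcard : R.card ≤ k + M0 := by
      have h1 : R ⊆ univ.image h0 ∪
          (Jc c (Wp z p1) 0 T \ univ.image h0).filter fun a => ∀ p ∈ P0 z p1, ¬ p ∣ n + a := by
        intro a ha
        rw [hR, Finset.mem_filter] at ha
        rw [Finset.mem_union, Finset.mem_filter, Finset.mem_sdiff]
        by_cases hi : a ∈ univ.image h0
        · exact Or.inl hi
        · exact Or.inr ⟨⟨ha.1, hi⟩, ha.2⟩
      refine (Finset.card_le_card h1).trans ((Finset.card_union_le _ _).trans ?_)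
      have h2 : (univ.image h0).card ≤ k := by
        refine Finset.card_image_le.trans ?_
        rw [Finset.card_univ, Fintype.card_fin]
      exact Nat.add_le_add h2 (tm_ne hne0).2.2.2
    have h3 : ∑ h ∈ Fintype.piFinset (fun i => Jc c (Wp z p1) (u i) (v i)),
        tm m M0 z p1 c T n (univ.image h) ≤
        ∑ h ∈ Fintype.piFinset (fun i => Jc c (Wp z p1) (u i) (v i)),
          if h ∈ Fintype.piFinset (fun _ : Fin k => R) then (1 : ℝ) else 0 := by
      refine Finset.sum_le_sum fun h hh => ?_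
      by_cases hne : tm m M0 z p1 c T n (univ.image h) = 0
      · rw [hne]
        split_ifs
        · exact zero_le_one
        · exact le_rfl
      · rw [if_pos]
        · exact tm_le_one _ _ _ _ _ _ _ _
        · rw [Fintype.mem_piFinset]
          intro i
          rw [hR, Finset.mem_filter, mem_Jc]
          have h4 := (hmem h hh).1 i
          exact ⟨⟨⟨by omega, h4.2.trans (hT i)⟩, (hmem h hh).2 i⟩,
            (tm_ne hne).1 (h i) (Finset.mem_image_of_mem h (Finset.mem_univ i))⟩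
    refine h3.trans ?_
    rw [Finset.sum_ite, Finset.sum_const_zero, add_zero, Finset.sum_const, nsmul_eq_mul, mul_one]
    have h5 : ((Fintype.piFinset (fun i => Jc c (Wp z p1) (u i) (v i))).filter
        fun h => h ∈ Fintype.piFinset (fun _ : Fin k => R)).card ≤ R.card ^ k := by
      refine (Finset.card_le_card (fun h hh => (Finset.mem_filter.1 hh).2)).trans ?_
      rw [Fintype.card_piFinset, Finset.prod_const, Finset.card_univ, Fintype.card_fin]
    calc _ ≤ ((R.card ^ k : ℕ) : ℝ) := by exact_mod_cast h5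
      _ ≤ (((k + M0) ^ k : ℕ) : ℝ) := by exact_mod_cast Nat.pow_le_pow_left hRcard k
      _ = ((k : ℝ) + M0) ^ k := by push_cast; rfl
  · push Not at hex
    rw [Finset.sum_eq_zero hex]
    refine mul_nonneg (by positivity) ?_
    split_ifs
    · exact zero_le_one
    · exact le_rfl

theorem T2_sum {k m q M0 z p1 c T : ℕ} {Lam kap : ℝ} {u v : Fin k → ℕ} (hkap : 0 ≤ kap)
    (H : ∀ h K : Finset ℕ, h.card = k →
      Disjoint h K → (∀ a ∈ h ∪ K, (a : ℝ) ≤ Real.log z ^ 2 ∧ (c + a).Coprime (Wp z p1)) →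
      K.card * V1p (P0 z p1) ≤ 4 * Lam * q →
      kap * (VP (P0 z p1) h / Wp z p1) ≤
        ∑ n ∈ clsU (q * Real.log z) (Wp z p1) c, omU (q * Real.log z) n *
          (rhoP (P0 z p1) h n * if m ≤ (h.filter fun a => (n + a).Prime).card ∧
            (∀ a ∈ K, ¬ (n + a).Prime) ∧
            (K.filter fun a => ∀ p ∈ P0 z p1, ¬ p ∣ n + a).card ≤ M0 then 1 else 0))
    (hwin : ∀ i j, i < j → v i ≤ u j) (hT : ∀ i, v i ≤ T) (hTz : (T : ℝ) ≤ Real.log z ^ 2)
    (hA : ((Jc c (Wp z p1) 0 T).card : ℝ) * V1p (P0 z p1) ≤ 4 * Lam * q)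
    (hVP : ∀ B : Finset ℕ, B.card ≤ k → V1p (P0 z p1) ^ B.card / 2 ≤ VP (P0 z p1) B) :
    kap * ((∏ i, ((Jc c (Wp z p1) (u i) (v i)).card : ℝ)) * V1p (P0 z p1) ^ k / 2 / Wp z p1) ≤
      ((k : ℝ) + M0) ^ k * ∑ n ∈ clsU (q * Real.log z) (Wp z p1) c, omU (q * Real.log z) n *
        (open scoped Classical in if n ≤ wf z ∨ Gd m u v T n then 1 else 0) := by
  classical
  set PF := Fintype.piFinset (fun i => Jc c (Wp z p1) (u i) (v i)) with hPF
  have hV1 : 0 ≤ V1p (P0 z p1) := (V1p_pos _ fun p hp => (mem_P0.1 hp).2.1).le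
  have hmem : ∀ h ∈ PF, (∀ i, u i < h i ∧ h i ≤ v i) ∧ ∀ i, (c + h i).Coprime (Wp z p1) := by
    intro h hh
    rw [hPF, Fintype.mem_piFinset] at hh
    exact ⟨fun i => (mem_Jc.1 (hh i)).1, fun i => (mem_Jc.1 (hh i)).2⟩
  have h1 : ∀ h ∈ PF, kap * (V1p (P0 z p1) ^ k / 2 / Wp z p1) ≤
      ∑ n ∈ clsU (q * Real.log z) (Wp z p1) c, omU (q * Real.log z) n *
        tm m M0 z p1 c T n (univ.image h) := by
    intro h hh
    have hinj : Function.Injective h := (win_strictMono hwin (hmem h hh).1).injective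
    have hcard : (univ.image h).card = k := by
      rw [Finset.card_image_of_injective _ hinj, Finset.card_univ, Fintype.card_fin]
    have h2 := H (univ.image h) (Jc c (Wp z p1) 0 T \ univ.image h) hcard
      Finset.disjoint_sdiff ?_ ?_
    · refine le_trans ?_ h2
      refine mul_le_mul_of_nonneg_left ?_ hkap
      refine div_le_div_of_nonneg_right ?_ (Nat.cast_nonneg _)
      have h3 := hVP (univ.image h) hcard.le
      rwa [hcard] at h3
    · intro a ha
      have h4 : a ∈ Jc c (Wp z p1) 0 T := by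
        rw [Finset.mem_union] at ha
        rcases ha with ha | ha
        · rw [Finset.mem_image] at ha
          obtain ⟨i, _, rfl⟩ := ha
          rw [mem_Jc]
          have h5 := (hmem h hh).1 i
          exact ⟨⟨by omega, h5.2.trans (hT i)⟩, (hmem h hh).2 i⟩
        · exact (Finset.mem_sdiff.1 ha).1
      rw [mem_Jc] at h4
      refine ⟨?_, h4.2⟩
      have h6 : (a : ℝ) ≤ T := by exact_mod_cast h4.1.2
      exact h6.trans hTz
    · refine le_trans ?_ hA
      refine mul_le_mul_of_nonneg_right ?_ hV1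
      exact_mod_cast Finset.card_le_card Finset.sdiff_subset
  have h7 := Finset.sum_le_sum h1
  rw [Finset.sum_const, nsmul_eq_mul, Finset.sum_comm] at h7
  have h8 : (PF.card : ℝ) = ∏ i, ((Jc c (Wp z p1) (u i) (v i)).card : ℝ) := by
    rw [hPF, Fintype.card_piFinset]
    push_cast
    rfl
  rw [h8] at h7
  have h9 : ∑ n ∈ clsU (q * Real.log z) (Wp z p1) c, ∑ h ∈ PF, omU (q * Real.log z) n *
      tm m M0 z p1 c T n (univ.image h) ≤
      ((k : ℝ) + M0) ^ k * ∑ n ∈ clsU (q * Real.log z) (Wp z p1) c, omU (q * Real.log z) n *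
        (if n ≤ wf z ∨ Gd m u v T n then 1 else 0) := by
    rw [Finset.mul_sum]
    refine Finset.sum_le_sum fun n hn => ?_
    rw [← Finset.mul_sum]
    have h10 : n ≡ c [MOD Wp z p1] := (Finset.mem_filter.1 hn).2
    have h11 := T2_point (m := m) (M0 := M0) (T := T) h10 hwin hT
    calc _ ≤ omU (q * Real.log z) n * (((k : ℝ) + M0) ^ k *
          (if n ≤ wf z ∨ Gd m u v T n then 1 else 0)) :=
          mul_le_mul_of_nonneg_left h11 (omU_nonneg _ _)
      _ = _ := by ring
  refine le_trans (le_of_eq ?_) (h7.trans h9)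
  ring

end Pool.Agent.LibSC93
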