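import Pool.Agent.LibSC93.T2
import Pool.Agent.LibPL63.V2

/-!
LibSC93, file T3: all classes; the Gaussian average of the event.
-/

open Finset Filter

namespace Pool.Agent.LibSC93

open Pool.Agent.LibRG87 Pool.Agent.LibLG5 Pool.Agent.LibPL63

theorem sum_clsU (x : ℝ) {W : ℕ} (hW : 0 < W) (f : ℕ → ℝ) :
    ∑ c ∈ range W, ∑ n ∈ clsU x W c, f n = ∑ n ∈ Icc 1 ⌊Real.exp (2 * x)⌋₊, f n := by
  have h := Finset.sum_fiberwise_of_maps_to (s := Icc 1 ⌊Real.exp (2 * x)⌋₊) (t := range W)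
    (g := fun n => n % W) (fun n _ => Finset.mem_range.2 (Nat.mod_lt n hW)) f
  rw [← h]
  refine Finset.sum_congr rfl fun c hc => Finset.sum_congr ?_ fun _ _ => rfl
  rw [Finset.mem_range] at hc
  ext n
  unfold clsU
  rw [Finset.mem_filter, Finset.mem_filter, Nat.ModEq, Nat.mod_eq_of_lt hc]

/-- the conditions on `z` -/
theorem T3_ev (L δ q U : ℝ) (hL : 1 ≤ L) (hδ : 0 < δ) (hq : 1 ≤ q) (hU : 0 ≤ U) :
    ∀ᶠ z : ℕ in atTop, 4 ≤ z ∧ 1 ≤ Real.log z ∧ L * (q * Real.log z + U) ≤ Real.log z ^ 2 ∧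
      ∀ p1 : ℕ, (Wp z p1 : ℝ) ≤ δ * (q * Real.log z) / 2 ∧ L * U + Wp z p1 ≤ L * (q * Real.log z) := by
  have h1 : ∀ᶠ z : ℕ in atTop, max (max 1 (L * (q + U))) (max (8 / (δ * q) ^ 2) (2 * U + 8)) ≤
      Real.log z :=
    (Real.tendsto_log_atTop.comp tendsto_natCast_atTop_atTop).eventually_ge_atTop _
  filter_upwards [eventually_ge_atTop 4, h1] with z hz hx
  have hx1 : 1 ≤ Real.log z := (le_max_left _ _).trans ((le_max_left _ _).trans hx)
  have hxJ : L * (q + U) ≤ Real.log z := (le_max_right _ _).trans ((le_max_left _ _).trans hx)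
  have hxA : 8 / (δ * q) ^ 2 ≤ Real.log z := (le_max_left _ _).trans ((le_max_right _ _).trans hx)
  have hxU : 2 * U + 8 ≤ Real.log z := (le_max_right _ _).trans ((le_max_right _ _).trans hx)
  set x := Real.log z with hxdef
  have hlog2 : (1 / 2 : ℝ) < Real.log 2 := by
    have := Real.log_two_gt_d9
    linarith
  have hx0 : 0 < x := by linarith
  refine ⟨hz, hx1, ?_, fun p1 => ?_⟩
  · calc L * (q * x + U) ≤ L * (q * x + U * x) := by
          refine mul_le_mul_of_nonneg_left ?_ (by linarith)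
          nlinarith
      _ = L * (q + U) * x := by ring
      _ ≤ x * x := mul_le_mul_of_nonneg_right hxJ hx0.le
      _ = x ^ 2 := by ring
  · have hW2 : (Wp z p1 : ℝ) ^ 2 ≤ 2 * x := by
      refine (Wp_le hz p1).trans ?_
      rw [div_le_iff₀ (by linarith)]
      nlinarith
    have hW0 : (0 : ℝ) ≤ (Wp z p1 : ℝ) := Nat.cast_nonneg _
    have hdq : 0 < δ * q := by positivity
    constructor
    · refine (pow_le_pow_iff_left₀ hW0 (by positivity) two_ne_zero).mp ?_
      refine hW2.trans ?_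
      rw [div_le_iff₀ (by positivity)] at hxA
      have h2 : (δ * (q * x) / 2) ^ 2 = (x * (δ * q) ^ 2) * x / 4 := by ring
      rw [h2]
      have h3 : 8 * x ≤ (x * (δ * q) ^ 2) * x := mul_le_mul_of_nonneg_right hxA hx0.le
      linarith
    · have hWx : (Wp z p1 : ℝ) ≤ x / 2 := by
        refine (pow_le_pow_iff_left₀ hW0 (by positivity) two_ne_zero).mp ?_
        refine hW2.trans ?_
        nlinarith
      have h4 : L * U + Wp z p1 ≤ L * (U + Wp z p1) := by nlinarith
      refine h4.trans (mul_le_mul_of_nonneg_left ?_ (by linarith))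
      nlinarith

theorem T3 (m : ℕ) (hSC : SCg m) : ∃ k : ℕ, 1 ≤ k ∧ ∀ L δ : ℝ, 1 ≤ L → 0 < δ →
    ∃ (q : ℕ) (κ : ℝ), 1 ≤ q ∧ 0 < κ ∧ ∀ U : ℝ, 0 ≤ U → ∀ᶠ z : ℕ in atTop,
    ∀ (u v : Fin k → ℕ) (T : ℕ), (∀ i j, i < j → v i ≤ u j) → (∀ i, v i ≤ T) →
      (∀ i, δ * (q * Real.log z) ≤ (v i : ℝ) - u i) → (T : ℝ) ≤ L * (q * Real.log z + U) →
      κ ≤ ∑ n ∈ Icc 1 ⌊Real.exp (2 * (q * Real.log z))⌋₊, omU (q * Real.log z) n *
        (open scoped Classical in if n ≤ wf z ∨ Gd m u v T n then 1 else 0) := by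
  classical
  obtain ⟨k, hk, hSC⟩ := hSC
  obtain ⟨c0, hc0, hlow⟩ := mert_lower
  refine ⟨k, hk, fun L δ hL hδ => ?_⟩
  obtain ⟨q, M0, kap, hq, hkap, z0, hz0⟩ := hSC L hL
  have hqR : (1 : ℝ) ≤ q := by exact_mod_cast hq
  have hkR : (1 : ℝ) ≤ k := by exact_mod_cast hk
  have hkM : (0 : ℝ) < ((k : ℝ) + M0) ^ k := by positivity
  refine ⟨q, kap * ((δ * q * c0 / 2) ^ k / 2) / ((k : ℝ) + M0) ^ k, hq, by positivity,
    fun U hU => ?_⟩
  filter_upwards [eventually_ge_atTop z0, T3_ev L δ q U hL hδ hqR hU, hlow, mert_upper,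
    VP_ge_pow k] with z hz hev hlo hup hVP u v T hwin hT hlen hTL
  obtain ⟨hz4, hlog, hlz2, hW⟩ := hev
  obtain ⟨p1, hp1, H⟩ := hz0 z hz
  obtain ⟨hW1, hW2⟩ := hW p1
  have hWpos := Wp_pos z p1
  have hWR : (0 : ℝ) < Wp z p1 := by exact_mod_cast hWpos
  have hlogpos : 0 < Real.log z := by linarith
  have hV1 : 0 < V1p (P0 z p1) := V1p_pos _ fun p hp => (mem_P0.1 hp).2.1
  have hphi : 0 ≤ ((Wp z p1).totient : ℝ) / Wp z p1 := by positivity
  -- one class
  have hcls : ∀ c : ℕ, kap * ((δ * q * c0 / 2) ^ k / 2 / Wp z p1) ≤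
      ((k : ℝ) + M0) ^ k * ∑ n ∈ clsU (q * Real.log z) (Wp z p1) c, omU (q * Real.log z) n *
        (if n ≤ wf z ∨ Gd m u v T n then 1 else 0) := by
    intro c
    have h1 := T2_sum (k := k) (m := m) (q := q) (M0 := M0) (z := z) (p1 := p1) (c := c) (T := T)
      (Lam := L) (u := u) (v := v) hkap.le (H c) hwin hT (hTL.trans hlz2) ?_ (hVP p1 hp1)
    · refine le_trans ?_ h1
      refine mul_le_mul_of_nonneg_left ?_ hkap.le
      refine div_le_div_of_nonneg_right (div_le_div_of_nonneg_right ?_ (by norm_num)) hWR.le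
      have h2 : ∀ i, δ * (q * Real.log z) / 2 * (((Wp z p1).totient : ℝ) / Wp z p1) ≤
          ((Jc c (Wp z p1) (u i) (v i)).card : ℝ) := by
        intro i
        refine le_trans ?_ (Jc_lower (c := c) (u := u i) (v := v i) hWpos)
        refine mul_le_mul_of_nonneg_right ?_ hphi
        have := hlen i
        linarith
      have h3 : (δ * (q * Real.log z) / 2 * (((Wp z p1).totient : ℝ) / Wp z p1)) ^ k ≤
          ∏ i, ((Jc c (Wp z p1) (u i) (v i)).card : ℝ) := by
        have h4 := Finset.prod_le_prod (s := (univ : Finset (Fin k)))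
          (f := fun _ => δ * (q * Real.log z) / 2 * (((Wp z p1).totient : ℝ) / Wp z p1))
          (g := fun i => ((Jc c (Wp z p1) (u i) (v i)).card : ℝ))
          (fun i _ => by positivity) (fun i _ => h2 i)
        rwa [Finset.prod_const, Finset.card_univ, Fintype.card_fin] at h4
      have h5 : (δ * q * c0 / 2) ^ k ≤
          (δ * (q * Real.log z) / 2 * (((Wp z p1).totient : ℝ) / Wp z p1) * V1p (P0 z p1)) ^ k := by
        refine pow_le_pow_left₀ (by positivity) ?_ k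
        have h6 := hlo p1 hp1
        rw [div_le_iff₀ hlogpos] at h6
        calc δ * q * c0 / 2 = δ * q / 2 * c0 := by ring
          _ ≤ δ * q / 2 * (((Wp z p1).totient : ℝ) / (Wp z p1 : ℝ) * V1p (P0 z p1) * Real.log z) :=
              mul_le_mul_of_nonneg_left h6 (by positivity)
          _ = _ := by ring
      refine h5.trans ?_
      rw [mul_pow]
      exact mul_le_mul_of_nonneg_right h3 (by positivity)
    · calc ((Jc c (Wp z p1) 0 T).card : ℝ) * V1p (P0 z p1) ≤
          ((T : ℝ) + Wp z p1) * (((Wp z p1).totient : ℝ) / Wp z p1) * V1p (P0 z p1) :=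
            mul_le_mul_of_nonneg_right (Jc_upper hWpos) hV1.le
        _ = ((T : ℝ) + Wp z p1) * (((Wp z p1).totient : ℝ) / Wp z p1 * V1p (P0 z p1)) := by ring
        _ ≤ ((T : ℝ) + Wp z p1) * (2 / Real.log z) :=
            mul_le_mul_of_nonneg_left (hup p1 hp1) (by positivity)
        _ ≤ (2 * L * (q * Real.log z)) * (2 / Real.log z) := by
            refine mul_le_mul_of_nonneg_right ?_ (by positivity)
            linarith
        _ = 4 * L * q := by
            field_simp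
            ring
  have h7 := Finset.sum_le_sum fun c (_ : c ∈ range (Wp z p1)) => hcls c
  rw [Finset.sum_const, Finset.card_range, nsmul_eq_mul, ← Finset.mul_sum,
    sum_clsU _ hWpos] at h7
  rw [div_le_iff₀ hkM, mul_comm (∑ n ∈ Icc 1 _, _)]
  refine le_trans (le_of_eq ?_) h7
  field_simp

end Pool.Agent.LibSC93
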