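import Pool.Agent.LibSC93.T3
import Pool.Agent.LibPL63.SA4

/-!
LibSC93, file T4: the tails of the Gaussian weight.
-/

open Finset Filter

namespace Pool.Agent.LibSC93

open Pool.Agent.LibRG87 Pool.Agent.LibLG5 Pool.Agent.LibPL63 Pool.Agent.LibMaier

theorem gw_mul_exp2 (v : ℝ) : gw v * Real.exp (2 * v) ≤ 4 := by
  unfold gw
  have hpi := Real.pi_gt_three
  have h2 : (2 : ℝ) ≤ Real.sqrt (2 * Real.pi) := by
    apply Real.le_sqrt_of_sq_le
    linarith
  have h1 : Real.exp (-v ^ 2 / 2) * Real.exp (2 * v) ≤ 8 := by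
    rw [← Real.exp_add]
    have h3 : -v ^ 2 / 2 + 2 * v ≤ 2 := by nlinarith [sq_nonneg (v - 2)]
    refine (Real.exp_le_exp.2 h3).trans ?_
    have h4 := Real.exp_one_lt_d9
    have h5 : Real.exp 2 = Real.exp 1 * Real.exp 1 := by
      rw [← Real.exp_add]
      norm_num
    have h6 := Real.exp_pos 1
    rw [h5]
    nlinarith
  have h3 : 0 < Real.sqrt (2 * Real.pi) := by linarith
  rw [div_mul_eq_mul_div, div_le_iff₀ h3]
  linarith

theorem omU_le (x : ℝ) {n : ℕ} (hn : 1 ≤ n) : omU x n ≤ Real.exp (-x) := by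
  have h0 : (0 : ℝ) < n := by exact_mod_cast hn
  exact fw_le x h0

theorem omU_le_cube (x : ℝ) {n : ℕ} (hn : 1 ≤ n) :
    omU x n ≤ 4 * Real.exp (2 * x) * ((n : ℝ) ^ 3)⁻¹ := by
  have h0 : (0 : ℝ) < n := by exact_mod_cast hn
  have h1 := gw_mul_exp2 (Real.log n - x)
  have h2 : Real.exp (2 * (Real.log n - x)) = (n : ℝ) ^ 2 * (Real.exp (2 * x))⁻¹ := by
    rw [mul_sub, Real.exp_sub, two_mul (Real.log n), Real.exp_add, Real.exp_log h0]
    ring
  rw [h2] at h1
  have h3 := Real.exp_pos (2 * x)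
  unfold omU
  rw [div_le_iff₀ h0]
  have h4 : gw (Real.log n - x) * (n : ℝ) ^ 2 ≤ 4 * Real.exp (2 * x) := by
    have h5 : gw (Real.log n - x) * ((n : ℝ) ^ 2 * (Real.exp (2 * x))⁻¹) * Real.exp (2 * x) =
        gw (Real.log n - x) * (n : ℝ) ^ 2 := by
      field_simp
    rw [← h5]
    exact mul_le_mul_of_nonneg_right h1 h3.le
  have h6 : 4 * Real.exp (2 * x) * ((n : ℝ) ^ 3)⁻¹ * n = 4 * Real.exp (2 * x) / (n : ℝ) ^ 2 := by
    field_simp
  rw [h6, le_div_iff₀ (by positivity)]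
  exact h4

theorem T4_low (x U : ℝ) (N : ℕ) :
    ∑ n ∈ Icc 1 N, (if (n : ℝ) ≤ Real.exp (x - U) then Real.exp (-x) else 0) ≤ Real.exp (-U) := by
  rw [← Finset.sum_filter, Finset.sum_const, nsmul_eq_mul]
  have h1 : (Icc 1 N).filter (fun n : ℕ => (n : ℝ) ≤ Real.exp (x - U)) ⊆
      Icc 1 ⌊Real.exp (x - U)⌋₊ := by
    intro n hn
    rw [Finset.mem_filter, Finset.mem_Icc] at hn
    rw [Finset.mem_Icc]
    exact ⟨hn.1.1, Nat.le_floor hn.2⟩
  have h2 : (((Icc 1 N).filter (fun n : ℕ => (n : ℝ) ≤ Real.exp (x - U))).card : ℝ) ≤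
      Real.exp (x - U) := by
    have h3 := Finset.card_le_card h1
    rw [Nat.card_Icc, Nat.add_sub_cancel] at h3
    have h4 : (((Icc 1 N).filter (fun n : ℕ => (n : ℝ) ≤ Real.exp (x - U))).card : ℝ) ≤
        (⌊Real.exp (x - U)⌋₊ : ℝ) := by exact_mod_cast h3
    exact h4.trans (Nat.floor_le (Real.exp_pos _).le)
  calc _ ≤ Real.exp (x - U) * Real.exp (-x) :=
        mul_le_mul_of_nonneg_right h2 (Real.exp_pos _).le
    _ = Real.exp (-U) := by
        rw [← Real.exp_add]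
        congr 1
        ring

theorem T4_high (x U : ℝ) (hxU : 0 ≤ x + U) (N : ℕ) :
    ∑ n ∈ Icc 1 N, (if ⌊Real.exp (x + U)⌋₊ < n then omU x n else 0) ≤ 16 * Real.exp (-(2 * U)) := by
  set y := Real.exp (x + U) with hy
  have hy1 : 1 ≤ y := Real.one_le_exp hxU
  have hN0 : 1 ≤ ⌊y⌋₊ := Nat.le_floor (by exact_mod_cast hy1)
  have hN0R : (1 : ℝ) ≤ (⌊y⌋₊ : ℝ) := by exact_mod_cast hN0
  have hN2 : y / 2 ≤ (⌊y⌋₊ : ℝ) := by
    have := Nat.lt_floor_add_one y
    linarith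
  rcases le_or_gt ⌊y⌋₊ N with hN | hN
  · rw [← Finset.sum_filter]
    have h1 : (Icc 1 N).filter (fun n => ⌊y⌋₊ < n) = Ioc ⌊y⌋₊ N := by
      ext n
      rw [Finset.mem_filter, Finset.mem_Icc, Finset.mem_Ioc]
      constructor
      · rintro ⟨⟨_, h3⟩, h4⟩
        exact ⟨h4, h3⟩
      · rintro ⟨h3, h4⟩
        exact ⟨⟨by omega, h4⟩, h3⟩
    rw [h1]
    have h2 : ∀ n ∈ Ioc ⌊y⌋₊ N, omU x n ≤
        4 * Real.exp (2 * x) * (⌊y⌋₊ : ℝ)⁻¹ * (((n : ℝ) ^ 2)⁻¹) := by
      intro n hn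
      rw [Finset.mem_Ioc] at hn
      refine (omU_le_cube x (by omega)).trans ?_
      have h3 : (⌊y⌋₊ : ℝ) ≤ n := by exact_mod_cast hn.1.le
      have h4 : (0 : ℝ) < n := by linarith
      have h5 : ((n : ℝ) ^ 3)⁻¹ = (n : ℝ)⁻¹ * ((n : ℝ) ^ 2)⁻¹ := by
        field_simp
      rw [h5, ← mul_assoc]
      refine mul_le_mul_of_nonneg_right ?_ (by positivity)
      refine mul_le_mul_of_nonneg_left ?_ (by positivity)
      exact inv_anti₀ (by linarith) h3
    refine (Finset.sum_le_sum h2).trans ?_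
    rw [← Finset.mul_sum]
    have h6 := sum_Ioc_inv_sq_le_sub (α := ℝ) (by omega : ⌊y⌋₊ ≠ 0) hN
    have h7 : ∑ i ∈ Ioc ⌊y⌋₊ N, ((i : ℝ) ^ 2)⁻¹ ≤ (⌊y⌋₊ : ℝ)⁻¹ := by
      refine h6.trans ?_
      have : (0 : ℝ) ≤ (N : ℝ)⁻¹ := by positivity
      linarith
    have h8 : (⌊y⌋₊ : ℝ)⁻¹ ≤ 2 / y := by
      rw [inv_eq_one_div, div_le_div_iff₀ (by linarith) (by linarith)]
      linarith
    calc 4 * Real.exp (2 * x) * (⌊y⌋₊ : ℝ)⁻¹ * ∑ i ∈ Ioc ⌊y⌋₊ N, ((i : ℝ) ^ 2)⁻¹ ≤
          4 * Real.exp (2 * x) * (2 / y) * (2 / y) := by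
          refine mul_le_mul ?_ (h7.trans h8) (Finset.sum_nonneg fun _ _ => by positivity)
            (by positivity)
          exact mul_le_mul_of_nonneg_left h8 (by positivity)
      _ = 16 * (Real.exp (2 * x) / y ^ 2) := by ring
      _ = 16 * Real.exp (-(2 * U)) := by
          rw [hy, ← Real.exp_nat_mul, ← Real.exp_sub]
          congr 2
          push_cast
          ring
  · have h1 : ∑ n ∈ Icc 1 N, (if ⌊y⌋₊ < n then omU x n else 0) = 0 := by
      refine Finset.sum_eq_zero fun n hn => ?_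
      rw [Finset.mem_Icc] at hn
      rw [if_neg (by omega)]
    rw [h1]
    positivity

theorem T4 (x U : ℝ) (hxU : 0 ≤ x + U) (hU : 0 ≤ U) (N : ℕ) (P : ℕ → Prop) [DecidablePred P] :
    ∑ n ∈ Icc 1 N, omU x n * (if P n then 1 else 0) ≤ 17 * Real.exp (-U) + Real.exp (-x) *
      (((Icc 1 ⌊Real.exp (x + U)⌋₊).filter fun n : ℕ => Real.exp (x - U) < n ∧ P n).card : ℝ) := by
  have h1 : ∀ n ∈ Icc 1 N, omU x n * (if P n then 1 else 0) ≤
      (if (n : ℝ) ≤ Real.exp (x - U) then Real.exp (-x) else 0) +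
      (if ⌊Real.exp (x + U)⌋₊ < n then omU x n else 0) +
      (if n ∈ (Icc 1 ⌊Real.exp (x + U)⌋₊).filter (fun n : ℕ => Real.exp (x - U) < n ∧ P n) then
        Real.exp (-x) else 0) := by
    intro n hn
    rw [Finset.mem_Icc] at hn
    have h2 := omU_le x hn.1
    have h3 := omU_nonneg x n
    have h4 := Real.exp_pos (-x)
    by_cases hP : P n
    · rw [if_pos hP, mul_one]
      by_cases ha : (n : ℝ) ≤ Real.exp (x - U)
      · rw [if_pos ha]
        have h5 : 0 ≤ (if ⌊Real.exp (x + U)⌋₊ < n then omU x n else 0) := by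
          split_ifs
          · exact h3
          · exact le_rfl
        have h6 : 0 ≤ (if n ∈ (Icc 1 ⌊Real.exp (x + U)⌋₊).filter
            (fun n : ℕ => Real.exp (x - U) < n ∧ P n) then Real.exp (-x) else 0) := by
          split_ifs
          · exact h4.le
          · exact le_rfl
        linarith
      · rw [if_neg ha, zero_add]
        by_cases hb : ⌊Real.exp (x + U)⌋₊ < n
        · rw [if_pos hb]
          have h6 : 0 ≤ (if n ∈ (Icc 1 ⌊Real.exp (x + U)⌋₊).filter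
              (fun n : ℕ => Real.exp (x - U) < n ∧ P n) then Real.exp (-x) else 0) := by
            split_ifs
            · exact h4.le
            · exact le_rfl
          linarith
        · rw [if_neg hb, zero_add, if_pos]
          · exact h2
          · rw [Finset.mem_filter, Finset.mem_Icc]
            exact ⟨⟨hn.1, not_lt.1 hb⟩, not_le.1 ha, hP⟩
    · rw [if_neg hP, mul_zero]
      have h5 : 0 ≤ (if (n : ℝ) ≤ Real.exp (x - U) then Real.exp (-x) else 0) := by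
        split_ifs
        · exact h4.le
        · exact le_rfl
      have h6 : 0 ≤ (if ⌊Real.exp (x + U)⌋₊ < n then omU x n else 0) := by
        split_ifs
        · exact h3
        · exact le_rfl
      have h7 : 0 ≤ (if n ∈ (Icc 1 ⌊Real.exp (x + U)⌋₊).filter
          (fun n : ℕ => Real.exp (x - U) < n ∧ P n) then Real.exp (-x) else 0) := by
        split_ifs
        · exact h4.le
        · exact le_rfl
      linarith
  refine (Finset.sum_le_sum h1).trans ?_
  rw [Finset.sum_add_distrib, Finset.sum_add_distrib]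
  have h8 := T4_low x U N
  have h9 := T4_high x U hxU N
  have h10 : Real.exp (-(2 * U)) ≤ Real.exp (-U) := Real.exp_le_exp.2 (by linarith)
  have h11 : ∑ n ∈ Icc 1 N, (if n ∈ (Icc 1 ⌊Real.exp (x + U)⌋₊).filter
      (fun n : ℕ => Real.exp (x - U) < n ∧ P n) then Real.exp (-x) else 0) ≤ Real.exp (-x) *
      (((Icc 1 ⌊Real.exp (x + U)⌋₊).filter fun n : ℕ => Real.exp (x - U) < n ∧ P n).card : ℝ) := by
    rw [← Finset.sum_filter, Finset.sum_const, nsmul_eq_mul, mul_comm]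
    refine mul_le_mul_of_nonneg_left ?_ (Real.exp_pos _).le
    exact_mod_cast Finset.card_le_card fun n hn => (Finset.mem_filter.1 hn).2
  linarith

end Pool.Agent.LibSC93
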