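import Pool.Agent.LibSC93.T4

/-!
LibSC93, file T5: from the Gaussian average to counting.
-/

open Finset Filter

namespace Pool.Agent.LibSC93

open Pool.Agent.LibRG87 Pool.Agent.LibLG5 Pool.Agent.LibPL63

theorem wf_small (U : ℝ) : ∀ᶠ z : ℕ in atTop, (wf z : ℝ) ≤ z * Real.exp (-U) := by
  have h1 : ∀ᶠ y : ℝ in atTop, ‖Real.log y‖ ≤ (Real.exp (-U) / 2) * ‖y‖ :=
    Real.isLittleO_log_id_atTop.def (by positivity)
  filter_upwards [tendsto_natCast_atTop_atTop.eventually h1, eventually_ge_atTop 1] with z hz hz1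
  have hzR : (1 : ℝ) ≤ z := by exact_mod_cast hz1
  rw [Real.norm_of_nonneg (Real.log_nonneg hzR), Real.norm_of_nonneg (by linarith)] at hz
  have hlog2 : (1 / 2 : ℝ) < Real.log 2 := by
    have := Real.log_two_gt_d9
    linarith
  have h2 : (wf z : ℝ) ≤ (Nat.log 2 z : ℝ) := by
    have : wf z ≤ Nat.log 2 z := (Nat.div_le_self _ _).trans (Nat.log_le_self _ _)
    exact_mod_cast this
  have h3 : (Nat.log 2 z : ℝ) ≤ 2 * Real.log z := by
    have h4 := Real.natLog_le_logb z 2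
    rw [Real.logb] at h4
    refine h4.trans ?_
    push_cast
    rw [div_le_iff₀ (by linarith)]
    have h5 := Real.log_nonneg hzR
    nlinarith
  linarith

theorem T5 (m : ℕ) (hSC : SCg m) : ∃ k : ℕ, 1 ≤ k ∧ ∀ L δ : ℝ, 1 ≤ L → 0 < δ →
    ∃ U c : ℝ, 0 ≤ U ∧ 0 < c ∧ ∀ B : ℝ, ∀ᶠ X : ℕ in atTop, ∃ x : ℝ, B ≤ x ∧
      ∀ (u v : Fin k → ℕ) (T : ℕ), (∀ i j, i < j → v i ≤ u j) → (∀ i, v i ≤ T) →
      (∀ i, δ * x ≤ (v i : ℝ) - u i) → (T : ℝ) ≤ L * (x + U) →
      c * X ≤ (open scoped Classical in ((Icc 1 X).filter fun n : ℕ =>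
        Real.exp (x - U) < n ∧ (n : ℝ) ≤ Real.exp (x + U) ∧ Gd m u v T n).card : ℝ) := by
  classical
  obtain ⟨k, hk, h3⟩ := T3 m hSC
  refine ⟨k, hk, fun L δ hL hδ => ?_⟩
  obtain ⟨q, κ, hq, hκ, hT3⟩ := h3 L δ hL hδ
  set U := max 0 (Real.log (34 / κ)) with hU
  have hU0 : 0 ≤ U := le_max_left _ _
  have hUκ : 17 * Real.exp (-U) ≤ κ / 2 := by
    have h1 : Real.log (34 / κ) ≤ U := le_max_right _ _
    have h2 : Real.exp (-U) ≤ κ / 34 := by
      calc Real.exp (-U) ≤ Real.exp (-Real.log (34 / κ)) := Real.exp_le_exp.2 (by linarith)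
        _ = κ / 34 := by
            rw [Real.exp_neg, Real.exp_log (by positivity), inv_div]
    linarith
  refine ⟨U, κ / 2 * (Real.exp (-U) / 2 ^ q), hU0, by positivity, fun B => ?_⟩
  have hq0 : q ≠ 0 := by omega
  have hqR : (1 : ℝ) ≤ q := by exact_mod_cast hq
  have hqpos : (0 : ℝ) < q := by linarith
  -- the choice of z
  have htend : Tendsto (fun X : ℕ => ⌊((X : ℝ) * Real.exp (-U)) ^ ((q : ℝ)⁻¹)⌋₊) atTop atTop := by
    refine tendsto_nat_floor_atTop.comp ?_
    refine (tendsto_rpow_atTop (by positivity)).comp ?_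
    exact tendsto_natCast_atTop_atTop.atTop_mul_const (Real.exp_pos _)
  have hlogB : ∀ᶠ z : ℕ in atTop, max B 1 ≤ Real.log z :=
    (Real.tendsto_log_atTop.comp tendsto_natCast_atTop_atTop).eventually_ge_atTop _
  have hall := ((hT3 U hU0).and hlogB).and ((wf_small U).and (eventually_ge_atTop 2))
  filter_upwards [htend.eventually hall, eventually_ge_atTop 1] with X hX hX1
  obtain ⟨⟨hz3, hzlog⟩, hzwf, hz2⟩ := hX
  set y := ((X : ℝ) * Real.exp (-U)) ^ ((q : ℝ)⁻¹) with hy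
  set z := ⌊y⌋₊ with hz
  have hX0 : (0 : ℝ) < X := by exact_mod_cast hX1
  have hXe : (0 : ℝ) < X * Real.exp (-U) := by positivity
  have hy0 : 0 ≤ y := Real.rpow_nonneg hXe.le _
  have hyq : y ^ q = X * Real.exp (-U) := Real.rpow_inv_natCast_pow hXe.le hq0
  have hzy : (z : ℝ) ≤ y := Nat.floor_le hy0
  have hz2R : (2 : ℝ) ≤ z := by exact_mod_cast hz2
  have hyz : y / 2 ≤ z := by
    have := Nat.lt_floor_add_one y
    rw [← hz] at this
    linarith
  have hzpos : (0 : ℝ) < z := by linarith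
  have hlogz : 1 ≤ Real.log z := (le_max_right _ _).trans hzlog
  have hx : Real.exp (q * Real.log z) = (z : ℝ) ^ q := by
    rw [Real.exp_nat_mul, Real.exp_log hzpos]
  have hzq_le : (z : ℝ) ^ q ≤ X * Real.exp (-U) := by
    rw [← hyq]
    exact pow_le_pow_left₀ hzpos.le hzy q
  have hzq_ge : X * Real.exp (-U) / 2 ^ q ≤ (z : ℝ) ^ q := by
    rw [← hyq, ← div_pow]
    exact pow_le_pow_left₀ (by positivity) hyz q
  have hxX : Real.exp (q * Real.log z + U) ≤ X := by
    rw [Real.exp_add, hx]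
    calc (z : ℝ) ^ q * Real.exp U ≤ X * Real.exp (-U) * Real.exp U :=
          mul_le_mul_of_nonneg_right hzq_le (Real.exp_pos _).le
      _ = X := by
          rw [mul_assoc, ← Real.exp_add, neg_add_cancel, Real.exp_zero, mul_one]
  refine ⟨q * Real.log z, ?_, ?_⟩
  · have h1 : B ≤ Real.log z := (le_max_left _ _).trans hzlog
    nlinarith
  · intro u v T hwin hT hlen hTL
    have h4 := hz3 u v T hwin hT hlen hTL
    have h5 := T4 (q * Real.log z) U (by positivity) hU0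
      ⌊Real.exp (2 * (q * Real.log z))⌋₊ (fun n => n ≤ wf z ∨ Gd m u v T n)
    have h6 := h4.trans h5
    set C := (((Icc 1 ⌊Real.exp (q * Real.log z + U)⌋₊).filter fun n : ℕ =>
      Real.exp (q * Real.log z - U) < n ∧ (n ≤ wf z ∨ Gd m u v T n)).card : ℝ) with hC
    have h7 : κ / 2 ≤ Real.exp (-(q * Real.log z)) * C := by linarith
    have h8 : κ / 2 * (z : ℝ) ^ q ≤ C := by
      rw [Real.exp_neg, hx] at h7
      have h9 : (0 : ℝ) < (z : ℝ) ^ q := by positivity
      calc κ / 2 * (z : ℝ) ^ q ≤ ((z : ℝ) ^ q)⁻¹ * C * (z : ℝ) ^ q :=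
            mul_le_mul_of_nonneg_right h7 h9.le
        _ = C := by
            field_simp
    have h10 : C ≤ (((Icc 1 X).filter fun n : ℕ => Real.exp (q * Real.log z - U) < n ∧
        (n : ℝ) ≤ Real.exp (q * Real.log z + U) ∧ Gd m u v T n).card : ℝ) := by
      rw [hC]
      refine Nat.cast_le.2 (Finset.card_le_card ?_)
      intro n hn
      rw [Finset.mem_filter, Finset.mem_Icc] at hn
      rw [Finset.mem_filter, Finset.mem_Icc]
      obtain ⟨⟨hn1, hn2⟩, hn3, hn4⟩ := hn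
      have hn5 : (n : ℝ) ≤ Real.exp (q * Real.log z + U) := by
        have h11 : (n : ℝ) ≤ (⌊Real.exp (q * Real.log z + U)⌋₊ : ℝ) := by exact_mod_cast hn2
        exact h11.trans (Nat.floor_le (Real.exp_pos _).le)
      have hn6 : (n : ℝ) ≤ X := hn5.trans hxX
      refine ⟨⟨hn1, by exact_mod_cast hn6⟩, hn3, hn5, ?_⟩
      rcases hn4 with hn4 | hn4
      · exfalso
        have h12 : (n : ℝ) ≤ wf z := by exact_mod_cast hn4
        have h13 : (z : ℝ) * Real.exp (-U) ≤ Real.exp (q * Real.log z - U) := by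
          rw [sub_eq_add_neg, Real.exp_add, hx]
          refine mul_le_mul_of_nonneg_right ?_ (Real.exp_pos _).le
          exact le_self_pow₀ (by linarith) hq0
        linarith
      · exact hn4
    refine le_trans ?_ h10
    refine le_trans ?_ h8
    calc κ / 2 * (Real.exp (-U) / 2 ^ q) * X = κ / 2 * (X * Real.exp (-U) / 2 ^ q) := by ring
      _ ≤ κ / 2 * (z : ℝ) ^ q := mul_le_mul_of_nonneg_left hzq_ge (by positivity)

end Pool.Agent.LibSC93
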